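import Pool.Agent.Lib.MP_1a91b9_ntV.Base7

/-!
# The field `ℚ(√-7)`: the finite part of the Hecke characters

`sg2 u = (-1)^u`. `lA i j`, `lB i j` the local characters at `a`, `ab` (`i`: exponent of `(-1/·)`, `j`: exponent
of `(-2/·)`; the character `1` if `i = j = 0`). `ph d0 d1 d2 S`: the finite part of the Hecke character of the curve
`y² = x (x + D) (x + ab⁴ D)`, `D = (-1)^d0 a^d1 ab^d2 DD S`.
-/

set_option autoImplicit false
set_option linter.unusedSectionVars false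

namespace Pool.Agent.Lib.MP_1a91b9_ntV

open NumberField Pool.Agent.Lib.MP_1a91b9_nuT Pool.Agent.Lib.MP_1a91b9_ntQ

noncomputable section

/-- `(-1)^u` -/
def sg2 (u : ZMod 2) : ℤ := if u = 0 then 1 else -1

theorem sg2_zero : sg2 0 = 1 := rfl

theorem sg2_one : sg2 1 = -1 := rfl

theorem sg2_add (u w : ZMod 2) : sg2 (u + w) = sg2 u * sg2 w := by
  revert u w
  decide

theorem sg2_sq (u : ZMod 2) : sg2 u * sg2 u = 1 := by
  revert u
  decide

theorem sg2_ne (u : ZMod 2) : sg2 u ≠ 0 := by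
  revert u
  decide

theorem sg2_or (u : ZMod 2) : sg2 u = 1 ∨ sg2 u = -1 := by
  revert u
  decide

theorem sg2_sum {ι : Type*} (S : Finset ι) (f : ι → ZMod 2) :
    sg2 (∑ q ∈ S, f q) = ∏ q ∈ S, sg2 (f q) := by
  classical
  induction S using Finset.induction_on with
  | empty => rfl
  | insert a S ha ih => rw [Finset.sum_insert ha, Finset.prod_insert ha, sg2_add, ih]

/-- the local character at a place over `2`, in terms of the residue modulo `8` -/
def lc (i j : ZMod 2) (u : ZMod 8) : ℤ :=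
  if i = 0 ∧ j = 0 then 1 else if 4 * u = 0 then 0 else sg2 (i * bE u + j * (bE u + bF u))

theorem lc_zero (u : ZMod 8) : lc 0 0 u = 1 := rfl

theorem lc_mul (i j : ZMod 2) (u w : ZMod 8) : lc i j (u * w) = lc i j u * lc i j w := by
  revert i j u w
  decide

theorem lc_one (i j : ZMod 2) : lc i j 1 = 1 := by
  revert i j
  decide

theorem lc_unit (i j : ZMod 2) {u : ZMod 8} (h : 4 * u = 4) :
    lc i j u = sg2 (i * bE u + j * (bE u + bF u)) := by
  revert i j u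
  decide

theorem lc_add (i j k l : ZMod 2) {u : ZMod 8} (h : 4 * u = 4) :
    lc (i + k) (j + l) u = lc i j u * lc k l u := by
  revert i j k l u
  decide

theorem lc_neg (i j : ZMod 2) : lc i j (-1) = sg2 (i + j) := by
  revert i j
  decide

theorem lc_per2 (i : ZMod 2) {u w : ZMod 8} (h : 2 * (u - w) = 0) : lc i 0 u = lc i 0 w := by
  revert i u w
  decide

variable [CD] [hv : V7]

/-- the local character at `a` -/
def lA (i j : ZMod 2) (x : 𝓞 K) : ℤ := lc i j (ra x)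

/-- the local character at `ab` -/
def lB (i j : ZMod 2) (x : 𝓞 K) : ℤ := lc i j (rb x)

theorem lA_mul (i j : ZMod 2) (x y : 𝓞 K) : lA i j (x * y) = lA i j x * lA i j y := by
  rw [lA, lA, lA, map_mul, lc_mul]

theorem lB_mul (i j : ZMod 2) (x y : 𝓞 K) : lB i j (x * y) = lB i j x * lB i j y := by
  rw [lB, lB, lB, map_mul, lc_mul]

theorem lA_one (i j : ZMod 2) : lA i j (1 : 𝓞 K) = 1 := by rw [lA, map_one, lc_one]

theorem lB_one (i j : ZMod 2) : lB i j (1 : 𝓞 K) = 1 := by rw [lB, map_one, lc_one]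

/-- the exponent of the conductor at a place over `2` -/
def ce (i j : ZMod 2) : ℕ := if j = 1 then 3 else if i = 1 then 2 else 0

theorem ce_zero : ce 0 0 = 0 := rfl

theorem lA_per (i j : ZMod 2) {x y : 𝓞 K} (h : ta ^ ce i j ∣ x - y) : lA i j x = lA i j y := by
  have hi : ∀ i : ZMod 2, i = 0 ∨ i = 1 := by decide
  rcases hi j with rfl | rfl
  · rcases hi i with rfl | rfl
    · rfl
    · have h1 : ta ^ 2 ∣ x - y := h
      rw [ta2_dvd, map_sub] at h1
      exact lc_per2 _ h1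
  · have h1 : ta ^ 3 ∣ x - y := h
    rw [ta3_dvd, map_sub, sub_eq_zero] at h1
    rw [lA, lA, h1]

theorem lB_per (i j : ZMod 2) {x y : 𝓞 K} (h : tb ^ ce i j ∣ x - y) : lB i j x = lB i j y := by
  have hi : ∀ i : ZMod 2, i = 0 ∨ i = 1 := by decide
  rcases hi j with rfl | rfl
  · rcases hi i with rfl | rfl
    · rfl
    · have h1 : tb ^ 2 ∣ x - y := h
      rw [tb2_dvd, map_sub] at h1
      exact lc_per2 _ h1
  · have h1 : tb ^ 3 ∣ x - y := h
    rw [tb3_dvd, map_sub, sub_eq_zero] at h1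
    rw [lB, lB, h1]

/-- the sum of the bits `aa` -/
def AA (S : Finset Pg7) : ZMod 2 := ∑ q ∈ S, aa q

/-- the sum of the bits `b1` -/
def B1 (S : Finset Pg7) : ZMod 2 := ∑ q ∈ S, b1 q

/-- the sum of the bits `b2` -/
def B2 (S : Finset Pg7) : ZMod 2 := ∑ q ∈ S, b2 q

/-- the product of the symbols of the primes of a set -/
def chS (S : Finset Pg7) (x : 𝓞 K) : ℤ := ∏ q ∈ S, ch q x

/-- the finite part of the Hecke character -/
def ph (d0 d1 d2 : ZMod 2) (S : Finset Pg7) (x : 𝓞 K) : ℤ :=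
  lA (1 + d0 + d2) d1 x * lB (d0 + d1 + AA S) d2 x * chS S x

/-- the conductor -/
def cf (d0 d1 d2 : ZMod 2) (S : Finset Pg7) : 𝓞 K :=
  ta ^ ce (1 + d0 + d2) d1 * tb ^ ce (d0 + d1 + AA S) d2 * DD S

theorem chS_mul (S : Finset Pg7) (x y : 𝓞 K) : chS S (x * y) = chS S x * chS S y := by
  rw [chS, chS, chS, ← Finset.prod_mul_distrib]
  exact Finset.prod_congr rfl fun q _ => ch_mul q x y

theorem chS_one (S : Finset Pg7) : chS S 1 = 1 := by
  rw [chS]
  exact Finset.prod_eq_one fun q _ => ch_one q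

theorem chS_empty (x : 𝓞 K) : chS ∅ x = 1 := by rw [chS, Finset.prod_empty]

theorem chS_insert {S : Finset Pg7} {q : Pg7} (h : q ∉ S) (x : 𝓞 K) :
    chS (insert q S) x = ch q x * chS S x := by rw [chS, chS, Finset.prod_insert h]

theorem chS_per (S : Finset Pg7) {x y : 𝓞 K} (h : DD S ∣ x - y) : chS S x = chS S y := by
  rw [chS, chS]
  exact Finset.prod_congr rfl fun q hq => ch_per q ((Finset.dvd_prod_of_mem _ hq).trans h)

theorem chS_zero {S : Finset Pg7} {x : 𝓞 K} {q : Pg7} (hq : q ∈ S) (h : q.1 ∣ x) : chS S x = 0 :=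
  Finset.prod_eq_zero hq (ch_zero h)

theorem not_dvd_of_cop {q : Pg7} {x : 𝓞 K} (h : IsCoprime x q.1) : ¬ q.1 ∣ x := by
  intro h1
  exact q.prime.not_isUnit (h.isUnit_of_dvd' h1 dvd_rfl)

theorem cop_iff {q : Pg7} {x : 𝓞 K} : IsCoprime x q.1 ↔ ¬ q.1 ∣ x := by
  refine ⟨not_dvd_of_cop, fun h => ?_⟩
  exact (q.prime.irreducible.coprime_iff_not_dvd.2 h).symm

theorem cop_DD_iff {S : Finset Pg7} {x : 𝓞 K} : IsCoprime x (DD S) ↔ ∀ q ∈ S, ¬ q.1 ∣ x := by
  rw [DD, IsCoprime.prod_right_iff]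
  exact forall₂_congr fun q _ => cop_iff

theorem cop_ta_iff {x : 𝓞 K} : IsCoprime x ta ↔ ¬ ta ∣ x := by
  rw [isCoprime_comm]
  exact ta_prime.irreducible.coprime_iff_not_dvd

theorem cop_tb_iff {x : 𝓞 K} : IsCoprime x tb ↔ ¬ tb ∣ x := by
  rw [isCoprime_comm]
  exact tb_prime.irreducible.coprime_iff_not_dvd

theorem chS_sq {S : Finset Pg7} {x : 𝓞 K} (h : ∀ q ∈ S, ¬ q.1 ∣ x) : chS S x * chS S x = 1 := by
  rw [chS, ← Finset.prod_mul_distrib]
  refine Finset.prod_eq_one fun q hq => ?_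
  have := ch_sq (h q hq)
  rwa [pow_two] at this

theorem chS_ne {S : Finset Pg7} {x : 𝓞 K} : chS S x ≠ 0 ↔ ∀ q ∈ S, ¬ q.1 ∣ x := by
  rw [chS, Finset.prod_ne_zero_iff]
  exact forall₂_congr fun q _ => not_congr ch_eq_zero

section
variable (d0 d1 d2 : ZMod 2) (S : Finset Pg7)

theorem ph_mul (x y : 𝓞 K) : ph d0 d1 d2 S (x * y) = ph d0 d1 d2 S x * ph d0 d1 d2 S y := by
  rw [ph, ph, ph, lA_mul, lB_mul, chS_mul]
  ring

theorem ph_one : ph d0 d1 d2 S 1 = 1 := by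
  rw [ph, lA_one, lB_one, chS_one]
  norm_num

theorem cf_ne : cf d0 d1 d2 S ≠ 0 :=
  mul_ne_zero (mul_ne_zero (pow_ne_zero _ ta_ne) (pow_ne_zero _ tb_ne)) (DD_ne S)

/-- the period of the character -/
theorem ph_per {x y : 𝓞 K} (h : cf d0 d1 d2 S ∣ x - y) : ph d0 d1 d2 S x = ph d0 d1 d2 S y := by
  have h1 : ta ^ ce (1 + d0 + d2) d1 ∣ x - y :=
    ((dvd_mul_right _ _).trans (dvd_mul_right _ _)).trans h
  have h2 : tb ^ ce (d0 + d1 + AA S) d2 ∣ x - y :=
    ((dvd_mul_left _ _).trans (dvd_mul_right _ _)).trans h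
  have h3 : DD S ∣ x - y := (dvd_mul_left _ _).trans h
  rw [ph, ph, lA_per _ _ h1, lB_per _ _ h2, chS_per S h3]

theorem lc_ne_iff (i j : ZMod 2) (u : ZMod 8) : lc i j u ≠ 0 ↔ (ce i j = 0 ∨ 4 * u ≠ 0) := by
  revert i j u
  decide

theorem cop_pow_ta {x : 𝓞 K} (n : ℕ) : IsCoprime x (ta ^ n) ↔ n = 0 ∨ ¬ ta ∣ x := by
  rcases Nat.eq_zero_or_pos n with rfl | hn
  · simp [isCoprime_one_right]
  · rw [IsCoprime.pow_right_iff hn, cop_ta_iff]
    exact ⟨Or.inr, fun h => h.resolve_left hn.ne'⟩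

theorem cop_pow_tb {x : 𝓞 K} (n : ℕ) : IsCoprime x (tb ^ n) ↔ n = 0 ∨ ¬ tb ∣ x := by
  rcases Nat.eq_zero_or_pos n with rfl | hn
  · simp [isCoprime_one_right]
  · rw [IsCoprime.pow_right_iff hn, cop_tb_iff]
    exact ⟨Or.inr, fun h => h.resolve_left hn.ne'⟩

/-- the support of the character -/
theorem ph_ne_iff {x : 𝓞 K} : ph d0 d1 d2 S x ≠ 0 ↔ IsCoprime x (cf d0 d1 d2 S) := by
  rw [ph, cf, IsCoprime.mul_right_iff, IsCoprime.mul_right_iff, cop_pow_ta, cop_pow_tb, cop_DD_iff,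
    mul_ne_zero_iff, mul_ne_zero_iff, chS_ne, lA, lB, lc_ne_iff, lc_ne_iff, ta_dvd, tb_dvd]

theorem ph_sq {x : 𝓞 K} (h : ph d0 d1 d2 S x ≠ 0) : ph d0 d1 d2 S x * ph d0 d1 d2 S x = 1 := by
  have h1 : ∀ i j : ZMod 2, ∀ u : ZMod 8, lc i j u ≠ 0 → lc i j u * lc i j u = 1 := by decide
  rw [ph, mul_ne_zero_iff, mul_ne_zero_iff] at h
  have h2 := h1 _ _ _ h.1.1
  have h3 := h1 _ _ _ h.1.2
  have h4 := chS_sq (chS_ne.1 h.2)
  rw [ph, lA, lB]
  rw [lA] at *
  linear_combination (lc (d0 + d1 + AA S) d2 (rb x) * lc (d0 + d1 + AA S) d2 (rb x) * (chS S x * chS S x)) * h2 +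
    (chS S x * chS S x) * h3 + h4

end

/-- the character of a set, in terms of the character of the empty set -/
theorem ph_eq (d0 d1 d2 : ZMod 2) (S : Finset Pg7) {x : 𝓞 K} (h : ¬ tb ∣ x) :
    ph d0 d1 d2 S x = ph d0 d1 d2 ∅ x * ∏ q ∈ S, (sg2 (aa q * bE (rb x)) * ch q x) := by
  have h1 := odd_rb h
  have h2 : AA (∅ : Finset Pg7) = 0 := rfl
  have h3 : lB (d0 + d1 + AA S) d2 x = lB (d0 + d1) d2 x * sg2 (AA S * bE (rb x)) := by
    rw [lB, lB]
    have e : lc (AA S) 0 (rb x) = sg2 (AA S * bE (rb x)) := by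
      rw [lc_unit _ _ h1, zero_mul, add_zero]
    rw [← e, ← lc_add _ _ _ _ h1, add_zero]
  rw [ph, ph, chS_empty, h2, add_zero, h3, Finset.prod_mul_distrib, AA, Finset.sum_mul, sg2_sum, chS]
  ring

/-- the number of the residue classes modulo a prime -/
theorem card_eq (q : Pg7) : ((Fintype.card (𝓞 K ⧸ q.I) : ℕ) : ℤ) = Algebra.norm ℤ q.1 := by
  have h1 : Ideal.absNorm q.I = (Algebra.norm ℤ q.1).natAbs := by
    rw [Pg7.I, Ideal.absNorm_span_singleton]
  have h2 : Ideal.absNorm q.I = Fintype.card (𝓞 K ⧸ q.I) := by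
    rw [Ideal.absNorm_apply, Submodule.cardQuot_apply, Nat.card_eq_fintype_card]
  have h3 : 0 ≤ Algebra.norm ℤ q.1 := by
    rw [norm_eq]
    nlinarith [sq_nonneg (2 * c0 q.1 + c1 q.1), sq_nonneg (c1 q.1)]
  rw [← h2, h1]
  exact Int.natAbs_of_nonneg h3

/-- the first supplementary law -/
theorem ch_neg_one (q : Pg7) : ch q (-1) = sg2 (aa q) := by
  rw [ch, map_neg, map_one, quadraticChar_neg_one q.char_ne]
  have h1 : ((Fintype.card (𝓞 K ⧸ q.I) : ℕ) : ZMod 8) = ra q.1 * rb q.1 := by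
    rw [← norm_mod, ← card_eq, Int.cast_natCast]
  have h2 : ((Fintype.card (𝓞 K ⧸ q.I) : ℕ) : ZMod 4) = ZMod.castHom (by norm_num) (ZMod 4) (ra q.1 * rb q.1) := by
    rw [← h1, map_natCast]
  rw [h2, aa]
  have h3 := q.ra2
  have h4 := odd_rb q.not_tb
  revert h3 h4
  generalize ra q.1 = u
  generalize rb q.1 = w
  revert u w
  decide

theorem chS_neg_one (S : Finset Pg7) : chS S (-1) = sg2 (AA S) := by
  rw [chS, AA, sg2_sum]
  exact Finset.prod_congr rfl fun q _ => ch_neg_one q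

theorem lA_neg (i j : ZMod 2) : lA i j (-1 : 𝓞 K) = sg2 (i + j) := by
  rw [lA, map_neg, map_one, lc_neg]

theorem lB_neg (i j : ZMod 2) : lB i j (-1 : 𝓞 K) = sg2 (i + j) := by
  rw [lB, map_neg, map_one, lc_neg]

/-- the character is odd -/
theorem ph_neg_one (d0 d1 d2 : ZMod 2) (S : Finset Pg7) : ph d0 d1 d2 S (-1) = -1 := by
  rw [ph, lA_neg, lB_neg, chS_neg_one, ← sg2_add, ← sg2_add]
  generalize AA S = u
  revert d0 d1 d2 u
  decide

theorem ph_neg (d0 d1 d2 : ZMod 2) (S : Finset Pg7) (x : 𝓞 K) :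
    ph d0 d1 d2 S (-x) = -ph d0 d1 d2 S x := by
  rw [neg_eq_neg_one_mul, ph_mul, ph_neg_one, neg_one_mul]

end

end Pool.Agent.Lib.MP_1a91b9_ntV
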