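import Pool.Agent.Lib.MP_1a91b9_ntV.A.Alg7

/-!
# The field `ℚ(√-7)`: the solutions of the relations without `ab` in the conductor

The residues `y8`, `y9` are determinants of the transposed symbol matrix.
-/

set_option autoImplicit false
set_option linter.unusedSectionVars false

namespace Pool.Agent.Lib.MP_1a91b9_ntV

open NumberField Pool.Agent.Lib.MP_1a91b9_nuT Pool.Agent.Lib.MP_1a91b9_nuT.S3
  Pool.Agent.Lib.MP_1a91b9_nuT.Ell Pool.Agent.Lib.MP_1a91b9_ntQ
open Pool.Agent.Lib.MP_1a91b9_ntK (NM NM_congr NM_empty forest forest_zero CZ NM_zero)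

noncomputable section

section alg

variable {ι : Type} [DecidableEq ι] (m : ι → ι → ZMod 2)

/-- the common right side -/
def sg0 (a b : ι → ZMod 2) (S : Finset ι) : ZMod 2 := Rw0 m a (fun T => FB m a b 0 a T) S

theorem sg0_eq (a b : ι → ZMod 2) (κ : ι → ZMod 2) {S : Finset ι} (hS : S.Nonempty) :
    Rw0 m κ (fun T => FB m a b 0 κ T) S = sg0 m a b S := by
  rw [sg0, Rw0_FB m a b 0 κ hS, Rw0_FB m a b 0 a hS]

/-- the residue of `Sig` -/
theorem sg0_col {a : ι → ZMod 2} (h : ∀ p q, p ≠ q → m p q + m q p = a p * a q)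
    (b : ι → ZMod 2) (S : Finset ι) :
    Rw0 m a (fun T => (∑ q ∈ T, b q) * if ∑ q ∈ T, a q = 1 then (NM m a T).det else 0) S =
      sg0 m a b S := by
  rw [sg0, Rw0, Rw0]
  refine Finset.sum_congr rfl fun T _ => ?_
  congr 1
  rw [FB_det]
  rcases T.eq_empty_or_nonempty with rfl | hT
  · rw [Finset.sum_empty, zero_mul, zero_mul]
  · by_cases h1 : ∑ q ∈ T, a q = 1
    · rw [if_pos h1]
    · have h2 : ∑ q ∈ T, a q = 0 :=
        (by decide : ∀ t : ZMod 2, t ≠ 1 → t = 0) _ h1
      rw [if_neg h1, alg_col m h hT h2]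

theorem Rw0_add (w : ι → ZMod 2) (y z : Finset ι → ZMod 2) (S : Finset ι) :
    Rw0 m w (fun T => y T + z T) S = Rw0 m w y S + Rw0 m w z S := by
  rw [Rw0, Rw0, Rw0, ← Finset.sum_add_distrib]
  exact Finset.sum_congr rfl fun T _ => add_mul _ _ _

theorem Rw0_smul (w : ι → ZMod 2) (c : ZMod 2) (y : Finset ι → ZMod 2) (S : Finset ι) :
    Rw0 m w (fun T => c * y T) S = c * Rw0 m w y S := by
  rw [Rw0, Rw0, Finset.mul_sum]
  exact Finset.sum_congr rfl fun T _ => mul_assoc _ _ _

theorem Rw0_CZ (b : ι → ZMod 2) (S : Finset ι) :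
    Rw0 m 0 (fun T => if T = ∅ then 0 else CZ m b T) S =
      if S.card = 1 then ∑ q ∈ S, b q else 0 := by
  rcases S.eq_empty_or_nonempty with rfl | hU
  · rw [Rw0, Finset.powerset_empty, Finset.sum_singleton, if_pos rfl, zero_mul, Finset.card_empty,
      if_neg (by norm_num)]
  · have h2 := forest_zero m b hU
    have h3 : (if S.card = 1 then -∑ q ∈ S, b q else 0) = if S.card = 1 then ∑ q ∈ S, b q else 0 := by
      split_ifs
      · exact neg_two _
      · rfl
    rw [h3] at h2
    rw [← h2, Rw0, ← Finset.add_sum_erase _ _ (Finset.empty_mem_powerset S), if_pos rfl, zero_mul,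
      zero_add]
    refine Finset.sum_congr rfl fun T hT => ?_
    rw [if_neg (Finset.mem_erase.1 hT).1, neg_one_two, one_mul]
    congr 1
    refine Finset.prod_congr rfl fun q _ => ?_
    rw [Pi.zero_apply, zero_add]

/-- the solution for the class `(2, 0)` -/
def y8g (a b : ι → ZMod 2) (T : Finset ι) : ZMod 2 :=
  (if T = ∅ then 0 else CZ m b T) + FB m a b 0 0 T

/-- the solution for the class `(3, 0)` -/
def y9g (a b κ : ι → ZMod 2) (d : ZMod 2) (T : Finset ι) : ZMod 2 :=
  FB m a b 0 κ T + d * (NM m κ T).det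

theorem Rw0_y8g (a b : ι → ZMod 2) {S : Finset ι} (hS : S.Nonempty) :
    Rw0 m 0 (y8g m a b) S = sg0 m a b S + if S.card = 1 then ∑ q ∈ S, b q else 0 := by
  have h := Rw0_add m 0 (fun T => if T = ∅ then 0 else CZ m b T) (fun T => FB m a b 0 0 T) S
  rw [Rw0_CZ, sg0_eq m a b 0 hS] at h
  rw [add_comm]
  exact h

theorem Rw0_y9g (a b κ : ι → ZMod 2) (d : ZMod 2) {S : Finset ι} (hS : S.Nonempty) :
    Rw0 m κ (y9g m a b κ d) S = sg0 m a b S := by
  have h := Rw0_add m κ (fun T => FB m a b 0 κ T) (fun T => d * (NM m κ T).det) S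
  rw [sg0_eq m a b κ hS, Rw0_smul, Rw0_det, if_neg hS.ne_empty, mul_zero, add_zero] at h
  exact h

theorem y8g_empty (a b : ι → ZMod 2) : y8g m a b ∅ = 0 := by
  rw [y8g, if_pos rfl, FB_empty, add_zero]

theorem y9g_empty (a b κ : ι → ZMod 2) (d : ZMod 2) : y9g m a b κ d ∅ = d := by
  rw [y9g, FB_empty, NM_empty, zero_add, mul_one]

/-! ### the transposed matrix -/

/-- the column sums -/
theorem NM_col {a : ι → ZMod 2} (h : ∀ p q, p ≠ q → m p q + m q p = a p * a q) (κ : ι → ZMod 2)
    (T : Finset ι) (p : T) :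
    ∑ q : T, NM m κ T q p = κ p + a p * (1 + ∑ q ∈ T, a q) := by
  have h2 : ∑ q : T, NM m κ T q p = NM m κ T p p + ∑ q ∈ Finset.univ.erase p, NM m κ T q p :=
    (Finset.add_sum_erase _ _ (Finset.mem_univ p)).symm
  have h3 : ∑ q ∈ Finset.univ.erase p, NM m κ T q p = ∑ q ∈ T.erase p, m q p := by
    refine Finset.sum_nbij (fun q : T => (q : ι)) ?_ ?_ ?_ ?_
    · intro j hj
      exact Finset.mem_erase.2 ⟨fun h' => (Finset.mem_erase.1 hj).1 (Subtype.ext h'), j.2⟩
    · intro x _ y _ hxy
      exact Subtype.ext hxy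
    · intro q hq
      have hq' := Finset.mem_erase.1 (Finset.mem_coe.1 hq)
      refine ⟨⟨q, hq'.2⟩, ?_, rfl⟩
      exact Finset.mem_coe.2 (Finset.mem_erase.2 ⟨fun h' => hq'.1 (congrArg Subtype.val h'),
        Finset.mem_univ _⟩)
    · intro j hj
      have : j ≠ p := (Finset.mem_erase.1 hj).1
      simp only [NM, if_neg this, neg_two]
  have h4 : NM m κ T p p = κ p + ∑ q ∈ T.erase p, m p q := by
    simp only [NM, if_true]
  rw [h2, h3, h4, add_assoc, ← Finset.sum_add_distrib]
  have h5 : ∑ q ∈ T.erase (p : ι), (m p q + m q p) = a p * ∑ q ∈ T.erase (p : ι), a q := by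
    rw [Finset.mul_sum]
    exact Finset.sum_congr rfl fun q hq => h p q fun h' => (Finset.mem_erase.1 hq).1 h'.symm
  have h6 := Finset.add_sum_erase T a p.2
  rw [h5, ← h6]
  have h7 : ∀ x y : ZMod 2, x * y = x * (1 + (x + y)) := by decide
  rw [← h7]

/-- the transposed matrix is a rank one perturbation -/
theorem NM_trans {a : ι → ZMod 2} (h : ∀ p q, p ≠ q → m p q + m q p = a p * a q) (κ : ι → ZMod 2)
    (T : Finset ι) :
    NM (fun q p => m p q) κ T = NM m (fun q => κ q + (∑ p ∈ T, a p) * a q) T +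
      Matrix.of fun i j : T => a i * a j := by
  ext1 i j
  rw [Matrix.add_apply, Matrix.of_apply]
  by_cases hij : i = j
  · subst hij
    simp only [NM, if_true]
    have h5 : ∑ q ∈ T.erase (i : ι), m q i = ∑ q ∈ T.erase (i : ι), m i q +
        a i * ∑ q ∈ T.erase (i : ι), a q := by
      rw [Finset.mul_sum, ← Finset.sum_add_distrib]
      refine Finset.sum_congr rfl fun q hq => ?_
      have h6 := h i q fun h' => (Finset.mem_erase.1 hq).1 h'.symm
      rw [← h6]
      exact (by decide : ∀ x y : ZMod 2, y = x + (x + y)) _ _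
    have h6 := Finset.add_sum_erase T a i.2
    rw [h5, ← h6]
    exact (by decide : ∀ k x s y : ZMod 2, k + (x + s * y) = k + (s + y) * s + x + s * s) _ _ _ _
  · simp only [NM, if_neg hij]
    have h6 := h i j fun h' => hij (Subtype.ext h')
    rw [← h6]
    exact (by decide : ∀ x y : ZMod 2, -y = -x + (x + y)) _ _

/-- the matrix determinant lemma -/
theorem det_add_rank {n : Type} [Fintype n] [DecidableEq n] (N : Matrix n n (ZMod 2))
    (b c : n → ZMod 2) : (N + Matrix.of fun i j => b i * c j).det =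
      N.det + ∑ i, ∑ j, c i * N.adjugate i j * b j := by
  have h1 := det_BM N b c 1
  have h2 : (BM N b c 1).det = (N + Matrix.of fun i j => b i * c j).det := by
    have e : BM N b c 1 * Matrix.fromBlocks 1 0 (Matrix.of fun _ j => c j) 1 =
        Matrix.fromBlocks (N + Matrix.of fun i j => b i * c j) (Matrix.of fun i _ => b i) 0 1 := by
      rw [BM, Matrix.fromBlocks_multiply]
      congr 1
      · rw [Matrix.mul_one]
        congr 1
        ext1 i j
        rw [Matrix.mul_apply, Fintype.sum_unique]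
        rfl
      · rw [Matrix.mul_zero, zero_add, Matrix.mul_one]
      · rw [Matrix.mul_one]
        ext1 i j
        rw [Matrix.add_apply, Matrix.mul_apply, Fintype.sum_unique]
        simp only [Matrix.of_apply, one_mul, Matrix.zero_apply]
        exact (by decide : ∀ x : ZMod 2, x + x = 0) _
      · rw [Matrix.mul_zero, zero_add, Matrix.mul_one]
        ext1 i j
        rw [Subsingleton.elim i j, Matrix.one_apply_eq]
        rfl
    have e2 := congrArg Matrix.det e
    rw [Matrix.det_mul, Matrix.det_fromBlocks_zero₁₂, Matrix.det_fromBlocks_zero₂₁, Matrix.det_one,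
      Matrix.det_one, mul_one, mul_one, mul_one] at e2
    exact e2
  rw [← h2, h1, one_mul]
  exact (by decide : ∀ x y : ZMod 2, x - y = x + y) _ _

/-- **the class `(3, 0)`** -/
theorem y9g_det {a : ι → ZMod 2} (h : ∀ p q, p ≠ q → m p q + m q p = a p * a q) (b : ι → ZMod 2)
    {T : Finset ι} {A : ZMod 2} (hA : ∑ q ∈ T, a q = A) :
    y9g m a b (fun q => A * a q + b q) (1 + A) T = (NM (fun q p => m p q) b T).det := by
  rw [NM_trans m h b T, det_add_rank, hA]
  have e : (fun q => b q + A * a q) = fun q => A * a q + b q := by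
    ext q
    exact add_comm _ _
  rw [e, y9g, FB, det_BM, zero_mul, zero_sub, neg_two]
  set N := NM m (fun q => A * a q + b q) T with hN
  -- the column sums
  have h1 : N.vecMul (fun _ => 1) = fun i : T => b i + a i := by
    ext1 p
    simp only [Matrix.vecMul, dotProduct, one_mul]
    rw [hN, NM_col m h _ T p, hA]
    exact (by decide : ∀ A x y : ZMod 2, A * x + y + x * (1 + A) = y + x) _ _ _
  have h2 : N.adjugate.vecMul (fun i : T => b i + a i) = fun _ => N.det := by
    rw [← h1, Matrix.vecMul_vecMul, Matrix.mul_adjugate, Matrix.vecMul_smul, Matrix.vecMul_one]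
    ext1 j
    rw [Pi.smul_apply, smul_eq_mul, mul_one]
  have h3 : ∑ i : T, ∑ j : T, (b i + a i) * N.adjugate i j * a j = A * N.det := by
    rw [Finset.sum_comm]
    have h4 : ∀ j : T, ∑ i : T, (b i + a i) * N.adjugate i j * a j = N.det * a j := by
      intro j
      rw [← Finset.sum_mul]
      congr 1
      have h5 := congrFun h2 j
      simp only [Matrix.vecMul, dotProduct] at h5
      exact h5
    rw [Finset.sum_congr rfl fun j _ => h4 j, ← Finset.mul_sum]
    have h6 : ∑ j : T, a j = A := by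
      rw [← hA]
      exact Finset.sum_coe_sort T a
    rw [h6, mul_comm]
  have h4 : ∑ i : T, ∑ j : T, (b i + a i) * N.adjugate i j * a j =
      ∑ i : T, ∑ j : T, b i * N.adjugate i j * a j + ∑ i : T, ∑ j : T, a i * N.adjugate i j * a j := by
    rw [← Finset.sum_add_distrib]
    refine Finset.sum_congr rfl fun i _ => ?_
    rw [← Finset.sum_add_distrib]
    refine Finset.sum_congr rfl fun j _ => ?_
    ring
  rw [h4] at h3
  exact (by decide : ∀ x y A D : ZMod 2, x + y = A * D → x + (1 + A) * D = D + y) _ _ _ _ h3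

/-- **the class `(2, 0)`** -/
theorem y8g_CZ {a : ι → ZMod 2} (h : ∀ p q, p ≠ q → m p q + m q p = a p * a q) (b : ι → ZMod 2)
    {T : Finset ι} (hT : T.Nonempty) (hA : ∑ q ∈ T, a q = 0) :
    y8g m a b T = CZ (fun q p => m p q) b T := by
  rw [y8g, if_neg hT.ne_empty, FB_zero m a b 0 hT, neg_two]
  set N := NM m 0 T with hN
  have hN1 : N.mulVec (fun _ => 1) = 0 := NM_mulVec_one m T
  -- the transposed matrix
  have h1 : NM (fun q p => m p q) 0 T = (1 + Matrix.of fun (i : T) (_ : T) => a i) * N := by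
    have e0 : (fun q => (0 : ι → ZMod 2) q + (∑ p ∈ T, a p) * a q) = 0 := by
      ext q
      rw [hA, zero_mul, add_zero]
    rw [NM_trans m h 0 T, e0, ← hN, Matrix.add_mul, Matrix.one_mul]
    congr 1
    ext1 i j
    rw [Matrix.mul_apply, Matrix.of_apply]
    have h2 := NM_col m h 0 T j
    rw [← hN, hA, add_zero, mul_one, Pi.zero_apply, zero_add] at h2
    have h3 : ∑ k : T, (Matrix.of fun (i : T) (_ : T) => a i) i k * N k j = a i * ∑ k : T, N k j := by
      rw [Finset.mul_sum]
      rfl
    rw [h3, h2]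
  set P : Matrix T T (ZMod 2) := 1 + Matrix.of fun (i : T) (_ : T) => a i with hP
  have hE2 : (Matrix.of fun (i : T) (_ : T) => a i) * (Matrix.of fun (i : T) (_ : T) => a i) = 0 := by
    ext1 i j
    rw [Matrix.mul_apply, Matrix.zero_apply]
    have h3 : ∑ k : T, (Matrix.of fun (i : T) (_ : T) => a i) i k *
        (Matrix.of fun (i : T) (_ : T) => a i) k j = a i * ∑ k : T, a k := by
      rw [Finset.mul_sum]
      rfl
    have h4 : ∑ k : T, a k = 0 := by
      rw [← hA]
      exact Finset.sum_coe_sort T a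
    rw [h3, h4, mul_zero]
  have hPP : P * P = 1 := by
    rw [hP, Matrix.add_mul, Matrix.mul_add, Matrix.mul_add, hE2, Matrix.one_mul, Matrix.one_mul,
      Matrix.mul_one, add_zero]
    ext1 i j
    simp only [Matrix.add_apply]
    exact (by decide : ∀ x y : ZMod 2, x + y + y = x) _ _
  have hdet : P.det = 1 := by
    have h3 := congrArg Matrix.det hPP
    rw [Matrix.det_mul, Matrix.det_one] at h3
    exact (by decide : ∀ x : ZMod 2, x * x = 1 → x = 1) _ h3
  have hadj : P.adjugate = P := by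
    have h3 : P.adjugate * (P * P) = P := by
      rw [← Matrix.mul_assoc, Matrix.adjugate_mul, hdet, one_smul, Matrix.one_mul]
    rwa [hPP, Matrix.mul_one] at h3
  have h2 : (NM (fun q p => m p q) 0 T).adjugate = N.adjugate * P := by
    rw [h1, Matrix.adjugate_mul_distrib, hadj]
  have h3 : ∀ r : T, (NM (fun q p => m p q) 0 T).adjugate r r =
      N.adjugate r r + ∑ k : T, a k * N.adjugate k k := by
    intro r
    rw [h2, hP, Matrix.mul_add, Matrix.mul_one, Matrix.add_apply, Matrix.mul_apply]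
    congr 1
    refine Finset.sum_congr rfl fun k _ => ?_
    rw [adj_row hN1 r k k, mul_comm]
    rfl
  unfold CZ
  have h4 : ∑ q ∈ T, b q = ∑ q : T, b q := (Finset.sum_coe_sort T b).symm
  rw [← hN, h4, Finset.sum_mul, ← Finset.sum_add_distrib]
  refine Finset.sum_congr rfl fun r _ => ?_
  rw [h3 r]
  ring

end alg

end

end Pool.Agent.Lib.MP_1a91b9_ntV
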