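import Pool.Agent.Lib.MP_1a91b9_ntV.A.Fin7
import Pool.Agent.Lib.MP_1a91b9_ntV.R.Eng7
import Pool.Agent.Lib.MP_1a91b9_ntV.R.Sup7

/-!
# The field `ℚ(√-7)`: the reciprocity law and the supplementary law in the form of the analytic side
-/

set_option autoImplicit false
set_option linter.unusedSectionVars false

namespace Pool.Agent.Lib.MP_1a91b9_ntV

open NumberField Pool.Agent.Lib.MP_1a91b9_nuT Pool.Agent.Lib.MP_1a91b9_ntQ

noncomputable section

variable [CD] [hv : V7]

/-- the reciprocity law -/
theorem recL7 : RecL := by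
  intro p q h
  have h1 := sb_recip p q h
  rw [sp, sp, h1]
  have : ∀ x y : ZMod 2, x + (x + y) = y := by decide
  exact this _ _

/-- the supplementary law for `a` -/
theorem supA7 : SupA := sb_ta

/-- the data of the engine are the data of the analytic side -/
theorem dat7_eq : dat7 = D7 := by
  unfold dat7 D7
  congr 1
  funext q j
  fin_cases j <;> rfl

/-- **the nonvanishing of the primitive sum, all classes** -/
theorem LS_ne {d0 d1 d2 : ZMod 2} {S : Finset Pg7} (h0 : ¬ (S = ∅ ∧ d1 = 0 ∧ d2 = 0))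
    (h : Cr.Good D7 S d0 d1 d2) : LS d0 d1 d2 S ≠ 0 := by
  rw [← dat7_eq] at h
  exact LS_ne_good recL7 supA7 h0 h

end

end Pool.Agent.Lib.MP_1a91b9_ntV
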