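import Pool.Agent.Lib.MP_1a91b9_ntV.A.Eig7
import Pool.Agent.Lib.MP_1a91b9_ntV.A.Alg8
import Pool.Agent.Lib.MP_1a91b9_ntV.A.Rec7

/-!
# The field `ℚ(√-7)`: the exact valuation of the primitive sums

`LS_val`: at a place with `1 / a` not integral the sum `LS d0 d1 d2 S` is a normaliser times a number
with residue `1` or `0`, and the residue is `1` exactly if the criterion `Good` holds.
-/

set_option autoImplicit false
set_option linter.unusedSectionVars false

namespace Pool.Agent.Lib.MP_1a91b9_ntV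

open NumberField Pool.Agent.Lib.MP_1a91b9_nuT Pool.Agent.Lib.MP_1a91b9_nuT.S3
  Pool.Agent.Lib.MP_1a91b9_nuT.Ell Pool.Agent.Lib.MP_1a91b9_ntQ
open Pool.Agent.Lib.MP_1a91b9_ntK (NM CZ)

noncomputable section

/-! ### the criterion and equivalences -/

section map

variable {κ ι : Type} [DecidableEq κ] [DecidableEq ι]

theorem Nx_map (f : κ ≃ ι) (D : Dat2 ι (Fin 3)) (S : Finset κ) (d0 d1 d2 : ZMod 2)
    (x : ι → ZMod 2) (i : κ) :
    Cr.Nx D (S.map f.toEmbedding) d0 d1 d2 x (f i) =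
      Cr.Nx ⟨fun i j => D.s (f i) (f j), fun i => D.a (f i)⟩ S d0 d1 d2 (fun j => x (f j)) i := by
  unfold Cr.Nx Cr.w
  have e : (S.map f.toEmbedding).erase (f i) = (S.erase i).map f.toEmbedding :=
    (Finset.map_erase f.toEmbedding S i).symm
  rw [e, Finset.sum_map, Finset.sum_map]
  rfl

theorem Good_map (f : κ ≃ ι) (D : Dat2 ι (Fin 3)) (S : Finset κ) (d0 d1 d2 : ZMod 2) :
    Cr.Good D (S.map f.toEmbedding) d0 d1 d2 ↔
      Cr.Good ⟨fun i j => D.s (f i) (f j), fun i => D.a (f i)⟩ S d0 d1 d2 := by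
  have hA : Cr.SqA D (S.map f.toEmbedding) d0 d1 d2 ↔
      Cr.SqA ⟨fun i j => D.s (f i) (f j), fun i => D.a (f i)⟩ S d0 d1 d2 := by
    unfold Cr.SqA
    rw [Finset.sum_map]
    rfl
  have hB : Cr.SqB D (S.map f.toEmbedding) d0 d1 d2 ↔
      Cr.SqB ⟨fun i j => D.s (f i) (f j), fun i => D.a (f i)⟩ S d0 d1 d2 := by
    unfold Cr.SqB
    rw [Finset.sum_map, Finset.sum_map]
    rfl
  have hK : ∀ (x : ι → ZMod 2) (x1 : ZMod 2), Cr.Ker D (S.map f.toEmbedding) d0 d1 d2 x x1 ↔
      Cr.Ker ⟨fun i j => D.s (f i) (f j), fun i => D.a (f i)⟩ S d0 d1 d2 (fun j => x (f j)) x1 := by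
    intro x x1
    unfold Cr.Ker
    rw [hA, hB, Finset.sum_map]
    refine and_congr ?_ Iff.rfl
    rw [Finset.forall_mem_map]
    refine forall_congr' fun i => forall_congr' fun _ => ?_
    have h := Nx_map f D S d0 d1 d2 x i
    constructor
    · intro h1
      rw [← h]
      exact h1
    · intro h1
      rw [← h] at h1
      exact h1
  have hF : ∀ (x : ι → ZMod 2) (c : ZMod 2), (∀ i ∈ S.map f.toEmbedding, x i = c) ↔
      ∀ i ∈ S, x (f i) = c := by
    intro x c
    rw [Finset.forall_mem_map]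
    rfl
  constructor
  · intro h x x1 hx
    have e : (fun j => x (f.symm (f j))) = x := by
      funext j
      rw [Equiv.symm_apply_apply]
    have h1 := h (fun j => x (f.symm j)) x1 ((hK _ _).2 (by rw [e]; exact hx))
    rw [hF, hF, hB] at h1
    rwa [show (∀ i ∈ S, x (f.symm (f i)) = 0) ↔ ∀ i ∈ S, x i = 0 from by
      simp only [Equiv.symm_apply_apply], show (∀ i ∈ S, x (f.symm (f i)) = 1) ↔ ∀ i ∈ S, x i = 1 from by
      simp only [Equiv.symm_apply_apply]] at h1
  · intro h x x1 hx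
    have h1 := h _ x1 ((hK _ _).1 hx)
    rw [hF, hF, hB]
    exact h1

end map

variable [CD] [hv : V7]

/-- **the criterion for the conjugate** -/
theorem Good_cS (hr : RecL) {S : Finset Pg7} {d0 d1 d2 : ZMod 2} (h0 : ¬ (S = ∅ ∧ d1 = 0 ∧ d2 = 0)) :
    Cr.Good dat7 (cS S) (d0 + 1 + AA S) d2 d1 ↔ Cr.Good dat7 S d0 d1 d2 := by
  rw [cS, Good_map]
  have e : (⟨fun i j => dat7.s (cqE i) (cqE j), fun i => dat7.a (cqE i)⟩ : Dat2 Pg7 (Fin 3)) =
      Cr.mir dat7 := by
    unfold Cr.mir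
    congr 1
    · funext i j
      exact sp_cq hr i j
    · funext i
      change ![aa (cq i), b1 (cq i), b2 (cq i)] = ![aa i, b2 i, b1 i]
      rw [aa_cq, b1_cq, b2_cq]
  rw [e]
  refine Cr.good_mir' dat7 (dat7_rc hr) fun h => h0 ⟨?_, h.2⟩
  exact Finset.eq_empty_of_forall_notMem h.1

/-- the square of the period of the real structure -/
theorem O7_conj_sq : ((starRingEnd ℂ) O7) ^ 2 = -O7 ^ 2 := by
  have hO := O7_ne
  have hO' : (starRingEnd ℂ) O7 ≠ 0 := (map_ne_zero _).2 hO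
  have hab := ab_ne
  have h1 := congrArg (starRingEnd ℂ) gg_te2_sq
  rw [gg, ee, ee, map_pow, map_sub, map_div₀, map_div₀, E1_conj, E1_conj, map_add, map_pow, map_pow,
    conj_zt7] at h1
  have e1 : (starRingEnd ℂ) te = tf := by
    rw [te, tf, map_inv₀, conj_zt7]
  rw [e1] at h1
  have e2 : tf ^ 2 = up := by
    rw [tf, up]
    field_simp
  rw [e2] at h1
  have h2 := hh_up
  rw [hh, ee, ee] at h2
  have h3 : (E1 (up + tf) - E1 up) ^ 2 = ab ^ 2 * ((starRingEnd ℂ) O7) ^ 2 := by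
    rw [← h1]
    field_simp
  have h4 : -(E1 (up + tf) - E1 up) ^ 2 = ab ^ 2 * O7 ^ 2 := by
    rw [← h2, mul_pow, Complex.I_sq]
    field_simp
  have h5 : ab ^ 2 * ((starRingEnd ℂ) O7) ^ 2 = ab ^ 2 * -O7 ^ 2 := by
    linear_combination -h3 - h4
  exact mul_left_cancel₀ (pow_ne_zero 2 hab) h5

/-- **the conjugate primitive sum** -/
theorem LS_conj_sq (d0 d1 d2 : ZMod 2) (S : Finset Pg7) :
    ((starRingEnd ℂ) (LS d0 d1 d2 S)) ^ 2 = -LS (d0 + 1 + AA S) d2 d1 (cS S) ^ 2 := by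
  have hO := O7_ne
  have h := congrArg (fun x => x ^ 2) (LS_conj d0 d1 d2 S)
  rw [mul_pow, mul_pow, sg2_csq, one_mul, map_mul, mul_pow, O7_conj_sq] at h
  have h2 : O7 ^ 2 * ((starRingEnd ℂ) (LS d0 d1 d2 S)) ^ 2 =
      O7 ^ 2 * -LS (d0 + 1 + AA S) d2 d1 (cS S) ^ 2 := by
    linear_combination h
  exact mul_left_cancel₀ (pow_ne_zero 2 hO) h2

/-! ### the classes -/

variable {B : ValuationSubring ℂ}

theorem LT_of_ce {d0 d1 d2 : ZMod 2} {S : Finset Pg7} (h : ce (d0 + d1 + AA S) d2 ≠ 0) :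
    LT d0 d1 d2 S = LS d0 d1 d2 S := by
  have h2 : ce (d0 + d1 + AA S) d2 = ce 1 d2 := by
    revert h
    generalize d0 + d1 + AA S = u
    revert d2 u
    decide
  have h1 : f0 d0 d1 d2 * DD S = cf d0 d1 d2 S := by rw [f0, cf, h2]
  rw [LT, LS, h1, SE, SE]
  refine SM_congr fun c => ?_
  by_cases hc : tb ∣ c
  · rw [Yc_tb d0 d1 d2 hc, ph_tb_zero d0 d1 d2 S hc h]
    simp
  · rw [Yc_not_tb d0 d1 d2 hc]

/-- the solution for the class `(2, 0)` -/
def y8 (T : Finset Pg7) : ZMod 2 := y8g mm aa b1 T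

/-- the solution for the class `(3, 0)` -/
def y9 (d0 : ZMod 2) (T : Finset Pg7) : ZMod 2 := y9g mm aa b1 (wt d0 1 0) d0 T

theorem Sig_res' (hB : te ∉ B) (hr : RecL) (hA : SupA) {S : Finset Pg7} (hS : S.Nonempty) :
    Rt B (Sig S) (sg0 mm aa b1 S) := by
  have h := Sig_res hB hr hA (y := y1) (fun S h0 => by
    rw [y1, if_neg]
    rw [h0]
    decide) (fun S hS => Rw_y1 hr hS) hS
  have e : Rw (wt 1 0 0) (fun T => B1 T * y1 T) S = sg0 mm aa b1 S := by
    rw [Rw_eq, wt_three]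
    exact sg0_col mm (mm_rec hr) b1 S
  rw [e] at h
  exact h

theorem wt_zero : (wt 0 0 0 : Pg7 → ZMod 2) = 0 := by
  ext q
  rw [wt, Pi.zero_apply]
  ring

/-- **the class `(2, 0)`** -/
theorem LS_eight' (hB : te ∉ B) (hr : RecL) (hA : SupA) {S : Finset Pg7} (hne : S.Nonempty)
    (hS : AA S = 0) : Rt B (LS 0 0 0 S / (2 ^ S.card * Cc 0)) (y8 S) := by
  refine LS_eight hB hr (fun S hS => Sig_res' hB hr hA hS) (fun S hS => ?_)
    (y8g_empty mm aa b1) hne hS
  rw [Rw_eq, wt_zero]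
  exact Rw0_y8g mm aa b1 hS

/-- **the class `(3, 0)`** -/
theorem LS_nine' (hB : te ∉ B) (hr : RecL) (hA : SupA) (d0 : ZMod 2) {S : Finset Pg7}
    (hS : AA S = 1 + d0) : Rt B (LS d0 1 0 S / (2 ^ S.card * Cc 1)) (y9 d0 S) := by
  refine LS_nine hB hr d0 (fun S hS => Sig_res' hB hr hA hS) (fun S hS => ?_)
    (y9g_empty mm aa b1 _ d0) S hS
  rw [Rw_eq]
  exact Rw0_y9g mm aa b1 _ d0 hS

theorem Cc0_sq : Cc 0 ^ 2 = -zt ^ 4 := by
  have hC : Cc 0 = zt ^ 2 / Complex.I := if_pos rfl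
  rw [hC, div_pow, Complex.I_sq, div_neg, div_one]
  ring

theorem Cc1_sq : Cc 1 ^ 2 = zt ^ 5 := by
  have hC : Cc 1 = r5 := if_neg (by decide)
  rw [hC, r5_sq]

/-- twice the exponent of the normaliser -/
def kA (d0 d1 d2 : ZMod 2) (S : Finset Pg7) : ℕ :=
  2 * (S.card + ce (1 + d0 + d2) d1 + if ce (d0 + d1 + AA S) d2 = 0 then 0 else 1)

/-- the form of the result -/
def Lf (B : ValuationSubring ℂ) (d0 d1 d2 : ZMod 2) (S : Finset Pg7) : Prop :=
  ∃ (N : ℂ) (y : ZMod 2), Rt B (LS d0 d1 d2 S / N) y ∧ (y ≠ 0 ↔ Cr.Good dat7 S d0 d1 d2) ∧ N ≠ 0 ∧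
    B.valuation (N ^ 2 * zt ^ d1.val) = B.valuation zt ^ kA d0 d1 d2 S

theorem v_two_pow (hB : te ∉ B) (k : ℕ) : B.valuation ((2 : ℂ) ^ k) = B.valuation zt ^ k := by
  rw [map_pow, v_two hB]

/-- **the exact valuations** -/
theorem LS_val (hB : te ∉ B) (hr : RecL) (hA : SupA) {d0 d1 d2 : ZMod 2} {S : Finset Pg7}
    (h0 : ¬ (S = ∅ ∧ d1 = 0 ∧ d2 = 0)) : Lf B d0 d1 d2 S := by
  have hi : ∀ i : ZMod 2, i = 0 ∨ i = 1 := by decide
  have hrc := dat7_rc hr
  have hAA : ∑ i ∈ S, dat7.a i 0 = AA S := rfl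
  have hS : d1 = 0 → d2 = 0 → S.Nonempty := fun h1 h2 =>
    Finset.nonempty_iff_ne_empty.2 fun h3 => h0 ⟨h3, h1, h2⟩
  have h2n : ∀ k : ℕ, ((2 : ℂ) ^ k) ≠ 0 := fun k => pow_ne_zero _ two_ne_zero
  have hz0 := zt_ne0
  by_cases hb : ce (d0 + d1 + AA S) d2 = 0
  · -- the conductor is prime to `ab`
    have hb2 : d2 = 0 ∧ d0 + d1 + AA S = 0 :=
      (by decide : ∀ u d : ZMod 2, ce u d = 0 → d = 0 ∧ u = 0) _ _ hb
    obtain ⟨rfl, h3⟩ := hb2
    rcases hi d1 with rfl | rfl
    · rcases hi d0 with rfl | rfl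
      · -- the class `(2, 0)`
        have hA0 : AA S = 0 := by
          rw [zero_add, zero_add] at h3
          exact h3
        have hne := hS rfl rfl
        refine ⟨2 ^ S.card * Cc 0, y8 S, LS_eight' hB hr hA hne hA0, ?_,
          mul_ne_zero (h2n _) (Cc_ne 0), ?_⟩
        · rw [Cr.good_R3 dat7 hrc hne (hAA.trans hA0), y8, y8g_CZ mm (mm_rec hr) b1 hne hA0]
          rfl
        · have e : kA 0 0 0 S = S.card * 2 + 4 := by
            rw [kA, hb]
            have e1 : ce (1 + 0 + 0) 0 = 2 := rfl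
            rw [e1, if_pos rfl]
            ring
          rw [e, ZMod.val_zero, pow_zero, mul_one, mul_pow, Cc0_sq, map_mul, Valuation.map_neg,
            ← pow_mul, v_two_pow hB, map_pow, ← pow_add]
      · -- the class `(0, 0)`
        have hA1 : AA S = 1 := (by decide : ∀ t : ZMod 2, 1 + 0 + t = 0 → t = 1) _ h3
        refine ⟨2 ^ S.card / Complex.I, y1 S, ?_, ?_, div_ne_zero (h2n _) Complex.I_ne_zero, ?_⟩
        · have h5 := LP_one hB hr (y := y1) (fun S h0 => by
            rw [y1, if_neg]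
            rw [h0]
            decide) (fun S hS => Rw_y1 hr hS) hA1
          rw [LP7_eq_LS hA1] at h5
          have e : LS 1 0 0 S / (2 ^ S.card / Complex.I) = Complex.I * LS 1 0 0 S / 2 ^ S.card := by
            rw [div_div_eq_mul_div]
            ring
          rw [e]
          exact h5
        · rw [Cr.good_L2 dat7 hrc (hAA.trans hA1), y1, if_pos hA1]
          rfl
        · have e : kA 1 0 0 S = S.card * 2 := by
            rw [kA, hb]
            have e1 : ce (1 + 1 + 0) 0 = 0 := rfl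
            rw [e1, if_pos rfl]
            ring
          rw [e, ZMod.val_zero, pow_zero, mul_one, div_pow, Complex.I_sq, div_neg, div_one,
            Valuation.map_neg, ← pow_mul, v_two_pow hB]
    · -- the class `(3, 0)`
      have hA1 : AA S = 1 + d0 :=
        (by decide : ∀ d t : ZMod 2, d + 1 + t = 0 → t = 1 + d) _ _ h3
      have hd0 : d0 = 1 + AA S :=
        (by decide : ∀ d t : ZMod 2, d + 1 + t = 0 → d = 1 + t) _ _ h3
      refine ⟨2 ^ S.card * Cc 1, y9 d0 S, LS_nine' hB hr hA d0 hA1, ?_,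
        mul_ne_zero (h2n _) (Cc_ne 1), ?_⟩
      · have h5 := Cr.good_R1 dat7 hrc S
        rw [hAA, ← hd0] at h5
        rw [h5, y9]
        have h6 := y9g_det mm (mm_rec hr) b1 (T := S) (A := AA S) rfl
        have e : (wt d0 1 0 : Pg7 → ZMod 2) = fun q => AA S * aa q + b1 q := by
          ext q
          rw [wt, hd0]
          exact (by decide : ∀ A x y z : ZMod 2, (1 + A + 1 + 0) * x + 1 * y + 0 * z =
            A * x + y) _ _ _ _
        rw [e]
        conv_lhs => rw [hd0]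
        rw [h6]
        rfl
      · have e : kA d0 1 0 S = S.card * 2 + 6 := by
          rw [kA, hb]
          have e1 : ∀ t : ZMod 2, ce (1 + t + 0) 1 = 3 := by decide
          rw [e1, if_pos rfl]
          ring
        rw [e, ZMod.val_one, pow_one, mul_pow, Cc1_sq, ← pow_mul, mul_assoc, ← pow_succ, map_mul,
          v_two_pow hB, map_pow, ← pow_add]
  · -- the conductor is divisible by `ab`
    have hLT := LT_of_ce hb
    have hSB : ¬ Cr.SqB dat7 S d0 d1 d2 := by
      rintro ⟨h1, h2, -⟩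
      rw [hAA] at h2
      exact hb (by rw [h2, h1]; rfl)
    by_cases hd : d1 = 1 ∨ d0 = d2
    · have hSA : ¬ Cr.SqA dat7 S d0 d1 d2 := by
        rintro ⟨h1, h2, -⟩
        rcases hd with h3 | h3
        · rw [h3] at h1
          exact absurd h1 (by decide)
        · rw [h3] at h2
          exact (by decide : ∀ t : ZMod 2, t + 1 + t ≠ 0) _ h2
      refine ⟨2 ^ (S.card + 1) * Cc d1, zR d0 d1 d2 S, ?_, ?_, mul_ne_zero (h2n _) (Cc_ne d1), ?_⟩
      · have h5 := LT_rho hB hr hd (r := rhoR) (z := zR d0 d1 d2)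
          (fun S => Rho_res hB hr hA Rw_y2 S) (Rw_zR d0 d1 d2) S
        rw [hLT] at h5
        exact h5
      · rw [Cr.good_FB dat7 hSA hSB, zR]
        have e : (fun q : Pg7 => wt d0 d1 d2 q + aa q) =
            fun i => Cr.w dat7 d0 d1 d2 i + dat7.a i 0 := by
          funext q
          change wt d0 d1 d2 q + aa q = d0 * aa q + d1 * (b1 q + aa q) + d2 * (b2 q + aa q) + aa q
          rw [wt]
          ring
        rw [e]
        rfl
      · rcases hi d1 with rfl | rfl
        · have h3 : d0 = d2 := hd.resolve_left (by decide)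
          have e : kA d0 0 d2 S = (S.card + 1) * 2 + 4 := by
            rw [kA, if_neg hb, h3]
            have e1 : ∀ t : ZMod 2, ce (1 + t + t) 0 = 2 := by decide
            rw [e1]
            ring
          rw [e, ZMod.val_zero, pow_zero, mul_one, mul_pow, Cc0_sq, map_mul, Valuation.map_neg,
            ← pow_mul, v_two_pow hB, map_pow, ← pow_add]
        · have e : kA d0 1 d2 S = (S.card + 1) * 2 + 6 := by
            rw [kA, if_neg hb]
            have e1 : ∀ t u : ZMod 2, ce (1 + t + u) 1 = 3 := by decide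
            rw [e1]
            ring
          rw [e, ZMod.val_one, pow_one, mul_pow, Cc1_sq, ← pow_mul, mul_assoc, ← pow_succ, map_mul,
            v_two_pow hB, map_pow, ← pow_add]
    · have h1 : d1 = 0 := (hi d1).resolve_right fun h2 => hd (Or.inl h2)
      have h2 : d0 = 1 + d2 := by
        have h3 : d0 ≠ d2 := fun h2 => hd (Or.inr h2)
        exact (by decide : ∀ t u : ZMod 2, t ≠ u → t = 1 + u) _ _ h3
      subst h1
      rcases hi d2 with rfl | rfl
      · have h4 : d0 = 1 := by rw [h2, add_zero]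
        subst h4
        -- the class `(0, 2)`
        have hne := hS rfl rfl
        have hA0 : AA S = 0 := by
          rcases hi (AA S) with h5 | h5
          · exact h5
          · exact absurd (by rw [h5]; rfl) hb
        refine ⟨2 ^ (S.card + 1) * (zt * ee up), z3 S, ?_, ?_,
          mul_ne_zero (h2n _) (mul_ne_zero hz0 ee_up_ne), ?_⟩
        · have h5 := LT_three hB hr (z := z3) (if_pos rfl) (fun S _ => Rw_z3 S) hne
          rw [hLT] at h5
          exact h5
        · rw [Cr.good_L3 dat7 hrc hne (hAA.trans hA0), z3, if_neg hne.ne_empty]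
          rfl
        · have e : kA 1 0 0 S = (S.card + 1) * 2 := by
            rw [kA, if_neg hb]
            have e1 : ce (1 + 1 + 0) 0 = 0 := rfl
            rw [e1]
            ring
          rw [e, ZMod.val_zero, pow_zero, mul_one, mul_pow, map_mul, map_pow _ (zt * ee up),
            v_ee_up hB, one_pow, mul_one, ← pow_mul, v_two_pow hB]
      · have h4 : d0 = 0 := by
          rw [h2]
          decide
        subst h4
        -- the class `(0, 3)`
        refine ⟨2 ^ (S.card + 1) * Complex.I, y2 S, ?_, ?_,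
          mul_ne_zero (h2n _) Complex.I_ne_zero, ?_⟩
        · have h5 := LT_two hB hr (y := y2) Rw_y2 S
          rw [hLT] at h5
          exact h5
        · rw [Cr.good_L1 dat7 hrc S, y2]
          rfl
        · have e : kA 0 0 1 S = (S.card + 1) * 2 := by
            rw [kA, if_neg hb]
            have e1 : ce (1 + 0 + 1) 0 = 0 := rfl
            rw [e1]
            ring
          rw [e, ZMod.val_zero, pow_zero, mul_one, mul_pow, map_mul, map_pow _ Complex.I,
            v_I, one_pow, mul_one, ← pow_mul, v_two_pow hB]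

/-- the two consequences -/
theorem Lf.good {d0 d1 d2 : ZMod 2} {S : Finset Pg7} (h : Lf B d0 d1 d2 S) :
    (Cr.Good dat7 S d0 d1 d2 → B.valuation (LS d0 d1 d2 S ^ 2 * zt ^ d1.val) =
      B.valuation zt ^ kA d0 d1 d2 S) ∧
    (¬ Cr.Good dat7 S d0 d1 d2 → B.valuation (LS d0 d1 d2 S ^ 2 * zt ^ d1.val) <
      B.valuation zt ^ kA d0 d1 d2 S) := by
  obtain ⟨N, y, h1, h3, h4, h5⟩ := h
  have hi : ∀ i : ZMod 2, i = 0 ∨ i = 1 := by decide
  have e : LS d0 d1 d2 S ^ 2 * zt ^ d1.val = (LS d0 d1 d2 S / N) ^ 2 * (N ^ 2 * zt ^ d1.val) := by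
    field_simp
  have hz := zt_ne0
  have hpos : 0 < B.valuation zt ^ kA d0 d1 d2 S := pow_pos v_zt_pos _
  rcases hi y with h6 | h6
  · have hng : ¬ Cr.Good dat7 S d0 d1 d2 := fun h7 => (h3.2 h7) h6
    refine ⟨fun h7 => absurd h7 hng, fun _ => ?_⟩
    rw [h6] at h1
    rw [e, map_mul, h5, map_pow]
    have h7 : B.valuation (LS d0 d1 d2 S / N) < 1 := by
      have h8 := h1
      unfold Rt at h8
      rwa [ZMod.val_zero, Nat.cast_zero, sub_zero] at h8
    have h8 : B.valuation (LS d0 d1 d2 S / N) ^ 2 < 1 := pow_lt_one₀ zero_le h7 two_ne_zero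
    calc B.valuation (LS d0 d1 d2 S / N) ^ 2 * B.valuation zt ^ kA d0 d1 d2 S
        < 1 * B.valuation zt ^ kA d0 d1 d2 S := mul_lt_mul_of_pos_right h8 hpos
      _ = _ := one_mul _
  · have hg : Cr.Good dat7 S d0 d1 d2 := h3.1 (by rw [h6]; decide)
    refine ⟨fun _ => ?_, fun h7 => absurd hg h7⟩
    rw [h6] at h1
    have h7 : B.valuation (LS d0 d1 d2 S / N) = 1 := by
      have h8 := h1
      unfold Rt at h8
      rw [ZMod.val_one, Nat.cast_one] at h8
      have h9 := Valuation.map_sub_swap B.valuation (LS d0 d1 d2 S / N) 1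
      have h10 := B.valuation.map_add_eq_of_lt_right (x := LS d0 d1 d2 S / N - 1) (y := 1) (by
        rwa [map_one])
      rwa [sub_add_cancel, map_one] at h10
    rw [e, map_mul, h5, map_pow, h7, one_pow, one_mul]

end

end Pool.Agent.Lib.MP_1a91b9_ntV
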