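import Pool.Agent.Lib.MP_1a91b9_ntQ.Em
import Pool.Agent.Lib.MP_1a91b9_nuT.S3.Main
import Pool.Agent.Lib.MP_1a91b9_nuT.S3.Grp

/-!
# The field `ℚ(√-7)`: the datum, the lattice, the distribution relations of degree two

`V7`: `tr = 1`, `nm = 2`, `A = -35 u⁴`, `B = -98 u⁶`. `zt` is the complex number `a = (1 + √-7) / 2`,
`ab = 1 - a` its conjugate, `te = 1 / a`, `tf = 1 / ab` the points of order two.
-/

set_option autoImplicit false
set_option linter.unusedSectionVars false

namespace Pool.Agent.Lib.MP_1a91b9_ntV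

open NumberField Filter Topology Pool.Agent.Lib.MP_1a91b9_nuT Pool.Agent.Lib.MP_1a91b9_nuT.S3
  Pool.Agent.Lib.MP_1a91b9_nuT.Ell Pool.Agent.Lib.MP_1a91b9_ntQ

noncomputable section

/-- the datum of the curves with complex multiplication by the integers of `ℚ(√-7)` -/
class V7 [CD] where
  tr : CD.tr = 1
  nm : CD.nm = 2
  u : ℤ
  u_ne : u ≠ 0
  A : CD.A = -35 * u ^ 4
  B : CD.B = -98 * u ^ 6

variable [CD]

/-- the complex number `ab = 1 - a` -/
def ab : ℂ := 1 - zt

/-- the point `1 / a` -/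
def te : ℂ := zt⁻¹

/-- the point `1 / ab` -/
def tf : ℂ := ab⁻¹

section
variable [hv : V7]

theorem zt_sq : zt ^ 2 = zt - 2 := by
  rw [S3.zt_quad, hv.tr, hv.nm]
  push_cast
  ring

theorem zt_ne0 : zt ≠ 0 := S3.zt_ne_zero

theorem zt_mul_ab : zt * ab = 2 := by
  rw [ab]
  linear_combination -zt_sq

theorem ab_ne : ab ≠ 0 := by
  intro h
  have := zt_mul_ab
  rw [h, mul_zero] at this
  exact two_ne_zero this.symm

theorem ab_sq : ab ^ 2 = ab - 2 := by
  rw [ab]
  linear_combination zt_sq

theorem ab_mem : ab ∈ PP.lattice := sub_mem one_mem zt_mem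

theorem em_ta : em (ta : 𝓞 K) = zt := rfl

theorem em_mem (x : 𝓞 K) : em x ∈ PP.lattice := S3.embK_mem x

theorem zt_mul_te : zt * te = 1 := mul_inv_cancel₀ zt_ne0

theorem ab_mul_tf : ab * tf = 1 := mul_inv_cancel₀ ab_ne

theorem two_te : 2 * te = ab := by
  have h : zt * (2 * te) = zt * ab := by
    rw [zt_mul_ab]
    linear_combination 2 * zt_mul_te
  exact mul_left_cancel₀ zt_ne0 h

theorem two_tf : 2 * tf = zt := by
  have h : ab * (2 * tf) = ab * zt := by
    rw [mul_comm ab zt, zt_mul_ab]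
    linear_combination 2 * ab_mul_tf
  exact mul_left_cancel₀ ab_ne h

theorem two_te_mem : 2 * te ∈ PP.lattice := by
  rw [two_te]
  exact ab_mem

theorem two_tf_mem : 2 * tf ∈ PP.lattice := by
  rw [two_tf]
  exact zt_mem

/-- the integral coordinates are unique -/
theorem coords_inj {m n m' n' : ℤ} (h : (m : ℂ) + n * zt = m' + n' * zt) : m = m' ∧ n = n' := by
  have h1 := congrArg Complex.im h
  simp only [Complex.add_im, Complex.intCast_im, zero_add, Complex.mul_im, Complex.intCast_re,
    zero_mul, add_zero] at h1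
  have h2 : (n : ℝ) = n' := mul_right_cancel₀ zt_ne h1
  have h3 : n = n' := by exact_mod_cast h2
  subst h3
  have h4 : (m : ℂ) = m' := by linear_combination h
  exact ⟨by exact_mod_cast h4, rfl⟩

theorem te_notMem : te ∉ PP.lattice := by
  intro h
  obtain ⟨m, n, e⟩ := mem_PP.1 h
  have h1 : ((2 * m : ℤ) : ℂ) + ((2 * n : ℤ) : ℂ) * zt = ((1 : ℤ) : ℂ) + ((-1 : ℤ) : ℂ) * zt := by
    have := two_te
    rw [← e, ab] at this
    push_cast
    linear_combination this
  have := (coords_inj h1).1
  omega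

theorem tf_notMem : tf ∉ PP.lattice := by
  intro h
  obtain ⟨m, n, e⟩ := mem_PP.1 h
  have h1 : ((2 * m : ℤ) : ℂ) + ((2 * n : ℤ) : ℂ) * zt = ((0 : ℤ) : ℂ) + ((1 : ℤ) : ℂ) * zt := by
    have := two_tf
    rw [← e] at this
    push_cast
    linear_combination this
  have := (coords_inj h1).2
  omega

theorem te_sub_tf_notMem : te - tf ∉ PP.lattice := by
  intro h
  obtain ⟨m, n, e⟩ := mem_PP.1 h
  have h1 : ((2 * m : ℤ) : ℂ) + ((2 * n : ℤ) : ℂ) * zt = ((1 : ℤ) : ℂ) + ((-2 : ℤ) : ℂ) * zt := by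
    have h2 := two_te
    have h3 := two_tf
    rw [ab] at h2
    push_cast
    linear_combination 2 * e + h2 - h3
  have := (coords_inj h1).1
  omega

/-- `a tf ≡ tf` -/
theorem zt_tf : zt * tf - tf ∈ PP.lattice := by
  have e : zt * tf - tf = -1 := by
    have := ab_mul_tf
    rw [ab] at this
    linear_combination -this
  rw [e]
  exact neg_mem one_mem

/-- `ab te ≡ te` -/
theorem ab_te : ab * te - te ∈ PP.lattice := by
  have e : ab * te - te = -1 := by
    rw [ab]
    linear_combination -zt_mul_te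
  rw [e]
  exact neg_mem one_mem

/-! ### the kernels of `a` and `ab` -/

theorem zt_ker {x : ℂ} (h : zt * x ∈ PP.lattice) : x ∈ PP.lattice ∨ x - te ∈ PP.lattice := by
  obtain ⟨m, n, e⟩ := mem_PP.1 h
  have h0 := zt_mul_te
  have h2 := two_te
  rcases Int.even_or_odd' m with ⟨k, rfl | rfl⟩
  · left
    have e1 : x = (k : ℂ) * ab + n := by
      apply mul_left_cancel₀ zt_ne0
      rw [← e]
      push_cast
      linear_combination -(k : ℂ) * zt_mul_ab
    rw [e1]
    exact add_mem (mul_mem (int_mem k) ab_mem) (int_mem n)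
  · right
    have e1 : x - te = (k : ℂ) * ab + n := by
      apply mul_left_cancel₀ zt_ne0
      rw [mul_sub, ← e, h0]
      push_cast
      linear_combination -(k : ℂ) * zt_mul_ab
    rw [e1]
    exact add_mem (mul_mem (int_mem k) ab_mem) (int_mem n)

theorem mem_PP' {x : ℂ} : x ∈ PP.lattice ↔ ∃ m n : ℤ, (m : ℂ) + n * ab = x := by
  rw [mem_PP]
  constructor
  · rintro ⟨m, n, e⟩
    refine ⟨m + n, -n, ?_⟩
    rw [← e, ab]
    push_cast
    ring
  · rintro ⟨m, n, e⟩
    refine ⟨m + n, -n, ?_⟩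
    rw [← e, ab]
    push_cast
    ring

theorem ab_ker {x : ℂ} (h : ab * x ∈ PP.lattice) : x ∈ PP.lattice ∨ x - tf ∈ PP.lattice := by
  obtain ⟨m, n, e⟩ := mem_PP'.1 h
  have h0 := ab_mul_tf
  rcases Int.even_or_odd' m with ⟨k, rfl | rfl⟩
  · left
    have e1 : x = (k : ℂ) * zt + n := by
      apply mul_left_cancel₀ ab_ne
      rw [← e]
      push_cast
      linear_combination -(k : ℂ) * zt_mul_ab
    rw [e1]
    exact add_mem (mul_mem (int_mem k) zt_mem) (int_mem n)
  · right
    have e1 : x - tf = (k : ℂ) * zt + n := by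
      apply mul_left_cancel₀ ab_ne
      rw [mul_sub, ← e, h0]
      push_cast
      linear_combination -(k : ℂ) * zt_mul_ab
    rw [e1]
    exact add_mem (mul_mem (int_mem k) zt_mem) (int_mem n)

end

/-! ### the distribution relation of degree two -/

/-- the two points `0`, `t` -/
def two (t : ℂ) : Bool → ℂ := fun b => if b then t else 0

theorem two_uniq {α t : ℂ} (h : ∀ x, α * x ∈ PP.lattice → x ∈ PP.lattice ∨ x - t ∈ PP.lattice)
    (ht : t ∉ PP.lattice) (x : ℂ) (hx : α * x ∈ PP.lattice) :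
    ∃! i, x - two t i ∈ PP.lattice := by
  rcases h x hx with h1 | h1
  · refine ⟨false, by simpa [two] using h1, ?_⟩
    intro i hi
    rcases i with _ | _
    · rfl
    · exfalso
      apply ht
      have := sub_mem h1 (by simpa [two] using hi)
      have e : x - (x - t) = t := by ring
      rwa [e] at this
  · refine ⟨true, by simpa [two] using h1, ?_⟩
    intro i hi
    rcases i with _ | _
    · exfalso
      apply ht
      have h2 : x ∈ PP.lattice := by simpa [two] using hi
      have := sub_mem h2 h1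
      have e : x - (x - t) = t := by ring
      rwa [e] at this
    · rfl

theorem E1_two {α t : ℂ} (hα : α ∈ PP.lattice) (hα0 : α ≠ 0) (hαt : α * t ∈ PP.lattice)
    (h : ∀ x, α * x ∈ PP.lattice → x ∈ PP.lattice ∨ x - t ∈ PP.lattice)
    (ht : t ∉ PP.lattice) (z : ℂ) : E1 z + E1 (z + t) = α * E1 (α * z) := by
  have h1 := E1_dist (ι := Bool) (α := α) (τ := two t) hα hα0
    (fun i => by rcases i with _ | _ <;> simp [two, hαt]) (two_uniq h ht) z
  simp only [Fintype.univ_bool, two, Finset.mem_singleton, Bool.true_eq_false, not_false_eq_true,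
    Finset.sum_insert, if_true, Finset.sum_singleton, Bool.false_eq_true, if_false, add_zero] at h1
  rw [add_comm]
  exact h1

/-- the distribution relation of `℘` -/
theorem P_two {α t : ℂ} (hα : α ∈ PP.lattice) (hα0 : α ≠ 0) (hαt : α * t ∈ PP.lattice)
    (h : ∀ x, α * x ∈ PP.lattice → x ∈ PP.lattice ∨ x - t ∈ PP.lattice)
    (ht : t ∉ PP.lattice) {z : ℂ} (hz : α * z ∉ PP.lattice) :
    PP.weierstrassP z + PP.weierstrassP (z + t) =
      α ^ 2 * PP.weierstrassP (α * z) + PP.weierstrassP t := by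
  have h1 : ∀ i, α * two t i ∈ PP.lattice := fun i => by
    rcases i with _ | _ <;> simp [two, hαt]
  have h2 := two_uniq h ht
  set S : Set ℂ := {w : ℂ | α * w ∈ PP.lattice} with hSdef
  have hS : ∀ z : ℂ, ∀ᶠ w in 𝓝[≠] z, w ∉ S := fun z => eventually_mul_notMem hα0 z
  have hdiff : ∀ z ∉ S, DifferentiableAt ℂ (dh α (two t)) z := by
    intro z hz
    have a1 : DifferentiableAt ℂ (fun z => ∑ i, PP.weierstrassP (z + two t i)) z := by
      refine DifferentiableAt.fun_sum fun i _ => ?_
      exact ((hasDerivAt_P (notMem_shift hα h1 hz i)).comp_add_const z (two t i)).differentiableAt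
    have a2 : DifferentiableAt ℂ (fun z => PP.weierstrassP (α * z)) z := by
      have b2 : DifferentiableAt ℂ PP.weierstrassP (α * z) := (hasDerivAt_P hz).differentiableAt
      exact b2.comp z (by fun_prop)
    exact a1.neg.add (a2.const_mul _)
  have hlim : ∀ s ∈ S, Tendsto (fun z => (z - s) * dh α (two t) z) (𝓝[≠] s) (𝓝 0) := by
    intro s hs
    obtain ⟨a, ha⟩ := tendsto_dh hα0 h2 hs
    exact tendsto_mul_zero ha
  obtain ⟨b, hb⟩ := liouville hS hdiff hlim (fun l hl z => dh_add hα hl z)
  have hdh : ∀ w, dh α (two t) w = -(PP.weierstrassP w + PP.weierstrassP (w + t)) +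
      α ^ 2 * PP.weierstrassP (α * w) := by
    intro w
    simp only [dh, Fintype.univ_bool, two, Finset.mem_singleton, Bool.true_eq_false,
      not_false_eq_true, Finset.sum_insert, if_true, Finset.sum_singleton, Bool.false_eq_true,
      if_false, add_zero]
    ring
  have hlim0 : Tendsto (dh α (two t)) (𝓝[≠] 0) (𝓝 (-PP.weierstrassP t)) := by
    have c1 := tendsto_cancel hα0
    have c2 : Tendsto (fun w => PP.weierstrassP (w + t)) (𝓝[≠] 0) (𝓝 (PP.weierstrassP (0 + t))) := by
      have h5 : ContinuousAt (fun z => PP.weierstrassP (z + t)) 0 :=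
        ContinuousAt.comp (g := PP.weierstrassP) (f := fun z => z + t)
          (continuousAt_P (by rwa [zero_add])) (by fun_prop)
      exact h5.tendsto.mono_left nhdsWithin_le_nhds
    have c3 := c1.sub c2
    rw [zero_add, zero_sub] at c3
    refine c3.congr fun w => ?_
    rw [hdh]
    ring
  have hlimb : Tendsto (dh α (two t)) (𝓝[≠] 0) (𝓝 b) := by
    refine tendsto_const_nhds.congr' ?_
    filter_upwards [hS 0] with w hw
    exact (hb w hw).symm
  have hbe := tendsto_nhds_unique hlim0 hlimb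
  have h3 := hb z hz
  rw [hdh, ← hbe] at h3
  linear_combination -h3

end

end Pool.Agent.Lib.MP_1a91b9_ntV
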