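import Pool.Agent.Lib.MP_1a91b9_ntV.A.Thr7
import Pool.Agent.Lib.MP_1a91b9_ntQ.A.ForB

/-!
# The field `ℚ(√-7)`: the solutions of the relations, and the nonvanishing of the sums

The solutions are determinants over `F₂` (forest identities of `ntK`, for matrices which are not symmetric).
-/

set_option autoImplicit false
set_option linter.unusedSectionVars false

namespace Pool.Agent.Lib.MP_1a91b9_ntV

open NumberField Pool.Agent.Lib.MP_1a91b9_nuT Pool.Agent.Lib.MP_1a91b9_nuT.S3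
  Pool.Agent.Lib.MP_1a91b9_nuT.Ell Pool.Agent.Lib.MP_1a91b9_ntQ
open Pool.Agent.Lib.MP_1a91b9_ntK (NM NM_congr NM_empty forest forest_zero CZ)

noncomputable section

section alg

variable {ι : Type} [DecidableEq ι] (m : ι → ι → ZMod 2)

/-- the operator of the relations, for an abstract symbol -/
def Rw0 (w : ι → ZMod 2) (y : Finset ι → ZMod 2) (S : Finset ι) : ZMod 2 :=
  ∑ T ∈ S.powerset, y T * ∏ q ∈ S \ T, (w q + ∑ p ∈ T, m q p)

/-- the change of the weight -/
theorem Rw0_shift (w w' : ι → ZMod 2) (y : Finset ι → ZMod 2) (S : Finset ι) :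
    Rw0 m (fun q => w' q + w q) y S = ∑ V ∈ S.powerset, (∏ q ∈ V, w' q) * Rw0 m w y (S \ V) := by
  have h1 : ∀ T ∈ S.powerset, y T * ∏ q ∈ S \ T, (w' q + w q + ∑ p ∈ T, m q p) =
      ∑ V ∈ (S \ T).powerset, (∏ q ∈ V, w' q) * (y T * ∏ q ∈ (S \ V) \ T, (w q + ∑ p ∈ T, m q p)) := by
    intro T _
    have e1 : ∏ q ∈ S \ T, (w' q + w q + ∑ p ∈ T, m q p) =
        ∏ q ∈ S \ T, (w' q + (w q + ∑ p ∈ T, m q p)) :=
      Finset.prod_congr rfl fun q _ => add_assoc _ _ _
    rw [e1, Finset.prod_add, Finset.mul_sum]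
    refine Finset.sum_congr rfl fun V _ => ?_
    have e2 : (S \ T) \ V = (S \ V) \ T := by
      ext x
      simp only [Finset.mem_sdiff]
      tauto
    rw [e2]
    ring
  rw [Rw0, Finset.sum_congr rfl h1]
  have h2 : ∀ V : Finset ι, (∏ q ∈ V, w' q) * Rw0 m w y (S \ V) =
      ∑ T ∈ (S \ V).powerset, (∏ q ∈ V, w' q) * (y T * ∏ q ∈ (S \ V) \ T, (w q + ∑ p ∈ T, m q p)) := by
    intro V
    rw [Rw0, Finset.mul_sum]
  rw [Finset.sum_congr rfl fun V _ => h2 V]
  refine Finset.sum_comm' fun T V => ?_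
  simp only [Finset.mem_powerset]
  constructor
  · rintro ⟨h3, h4⟩
    refine ⟨fun x hx => Finset.mem_sdiff.2 ⟨h3 hx, fun h5 => ?_⟩, h4.trans Finset.sdiff_subset⟩
    exact (Finset.mem_sdiff.1 (h4 h5)).2 hx
  · rintro ⟨h3, h4⟩
    refine ⟨h3.trans Finset.sdiff_subset, fun x hx => Finset.mem_sdiff.2 ⟨h4 hx, fun h5 => ?_⟩⟩
    exact (Finset.mem_sdiff.1 (h3 h5)).2 hx

theorem neg_one_two (n : ℕ) : ((-1 : ZMod 2)) ^ n = 1 := by
  have h : (-1 : ZMod 2) = 1 := rfl
  rw [h, one_pow]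

theorem neg_two (x : ZMod 2) : -x = x := by
  revert x
  decide

/-- **the matrix tree identity** -/
theorem Rw0_det (κ : ι → ZMod 2) (S : Finset ι) :
    Rw0 m κ (fun T => (NM m κ T).det) S = if S = ∅ then 1 else 0 := by
  rcases S.eq_empty_or_nonempty with rfl | hS
  · rw [if_pos rfl, Rw0, Finset.powerset_empty, Finset.sum_singleton, NM_empty, Finset.sdiff_self,
      Finset.prod_empty, one_mul]
  · rw [if_neg hS.ne_empty, Rw0, ← forest m κ hS]
    refine Finset.sum_congr rfl fun T _ => ?_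
    rw [neg_one_two, one_mul]

theorem Rw0_FB (b c : ι → ZMod 2) (k : ZMod 2) (κ : ι → ZMod 2) {S : Finset ι} (hS : S.Nonempty) :
    Rw0 m κ (fun T => FB m b c k κ T) S =
      ∑ T ∈ S.powerset, ((∑ q ∈ T, c q) * CZ m b T) * ∏ q ∈ S \ T, ∑ p ∈ T, m q p := by
  have h := forest_FB m b c k κ hS
  have e : ∀ f g : Finset ι → ZMod 2, ∑ T ∈ S.powerset, (-1 : ZMod 2) ^ T.card * f T * g T =
      ∑ T ∈ S.powerset, f T * g T := fun f g =>
    Finset.sum_congr rfl fun T _ => by rw [neg_one_two, one_mul]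
  rw [e, e] at h
  rw [Rw0, h]
  exact neg_two _

theorem NM_mulVec (κ : ι → ZMod 2) (T : Finset ι) :
    (NM m κ T).mulVec (fun _ => 1) = fun i : T => κ i := by
  have h1 := NM_mulVec_one m T
  have h2 : NM m κ T = NM m 0 T + Matrix.diagonal (fun i : T => κ i) := by
    ext1 i j
    rw [Matrix.add_apply]
    by_cases h : i = j
    · subst h
      simp only [NM, if_true, Pi.zero_apply, zero_add, Matrix.diagonal_apply_eq]
      rw [add_comm]
    · simp only [NM, if_neg h, Matrix.diagonal_apply_ne _ h, add_zero]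
  rw [h2, Matrix.add_mulVec, h1, zero_add]
  ext1 i
  rw [Matrix.mulVec_diagonal, mul_one]

/-- the bordered determinant whose column is the sum of the columns -/
theorem FB_det (b c : ι → ZMod 2) (T : Finset ι) :
    FB m b c 0 b T = (∑ q ∈ T, c q) * (NM m b T).det := by
  have h1 : (NM m b T).adjugate.mulVec (fun i : T => b i) = fun _ => (NM m b T).det := by
    rw [← NM_mulVec, Matrix.mulVec_mulVec, Matrix.adjugate_mul, Matrix.smul_mulVec, Matrix.one_mulVec]
    ext1 j
    rw [Pi.smul_apply, smul_eq_mul, mul_one]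
  rw [FB, det_BM, zero_mul, zero_sub, neg_two]
  have h2 : ∀ i : T, ∑ j : T, c i * (NM m b T).adjugate i j * b j = c i * (NM m b T).det := by
    intro i
    have h3 := congrFun h1 i
    simp only [Matrix.mulVec, dotProduct] at h3
    rw [← h3, Finset.mul_sum]
    exact Finset.sum_congr rfl fun j _ => mul_assoc _ _ _
  rw [Finset.sum_congr rfl fun i _ => h2 i, ← Finset.sum_mul]
  congr 1
  exact Finset.sum_coe_sort T c

/-- **the class `D₀ = ab`** -/
theorem alg_two (a b' : ι → ZMod 2) (S : Finset ι) :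
    Rw0 m (fun q => a q + b' q) (fun T => (NM m b' T).det) S = ∏ q ∈ S, a q := by
  rw [Rw0_shift, ← Finset.add_sum_erase _ _ (Finset.mem_powerset_self S), Finset.sdiff_self, Rw0_det,
    if_pos rfl, mul_one, Finset.sum_eq_zero, add_zero]
  intro V hV
  obtain ⟨h1, h2⟩ := Finset.mem_erase.1 hV
  rw [Rw0_det, if_neg, mul_zero]
  intro h
  exact h1 (Finset.Subset.antisymm (Finset.mem_powerset.1 h2) (Finset.sdiff_eq_empty_iff_subset.1 h))

/-- **the classes with even conductor at `a`** -/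
theorem alg_rho (a b b' : ι → ZMod 2) (κ : ι → ZMod 2) (S : Finset ι) :
    Rw0 m (fun q => a q + κ q) (fun T => FB m b' b 1 κ T) S =
      Rw0 m (fun q => a q + b' q) (fun T => (1 + ∑ q ∈ T, b q) * (NM m b' T).det) S := by
  rw [Rw0_shift, Rw0_shift]
  refine Finset.sum_congr rfl fun V _ => ?_
  congr 1
  rcases (S \ V).eq_empty_or_nonempty with h | h
  · rw [h, Rw0, Rw0, Finset.powerset_empty, Finset.sum_singleton, Finset.sum_singleton, FB_empty,
      NM_empty, Finset.sum_empty]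
    simp
  · have h1 : Rw0 m b' (fun T => (1 + ∑ q ∈ T, b q) * (NM m b' T).det) (S \ V) =
        Rw0 m b' (fun T => (NM m b' T).det) (S \ V) + Rw0 m b' (fun T => FB m b' b 0 b' T) (S \ V) := by
      rw [Rw0, Rw0, Rw0, ← Finset.sum_add_distrib]
      refine Finset.sum_congr rfl fun T _ => ?_
      rw [FB_det]
      ring
    rw [h1, Rw0_det, if_neg h.ne_empty, zero_add, Rw0_FB m b' b 1 κ h, Rw0_FB m b' b 0 b' h]

/-- **the class `D₀ = -1`** -/
theorem alg_three (a b' : ι → ZMod 2) (S : Finset ι) :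
    Rw0 m a (fun T => if T = ∅ then 0 else CZ m b' T) S = ∑ q ∈ S, b' q * ∏ p ∈ S.erase q, a p := by
  have e0 : a = fun q => a q + (0 : ι → ZMod 2) q := by
    ext q
    rw [Pi.zero_apply, add_zero]
  have h1 : ∀ U : Finset ι, Rw0 m 0 (fun T => if T = ∅ then 0 else CZ m b' T) U =
      if U.card = 1 then ∑ q ∈ U, b' q else 0 := by
    intro U
    rcases U.eq_empty_or_nonempty with rfl | hU
    · rw [Rw0, Finset.powerset_empty, Finset.sum_singleton, if_pos rfl, zero_mul, Finset.card_empty,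
        if_neg (by norm_num)]
    · have h2 := forest_zero m b' hU
      have h3 : (if U.card = 1 then -∑ q ∈ U, b' q else 0) = if U.card = 1 then ∑ q ∈ U, b' q else 0 := by
        split_ifs
        · exact neg_two _
        · rfl
      rw [h3] at h2
      rw [← h2, Rw0, ← Finset.add_sum_erase _ _ (Finset.empty_mem_powerset U), if_pos rfl, zero_mul,
        zero_add]
      refine Finset.sum_congr rfl fun T hT => ?_
      rw [if_neg (Finset.mem_erase.1 hT).1, neg_one_two, one_mul]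
      congr 1
      refine Finset.prod_congr rfl fun q _ => ?_
      rw [Pi.zero_apply, zero_add]
  conv_lhs => rw [e0]
  rw [Rw0_shift, Finset.sum_congr rfl fun V _ => by rw [h1]]
  have h3 : ∀ V ∈ S.powerset, (∏ q ∈ V, a q) * (if (S \ V).card = 1 then ∑ q ∈ S \ V, b' q else 0) =
      ∑ q ∈ S, if V = S.erase q then b' q * ∏ p ∈ S.erase q, a p else 0 := by
    intro V hV
    have hVS := Finset.mem_powerset.1 hV
    by_cases h : (S \ V).card = 1
    · obtain ⟨q, hq⟩ := Finset.card_eq_one.1 h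
      have hqS : q ∈ S := (Finset.mem_sdiff.1 (hq ▸ Finset.mem_singleton_self q)).1
      have hV' : V = S.erase q := by
        have : S \ (S \ V) = V := Finset.sdiff_sdiff_eq_self hVS
        rw [← this, hq, Finset.sdiff_singleton_eq_erase]
      rw [if_pos h, hq, Finset.sum_singleton, ← Finset.add_sum_erase _ _ hqS, if_pos hV',
        Finset.sum_eq_zero, add_zero, hV', mul_comm]
      intro p hp
      obtain ⟨hp1, hp2⟩ := Finset.mem_erase.1 hp
      refine if_neg fun h5 => hp1 ?_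
      have h6 : p ∉ S.erase q := by
        rw [← hV', h5]
        exact Finset.notMem_erase p S
      by_contra h7
      exact h6 (Finset.mem_erase.2 ⟨h7, hp2⟩)
    · rw [if_neg h, mul_zero, Finset.sum_eq_zero]
      intro q hq
      refine if_neg fun h5 => h ?_
      rw [h5, Finset.sdiff_erase hq, Finset.sdiff_self]
      rfl
  rw [Finset.sum_congr rfl h3, Finset.sum_comm]
  refine Finset.sum_congr rfl fun q _ => ?_
  rw [Finset.sum_ite_eq', if_pos]
  exact Finset.mem_powerset.2 (Finset.erase_subset q S)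

/-- the column sums -/
theorem alg_col {a : ι → ZMod 2} (h : ∀ p q, p ≠ q → m p q + m q p = a p * a q) {T : Finset ι}
    (hT : T.Nonempty) (hA : ∑ q ∈ T, a q = 0) : (NM m a T).det = 0 := by
  have h1 : (NM m a T).vecMul (fun _ => 1) = 0 := by
    ext1 p
    simp only [Matrix.vecMul, dotProduct, one_mul, Pi.zero_apply]
    have h2 : ∑ q : T, NM m a T q p = NM m a T p p + ∑ q ∈ Finset.univ.erase p, NM m a T q p :=
      (Finset.add_sum_erase _ _ (Finset.mem_univ p)).symm
    have h3 : ∑ q ∈ Finset.univ.erase p, NM m a T q p = ∑ q ∈ T.erase p, m q p := by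
      refine Finset.sum_nbij (fun q : T => (q : ι)) ?_ ?_ ?_ ?_
      · intro j hj
        exact Finset.mem_erase.2 ⟨fun h' => (Finset.mem_erase.1 hj).1 (Subtype.ext h'), j.2⟩
      · intro x _ y _ hxy
        exact Subtype.ext hxy
      · intro q hq
        have hq' := Finset.mem_erase.1 (Finset.mem_coe.1 hq)
        refine ⟨⟨q, hq'.2⟩, ?_, rfl⟩
        exact Finset.mem_coe.2 (Finset.mem_erase.2 ⟨fun h' => hq'.1 (congrArg Subtype.val h'),
          Finset.mem_univ _⟩)
      · intro j hj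
        have : j ≠ p := (Finset.mem_erase.1 hj).1
        simp only [NM, if_neg this, neg_two]
    have h4 : NM m a T p p = a p + ∑ q ∈ T.erase p, m p q := by
      simp only [NM, if_true]
    rw [h2, h3, h4, add_assoc, ← Finset.sum_add_distrib]
    have h5 : ∑ q ∈ T.erase (p : ι), (m p q + m q p) = a p * ∑ q ∈ T.erase (p : ι), a q := by
      rw [Finset.mul_sum]
      exact Finset.sum_congr rfl fun q hq => h p q fun h' => (Finset.mem_erase.1 hq).1 h'.symm
    have h6 := Finset.add_sum_erase T a p.2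
    rw [hA] at h6
    have h7 : ∑ q ∈ T.erase (p : ι), a q = a p := by
      have : ∀ x y : ZMod 2, x + y = 0 → y = x := by decide
      exact this _ _ h6
    have h8 : ∀ x : ZMod 2, x + x * x = 0 := by decide
    rw [h5, h7, h8]
  obtain ⟨i, hi⟩ := hT
  have h2 := congrArg (fun v => Matrix.vecMul v (NM m a T).adjugate) h1
  simp only [Matrix.vecMul_vecMul, Matrix.mul_adjugate, Matrix.zero_vecMul, Matrix.vecMul_smul,
    Matrix.vecMul_one] at h2
  have h3 := congrFun h2 ⟨i, hi⟩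
  simpa using h3

/-- **the class `D₀ = -1`, odd** -/
theorem alg_one {a : ι → ZMod 2} (h : ∀ p q, p ≠ q → m p q + m q p = a p * a q) {S : Finset ι}
    (hS : S.Nonempty) :
    Rw0 m a (fun T => if ∑ q ∈ T, a q = 1 then (NM m a T).det else 0) S = ∏ q ∈ S, a q := by
  have h1 := Rw0_det m a S
  rw [if_neg hS.ne_empty, Rw0, ← Finset.add_sum_erase _ _ (Finset.empty_mem_powerset S), NM_empty,
    Finset.sdiff_empty, one_mul] at h1
  have h2 : ∏ q ∈ S, (a q + ∑ p ∈ (∅ : Finset ι), m q p) = ∏ q ∈ S, a q :=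
    Finset.prod_congr rfl fun q _ => by rw [Finset.sum_empty, add_zero]
  rw [h2] at h1
  have h3 : Rw0 m a (fun T => if ∑ q ∈ T, a q = 1 then (NM m a T).det else 0) S =
      ∑ T ∈ S.powerset.erase ∅, (NM m a T).det * ∏ q ∈ S \ T, (a q + ∑ p ∈ T, m q p) := by
    rw [Rw0, ← Finset.add_sum_erase _ _ (Finset.empty_mem_powerset S), Finset.sum_empty,
      if_neg (by decide), zero_mul, zero_add]
    refine Finset.sum_congr rfl fun T hT => ?_
    have hT0 := Finset.nonempty_iff_ne_empty.2 (Finset.mem_erase.1 hT).1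
    have hi : ∀ i : ZMod 2, i = 0 ∨ i = 1 := by decide
    rcases hi (∑ q ∈ T, a q) with h4 | h4
    · rw [h4, if_neg (by decide), alg_col m h hT0 h4]
    · rw [h4, if_pos rfl]
  rw [h3]
  have : ∀ x y : ZMod 2, x + y = 0 → y = x := by decide
  exact this _ _ h1

end alg

variable [CD] [hv : V7]

/-- the symbol matrix: row `q`, column `p` -/
def mm (q p : Pg7) : ZMod 2 := sp p q

theorem Rw_eq (w : Pg7 → ZMod 2) (y : Finset Pg7 → ZMod 2) (S : Finset Pg7) :
    Rw w y S = Rw0 mm w y S := rfl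

theorem mm_rec (hr : RecL) (p q : Pg7) (h : p ≠ q) : mm p q + mm q p = aa p * aa q := by
  rw [mm, mm, add_comm]
  exact hr p q h

/-- the solution for `D₀ = ab` -/
def y2 (T : Finset Pg7) : ZMod 2 := (NM mm b2 T).det

theorem Rw_y2 (S : Finset Pg7) : Rw (wt 0 0 1) y2 S = ∏ q ∈ S, aa q := by
  have e : (wt 0 0 1 : Pg7 → ZMod 2) = fun q => aa q + b2 q := by
    ext q
    rw [wt]
    ring
  rw [Rw_eq, e]
  exact alg_two mm aa b2 S

/-- the solution for the classes with even conductor at `a` -/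
def zR (d0 d1 d2 : ZMod 2) (T : Finset Pg7) : ZMod 2 :=
  FB mm b2 b1 1 (fun q => wt d0 d1 d2 q + aa q) T

/-- the residue of `Rho` -/
def rhoR (S : Finset Pg7) : ZMod 2 := Rw (wt 0 0 1) (fun T => (1 + B1 T) * y2 T) S

theorem Rw_zR (d0 d1 d2 : ZMod 2) (S : Finset Pg7) : Rw (wt d0 d1 d2) (zR d0 d1 d2) S = rhoR S := by
  have e : (wt 0 0 1 : Pg7 → ZMod 2) = fun q => aa q + b2 q := by
    ext q
    rw [wt]
    ring
  have e2 : (wt d0 d1 d2 : Pg7 → ZMod 2) = fun q => aa q + (wt d0 d1 d2 q + aa q) := by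
    ext q
    have : ∀ x y : ZMod 2, x = y + (x + y) := by decide
    exact this _ _
  rw [rhoR, Rw_eq, Rw_eq, e]
  conv_lhs => rw [e2]
  exact alg_rho mm aa b1 b2 _ S

/-- the solution for `D₀ = -1` -/
def z3 (T : Finset Pg7) : ZMod 2 := if T = ∅ then 0 else CZ mm b2 T

theorem wt_three : (wt 1 0 0 : Pg7 → ZMod 2) = aa := by
  ext q
  rw [wt]
  ring

theorem Rw_z3 (S : Finset Pg7) : Rw (wt 1 0 0) z3 S = tau3 S := by
  rw [Rw_eq, wt_three]
  exact alg_three mm aa b2 S

/-- the solution for `D₀ = -1`, odd -/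
def y1 (T : Finset Pg7) : ZMod 2 := if AA T = 1 then (NM mm aa T).det else 0

theorem Rw_y1 (hr : RecL) {S : Finset Pg7} (hS : S.Nonempty) :
    Rw (wt 1 0 0) y1 S = ∏ q ∈ S, aa q := by
  rw [Rw_eq, wt_three]
  exact alg_one mm (mm_rec hr) hS

/-! ### existence of the place -/

theorem exists_Ba : ∃ B : ValuationSubring ℂ, te ∉ B := by
  let f : 𝓞 K →+* ℂ := (embK.toRingHom).comp (algebraMap (𝓞 K) K)
  have hf : ∀ x, f x = Pool.Agent.Lib.MP_1a91b9_ntQ.em x := fun _ => rfl
  let A : Subring ℂ := f.range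
  have hz : zt ∈ A := ⟨ta, (hf ta).trans em_ta⟩
  have hI : Ideal.span {(⟨zt, hz⟩ : A)} ≠ ⊤ := by
    intro h
    rw [Ideal.span_singleton_eq_top] at h
    obtain ⟨⟨b, hb⟩, e⟩ := isUnit_iff_exists_inv.mp h
    obtain ⟨c, hc⟩ := hb
    have e2 : zt * b = 1 := congrArg Subtype.val e
    rw [← hc, hf, ← em_ta, ← em_mul, ← em_one] at e2
    exact ta_prime.not_isUnit (IsUnit.of_mul_eq_one _ (em_inj e2))
  obtain ⟨B, _, hB⟩ := Ideal.image_subset_nonunits_valuationSubring _ hI
  refine ⟨B, ?_⟩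
  have h3 : zt ∈ B.nonunits := hB ⟨⟨zt, hz⟩, Ideal.mem_span_singleton_self _, rfl⟩
  rcases B.mem_nonunits_iff_or.1 h3 with h | h
  · exact absurd h zt_ne0
  · exact h

/-! ### nonvanishing -/

/-- **the classes with even conductor at `a`** -/
theorem LT_ne_rho (hr : RecL) (hA : SupA) {d0 d1 d2 : ZMod 2} (hd : d1 = 1 ∨ d0 = d2)
    {S : Finset Pg7} (h : FB mm b2 b1 1 (fun q => wt d0 d1 d2 q + aa q) S ≠ 0) :
    LT d0 d1 d2 S ≠ 0 := by
  obtain ⟨B, hB⟩ := exists_Ba
  have h1 := LT_rho hB hr hd (r := rhoR) (z := zR d0 d1 d2) (fun S => Rho_res hB hr hA Rw_y2 S)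
    (Rw_zR d0 d1 d2) S
  intro h2
  exact h1.ne_zero h (by rw [h2, zero_div])

/-- **the class `D₀ = ab`** -/
theorem LT_ne_two (hr : RecL) {S : Finset Pg7} (h : (NM mm b2 S).det ≠ 0) : LT 0 0 1 S ≠ 0 := by
  obtain ⟨B, hB⟩ := exists_Ba
  have h1 := LT_two hB hr (y := y2) Rw_y2 S
  intro h2
  exact h1.ne_zero h (by rw [h2, zero_div])

/-- **the class `D₀ = -1`** -/
theorem LT_ne_three (hr : RecL) {S : Finset Pg7} (hS : S.Nonempty) (h : CZ mm b2 S ≠ 0) :
    LT 1 0 0 S ≠ 0 := by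
  obtain ⟨B, hB⟩ := exists_Ba
  have h1 := LT_three hB hr (z := z3) (if_pos rfl) (fun S _ => Rw_z3 S) hS
  intro h2
  refine h1.ne_zero ?_ (by rw [h2, zero_div])
  rw [z3, if_neg hS.ne_empty]
  exact h

/-- **the class `D₀ = -1`, odd** -/
theorem LP_ne_one (hr : RecL) {S : Finset Pg7} (hS : AA S = 1) (h : (NM mm aa S).det ≠ 0) :
    LP7 S ≠ 0 := by
  obtain ⟨B, hB⟩ := exists_Ba
  have h1 := LP_one hB hr (y := y1) (fun S h0 => by
    rw [y1, if_neg]
    rw [h0]
    decide) (fun S hS => Rw_y1 hr hS) hS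
  intro h2
  refine h1.ne_zero ?_ (by rw [h2, mul_zero, zero_div])
  rw [y1, if_pos hS]
  exact h

end

end Pool.Agent.Lib.MP_1a91b9_ntV
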