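import Pool.Agent.Lib.MP_1a91b9_ntV.A.Sum7

/-!
# The field `ℚ(√-7)`: averaging over the subsets of a set of primes

`Yc d0 d1 d2 T`: the character `ph d0 d1 d2 T` outside the multiples of `ab`; `f0 d0 d1 d2` the modulus;
`VS S w F`: the sum of `F x` over the classes `x` modulo `DD S` such that `w x` is a square modulo each prime of `S`.
-/

set_option autoImplicit false
set_option linter.unusedSectionVars false

namespace Pool.Agent.Lib.MP_1a91b9_ntV

open NumberField Pool.Agent.Lib.MP_1a91b9_nuT Pool.Agent.Lib.MP_1a91b9_ntQ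

noncomputable section

theorem bE_per {u w : ZMod 8} (h : 2 * (u - w) = 0) : bE u = bE w := by
  revert u w
  decide

theorem bE_neg {u : ZMod 8} (h : 4 * u = 4) : bE (-u) = bE u + 1 := by
  revert u
  decide

variable [CD] [hv : V7]

/-- the modulus -/
def f0 (d0 d1 d2 : ZMod 2) : 𝓞 K := ta ^ ce (1 + d0 + d2) d1 * tb ^ ce 1 d2

/-- the character outside the multiples of `ab` -/
def Yc (d0 d1 d2 : ZMod 2) (T : Finset Pg7) (c : 𝓞 K) : ℂ :=
  (ph d0 d1 d2 T c : ℂ) * ((lB 1 0 c : ℤ) : ℂ) ^ 2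

/-- the square classes -/
def VS (S : Finset Pg7) (w : 𝓞 K) (F : 𝓞 K → ℂ) : ℂ :=
  open Classical in SM (DD S) fun x => if ∀ q ∈ S, ch q (w * x) = 1 then F x else 0

/-- the character on the classes which are `1` modulo `ab²` -/
def kp (d0 d1 d2 : ZMod 2) (t : 𝓞 K) : ℂ :=
  open Classical in if bE (rb t) = 0 ∧ ¬ tb ∣ t then (ph d0 d1 d2 ∅ t : ℂ) else 0

/-- the symbol of the average -/
def psi (q : Pg7) (c : 𝓞 K) : ℤ := sg2 (aa q * bE (rb c)) * ch q c

section
variable (d0 d1 d2 : ZMod 2)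

theorem f0_ne : (f0 d0 d1 d2 : 𝓞 K) ≠ 0 := mul_ne_zero (pow_ne_zero _ ta_ne) (pow_ne_zero _ tb_ne)

theorem f0_cop (S : Finset Pg7) : IsCoprime (f0 d0 d1 d2) (DD S) :=
  (IsCoprime.mul_right (IsCoprime.pow_right (DD_cop_ta S)) (IsCoprime.pow_right (DD_cop_tb S))).symm

theorem ce_dvd (i : ZMod 2) : ce i d2 ≤ ce 1 d2 := by
  revert i d2
  decide

theorem two_le_ce : 2 ≤ ce 1 d2 := by
  revert d2
  decide

theorem tb2_f0 : tb ^ 2 ∣ (f0 d0 d1 d2 : 𝓞 K) :=
  (pow_dvd_pow _ (two_le_ce d2)).trans (dvd_mul_left _ _)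

theorem cf_dvd (T : Finset Pg7) : cf d0 d1 d2 T ∣ f0 d0 d1 d2 * DD T :=
  mul_dvd_mul_right (mul_dvd_mul_left _ (pow_dvd_pow _ (ce_dvd d2 _))) _

theorem lB10_per {x y : 𝓞 K} (h : tb ^ 2 ∣ x - y) : lB 1 0 x = lB 1 0 y := lB_per 1 0 h

theorem lB10_tb {x : 𝓞 K} (h : tb ∣ x) : lB 1 0 x = 0 := by
  rw [tb_dvd] at h
  rw [lB]
  revert h
  generalize rb x = u
  revert u
  decide

theorem lB10_sq {x : 𝓞 K} (h : ¬ tb ∣ x) : ((lB 1 0 x : ℤ) : ℂ) ^ 2 = 1 := by
  have h1 : lB 1 0 x ^ 2 = 1 := by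
    have h2 := odd_rb h
    rw [lB]
    revert h2
    generalize rb x = u
    revert u
    decide
  exact_mod_cast h1

theorem Yc_tb {T : Finset Pg7} {c : 𝓞 K} (h : tb ∣ c) : Yc d0 d1 d2 T c = 0 := by
  rw [Yc, lB10_tb h]
  simp

theorem Yc_not_tb {T : Finset Pg7} {c : 𝓞 K} (h : ¬ tb ∣ c) :
    Yc d0 d1 d2 T c = (ph d0 d1 d2 T c : ℂ) := by
  rw [Yc, lB10_sq h, mul_one]

theorem Yc_pd (T : Finset Pg7) : Pd (f0 d0 d1 d2 * DD T) (Yc d0 d1 d2 T) := by
  intro x y h
  rw [Yc, Yc, ph_per d0 d1 d2 T ((cf_dvd d0 d1 d2 T).trans h),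
    lB10_per (((tb2_f0 d0 d1 d2).trans (dvd_mul_right _ _)).trans h)]

theorem Yc_mu (T : Finset Pg7) : Mu (Yc d0 d1 d2 T) := by
  intro x y
  rw [Yc, Yc, Yc, ph_mul, lB_mul]
  push_cast
  ring

theorem Yc_neg (T : Finset Pg7) (x : 𝓞 K) : Yc d0 d1 d2 T (-x) = -Yc d0 d1 d2 T x := by
  rw [Yc, Yc, ph_neg]
  have h : lB 1 0 (-x) ^ 2 = lB 1 0 x ^ 2 := by
    rw [neg_eq_neg_one_mul, lB_mul, lB_neg, mul_pow]
    have : sg2 (1 + 0) ^ 2 = 1 := by decide
    rw [this, one_mul]
  have h2 : ((lB 1 0 (-x) : ℤ) : ℂ) ^ 2 = ((lB 1 0 x : ℤ) : ℂ) ^ 2 := by exact_mod_cast h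
  rw [h2]
  push_cast
  ring

theorem psi_one_iff {S : Finset Pg7} {c : 𝓞 K} :
    ∏ q ∈ S, (psi q c + ch q c ^ 2) =
      open Classical in if ∀ q ∈ S, psi q c = 1 then 2 ^ S.card else 0 := by
  classical
  have key : ∀ q ∈ S, psi q c + ch q c ^ 2 = if psi q c = 1 then 2 else 0 := by
    intro q _
    by_cases h : q.1 ∣ c
    · rw [psi, ch_zero h]
      simp
    · rw [ch_sq h]
      have h1 : psi q c = 1 ∨ psi q c = -1 := by
        rw [psi]
        rcases ch_or h with h2 | h2 <;> rcases sg2_or (aa q * bE (rb c)) with h3 | h3 <;>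
          rw [h2, h3] <;> decide
      rcases h1 with h1 | h1 <;> rw [h1] <;> decide
  rw [Finset.prod_congr rfl key]
  by_cases h : ∀ q ∈ S, psi q c = 1
  · rw [if_pos h]
    rw [Finset.prod_congr rfl fun q hq => if_pos (h q hq), Finset.prod_const]
  · rw [if_neg h]
    push Not at h
    obtain ⟨q, hq, h1⟩ := h
    exact Finset.prod_eq_zero hq (if_neg h1)

/-- the sum over the subsets -/
theorem sum_Yc (S : Finset Pg7) (c : 𝓞 K) :
    ∑ T ∈ S.powerset, Yc d0 d1 d2 T c * ((chS (S \ T) c : ℤ) : ℂ) ^ 2 =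
      open Classical in 2 ^ S.card * (if ∀ q ∈ S, psi q c = 1 then Yc d0 d1 d2 ∅ c else 0) := by
  classical
  by_cases h : tb ∣ c
  · rw [Finset.sum_eq_zero fun T _ => by rw [Yc_tb d0 d1 d2 h, zero_mul], Yc_tb d0 d1 d2 h]
    simp
  have h1 : ∀ T ∈ S.powerset, Yc d0 d1 d2 T c * ((chS (S \ T) c : ℤ) : ℂ) ^ 2 =
      Yc d0 d1 d2 ∅ c * (((∏ q ∈ T, psi q c) * ∏ q ∈ S \ T, ch q c ^ 2 : ℤ) : ℂ) := by
    intro T _
    rw [Yc_not_tb d0 d1 d2 h, Yc_not_tb d0 d1 d2 h, ph_eq d0 d1 d2 T h, chS]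
    push_cast
    rw [Finset.prod_pow]
    simp only [psi]
    push_cast
    ring
  rw [Finset.sum_congr rfl h1, ← Finset.mul_sum]
  have h2 : (∑ T ∈ S.powerset, (((∏ q ∈ T, psi q c) * ∏ q ∈ S \ T, ch q c ^ 2 : ℤ) : ℂ)) =
      ((∏ q ∈ S, (psi q c + ch q c ^ 2) : ℤ) : ℂ) := by
    rw [Finset.prod_add]
    push_cast
    rfl
  rw [h2, psi_one_iff]
  split_ifs <;> push_cast <;> ring

theorem kp_pd : Pd (f0 d0 d1 d2) (kp d0 d1 d2) := by
  classical
  intro x y h
  have h1 : tb ^ 2 ∣ x - y := (tb2_f0 d0 d1 d2).trans h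
  have h2 : bE (rb x) = bE (rb y) := by
    rw [tb2_dvd, map_sub] at h1
    exact bE_per h1
  have h3 : tb ∣ x ↔ tb ∣ y := by
    have h4 : tb ∣ x - y := (dvd_pow_self _ two_ne_zero).trans h1
    exact ⟨fun h5 => by simpa using dvd_sub h5 h4, fun h5 => by simpa using dvd_add h4 h5⟩
  have h4 : ph d0 d1 d2 ∅ x = ph d0 d1 d2 ∅ y := by
    refine ph_per d0 d1 d2 ∅ ((cf_dvd d0 d1 d2 ∅).trans ?_)
    rw [DD, Finset.prod_empty, mul_one]
    exact h
  rw [kp, kp, h2, h3, h4]

theorem VS_congr {S : Finset Pg7} {w : 𝓞 K} {F G : 𝓞 K → ℂ} (h : ∀ x, F x = G x) :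
    VS S w F = VS S w G := by rw [show F = G from funext h]

/-- **the average** -/
theorem AVG {F : ℂ → ℂ} (hF : LP F) (hodd : ∀ z, F (-z) = -F z) (S : Finset Pg7) {α : 𝓞 K}
    (hα : f0 d0 d1 d2 ∣ α * DD S - 1) :
    ∑ T ∈ S.powerset, SE F (f0 d0 d1 d2 * DD S)
        (fun c => Yc d0 d1 d2 T c * ((chS (S \ T) c : ℤ) : ℂ) ^ 2) =
      2 ^ (S.card + 1) * SM (f0 d0 d1 d2) fun t => kp d0 d1 d2 t *
        VS S (f0 d0 d1 d2) fun x => F (em x / em (DD S) + em (α * t) / em (f0 d0 d1 d2)) := by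
  classical
  set f : 𝓞 K := f0 d0 d1 d2 with hf
  set D : 𝓞 K := DD S with hDdef
  have hf0 : f ≠ 0 := f0_ne d0 d1 d2
  have hD0 : D ≠ 0 := DD_ne S
  have hfD : f * D ≠ 0 := mul_ne_zero hf0 hD0
  have hcop : IsCoprime f D := f0_cop d0 d1 d2 S
  have emf := em_ne hf0
  have emD := em_ne hD0
  -- the sum over the subsets
  have e1 : ∑ T ∈ S.powerset, SE F (f * D)
      (fun c => Yc d0 d1 d2 T c * ((chS (S \ T) c : ℤ) : ℂ) ^ 2) =
      2 ^ S.card * SM (f * D) fun c =>
        (if ∀ q ∈ S, psi q c = 1 then Yc d0 d1 d2 ∅ c else 0) * F (em c / em (f * D)) := by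
    simp only [SE]
    rw [← SM_sum hfD, ← SM_mul_left hfD]
    refine SM_congr fun c => ?_
    rw [← Finset.sum_mul, sum_Yc]
    ring
  -- periods
  have hpsi : ∀ x y : 𝓞 K, f * D ∣ x - y → ∀ q ∈ S, psi q x = psi q y := by
    intro x y h q hq
    have h1 : tb ^ 2 ∣ x - y := ((tb2_f0 d0 d1 d2).trans (dvd_mul_right _ _)).trans h
    have h2 : q.1 ∣ x - y := ((Finset.dvd_prod_of_mem _ hq).trans (dvd_mul_left _ _)).trans h
    rw [tb2_dvd, map_sub] at h1
    rw [psi, psi, bE_per h1, ch_per q h2]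
  have hY0 : Pd f (Yc d0 d1 d2 ∅) := by
    have := Yc_pd d0 d1 d2 ∅
    rwa [DD, Finset.prod_empty, mul_one] at this
  have hG : Pd (f * D) fun c => (if ∀ q ∈ S, psi q c = 1 then Yc d0 d1 d2 ∅ c else 0) *
      F (em c / em (f * D)) := by
    refine Pd.mul (fun x y h => ?_) (hF.pd hfD)
    rw [hY0 x y ((dvd_mul_right _ _).trans h)]
    refine if_congr ?_ rfl rfl
    exact forall₂_congr fun q hq => by rw [hpsi x y h q hq]
  -- the part of the sum with `1` modulo `ab²`
  set K0 : 𝓞 K → ℂ := fun t => kp d0 d1 d2 (D * t) *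
    VS S f fun x => F (em x / em D + em t / em f) with hK0
  have e2 : ∀ t : 𝓞 K, (SM D fun x => (if ∀ q ∈ S, psi q (D * t + f * x) = 1 then
      Yc d0 d1 d2 ∅ (D * t + f * x) else 0) * F (em (D * t + f * x) / em (f * D))) =
      K0 t + K0 (-t) := by
    intro t
    have a1 : ∀ x : 𝓞 K, em (D * t + f * x) / em (f * D) = em x / em D + em t / em f := by
      intro x
      rw [em_add, em_mul, em_mul, em_mul]
      field_simp
      ring
    have a2 : ∀ x : 𝓞 K, Yc d0 d1 d2 ∅ (D * t + f * x) = Yc d0 d1 d2 ∅ (D * t) := fun x =>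
      hY0 _ _ ⟨x, by ring⟩
    have a3 : ∀ x : 𝓞 K, bE (rb (D * t + f * x)) = bE (rb (D * t)) := by
      intro x
      refine bE_per ?_
      rw [← map_sub, ← tb2_dvd]
      exact (tb2_f0 d0 d1 d2).trans ⟨x, by ring⟩
    have a4 : ∀ x : 𝓞 K, ∀ q ∈ S, psi q (D * t + f * x) =
        sg2 (aa q * bE (rb (D * t))) * ch q (f * x) := by
      intro x q hq
      rw [psi, a3, ch_per q (x := D * t + f * x) (y := f * x)]
      have e : D * t + f * x - f * x = D * t := by ring
      rw [e]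
      exact (Finset.dvd_prod_of_mem _ hq).trans (dvd_mul_right _ _)
    have a5 : ∀ x : 𝓞 K, ((if ∀ q ∈ S, psi q (D * t + f * x) = 1 then
        Yc d0 d1 d2 ∅ (D * t + f * x) else 0) * F (em (D * t + f * x) / em (f * D))) =
        Yc d0 d1 d2 ∅ (D * t) * (if ∀ q ∈ S, sg2 (aa q * bE (rb (D * t))) * ch q (f * x) = 1 then
          F (em x / em D + em t / em f) else 0) := by
      intro x
      rw [a1, a2]
      have : (∀ q ∈ S, psi q (D * t + f * x) = 1) ↔
          ∀ q ∈ S, sg2 (aa q * bE (rb (D * t))) * ch q (f * x) = 1 :=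
        forall₂_congr fun q hq => by rw [a4 x q hq]
      rw [if_congr this rfl rfl]
      split_ifs <;> ring
    rw [SM_congr a5, SM_mul_left hD0]
    by_cases hb : tb ∣ D * t
    · have hb' : tb ∣ D * -t := by
        rw [mul_neg]
        exact hb.neg_right
      rw [Yc_tb d0 d1 d2 hb, hK0]
      simp only [kp]
      rw [if_neg (fun h => h.2 hb), if_neg (fun h => h.2 hb')]
      ring
    · have hb' : ¬ tb ∣ D * -t := by
        rw [mul_neg]
        intro h
        exact hb (by simpa using h.neg_right)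
      have hbn : bE (rb (D * -t)) = bE (rb (D * t)) + 1 := by
        rw [mul_neg, map_neg]
        exact bE_neg (odd_rb hb)
      have hi : ∀ i : ZMod 2, i = 0 ∨ i = 1 := by decide
      rw [Yc_not_tb d0 d1 d2 hb, hK0]
      simp only [kp]
      rcases hi (bE (rb (D * t))) with h0 | h0
      · rw [if_pos ⟨h0, hb⟩, if_neg (fun h => by
          rw [hbn, h0] at h
          exact absurd h.1 (by decide)), zero_mul, add_zero, VS]
        congr 1
        refine SM_congr fun x => ?_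
        have : (∀ q ∈ S, sg2 (aa q * bE (rb (D * t))) * ch q (f * x) = 1) ↔
            ∀ q ∈ S, ch q (f * x) = 1 :=
          forall₂_congr fun q _ => by rw [h0, mul_zero, sg2_zero, one_mul]
        rw [if_congr this rfl rfl]
      · rw [if_neg (fun h => by
          rw [h0] at h
          exact absurd h.1 (by decide)), zero_mul, zero_add, if_pos ⟨by rw [hbn, h0]; decide, hb'⟩]
        have h3 : (ph d0 d1 d2 ∅ (D * -t) : ℂ) = -(ph d0 d1 d2 ∅ (D * t) : ℂ) := by
          rw [mul_neg, ph_neg]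
          push_cast
          ring
        rw [h3, neg_mul, ← mul_neg]
        congr 1
        have h4 : Pd D fun x => if ∀ q ∈ S, ch q (f * x) = 1 then
            F (em x / em D + em (-t) / em f) else 0 := by
          intro x y h
          have h5 : ∀ q ∈ S, ch q (f * x) = ch q (f * y) := fun q hq => ch_per q (by
            rw [← mul_sub]
            exact ((Finset.dvd_prod_of_mem _ hq).trans h).mul_left _)
          have h6 : F (em x / em D + em (-t) / em f) = F (em y / em D + em (-t) / em f) := by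
            refine hF.cg ?_
            have e : em x / em D + em (-t) / em f - (em y / em D + em (-t) / em f) =
                em x / em D - em y / em D := by ring
            rw [e]
            exact div_sub_mem hD0 h
          dsimp only
          rw [h6]
          exact if_congr (forall₂_congr fun q hq => by rw [h5 q hq]) rfl rfl
        rw [VS, ← SM_neg hD0 h4, ← SM_negv hD0]
        refine SM_congr fun x => ?_
        have h5 : ∀ q ∈ S, ch q (f * -x) = sg2 (aa q * bE (rb (D * t))) * ch q (f * x) := by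
          intro q _
          have e : f * -x = -1 * (f * x) := by ring
          rw [e, ch_mul, ch_neg_one, h0, mul_one]
        have h6 : (∀ q ∈ S, ch q (f * -x) = 1) ↔
            ∀ q ∈ S, sg2 (aa q * bE (rb (D * t))) * ch q (f * x) = 1 :=
          forall₂_congr fun q hq => by rw [h5 q hq]
        have h7 : F (em (-x) / em D + em (-t) / em f) = -F (em x / em D + em t / em f) := by
          rw [← hodd, em_neg, em_neg]
          congr 1
          ring
        rw [if_congr h6 rfl rfl, h7]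
        split_ifs <;> ring
  have hK0p : Pd f K0 := by
    intro x y h
    have h1 : kp d0 d1 d2 (D * x) = kp d0 d1 d2 (D * y) := kp_pd d0 d1 d2 _ _ (by
      rw [← mul_sub]
      exact h.mul_left _)
    rw [hK0]
    change kp d0 d1 d2 (D * x) * _ = kp d0 d1 d2 (D * y) * _
    rw [h1]
    congr 1
    refine VS_congr fun z => hF.cg ?_
    have e : em z / em D + em x / em f - (em z / em D + em y / em f) =
        em x / em f - em y / em f := by ring
    rw [e]
    exact div_sub_mem hf0 h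
  rw [e1, SM_crt hf0 hD0 hcop hG, SM_congr e2, SM_add hf0, SM_neg hf0 hK0p]
  -- the substitution by `α`
  have hαf : IsCoprime α f := by
    obtain ⟨m, hm⟩ := hα
    exact ⟨D, -m, by linear_combination hm⟩
  rw [← SM_mul hf0 hK0p hαf]
  have e3 : ∀ t : 𝓞 K, K0 (α * t) = kp d0 d1 d2 t *
      VS S f fun x => F (em x / em D + em (α * t) / em f) := by
    intro t
    rw [hK0]
    change kp d0 d1 d2 (D * (α * t)) * _ = _
    rw [kp_pd d0 d1 d2 (D * (α * t)) t]
    obtain ⟨m, hm⟩ := hα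
    exact ⟨m * t, by linear_combination t * hm⟩
  rw [SM_congr e3]
  ring

end

end

end Pool.Agent.Lib.MP_1a91b9_ntV
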