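import Pool.Agent.Lib.MP_1a91b9_ntV.A.Prim7

/-!
# The field `ℚ(√-7)`: averaging over the subsets with a given parity

`avg_gen`: the average over the subsets `T` with `AA T = δ`. `AVGd`: the primitive sums without `ab` in the conductor.
-/

set_option autoImplicit false
set_option linter.unusedSectionVars false

namespace Pool.Agent.Lib.MP_1a91b9_ntV

open NumberField Pool.Agent.Lib.MP_1a91b9_nuT Pool.Agent.Lib.MP_1a91b9_nuT.S3
  Pool.Agent.Lib.MP_1a91b9_nuT.Ell Pool.Agent.Lib.MP_1a91b9_ntQ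

noncomputable section

variable [CD] [hv : V7]

/-- the pointwise average -/
theorem avg_pt (S : Finset Pg7) (δ : ZMod 2) (c : 𝓞 K) :
    2 * ∑ T ∈ S.powerset.filter (fun T => AA T = δ),
      ((chS T c : ℤ) : ℂ) * ((chS (S \ T) c : ℤ) : ℂ) ^ 2 =
      open Classical in 2 ^ S.card * ((if ∀ q ∈ S, ch q (1 * c) = 1 then (1 : ℂ) else 0) +
        ((sg2 δ : ℤ) : ℂ) * if ∀ q ∈ S, ch q (1 * -c) = 1 then 1 else 0) := by
  classical
  have h3 : ∀ e : 𝓞 K, ∏ q ∈ S, (ch q e + ch q e ^ 2) =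
      if ∀ q ∈ S, ch q (1 * e) = 1 then 2 ^ S.card else 0 := by
    intro e
    have key : ∀ q ∈ S, ch q e + ch q e ^ 2 = if ch q (1 * e) = 1 then 2 else 0 := by
      intro q _
      rw [one_mul]
      by_cases h : q.1 ∣ e
      · rw [ch_zero h]
        simp
      · rcases ch_or h with h1 | h1 <;> rw [h1] <;> decide
    rw [Finset.prod_congr rfl key]
    by_cases h : ∀ q ∈ S, ch q (1 * e) = 1
    · rw [if_pos h, Finset.prod_congr rfl fun q hq => if_pos (h q hq), Finset.prod_const]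
    · rw [if_neg h]
      push Not at h
      obtain ⟨q, hq, h1⟩ := h
      exact Finset.prod_eq_zero hq (if_neg h1)
  have h4 : ∀ e : 𝓞 K, ∏ q ∈ S, (ch q e + ch q e ^ 2) =
      ∑ T ∈ S.powerset, chS T e * chS (S \ T) e ^ 2 := by
    intro e
    rw [Finset.prod_add]
    refine Finset.sum_congr rfl fun T _ => ?_
    rw [chS, chS, Finset.prod_pow]
  have h5 : ∀ T : Finset Pg7, chS T (-c) = sg2 (AA T) * chS T c := by
    intro T
    rw [neg_eq_neg_one_mul, chS_mul, chS_neg_one]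
  have h6 : ∑ T ∈ S.powerset, chS T c * chS (S \ T) c ^ 2 +
      sg2 δ * ∑ T ∈ S.powerset, chS T (-c) * chS (S \ T) (-c) ^ 2 =
      2 * ∑ T ∈ S.powerset.filter (fun T => AA T = δ), chS T c * chS (S \ T) c ^ 2 := by
    rw [Finset.mul_sum, ← Finset.sum_add_distrib, Finset.mul_sum, Finset.sum_filter]
    refine Finset.sum_congr rfl fun T _ => ?_
    rw [h5, h5, mul_pow]
    have h7 : sg2 (AA (S \ T)) ^ 2 = 1 := by
      have := sg2_sq (AA (S \ T))
      rwa [← pow_two] at this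
    rw [h7]
    by_cases h : AA T = δ
    · rw [if_pos h, h]
      have h8 := sg2_sq δ
      linear_combination (chS T c * chS (S \ T) c ^ 2) * h8
    · rw [if_neg h]
      have h8 : sg2 δ * sg2 (AA T) = -1 := by
        revert h
        generalize AA T = u
        revert δ u
        decide
      linear_combination (chS T c * chS (S \ T) c ^ 2) * h8
  rw [← h4, ← h4, h3, h3] at h6
  have h8 := congrArg (Int.cast (R := ℂ)) h6
  push_cast at h8
  rw [← h8]
  split_ifs <;> ring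

/-- **the average** -/
theorem avg_gen (S : Finset Pg7) (δ : ZMod 2) {N : 𝓞 K} (hN : N ≠ 0) (hD : DD S ∣ N)
    {W : 𝓞 K → ℂ} (hW : Pd N W) (hodd : ∀ c, W (-c) = ((sg2 δ : ℤ) : ℂ) * W c) :
    ∑ T ∈ S.powerset.filter (fun T => AA T = δ),
      (SM N fun c => ((chS T c : ℤ) : ℂ) * ((chS (S \ T) c : ℤ) : ℂ) ^ 2 * W c) =
      open Classical in 2 ^ S.card * SM N fun c => if ∀ q ∈ S, ch q (1 * c) = 1 then W c else 0 := by
  classical
  have hP : Pd N fun c => if ∀ q ∈ S, ch q (1 * c) = 1 then W c else 0 := by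
    intro x y h
    dsimp only
    rw [hW x y h]
    refine if_congr (forall₂_congr fun q hq => ?_) rfl rfl
    rw [ch_per q (x := 1 * x) (y := 1 * y)]
    rw [one_mul, one_mul]
    exact ((Finset.dvd_prod_of_mem _ hq).trans hD).trans h
  have h3 : 2 * ∑ T ∈ S.powerset.filter (fun T => AA T = δ),
      (SM N fun c => ((chS T c : ℤ) : ℂ) * ((chS (S \ T) c : ℤ) : ℂ) ^ 2 * W c) =
      2 * (2 ^ S.card * SM N fun c => if ∀ q ∈ S, ch q (1 * c) = 1 then W c else 0) := by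
    rw [← SM_sum hN, ← SM_mul_left hN]
    have h4 : ∀ c : 𝓞 K, 2 * ∑ T ∈ S.powerset.filter (fun T => AA T = δ),
        ((chS T c : ℤ) : ℂ) * ((chS (S \ T) c : ℤ) : ℂ) ^ 2 * W c =
        2 ^ S.card * (if ∀ q ∈ S, ch q (1 * c) = 1 then W c else 0) +
        2 ^ S.card * (if ∀ q ∈ S, ch q (1 * -c) = 1 then W (-c) else 0) := by
      intro c
      have h8 : ((sg2 δ : ℤ) : ℂ) * ((sg2 δ : ℤ) : ℂ) = 1 := by exact_mod_cast sg2_sq δ
      rw [← Finset.sum_mul, ← mul_assoc, avg_pt, hodd]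
      split_ifs <;> ring
    rw [SM_congr h4, SM_add hN, SM_mul_left hN, SM_mul_left hN]
    have h5 := SM_neg hN hP
    rw [h5]
    ring
  exact mul_left_cancel₀ two_ne_zero h3

/-! ### the characters without `ab` in the conductor -/

section
variable {d0 d1 : ZMod 2}

theorem ph_d (T : Finset Pg7) (hT : AA T = d0 + d1) (x : 𝓞 K) :
    ph d0 d1 0 T x = lA (1 + d0) d1 x * chS T x := by
  rw [ph, hT]
  have e : d0 + d1 + (d0 + d1) = 0 := by
    have : ∀ u : ZMod 2, u + u = 0 := by decide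
    exact this _
  rw [e, lB, lc_zero, mul_one, add_zero]

theorem cf_d (T : Finset Pg7) (hT : AA T = d0 + d1) :
    cf d0 d1 0 T = ta ^ ce (1 + d0) d1 * DD T := by
  rw [cf, hT]
  have e : d0 + d1 + (d0 + d1) = 0 := by
    have : ∀ u : ZMod 2, u + u = 0 := by decide
    exact this _
  rw [e, ce_zero, pow_zero, mul_one, add_zero]

/-- **the relation of the primitive sums without `ab` in the conductor** -/
theorem AVGd {F : ℂ → ℂ} (hF : LP F) (hodd : ∀ z, F (-z) = -F z) (S : Finset Pg7) {β : 𝓞 K}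
    (hβ : ta ^ ce (1 + d0) d1 ∣ β * DD S - 1) :
    ∑ T ∈ S.powerset.filter (fun T => AA T = d0 + d1),
      SE F (ta ^ ce (1 + d0) d1 * DD S)
        (fun c => ((ph d0 d1 0 T c : ℤ) : ℂ) * ((chS (S \ T) c : ℤ) : ℂ) ^ 2) =
      2 ^ S.card * VS S (ta ^ ce (1 + d0) d1) fun x => OPA (1 + d0) d1 F β (MP_1a91b9_ntQ.em x / MP_1a91b9_ntQ.em (DD S)) := by
  classical
  set M : 𝓞 K := ta ^ ce (1 + d0) d1 with hM
  have hM0 : M ≠ 0 := ta_pow_ne _
  have hD0 : DD S ≠ 0 := DD_ne S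
  have hN0 : M * DD S ≠ 0 := mul_ne_zero hM0 hD0
  have emM := em_ne hM0
  have emD := em_ne hD0
  have hcop : IsCoprime M (DD S) := (DD_cop_ta S).symm.pow_left
  set W : 𝓞 K → ℂ := fun c => ((lA (1 + d0) d1 c : ℤ) : ℂ) * F (MP_1a91b9_ntQ.em c / MP_1a91b9_ntQ.em (M * DD S)) with hW
  have hWp : Pd (M * DD S) W :=
    Pd.mul ((lA_pd (1 + d0) d1).of_dvd (dvd_mul_right _ _)) (hF.pd hN0)
  have hWo : ∀ c, W (-c) = ((sg2 (d0 + d1) : ℤ) : ℂ) * W c := by
    intro c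
    rw [hW]
    dsimp only
    have h1 : lA (1 + d0) d1 (-c) = sg2 (1 + d0 + d1) * lA (1 + d0) d1 c := by
      rw [neg_eq_neg_one_mul, lA_mul, lA_neg]
    have h2 : F (MP_1a91b9_ntQ.em (-c) / MP_1a91b9_ntQ.em (M * DD S)) = -F (MP_1a91b9_ntQ.em c / MP_1a91b9_ntQ.em (M * DD S)) := by
      rw [em_neg, neg_div, hodd]
    have h3 : sg2 (1 + d0 + d1) = -sg2 (d0 + d1) :=
      (by decide : ∀ a b : ZMod 2, sg2 (1 + a + b) = -sg2 (a + b)) d0 d1
    rw [h1, h2, h3]
    push_cast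
    ring
  have h1 := avg_gen S (d0 + d1) hN0 (dvd_mul_left _ _) hWp hWo
  have h2 : ∀ T ∈ S.powerset.filter (fun T => AA T = d0 + d1),
      SE F (M * DD S) (fun c => ((ph d0 d1 0 T c : ℤ) : ℂ) * ((chS (S \ T) c : ℤ) : ℂ) ^ 2) =
      SM (M * DD S) fun c => ((chS T c : ℤ) : ℂ) * ((chS (S \ T) c : ℤ) : ℂ) ^ 2 * W c := by
    intro T hT
    rw [SE]
    refine SM_congr fun c => ?_
    rw [ph_d T (Finset.mem_filter.1 hT).2, hW]
    push_cast
    ring
  rw [Finset.sum_congr rfl h2, h1]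
  congr 1
  have hP : Pd (M * DD S) fun c => if ∀ q ∈ S, ch q (1 * c) = 1 then W c else 0 := by
    intro x y h
    dsimp only
    rw [hWp x y h]
    refine if_congr (forall₂_congr fun q hq => ?_) rfl rfl
    rw [ch_per q (x := 1 * x) (y := 1 * y)]
    rw [one_mul, one_mul]
    exact ((Finset.dvd_prod_of_mem _ hq).trans (dvd_mul_left _ _)).trans h
  rw [SM_crt hM0 hD0 hcop hP]
  have h3 : ∀ s : 𝓞 K, (SM (DD S) fun x => if ∀ q ∈ S, ch q (1 * (DD S * s + M * x)) = 1 then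
      W (DD S * s + M * x) else 0) =
      ((lA (1 + d0) d1 (DD S * s) : ℤ) : ℂ) *
        VS S M fun x => F (MP_1a91b9_ntQ.em x / MP_1a91b9_ntQ.em (DD S) + MP_1a91b9_ntQ.em s / MP_1a91b9_ntQ.em M) := by
    intro s
    rw [VS, ← SM_mul_left hD0]
    refine SM_congr fun x => ?_
    have e1 : (∀ q ∈ S, ch q (1 * (DD S * s + M * x)) = 1) ↔ ∀ q ∈ S, ch q (M * x) = 1 := by
      refine forall₂_congr fun q hq => ?_
      rw [ch_per q (x := 1 * (DD S * s + M * x)) (y := M * x)]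
      have e : 1 * (DD S * s + M * x) - M * x = DD S * s := by ring
      rw [e]
      exact (Finset.dvd_prod_of_mem _ hq).trans (dvd_mul_right _ _)
    have e2 : lA (1 + d0) d1 (DD S * s + M * x) = lA (1 + d0) d1 (DD S * s) :=
      lA_per _ _ ⟨x, by ring⟩
    have e3 : MP_1a91b9_ntQ.em (DD S * s + M * x) / MP_1a91b9_ntQ.em (M * DD S) = MP_1a91b9_ntQ.em x / MP_1a91b9_ntQ.em (DD S) + MP_1a91b9_ntQ.em s / MP_1a91b9_ntQ.em M := by
      rw [em_add, em_mul, em_mul, em_mul]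
      field_simp
      ring
    rw [if_congr e1 rfl rfl, hW]
    dsimp only
    rw [e2, e3]
    split_ifs <;> ring
  rw [SM_congr h3]
  have hβM : IsCoprime β M := by
    obtain ⟨m, hm⟩ := hβ
    exact ⟨DD S, -m, by linear_combination hm⟩
  have hK : Pd M fun s => ((lA (1 + d0) d1 (DD S * s) : ℤ) : ℂ) *
        VS S M fun x => F (MP_1a91b9_ntQ.em x / MP_1a91b9_ntQ.em (DD S) + MP_1a91b9_ntQ.em s / MP_1a91b9_ntQ.em M) := by
    refine Pd.mul (fun x y h => ?_) (fun x y h => ?_)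
    · exact lA_pd (1 + d0) d1 _ _ (by
        rw [← mul_sub]
        exact h.mul_left _)
    · refine VS_congr fun z => hF.cg ?_
      have e : MP_1a91b9_ntQ.em z / MP_1a91b9_ntQ.em (DD S) + MP_1a91b9_ntQ.em x / MP_1a91b9_ntQ.em M - (MP_1a91b9_ntQ.em z / MP_1a91b9_ntQ.em (DD S) + MP_1a91b9_ntQ.em y / MP_1a91b9_ntQ.em M) =
        MP_1a91b9_ntQ.em x / MP_1a91b9_ntQ.em M - MP_1a91b9_ntQ.em y / MP_1a91b9_ntQ.em M := by ring
      rw [e]
      exact div_sub_mem hM0 h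
  rw [← SM_mul hM0 hK hβM]
  have h4 : ∀ s : 𝓞 K, ((lA (1 + d0) d1 (DD S * (β * s)) : ℤ) : ℂ) *
      (VS S M fun x => F (MP_1a91b9_ntQ.em x / MP_1a91b9_ntQ.em (DD S) + MP_1a91b9_ntQ.em (β * s) / MP_1a91b9_ntQ.em M)) =
      ((lA (1 + d0) d1 s : ℤ) : ℂ) * VS S M fun x => F (MP_1a91b9_ntQ.em x / MP_1a91b9_ntQ.em (DD S) + MP_1a91b9_ntQ.em (β * s) / MP_1a91b9_ntQ.em M) := by
    intro s
    have e : lA (1 + d0) d1 (DD S * (β * s)) = lA (1 + d0) d1 s := by
      refine lA_per _ _ ?_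
      obtain ⟨m, hm⟩ := hβ
      exact ⟨m * s, by linear_combination s * hm⟩
    rw [e]
  rw [SM_congr h4, VS_SM hM0]
  rfl

end

end

end Pool.Agent.Lib.MP_1a91b9_ntV
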