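import Pool.Agent.Lib.MP_1a91b9_ntV.A.Vs7

/-!
# The field `ℚ(√-7)`: the right sides of the relations modulo the place `a`

`Rho S`: the sum of `xi` over the square classes. `R_rho`: the right side is congruent to `Rho S` for all the classes
with even conductor at `a`. `R_two`: the class `D₀ = ab`; `Rho_eq`: the value of `Rho S`.
-/

set_option autoImplicit false
set_option linter.unusedSectionVars false

namespace Pool.Agent.Lib.MP_1a91b9_ntV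

open NumberField Pool.Agent.Lib.MP_1a91b9_nuT Pool.Agent.Lib.MP_1a91b9_nuT.S3
  Pool.Agent.Lib.MP_1a91b9_nuT.Ell Pool.Agent.Lib.MP_1a91b9_ntQ

noncomputable section

variable [CD] [hv : V7]

theorem exists_inv {M c : 𝓞 K} (h : IsCoprime c M) : ∃ b, M ∣ c * b - 1 := by
  obtain ⟨x, y, e⟩ := h
  exact ⟨x, -y, by linear_combination e⟩

/-- an inverse of `DD S` modulo `ab³` -/
def iv (S : Finset Pg7) : 𝓞 K := (exists_inv (M := tb ^ 3) (DD_cop_tb S).pow_right).choose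

theorem iv_spec (S : Finset Pg7) : tb ^ 3 ∣ DD S * iv S - 1 :=
  (exists_inv (M := tb ^ 3) (DD_cop_tb S).pow_right).choose_spec

theorem not_tb_of {c x : 𝓞 K} {n : ℕ} (hn : n ≠ 0) (h : tb ^ n ∣ c * x - 1) : ¬ tb ∣ x := by
  intro h1
  have h2 : tb ∣ c * x - 1 := (dvd_pow_self _ hn).trans h
  have h3 : tb ∣ (1 : 𝓞 K) := by
    have := dvd_sub (h1.mul_left c) h2
    rwa [sub_sub_cancel] at this
  exact tb_prime.not_dvd_one h3

theorem not_ta_of {c x : 𝓞 K} {n : ℕ} (hn : n ≠ 0) (h : ta ^ n ∣ c * x - 1) : ¬ ta ∣ x := by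
  intro h1
  have h2 : ta ∣ c * x - 1 := (dvd_pow_self _ hn).trans h
  have h3 : ta ∣ (1 : 𝓞 K) := by
    have := dvd_sub (h1.mul_left c) h2
    rwa [sub_sub_cancel] at this
  exact ta_prime.not_dvd_one h3

/-- the sum of `xi` over the square classes -/
def Rho (S : Finset Pg7) : ℂ :=
  VS S 1 fun x => xi (MP_1a91b9_ntQ.em x / MP_1a91b9_ntQ.em (DD S) + MP_1a91b9_ntQ.em (iv S) / ab ^ 2)

/-- the points of the sums -/
theorem Og_w (S : Finset Pg7) (x β : 𝓞 K) (i : ℕ) {γ : 𝓞 K} (hγ : ¬ tb ∣ γ) {j : ℕ} (hj : 2 ≤ j) :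
    Og (MP_1a91b9_ntQ.em x / MP_1a91b9_ntQ.em (DD S) + MP_1a91b9_ntQ.em β / zt ^ i + MP_1a91b9_ntQ.em γ / ab ^ j) := by
  refine Og_tb (M := DD S * ta ^ i) (mul_ne_zero (DD_ne S) (ta_pow_ne i))
    (not_tb_mul (DD_tb S) (fun h => tb_not_taA (tb_prime.dvd_of_dvd_pow h))) hγ ?_ hj
  have h1 := em_ne (DD_ne S)
  have h2 := zt_ne0
  have e : MP_1a91b9_ntQ.em (DD S * ta ^ i) * (MP_1a91b9_ntQ.em x / MP_1a91b9_ntQ.em (DD S) + MP_1a91b9_ntQ.em β / zt ^ i) = MP_1a91b9_ntQ.em (ta ^ i * x + DD S * β) := by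
    rw [em_mul, em_ta_pow, em_add, em_mul, em_mul, em_ta_pow]
    field_simp
  rw [e]
  exact em_mem _

theorem Og_w0 (S : Finset Pg7) (x : 𝓞 K) {γ : 𝓞 K} (hγ : ¬ tb ∣ γ) {j : ℕ} (hj : 2 ≤ j) :
    Og (MP_1a91b9_ntQ.em x / MP_1a91b9_ntQ.em (DD S) + MP_1a91b9_ntQ.em γ / ab ^ j) := by
  have h := Og_w S x 0 0 hγ hj
  rwa [em_zero, zero_div, add_zero] at h

theorem xi_DD_pd (S : Finset Pg7) (u : ℂ) : Pd (DD S) fun x => xi (MP_1a91b9_ntQ.em x / MP_1a91b9_ntQ.em (DD S) + u) := by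
  intro x y h
  refine xi_cg ?_
  have e : MP_1a91b9_ntQ.em x / MP_1a91b9_ntQ.em (DD S) + u - (MP_1a91b9_ntQ.em y / MP_1a91b9_ntQ.em (DD S) + u) = MP_1a91b9_ntQ.em x / MP_1a91b9_ntQ.em (DD S) - MP_1a91b9_ntQ.em y / MP_1a91b9_ntQ.em (DD S) := by
    ring
  rw [e]
  exact div_sub_mem (DD_ne S) h

variable {B : ValuationSubring ℂ}

/-- the reduction of the sums to `Rho S` -/
theorem Rho_cg (hB : te ∉ B) {S : Finset Pg7} {w c γ : 𝓞 K} (β : 𝓞 K) (i : ℕ)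
    (hw : ∀ q ∈ S, ch q w = ch q c) (hc : ∀ q ∈ S, ¬ q.1 ∣ c) (hγ : tb ^ 2 ∣ DD S * γ - 1) :
    B.valuation (VS S w (fun x => xi (MP_1a91b9_ntQ.em (c * x) / MP_1a91b9_ntQ.em (DD S) + MP_1a91b9_ntQ.em β / zt ^ i + MP_1a91b9_ntQ.em γ / ab ^ 2)) -
      Rho S) < 1 := by
  have e1 : VS S w (fun x => xi (MP_1a91b9_ntQ.em (c * x) / MP_1a91b9_ntQ.em (DD S) + MP_1a91b9_ntQ.em β / zt ^ i + MP_1a91b9_ntQ.em γ / ab ^ 2)) =
      VS S 1 fun x => xi (MP_1a91b9_ntQ.em x / MP_1a91b9_ntQ.em (DD S) + (MP_1a91b9_ntQ.em β / zt ^ i + MP_1a91b9_ntQ.em γ / ab ^ 2)) := by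
    rw [VS_cl hw, ← VS_sub (w := 1) (xi_DD_pd S _) (cop_DD_iff.2 hc), one_mul]
    exact VS_congr fun x => by rw [add_assoc]
  rw [e1, Rho]
  refine VS_v_sub fun x _ => ?_
  have hg := Og_w0 S x (not_tb_of three_ne_zero (iv_spec S)) (le_refl 2)
  have e2 : MP_1a91b9_ntQ.em x / MP_1a91b9_ntQ.em (DD S) + (MP_1a91b9_ntQ.em β / zt ^ i + MP_1a91b9_ntQ.em γ / ab ^ 2) =
      MP_1a91b9_ntQ.em x / MP_1a91b9_ntQ.em (DD S) + MP_1a91b9_ntQ.em (iv S) / ab ^ 2 +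
        (MP_1a91b9_ntQ.em β / zt ^ i + (MP_1a91b9_ntQ.em γ / MP_1a91b9_ntQ.em (tb ^ 2) - MP_1a91b9_ntQ.em (iv S) / MP_1a91b9_ntQ.em (tb ^ 2))) := by
    rw [em_tb_pow]
    ring
  rw [e2]
  refine xi_tor hB i hg ?_
  have hz := zt_ne0
  have e3 : zt ^ i * (MP_1a91b9_ntQ.em β / zt ^ i + (MP_1a91b9_ntQ.em γ / MP_1a91b9_ntQ.em (tb ^ 2) - MP_1a91b9_ntQ.em (iv S) / MP_1a91b9_ntQ.em (tb ^ 2))) =
      MP_1a91b9_ntQ.em β + zt ^ i * (MP_1a91b9_ntQ.em γ / MP_1a91b9_ntQ.em (tb ^ 2) - MP_1a91b9_ntQ.em (iv S) / MP_1a91b9_ntQ.em (tb ^ 2)) := by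
    field_simp
  rw [e3]
  refine add_mem (em_mem _) (zt_pow_mem (div_sub_mem (tb_pow_ne 2) ?_) i)
  have h1 : tb ^ 2 ∣ DD S * (γ - iv S) := by
    have h2 : tb ^ 2 ∣ DD S * iv S - 1 := (pow_dvd_pow _ (by norm_num)).trans (iv_spec S)
    have := dvd_sub hγ h2
    have e : DD S * γ - 1 - (DD S * iv S - 1) = DD S * (γ - iv S) := by ring
    rwa [e] at this
  exact (DD_cop_tb S).symm.pow_left.dvd_of_dvd_mul_left h1

theorem f_dvd {M N D β γ : 𝓞 K} (h : IsCoprime M N) (h1 : M ∣ N * D * β - 1) (h2 : N ∣ M * D * γ - 1) :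
    M * N ∣ (N * β + M * γ) * D - 1 := by
  refine h.mul_dvd ?_ ?_
  · have e : (N * β + M * γ) * D - 1 = (N * D * β - 1) + M * (γ * D) := by ring
    rw [e]
    exact dvd_add h1 (dvd_mul_right _ _)
  · have e : (N * β + M * γ) * D - 1 = (M * D * γ - 1) + N * (β * D) := by ring
    rw [e]
    exact dvd_add h2 (dvd_mul_right _ _)

theorem exists_bg (S : Finset Pg7) (i j : ℕ) : ∃ β γ : 𝓞 K, ta ^ i ∣ tb ^ j * DD S * β - 1 ∧
    tb ^ j ∣ ta ^ i * DD S * γ - 1 := by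
  obtain ⟨β, hβ⟩ := exists_inv (M := ta ^ i) (c := tb ^ j * DD S)
    (((ta_tb_cop.symm.pow_left).mul_left (DD_cop_ta S)).pow_right)
  obtain ⟨γ, hγ⟩ := exists_inv (M := tb ^ j) (c := ta ^ i * DD S)
    (((ta_tb_cop.pow_left).mul_left (DD_cop_tb S)).pow_right)
  exact ⟨β, γ, hβ, hγ⟩

theorem q_not_taA (q : Pg7) : ¬ q.1 ∣ (ta : 𝓞 K) := fun h =>
  q.not_ta ((q.prime.dvd_prime_iff_associated ta_prime).1 h).symm.dvd

theorem q_not_tbA (q : Pg7) : ¬ q.1 ∣ (tb : 𝓞 K) := fun h =>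
  q.not_tb ((q.prime.dvd_prime_iff_associated tb_prime).1 h).symm.dvd

theorem q_not_mul (q : Pg7) {x y : 𝓞 K} (hx : ¬ q.1 ∣ x) (hy : ¬ q.1 ∣ y) : ¬ q.1 ∣ x * y := fun h =>
  (q.prime.dvd_or_dvd h).elim hx hy

theorem ch_ta_pow (q : Pg7) (m n : ℕ) : ch q (ta ^ m * tb ^ n) = ch q ta ^ m * ch q tb ^ n := by
  have h1 : ∀ (x : 𝓞 K) (n : ℕ), ch q (x ^ n) = ch q x ^ n := by
    intro x n
    induction n with
    | zero => rw [pow_zero, pow_zero, ch_one]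
    | succ n ih => rw [pow_succ, pow_succ, ch_mul, ih]
  rw [ch_mul, h1, h1]

theorem ch_pm (q : Pg7) {x : 𝓞 K} (h : ¬ q.1 ∣ x) : ch q x ^ 2 = 1 := ch_sq h

theorem v_Iz : B.valuation Complex.I = 1 := v_I

theorem GG_eq (z : ℂ) : gg z = (zt ^ 2 / Complex.I) * GG z := by
  rw [GG]
  have := zt_ne0
  have hI := Complex.I_ne_zero
  field_simp

/-- `1` modulo `ab²` times an element congruent to `1` modulo `ab²` -/
theorem inv_sq {D γ c : 𝓞 K} (h : tb ^ 2 ∣ c * D * γ - 1) (hc : tb ^ 2 ∣ c - 1) :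
    tb ^ 2 ∣ D * γ - 1 := by
  have e : D * γ - 1 = (c * D * γ - 1) - (c - 1) * (D * γ) := by ring
  rw [e]
  exact dvd_sub h (hc.mul_right _)

theorem ta2_one : tb ^ 2 ∣ (ta : 𝓞 K) ^ 2 - 1 := by
  rw [tb2_dvd, map_sub, map_pow, rb_ta, map_one]
  decide

theorem ta4_one : tb ^ 2 ∣ (ta : 𝓞 K) ^ 4 - 1 := by
  rw [tb2_dvd, map_sub, map_pow, rb_ta, map_one]
  decide

theorem OPA_gg {β γ : 𝓞 K} (hβ : ¬ ta ∣ β) (z : ℂ) :
    OPA 1 0 (OPB 0 ee γ) β z = -gg (z + MP_1a91b9_ntQ.em β / zt ^ 2 + MP_1a91b9_ntQ.em γ / ab ^ 2) := by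
  rw [OPA_10 (LP_ee.opb 0 γ) hβ, OPB_0 LP_ee, OPB_0 LP_ee, gg]
  have e : z + MP_1a91b9_ntQ.em β / zt ^ 2 + te + MP_1a91b9_ntQ.em γ / ab ^ 2 = z + MP_1a91b9_ntQ.em β / zt ^ 2 + MP_1a91b9_ntQ.em γ / ab ^ 2 + te := by ring
  rw [e]
  ring

theorem OPA_gg1 {β γ : 𝓞 K} (hβ : ¬ ta ∣ β) (hγ : ¬ tb ∣ γ) (z : ℂ) :
    OPA 1 0 (OPB 1 ee γ) β z = -gg (z + MP_1a91b9_ntQ.em β / zt ^ 2 + MP_1a91b9_ntQ.em γ / ab ^ 3) +
      gg (z + MP_1a91b9_ntQ.em β / zt ^ 2 + MP_1a91b9_ntQ.em γ / ab ^ 3 + tf) := by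
  rw [OPA_10 (LP_ee.opb 1 γ) hβ, OPB_1 LP_ee hγ, OPB_1 LP_ee hγ, gg, gg]
  have e : z + MP_1a91b9_ntQ.em β / zt ^ 2 + te + MP_1a91b9_ntQ.em γ / ab ^ 3 = z + MP_1a91b9_ntQ.em β / zt ^ 2 + MP_1a91b9_ntQ.em γ / ab ^ 3 + te := by ring
  have e2 : z + MP_1a91b9_ntQ.em β / zt ^ 2 + MP_1a91b9_ntQ.em γ / ab ^ 3 + te + tf = z + MP_1a91b9_ntQ.em β / zt ^ 2 + MP_1a91b9_ntQ.em γ / ab ^ 3 + tf + te := by
    ring
  rw [e, e2]
  ring

theorem OPA_g3 (i : ZMod 2) {β γ : 𝓞 K} (hβ : ¬ ta ∣ β) (z : ℂ) :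
    OPA i 1 (OPB 0 ee γ) β z = -(gg (z + MP_1a91b9_ntQ.em β / zt ^ 3 + MP_1a91b9_ntQ.em γ / ab ^ 2) +
      ((sg2 (i + 1) : ℤ) : ℂ) * gg (z - MP_1a91b9_ntQ.em β / zt ^ 3 + MP_1a91b9_ntQ.em γ / ab ^ 2)) := by
  rw [OPA_i1 i (LP_ee.opb 0 γ) hβ, OPB_0 LP_ee, OPB_0 LP_ee, OPB_0 LP_ee, OPB_0 LP_ee, gg, gg]
  have e : z + MP_1a91b9_ntQ.em β / zt ^ 3 + te + MP_1a91b9_ntQ.em γ / ab ^ 2 = z + MP_1a91b9_ntQ.em β / zt ^ 3 + MP_1a91b9_ntQ.em γ / ab ^ 2 + te := by ring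
  have e2 : z - MP_1a91b9_ntQ.em β / zt ^ 3 + te + MP_1a91b9_ntQ.em γ / ab ^ 2 = z - MP_1a91b9_ntQ.em β / zt ^ 3 + MP_1a91b9_ntQ.em γ / ab ^ 2 + te := by ring
  rw [e, e2]
  ring

theorem OPA_g31 (i : ZMod 2) {β γ : 𝓞 K} (hβ : ¬ ta ∣ β) (hγ : ¬ tb ∣ γ) (z : ℂ) :
    OPA i 1 (OPB 1 ee γ) β z = -(gg (z + MP_1a91b9_ntQ.em β / zt ^ 3 + MP_1a91b9_ntQ.em γ / ab ^ 3) +
      ((sg2 (i + 1) : ℤ) : ℂ) * gg (z - MP_1a91b9_ntQ.em β / zt ^ 3 + MP_1a91b9_ntQ.em γ / ab ^ 3)) +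
      (gg (z + MP_1a91b9_ntQ.em β / zt ^ 3 + MP_1a91b9_ntQ.em γ / ab ^ 3 + tf) +
      ((sg2 (i + 1) : ℤ) : ℂ) * gg (z - MP_1a91b9_ntQ.em β / zt ^ 3 + MP_1a91b9_ntQ.em γ / ab ^ 3 + tf)) := by
  rw [OPA_i1 i (LP_ee.opb 1 γ) hβ, OPB_1 LP_ee hγ, OPB_1 LP_ee hγ, OPB_1 LP_ee hγ, OPB_1 LP_ee hγ,
    gg, gg, gg, gg]
  have e : z + MP_1a91b9_ntQ.em β / zt ^ 3 + te + MP_1a91b9_ntQ.em γ / ab ^ 3 = z + MP_1a91b9_ntQ.em β / zt ^ 3 + MP_1a91b9_ntQ.em γ / ab ^ 3 + te := by ring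
  have e2 : z - MP_1a91b9_ntQ.em β / zt ^ 3 + te + MP_1a91b9_ntQ.em γ / ab ^ 3 = z - MP_1a91b9_ntQ.em β / zt ^ 3 + MP_1a91b9_ntQ.em γ / ab ^ 3 + te := by ring
  have e3 : z + MP_1a91b9_ntQ.em β / zt ^ 3 + MP_1a91b9_ntQ.em γ / ab ^ 3 + te + tf = z + MP_1a91b9_ntQ.em β / zt ^ 3 + MP_1a91b9_ntQ.em γ / ab ^ 3 + tf + te := by
    ring
  have e4 : z - MP_1a91b9_ntQ.em β / zt ^ 3 + MP_1a91b9_ntQ.em γ / ab ^ 3 + te + tf = z - MP_1a91b9_ntQ.em β / zt ^ 3 + MP_1a91b9_ntQ.em γ / ab ^ 3 + tf + te := by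
    ring
  rw [e, e2, e3, e4]
  ring

/-- the hypothesis of `g_pair` -/
theorem pair_mem {β : 𝓞 K} (hβ : ¬ ta ∣ β) (z u : ℂ) :
    zt * (z - MP_1a91b9_ntQ.em β / zt ^ 3 + u) - (zt * (z + MP_1a91b9_ntQ.em β / zt ^ 3 + u) + te) ∈ PP.lattice := by
  have h4 := te_half (not_ta_mul hβ ta_not_tbA)
  have hz := zt_ne0
  have hab : ab = 2 / zt := by
    rw [eq_div_iff hz, mul_comm, zt_mul_ab]
  have e : zt * (z - MP_1a91b9_ntQ.em β / zt ^ 3 + u) - (zt * (z + MP_1a91b9_ntQ.em β / zt ^ 3 + u) + te) =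
      -(MP_1a91b9_ntQ.em (β * tb) / zt - te) - 2 * te := by
    rw [em_mul, em_tb, hab]
    field_simp
    ring
  rw [e]
  exact sub_mem (neg_mem h4) two_te_mem

theorem sg2_csq (u : ZMod 2) : ((sg2 u : ℤ) : ℂ) ^ 2 = 1 := by
  rcases sg2_or u with h | h <;> rw [h] <;> norm_num

/-- the residue of the square root of a sum -/
theorem Rt_of_sq (hB : (2 : ℂ)⁻¹ ∉ B) {x : ℂ} {r : ZMod 2} (h : Rt B (x ^ 2) r) : Rt B x r := by
  unfold Rt at h ⊢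
  refine v_sq_sub hB (v_nat _) ?_
  have hi : ∀ i : ZMod 2, i = 0 ∨ i = 1 := by decide
  have h2 : ((r.val : ℂ)) ^ 2 = (r.val : ℂ) := by
    rcases hi r with rfl | rfl
    · rw [ZMod.val_zero]; simp
    · rw [ZMod.val_one]; simp
  rwa [h2]

/-- the constants of the relations -/
def Cc (d1 : ZMod 2) : ℂ := if d1 = 0 then zt ^ 2 / Complex.I else r5

theorem Cc_ne (d1 : ZMod 2) : Cc d1 ≠ 0 := by
  rw [Cc]
  split_ifs
  · exact div_ne_zero (pow_ne_zero 2 zt_ne0) Complex.I_ne_zero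
  · exact r5_ne

/-- **the right sides of the classes with even conductor at `a`** -/
theorem R_rho (hB : te ∉ B) {d0 d1 d2 : ZMod 2} (hd : d1 = 1 ∨ d0 = d2) (S : Finset Pg7) {r : ZMod 2}
    (hr : Rt B (Rho S) r) :
    ∃ α, f0 d0 d1 d2 ∣ α * DD S - 1 ∧ Rt B (RH d0 d1 d2 ee α S / Cc d1) r := by
  have h2 := two_notMem hB
  have hi : ∀ i : ZMod 2, i = 0 ∨ i = 1 := by decide
  obtain ⟨β, γ, hβ, hγ⟩ := exists_bg S (ce (1 + d0 + d2) d1) (ce 1 d2)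
  refine ⟨tb ^ ce 1 d2 * β + ta ^ ce (1 + d0 + d2) d1 * γ, f_dvd (ta_tb_pow _ _) hβ hγ, ?_⟩
  rw [RH_eq d0 d1 d2 LP_ee]
  have hγb : ¬ tb ∣ γ := not_tb_of (by
    have := two_le_ce d2
    omega) hγ
  have hI := Complex.I_ne_zero
  have hz0 := zt_ne0
  -- a multiple of the valuation of the sum
  rcases hi d1 with rfl | rfl
  · -- `d1 = 0`
    have hd' : d0 = d2 := by
      rcases hd with h | h
      · exact absurd h (by decide)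
      · exact h
    subst hd'
    have e0 : (1 + d0 + d0 : ZMod 2) = 1 := by
      have : ∀ d : ZMod 2, (1 + d + d : ZMod 2) = 1 := by decide
      exact this d0
    rw [e0] at hβ hγ ⊢
    have hβa : ¬ ta ∣ β := not_ta_of (by decide) hβ
    have hC : Cc 0 = zt ^ 2 / Complex.I := if_pos rfl
    have hf0 : (f0 d0 0 d0 : 𝓞 K) = ta ^ 2 * tb ^ ce 1 d0 := by
      rw [f0, e0]
      rfl
    rw [hC]
    have hc2 : ce 1 0 = 2 := rfl
    have hc3 : ce 1 1 = 3 := rfl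
    rw [hc2] at hβ hγ
    rcases hi d0 with rfl | rfl
    · -- `D₀ = 1`
      rw [hc2] at hγ
      have hγ' : tb ^ 2 ∣ DD S * γ - 1 := inv_sq hγ ta2_one
      have key := Rho_cg hB (w := f0 0 0 0) (c := 1) (γ := γ) β 2 (S := S) (fun q _ => by
        rw [hf0, hc2, ch_ta_pow, ch_one, ch_pm q (q_not_taA q), ch_pm q (q_not_tbA q), one_mul])
        (fun q _ => fun h => q.prime.not_dvd_one h) hγ'
      have h3 : VS S (f0 0 0 0) (fun x => OPA 1 0 (OPB 0 ee γ) β (MP_1a91b9_ntQ.em x / MP_1a91b9_ntQ.em (DD S))) /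
          (zt ^ 2 / Complex.I) =
          -VS S (f0 0 0 0) fun x => GG (MP_1a91b9_ntQ.em x / MP_1a91b9_ntQ.em (DD S) + MP_1a91b9_ntQ.em β / zt ^ 2 + MP_1a91b9_ntQ.em γ / ab ^ 2) := by
        rw [← VS_neg', div_eq_iff (div_ne_zero (pow_ne_zero 2 hz0) hI), mul_comm, ← VS_mul_left]
        refine VS_congr fun x => ?_
        rw [OPA_gg hβa, GG_eq]
        ring
      rw [h3]
      refine Rt.neg h2 (hr.congr ?_)
      have h4 : B.valuation (VS S (f0 0 0 0) (fun x => GG (MP_1a91b9_ntQ.em x / MP_1a91b9_ntQ.em (DD S) + MP_1a91b9_ntQ.em β / zt ^ 2 + MP_1a91b9_ntQ.em γ / ab ^ 2)) -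
          VS S (f0 0 0 0) (fun x => xi (MP_1a91b9_ntQ.em (1 * x) / MP_1a91b9_ntQ.em (DD S) + MP_1a91b9_ntQ.em β / zt ^ 2 + MP_1a91b9_ntQ.em γ / ab ^ 2))) < 1 :=
        VS_v_sub fun x _ => by
          rw [one_mul]
          exact GG_xi hB (Og_w S x β 2 hγb le_rfl)
      have e : VS S (f0 0 0 0) (fun x => GG (MP_1a91b9_ntQ.em x / MP_1a91b9_ntQ.em (DD S) + MP_1a91b9_ntQ.em β / zt ^ 2 + MP_1a91b9_ntQ.em γ / ab ^ 2)) - Rho S =
          (VS S (f0 0 0 0) (fun x => GG (MP_1a91b9_ntQ.em x / MP_1a91b9_ntQ.em (DD S) + MP_1a91b9_ntQ.em β / zt ^ 2 + MP_1a91b9_ntQ.em γ / ab ^ 2)) -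
          VS S (f0 0 0 0) (fun x => xi (MP_1a91b9_ntQ.em (1 * x) / MP_1a91b9_ntQ.em (DD S) + MP_1a91b9_ntQ.em β / zt ^ 2 + MP_1a91b9_ntQ.em γ / ab ^ 2))) +
          (VS S (f0 0 0 0) (fun x => xi (MP_1a91b9_ntQ.em (1 * x) / MP_1a91b9_ntQ.em (DD S) + MP_1a91b9_ntQ.em β / zt ^ 2 + MP_1a91b9_ntQ.em γ / ab ^ 2)) - Rho S) := by
        ring
      rw [e]
      exact Valuation.map_add_lt _ h4 key
    · -- `D₀ = -ab`
      rw [hc3] at hγ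
      have hγ' : tb ^ 2 ∣ DD S * γ - 1 := inv_sq ((pow_dvd_pow _ (by norm_num)).trans hγ) ta2_one
      have key := Rho_cg hB (w := f0 1 0 1) (c := tb) (γ := γ) (tb * β) 2 (S := S) (fun q _ => by
        have h5 := ch_pm q (q_not_tbA q)
        rw [hf0, hc3, ch_ta_pow, ch_pm q (q_not_taA q), one_mul, pow_succ, h5, one_mul])
        (fun q _ => q_not_tbA q) hγ'
      have h3 : VS S (f0 1 0 1) (fun x => OPA 1 0 (OPB 1 ee γ) β (MP_1a91b9_ntQ.em x / MP_1a91b9_ntQ.em (DD S))) /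
          (zt ^ 2 / Complex.I) =
          VS S (f0 1 0 1) fun x => -GG (MP_1a91b9_ntQ.em x / MP_1a91b9_ntQ.em (DD S) + MP_1a91b9_ntQ.em β / zt ^ 2 + MP_1a91b9_ntQ.em γ / ab ^ 3) +
            GG (MP_1a91b9_ntQ.em x / MP_1a91b9_ntQ.em (DD S) + MP_1a91b9_ntQ.em β / zt ^ 2 + MP_1a91b9_ntQ.em γ / ab ^ 3 + tf) := by
        rw [div_eq_iff (div_ne_zero (pow_ne_zero 2 hz0) hI), mul_comm, ← VS_mul_left]
        refine VS_congr fun x => ?_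
        rw [OPA_gg1 hβa hγb, GG_eq, GG_eq (MP_1a91b9_ntQ.em x / MP_1a91b9_ntQ.em (DD S) + MP_1a91b9_ntQ.em β / zt ^ 2 + MP_1a91b9_ntQ.em γ / ab ^ 3 + tf)]
        ring
      rw [h3]
      refine hr.congr ?_
      have h4 : B.valuation (VS S (f0 1 0 1) (fun x =>
            -GG (MP_1a91b9_ntQ.em x / MP_1a91b9_ntQ.em (DD S) + MP_1a91b9_ntQ.em β / zt ^ 2 + MP_1a91b9_ntQ.em γ / ab ^ 3) +
            GG (MP_1a91b9_ntQ.em x / MP_1a91b9_ntQ.em (DD S) + MP_1a91b9_ntQ.em β / zt ^ 2 + MP_1a91b9_ntQ.em γ / ab ^ 3 + tf)) -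
          VS S (f0 1 0 1) (fun x => xi (MP_1a91b9_ntQ.em (tb * x) / MP_1a91b9_ntQ.em (DD S) + MP_1a91b9_ntQ.em (tb * β) / zt ^ 2 +
            MP_1a91b9_ntQ.em γ / ab ^ 2))) < 1 :=
        VS_v_sub fun x _ => by
          have hg := Og_w S x β 2 hγb (show 2 ≤ 3 by norm_num)
          have hg' := Og_w S (tb * x) (tb * β) 2 hγb (le_refl 2)
          have e5 : ab * (MP_1a91b9_ntQ.em x / MP_1a91b9_ntQ.em (DD S) + MP_1a91b9_ntQ.em β / zt ^ 2 + MP_1a91b9_ntQ.em γ / ab ^ 3) =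
              MP_1a91b9_ntQ.em (tb * x) / MP_1a91b9_ntQ.em (DD S) + MP_1a91b9_ntQ.em (tb * β) / zt ^ 2 + MP_1a91b9_ntQ.em γ / ab ^ 2 := by
            have := ab_ne
            rw [em_mul, em_mul, em_tb]
            field_simp
          set w : ℂ := MP_1a91b9_ntQ.em x / MP_1a91b9_ntQ.em (DD S) + MP_1a91b9_ntQ.em β / zt ^ 2 + MP_1a91b9_ntQ.em γ / ab ^ 3 with hw
          rw [← e5] at hg' ⊢
          have a1 := GG_xi hB hg
          have a2 := GG_xi hB hg.atf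
          have a3 := xi_ab' hB hg hg'
          have a4 : B.valuation (2 * xi w) < 1 := by
            rw [map_mul, v_xi hB hg, mul_one]
            exact two_lt h2
          have e6 : -GG w + GG (w + tf) - xi (ab * w) = -(GG w - xi w) + (GG (w + tf) - xi (w + tf)) +
              (xi w + xi (w + tf) - xi (ab * w)) - 2 * xi w := by ring
          rw [e6]
          exact Valuation.map_sub_lt _ (Valuation.map_add_lt _ (Valuation.map_add_lt _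
            (by rwa [Valuation.map_neg]) a2) a3) a4
      have e : ∀ X Y : ℂ, X - Rho S = (X - Y) + (Y - Rho S) := fun X Y => by ring
      rw [e _ (VS S (f0 1 0 1) (fun x => xi (MP_1a91b9_ntQ.em (tb * x) / MP_1a91b9_ntQ.em (DD S) + MP_1a91b9_ntQ.em (tb * β) / zt ^ 2 +
            MP_1a91b9_ntQ.em γ / ab ^ 2)))]
      exact Valuation.map_add_lt _ h4 key
  · -- `d1 = 1`
    have hC : Cc 1 = r5 := if_neg (by decide)
    rw [hC]
    have hc : ce (1 + d0 + d2) 1 = 3 := rfl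
    rw [hc] at hβ hγ
    have hβa : ¬ ta ∣ β := not_ta_of (by decide) hβ
    have hc2 : ce 1 0 = 2 := rfl
    have hc3 : ce 1 1 = 3 := rfl
    have hf0 : (f0 d0 1 d2 : 𝓞 K) = ta ^ 3 * tb ^ ce 1 d2 := rfl
    set ε : ℂ := ((sg2 (1 + d0 + d2 + 1) : ℤ) : ℂ) with hε
    have hε2 : ε ^ 2 = 1 := sg2_csq _
    rcases hi d2 with rfl | rfl
    · -- `D₀ = ± a`
      rw [hc2] at hγ
      have hγ' : tb ^ 2 ∣ DD S * (ta * γ) - 1 := by
        refine inv_sq (c := ta ^ 2) ?_ ta2_one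
        have e : ta ^ 2 * DD S * (ta * γ) - 1 = ta ^ 3 * DD S * γ - 1 := by ring
        rw [e]
        exact hγ
      have key := Rho_cg hB (w := f0 d0 1 0) (c := ta) (γ := ta * γ) β 2 (S := S) (fun q _ => by
        have h5 := ch_pm q (q_not_taA q)
        rw [hf0, hc2, ch_ta_pow, ch_pm q (q_not_tbA q), mul_one, pow_succ, h5, one_mul])
        (fun q _ => q_not_taA q) hγ'
      have h3 : VS S (f0 d0 1 0) (fun x => OPA (1 + d0 + 0) 1 (OPB 0 ee γ) β (MP_1a91b9_ntQ.em x / MP_1a91b9_ntQ.em (DD S))) / r5 =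
          -VS S (f0 d0 1 0) fun x => (gg (MP_1a91b9_ntQ.em x / MP_1a91b9_ntQ.em (DD S) + MP_1a91b9_ntQ.em β / zt ^ 3 + MP_1a91b9_ntQ.em γ / ab ^ 2) +
            ε * gg (MP_1a91b9_ntQ.em x / MP_1a91b9_ntQ.em (DD S) - MP_1a91b9_ntQ.em β / zt ^ 3 + MP_1a91b9_ntQ.em γ / ab ^ 2)) / r5 := by
        rw [← VS_neg', div_eq_iff r5_ne, mul_comm, ← VS_mul_left]
        refine VS_congr fun x => ?_
        rw [OPA_g3 _ hβa, mul_neg, mul_div_cancel₀ _ r5_ne]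
      rw [h3]
      refine Rt.neg h2 (Rt_of_sq h2 (hr.congr ?_))
      have hz0' := zt_ne0
      -- the points
      have hog : ∀ x : 𝓞 K, Og (MP_1a91b9_ntQ.em x / MP_1a91b9_ntQ.em (DD S) + MP_1a91b9_ntQ.em β / zt ^ 3 + MP_1a91b9_ntQ.em γ / ab ^ 2) := fun x =>
        Og_w S x β 3 hγb le_rfl
      have hog' : ∀ x : 𝓞 K, Og (MP_1a91b9_ntQ.em x / MP_1a91b9_ntQ.em (DD S) - MP_1a91b9_ntQ.em β / zt ^ 3 + MP_1a91b9_ntQ.em γ / ab ^ 2) := fun x => by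
        have h5 := Og_w S x (-β) 3 hγb (le_refl 2)
        rw [em_neg, neg_div] at h5
        exact h5
      have b1 : ∀ x : 𝓞 K, B.valuation ((gg (MP_1a91b9_ntQ.em x / MP_1a91b9_ntQ.em (DD S) + MP_1a91b9_ntQ.em β / zt ^ 3 + MP_1a91b9_ntQ.em γ / ab ^ 2) +
            ε * gg (MP_1a91b9_ntQ.em x / MP_1a91b9_ntQ.em (DD S) - MP_1a91b9_ntQ.em β / zt ^ 3 + MP_1a91b9_ntQ.em γ / ab ^ 2)) / r5 -
            xi (MP_1a91b9_ntQ.em x / MP_1a91b9_ntQ.em (DD S) + MP_1a91b9_ntQ.em β / zt ^ 3 + MP_1a91b9_ntQ.em γ / ab ^ 2)) < 1 := fun x =>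
        g_pair hB (hog x) (hog' x) (pair_mem hβa _ _) hε2
      set G : 𝓞 K → ℂ := fun x => (gg (MP_1a91b9_ntQ.em x / MP_1a91b9_ntQ.em (DD S) + MP_1a91b9_ntQ.em β / zt ^ 3 + MP_1a91b9_ntQ.em γ / ab ^ 2) +
            ε * gg (MP_1a91b9_ntQ.em x / MP_1a91b9_ntQ.em (DD S) - MP_1a91b9_ntQ.em β / zt ^ 3 + MP_1a91b9_ntQ.em γ / ab ^ 2)) / r5 with hG
      have b2 : ∀ x : 𝓞 K, B.valuation (G x) ≤ 1 := fun x => by
        have e : G x = (G x - xi (MP_1a91b9_ntQ.em x / MP_1a91b9_ntQ.em (DD S) + MP_1a91b9_ntQ.em β / zt ^ 3 + MP_1a91b9_ntQ.em γ / ab ^ 2)) +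
          xi (MP_1a91b9_ntQ.em x / MP_1a91b9_ntQ.em (DD S) + MP_1a91b9_ntQ.em β / zt ^ 3 + MP_1a91b9_ntQ.em γ / ab ^ 2) := by ring
        rw [e]
        exact (Valuation.map_add _ _ _).trans (max_le (b1 x).le (v_xi hB (hog x)).le)
      have b3 := VS_sq (S := S) (w := f0 d0 1 0) h2 (F := G) fun x _ => b2 x
      have b4 : B.valuation (VS S (f0 d0 1 0) (fun x => G x ^ 2) -
          VS S (f0 d0 1 0) (fun x => xi (MP_1a91b9_ntQ.em (ta * x) / MP_1a91b9_ntQ.em (DD S) + MP_1a91b9_ntQ.em β / zt ^ 2 +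
            MP_1a91b9_ntQ.em (ta * γ) / ab ^ 2))) < 1 := VS_v_sub fun x _ => by
        have e5 : zt * (MP_1a91b9_ntQ.em x / MP_1a91b9_ntQ.em (DD S) + MP_1a91b9_ntQ.em β / zt ^ 3 + MP_1a91b9_ntQ.em γ / ab ^ 2) =
            MP_1a91b9_ntQ.em (ta * x) / MP_1a91b9_ntQ.em (DD S) + MP_1a91b9_ntQ.em β / zt ^ 2 + MP_1a91b9_ntQ.em (ta * γ) / ab ^ 2 := by
          rw [em_mul, em_mul, em_ta]
          field_simp
        rw [← e5]
        have c1 := xi_frob hB (hog x)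
        have c2 := b1 x
        set w : ℂ := MP_1a91b9_ntQ.em x / MP_1a91b9_ntQ.em (DD S) + MP_1a91b9_ntQ.em β / zt ^ 3 + MP_1a91b9_ntQ.em γ / ab ^ 2 with hw
        have e6 : G x ^ 2 - xi (zt * w) = (G x - xi w) * (G x + xi w) - (xi (zt * w) - xi w ^ 2) := by
          ring
        rw [e6]
        refine Valuation.map_sub_lt _ ?_ c1
        rw [map_mul]
        exact mul_lt_one_of_lt_of_le c2 ((Valuation.map_add _ _ _).trans
          (max_le (b2 x) (v_xi hB (hog x)).le))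
      have e : ∀ X Y Z : ℂ, X - Rho S = (X - Y) + (Y - Z) + (Z - Rho S) := fun X Y Z => by ring
      rw [e _ _ _]
      exact Valuation.map_add_lt _ (Valuation.map_add_lt _ b3 b4) key
    · -- `D₀ = ± a ab`
      rw [hc3] at hγ
      have hγ' : tb ^ 2 ∣ DD S * (ta * γ) - 1 := by
        refine inv_sq (c := ta ^ 2) ?_ ta2_one
        have e : ta ^ 2 * DD S * (ta * γ) - 1 = ta ^ 3 * DD S * γ - 1 := by ring
        rw [e]
        exact (pow_dvd_pow _ (by norm_num)).trans hγ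
      have key := Rho_cg hB (w := f0 d0 1 1) (c := ta * tb) (γ := ta * γ) (tb * β) 2 (S := S)
        (fun q _ => by
          have h5 := ch_pm q (q_not_taA q)
          have h6 := ch_pm q (q_not_tbA q)
          rw [hf0, hc3, ch_ta_pow, ch_mul]
          linear_combination (ch q ta * ch q tb) * (ch q tb ^ 2 * h5 + h6))
        (fun q _ => q_not_mul q (q_not_taA q) (q_not_tbA q)) hγ'
      have h3 : VS S (f0 d0 1 1) (fun x => OPA (1 + d0 + 1) 1 (OPB 1 ee γ) β (MP_1a91b9_ntQ.em x / MP_1a91b9_ntQ.em (DD S))) / r5 =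
          VS S (f0 d0 1 1) fun x => -((gg (MP_1a91b9_ntQ.em x / MP_1a91b9_ntQ.em (DD S) + MP_1a91b9_ntQ.em β / zt ^ 3 + MP_1a91b9_ntQ.em γ / ab ^ 3) +
            ε * gg (MP_1a91b9_ntQ.em x / MP_1a91b9_ntQ.em (DD S) - MP_1a91b9_ntQ.em β / zt ^ 3 + MP_1a91b9_ntQ.em γ / ab ^ 3)) / r5) +
            (gg (MP_1a91b9_ntQ.em x / MP_1a91b9_ntQ.em (DD S) + MP_1a91b9_ntQ.em β / zt ^ 3 + MP_1a91b9_ntQ.em γ / ab ^ 3 + tf) +
            ε * gg (MP_1a91b9_ntQ.em x / MP_1a91b9_ntQ.em (DD S) - MP_1a91b9_ntQ.em β / zt ^ 3 + MP_1a91b9_ntQ.em γ / ab ^ 3 + tf)) / r5 := by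
        rw [div_eq_iff r5_ne, mul_comm, ← VS_mul_left]
        refine VS_congr fun x => ?_
        rw [OPA_g31 _ hβa hγb, mul_add, mul_neg, mul_div_cancel₀ _ r5_ne, mul_div_cancel₀ _ r5_ne]
      rw [h3]
      refine Rt_of_sq h2 (hr.congr ?_)
      have hz0' := zt_ne0
      have hog : ∀ x : 𝓞 K, Og (MP_1a91b9_ntQ.em x / MP_1a91b9_ntQ.em (DD S) + MP_1a91b9_ntQ.em β / zt ^ 3 + MP_1a91b9_ntQ.em γ / ab ^ 3) := fun x =>
        Og_w S x β 3 hγb (by norm_num)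
      have hog' : ∀ x : 𝓞 K, Og (MP_1a91b9_ntQ.em x / MP_1a91b9_ntQ.em (DD S) - MP_1a91b9_ntQ.em β / zt ^ 3 + MP_1a91b9_ntQ.em γ / ab ^ 3) := fun x => by
        have h5 := Og_w S x (-β) 3 hγb (show 2 ≤ 3 by norm_num)
        rw [em_neg, neg_div] at h5
        exact h5
      have hogb : ∀ x : 𝓞 K, Og (ab * (MP_1a91b9_ntQ.em x / MP_1a91b9_ntQ.em (DD S) + MP_1a91b9_ntQ.em β / zt ^ 3 + MP_1a91b9_ntQ.em γ / ab ^ 3)) := fun x => by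
        have h5 := Og_w S (tb * x) (tb * β) 3 hγb (le_refl 2)
        have e5 : ab * (MP_1a91b9_ntQ.em x / MP_1a91b9_ntQ.em (DD S) + MP_1a91b9_ntQ.em β / zt ^ 3 + MP_1a91b9_ntQ.em γ / ab ^ 3) =
            MP_1a91b9_ntQ.em (tb * x) / MP_1a91b9_ntQ.em (DD S) + MP_1a91b9_ntQ.em (tb * β) / zt ^ 3 + MP_1a91b9_ntQ.em γ / ab ^ 2 := by
          have := ab_ne
          rw [em_mul, em_mul, em_tb]
          field_simp
        rwa [e5]
      have b1 : ∀ x : 𝓞 K, B.valuation ((gg (MP_1a91b9_ntQ.em x / MP_1a91b9_ntQ.em (DD S) + MP_1a91b9_ntQ.em β / zt ^ 3 + MP_1a91b9_ntQ.em γ / ab ^ 3) +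
            ε * gg (MP_1a91b9_ntQ.em x / MP_1a91b9_ntQ.em (DD S) - MP_1a91b9_ntQ.em β / zt ^ 3 + MP_1a91b9_ntQ.em γ / ab ^ 3)) / r5 -
            xi (MP_1a91b9_ntQ.em x / MP_1a91b9_ntQ.em (DD S) + MP_1a91b9_ntQ.em β / zt ^ 3 + MP_1a91b9_ntQ.em γ / ab ^ 3)) < 1 := fun x =>
        g_pair hB (hog x) (hog' x) (pair_mem hβa _ _) hε2
      have b1' : ∀ x : 𝓞 K, B.valuation ((gg (MP_1a91b9_ntQ.em x / MP_1a91b9_ntQ.em (DD S) + MP_1a91b9_ntQ.em β / zt ^ 3 + MP_1a91b9_ntQ.em γ / ab ^ 3 + tf) +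
            ε * gg (MP_1a91b9_ntQ.em x / MP_1a91b9_ntQ.em (DD S) - MP_1a91b9_ntQ.em β / zt ^ 3 + MP_1a91b9_ntQ.em γ / ab ^ 3 + tf)) / r5 -
            xi (MP_1a91b9_ntQ.em x / MP_1a91b9_ntQ.em (DD S) + MP_1a91b9_ntQ.em β / zt ^ 3 + MP_1a91b9_ntQ.em γ / ab ^ 3 + tf)) < 1 := fun x => by
        refine g_pair hB (hog x).atf (hog' x).atf ?_ hε2
        have h5 := pair_mem hβa (MP_1a91b9_ntQ.em x / MP_1a91b9_ntQ.em (DD S)) (MP_1a91b9_ntQ.em γ / ab ^ 3 + tf)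
        rwa [← add_assoc, ← add_assoc] at h5
      set G : 𝓞 K → ℂ := fun x => -((gg (MP_1a91b9_ntQ.em x / MP_1a91b9_ntQ.em (DD S) + MP_1a91b9_ntQ.em β / zt ^ 3 + MP_1a91b9_ntQ.em γ / ab ^ 3) +
            ε * gg (MP_1a91b9_ntQ.em x / MP_1a91b9_ntQ.em (DD S) - MP_1a91b9_ntQ.em β / zt ^ 3 + MP_1a91b9_ntQ.em γ / ab ^ 3)) / r5) +
            (gg (MP_1a91b9_ntQ.em x / MP_1a91b9_ntQ.em (DD S) + MP_1a91b9_ntQ.em β / zt ^ 3 + MP_1a91b9_ntQ.em γ / ab ^ 3 + tf) +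
            ε * gg (MP_1a91b9_ntQ.em x / MP_1a91b9_ntQ.em (DD S) - MP_1a91b9_ntQ.em β / zt ^ 3 + MP_1a91b9_ntQ.em γ / ab ^ 3 + tf)) / r5 with hG
      have b0 : ∀ x : 𝓞 K, B.valuation (G x -
          xi (ab * (MP_1a91b9_ntQ.em x / MP_1a91b9_ntQ.em (DD S) + MP_1a91b9_ntQ.em β / zt ^ 3 + MP_1a91b9_ntQ.em γ / ab ^ 3))) < 1 := fun x => by
        have c1 := b1 x
        have c2 := b1' x
        have c3 := xi_ab' hB (hog x) (hogb x)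
        have hx := v_xi hB (hog x)
        rw [hG]
        dsimp only
        set w : ℂ := MP_1a91b9_ntQ.em x / MP_1a91b9_ntQ.em (DD S) + MP_1a91b9_ntQ.em β / zt ^ 3 + MP_1a91b9_ntQ.em γ / ab ^ 3 with hw
        set u1 : ℂ := (gg w + ε * gg (MP_1a91b9_ntQ.em x / MP_1a91b9_ntQ.em (DD S) - MP_1a91b9_ntQ.em β / zt ^ 3 + MP_1a91b9_ntQ.em γ / ab ^ 3)) / r5
        set u2 : ℂ := (gg (w + tf) + ε * gg (MP_1a91b9_ntQ.em x / MP_1a91b9_ntQ.em (DD S) - MP_1a91b9_ntQ.em β / zt ^ 3 + MP_1a91b9_ntQ.em γ / ab ^ 3 + tf)) / r5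
        have a4 : B.valuation (2 * xi w) < 1 := by
          rw [map_mul, hx, mul_one]
          exact two_lt h2
        have e6 : -u1 + u2 - xi (ab * w) = -(u1 - xi w) + (u2 - xi (w + tf)) +
            (xi w + xi (w + tf) - xi (ab * w)) - 2 * xi w := by ring
        rw [e6]
        exact Valuation.map_sub_lt _ (Valuation.map_add_lt _ (Valuation.map_add_lt _
          (by rwa [Valuation.map_neg]) c2) c3) a4
      have b2 : ∀ x : 𝓞 K, B.valuation (G x) ≤ 1 := fun x => by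
        have e : G x = (G x - xi (ab * (MP_1a91b9_ntQ.em x / MP_1a91b9_ntQ.em (DD S) + MP_1a91b9_ntQ.em β / zt ^ 3 + MP_1a91b9_ntQ.em γ / ab ^ 3))) +
          xi (ab * (MP_1a91b9_ntQ.em x / MP_1a91b9_ntQ.em (DD S) + MP_1a91b9_ntQ.em β / zt ^ 3 + MP_1a91b9_ntQ.em γ / ab ^ 3)) := by ring
        rw [e]
        exact (Valuation.map_add _ _ _).trans (max_le (b0 x).le (v_xi hB (hogb x)).le)
      have b3 := VS_sq (S := S) (w := f0 d0 1 1) h2 (F := G) fun x _ => b2 x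
      have b4 : B.valuation (VS S (f0 d0 1 1) (fun x => G x ^ 2) -
          VS S (f0 d0 1 1) (fun x => xi (MP_1a91b9_ntQ.em (ta * tb * x) / MP_1a91b9_ntQ.em (DD S) + MP_1a91b9_ntQ.em (tb * β) / zt ^ 2 +
            MP_1a91b9_ntQ.em (ta * γ) / ab ^ 2))) < 1 := VS_v_sub fun x _ => by
        have e5 : zt * (ab * (MP_1a91b9_ntQ.em x / MP_1a91b9_ntQ.em (DD S) + MP_1a91b9_ntQ.em β / zt ^ 3 + MP_1a91b9_ntQ.em γ / ab ^ 3)) =
            MP_1a91b9_ntQ.em (ta * tb * x) / MP_1a91b9_ntQ.em (DD S) + MP_1a91b9_ntQ.em (tb * β) / zt ^ 2 + MP_1a91b9_ntQ.em (ta * γ) / ab ^ 2 := by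
          have := ab_ne
          rw [em_mul, em_mul, em_mul, em_mul, em_ta, em_tb]
          field_simp
        rw [← e5]
        have c1 := xi_frob hB (hogb x)
        have c2 := b0 x
        set w : ℂ := ab * (MP_1a91b9_ntQ.em x / MP_1a91b9_ntQ.em (DD S) + MP_1a91b9_ntQ.em β / zt ^ 3 + MP_1a91b9_ntQ.em γ / ab ^ 3) with hw
        have e6 : G x ^ 2 - xi (zt * w) = (G x - xi w) * (G x + xi w) - (xi (zt * w) - xi w ^ 2) := by
          ring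
        rw [e6]
        refine Valuation.map_sub_lt _ ?_ c1
        rw [map_mul]
        exact mul_lt_one_of_lt_of_le c2 ((Valuation.map_add _ _ _).trans
          (max_le (b2 x) (v_xi hB (hogb x)).le))
      have e : ∀ X Y Z : ℂ, X - Rho S = (X - Y) + (Y - Z) + (Z - Rho S) := fun X Y Z => by ring
      rw [e _ _ _]
      exact Valuation.map_add_lt _ (Valuation.map_add_lt _ b3 b4) key

end

end Pool.Agent.Lib.MP_1a91b9_ntV
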