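import Pool.Agent.Lib.MP_1a91b9_ntV.A.Prim7

/-!
# The field `ℚ(√-7)`: the complex conjugation

`cq q` the conjugate of a prime (the generator congruent to `1` modulo `a²`), `cS S` the conjugate set.
`LS (d0 + 1 + A) d2 d1 (cS S) ≠ 0 ↔ LS d0 d1 d2 S ≠ 0`.
-/

set_option autoImplicit false
set_option linter.unusedSectionVars false

namespace Pool.Agent.Lib.MP_1a91b9_ntV

open NumberField Pool.Agent.Lib.MP_1a91b9_nuT Pool.Agent.Lib.MP_1a91b9_nuT.S3
  Pool.Agent.Lib.MP_1a91b9_nuT.Ell Pool.Agent.Lib.MP_1a91b9_ntQ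
open Pool.Agent.Lib.MP_1a91b9_ntK (NM CZ)

noncomputable section

/-! ### the conjugation of the lattice functions -/

section conj

variable [CD]

theorem lp_conj (l : ℤ × ℤ) : (starRingEnd ℂ) (Pool.Agent.Lib.MP_1a91b9_nuT.lp l) =
    Pool.Agent.Lib.MP_1a91b9_nuT.lp (l.1 + l.2 * CD.tr, -l.2) := by
  rw [Pool.Agent.Lib.MP_1a91b9_nuT.lp, Pool.Agent.Lib.MP_1a91b9_nuT.lp, map_add, map_mul,
    S3.conj_zt, map_intCast, map_intCast]
  push_cast
  ring

/-- the conjugation of the index -/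
def cjE : (ℤ × ℤ) ≃ (ℤ × ℤ) where
  toFun l := (l.1 + l.2 * CD.tr, -l.2)
  invFun l := (l.1 + l.2 * CD.tr, -l.2)
  left_inv l := by ext <;> simp
  right_inv l := by ext <;> simp

theorem Zf_conj (z : ℂ) : (starRingEnd ℂ) (Zf z) = Zf ((starRingEnd ℂ) z) := by
  rw [Zf, Complex.conj_tsum, Zf]
  refine ((cjE.tsum_eq _).symm.trans (tsum_congr fun l => ?_)).symm
  have h : Pool.Agent.Lib.MP_1a91b9_nuT.lp (cjE l) =
    (starRingEnd ℂ) (Pool.Agent.Lib.MP_1a91b9_nuT.lp l) := (lp_conj l).symm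
  rw [h, map_add, map_sub, map_inv₀, map_inv₀, map_mul, map_inv₀, map_pow, map_add]

theorem E1_conj (z : ℂ) : (starRingEnd ℂ) (E1 z) = E1 ((starRingEnd ℂ) z) := by
  have key : ∀ w : ℂ, (starRingEnd ℂ) (E1 w) - E1 ((starRingEnd ℂ) w) =
      (etaE - (starRingEnd ℂ) e2E * 1) * (starRingEnd ℂ) w + (e2E - etaE) * (starRingEnd ℂ) w +
        (etaE - (starRingEnd ℂ) etaE) * w - etaE * w + etaE * w := by
    intro w
    rw [E1, E1, map_sub, map_sub, map_mul, map_mul, Zf_conj, Complex.conj_conj]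
    ring
  set p : ℂ := e2E - (starRingEnd ℂ) e2E with hp
  set r : ℂ := etaE - (starRingEnd ℂ) etaE with hr
  have key' : ∀ w : ℂ, (starRingEnd ℂ) (E1 w) - E1 ((starRingEnd ℂ) w) =
      p * (starRingEnd ℂ) w + r * w := by
    intro w
    rw [key, hp, hr]
    ring
  have h1 := key' 1
  have h2 := key' zt
  rw [S3.E1_coe one_mem, S3.E1_coe (conj_mem one_mem), map_zero, map_one] at h1
  rw [S3.E1_coe zt_mem, S3.E1_coe (conj_mem zt_mem), map_zero] at h2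
  have h3 : r * (zt - (starRingEnd ℂ) zt) = 0 := by
    linear_combination (starRingEnd ℂ) zt * h1 - h2
  have h4 : r = 0 := (mul_eq_zero.1 h3).resolve_right zt_sub_conj
  have h5 : p = 0 := by
    rw [h4] at h1
    linear_combination -h1
  have h6 := key' z
  rw [h4, h5] at h6
  linear_combination h6

end conj

variable [CD] [hv : V7]

theorem conj_zt7 : (starRingEnd ℂ) zt = ab := by
  rw [S3.conj_zt, hv.tr, ab]
  push_cast
  ring

/-! ### the conjugation of the integers -/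

theorem em_cj (x : 𝓞 K) : MP_1a91b9_ntQ.em (cj x) = (starRingEnd ℂ) (MP_1a91b9_ntQ.em x) := by
  rw [cj, em_add, em_mul, em_intCast, em_intCast, em_tb, coo_em x, map_add, map_mul, map_intCast,
    map_intCast, conj_zt7]

theorem cj_mul (x y : 𝓞 K) : cj (x * y) = cj x * cj y := by
  refine em_inj ?_
  rw [em_mul, em_cj, em_cj, em_cj, em_mul, map_mul]

theorem cj_add (x y : 𝓞 K) : cj (x + y) = cj x + cj y := by
  refine em_inj ?_
  rw [em_add, em_cj, em_cj, em_cj, em_add, map_add]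

theorem cj_neg (x : 𝓞 K) : cj (-x) = -cj x := by
  refine em_inj ?_
  rw [em_neg, em_cj, em_cj, em_neg, map_neg]

theorem cj_sub (x y : 𝓞 K) : cj (x - y) = cj x - cj y := by
  rw [sub_eq_add_neg, cj_add, cj_neg, ← sub_eq_add_neg]

theorem cj_cj (x : 𝓞 K) : cj (cj x) = x := by
  refine em_inj ?_
  rw [em_cj, em_cj, Complex.conj_conj]

theorem cj_one : cj (1 : 𝓞 K) = 1 := by
  refine em_inj ?_
  rw [em_cj, em_one, map_one]

theorem cj_zero : cj (0 : 𝓞 K) = 0 := by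
  refine em_inj ?_
  rw [em_cj, em_zero, map_zero]

theorem cj_intCast (n : ℤ) : cj (n : 𝓞 K) = (n : 𝓞 K) := by
  refine em_inj ?_
  rw [em_cj, em_intCast, map_intCast]

theorem cj_ta : cj (ta : 𝓞 K) = tb := by
  refine em_inj ?_
  rw [em_cj, em_ta, em_tb, conj_zt7]

theorem cj_tb : cj (tb : 𝓞 K) = ta := by rw [← cj_ta, cj_cj]

theorem cj_pow (x : 𝓞 K) (n : ℕ) : cj (x ^ n) = cj x ^ n := by
  induction n with
  | zero => rw [pow_zero, pow_zero, cj_one]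
  | succ n ih => rw [pow_succ, pow_succ, cj_mul, ih]

theorem cj_dvd {x y : 𝓞 K} : cj x ∣ cj y ↔ x ∣ y := by
  constructor
  · rintro ⟨z, hz⟩
    refine ⟨cj z, ?_⟩
    rw [← cj_cj y, hz, cj_mul, cj_cj]
  · rintro ⟨z, rfl⟩
    rw [cj_mul]
    exact dvd_mul_right _ _

theorem cj_ne {x : 𝓞 K} (h : x ≠ 0) : cj x ≠ 0 := by
  intro h1
  apply h
  rw [← cj_cj x, h1, cj_zero]

theorem rb_cj (x : 𝓞 K) : rb (cj x) = ra x := by rw [← ra_cj, cj_cj]

theorem cj_prime {x : 𝓞 K} (h : Prime x) : Prime (cj x) := by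
  refine ⟨cj_ne h.ne_zero, fun h1 => h.not_isUnit ?_, fun y z h1 => ?_⟩
  · rw [isUnit_iff_dvd_one] at h1 ⊢
    rw [← cj_one, cj_dvd] at h1
    exact h1
  · rw [← cj_cj y, ← cj_cj z, ← cj_mul, cj_dvd] at h1
    rcases h.dvd_or_dvd h1 with h2 | h2
    · left
      rw [← cj_cj y, cj_dvd]
      exact h2
    · right
      rw [← cj_cj z, cj_dvd]
      exact h2

/-! ### the conjugate of a prime -/

theorem sg2_int_sq (u : ZMod 2) : ((sg2 u : ℤ) : 𝓞 K) * ((sg2 u : ℤ) : 𝓞 K) = 1 := by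
  have h := sg2_sq u
  have h1 : ((sg2 u * sg2 u : ℤ) : 𝓞 K) = ((1 : ℤ) : 𝓞 K) := by rw [h]
  push_cast at h1
  exact h1

theorem sg2_isUnit (u : ZMod 2) : IsUnit ((sg2 u : ℤ) : 𝓞 K) :=
  IsUnit.of_mul_eq_one _ (sg2_int_sq u)

theorem ra_sg2 (u : ZMod 2) : ra (((sg2 u : ℤ) : 𝓞 K)) = ((sg2 u : ℤ) : ZMod 8) := map_intCast ra _

theorem rb_sg2 (u : ZMod 2) : rb (((sg2 u : ℤ) : 𝓞 K)) = ((sg2 u : ℤ) : ZMod 8) := map_intCast rb _

/-- the conjugate prime -/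
def cq (q : Pg7) : Pg7 := ⟨((sg2 (aa q) : ℤ) : 𝓞 K) * cj q.1, by
  refine ⟨?_, ?_, ?_⟩
  · exact (prime_isUnit_mul (sg2_isUnit _)).2 (cj_prime q.prime)
  · rw [ta2_dvd, map_sub, map_mul, ra_sg2, ra_cj, map_one]
    have h := odd_rb q.not_tb
    rw [aa]
    revert h
    generalize rb q.1 = u
    revert u
    decide
  · rw [tb_dvd, map_mul, rb_sg2, rb_cj]
    have h := q.ra2
    generalize aa q = w
    revert h
    generalize ra q.1 = u
    revert u w
    decide⟩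

theorem cq_val (q : Pg7) : (cq q).1 = ((sg2 (aa q) : ℤ) : 𝓞 K) * cj q.1 := rfl

theorem aa_cq (q : Pg7) : aa (cq q) = aa q := by
  have h := q.ra2
  have e : aa (cq q) = bE (rb (cq q).1) := rfl
  rw [e, cq_val, map_mul, rb_sg2, rb_cj]
  generalize aa q = w
  revert h
  generalize ra q.1 = u
  revert u w
  decide

theorem b1_cq (q : Pg7) : b1 (cq q) = b2 q := by
  have e : b1 (cq q) = bF (ra (cq q).1) := rfl
  rw [e, cq_val, map_mul, ra_sg2, ra_cj, b2]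
  have h := odd_rb q.not_tb
  rw [aa]
  revert h
  generalize rb q.1 = u
  revert u
  decide

theorem b2_cq (q : Pg7) : b2 (cq q) = b1 q := by
  have e : b2 (cq q) = bF (rb (cq q).1) := rfl
  rw [e, cq_val, map_mul, rb_sg2, rb_cj, b1]
  have h := q.ra2
  generalize aa q = w
  revert h
  generalize ra q.1 = u
  revert u w
  decide

theorem cq_cq (q : Pg7) : cq (cq q) = q := by
  apply Subtype.ext
  rw [cq_val, aa_cq, cq_val, cj_mul, cj_intCast, cj_cj, ← mul_assoc, sg2_int_sq, one_mul]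

/-- the conjugation of the primes -/
def cqE : Pg7 ≃ Pg7 := ⟨cq, cq, cq_cq, cq_cq⟩

theorem cq_dvd {q : Pg7} {x : 𝓞 K} : (cq q).1 ∣ cj x ↔ q.1 ∣ x := by
  rw [cq_val, (sg2_isUnit _).mul_left_dvd, cj_dvd]

/-- the symbol of the conjugates -/
theorem ch_cq (q : Pg7) (x : 𝓞 K) : ch (cq q) (cj x) = ch q x := by
  by_cases h : q.1 ∣ x
  · rw [ch_zero h, ch_zero (cq_dvd.2 h)]
  have h1 : ¬ (cq q).1 ∣ cj x := fun h2 => h (cq_dvd.1 h2)
  have key : ∀ (p : Pg7) (y : 𝓞 K), ¬ p.1 ∣ y → (ch p y = 1 ↔ ∃ z : 𝓞 K, p.1 ∣ z ^ 2 - y) := by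
    intro p y hy
    rw [ch]
    have hy' : Ideal.Quotient.mk p.I y ≠ 0 := by rwa [Ne, p.mk_zero]
    rw [quadraticChar_one_iff_isSquare hy']
    constructor
    · rintro ⟨t, ht⟩
      obtain ⟨z, rfl⟩ := Ideal.Quotient.mk_surjective t
      refine ⟨z, ?_⟩
      rw [← p.mk_zero, map_sub, map_pow, ht]
      ring
    · rintro ⟨z, hz⟩
      refine ⟨Ideal.Quotient.mk p.I z, ?_⟩
      rw [← p.mk_zero, map_sub, map_pow, sub_eq_zero] at hz
      rw [← hz, pow_two]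
  have h2 : ch (cq q) (cj x) = 1 ↔ ch q x = 1 := by
    rw [key _ _ h, key _ _ h1]
    constructor
    · rintro ⟨z, hz⟩
      refine ⟨cj z, ?_⟩
      rw [← cq_dvd, cj_sub, cj_pow, cj_cj]
      exact hz
    · rintro ⟨z, hz⟩
      refine ⟨cj z, ?_⟩
      rw [← cj_pow, ← cj_sub, cq_dvd]
      exact hz
  rcases ch_or h with h3 | h3
  · rw [h3, h2.2 h3]
  · rcases ch_or h1 with h4 | h4
    · rw [h2.1 h4] at h3
      exact absurd h3 (by decide)
    · rw [h3, h4]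

/-- the conjugate set -/
def cS (S : Finset Pg7) : Finset Pg7 := S.map cqE.toEmbedding

theorem cS_cS (S : Finset Pg7) : cS (cS S) = S := by
  rw [cS, cS, Finset.map_map]
  have e : cqE.toEmbedding.trans cqE.toEmbedding = Function.Embedding.refl Pg7 := by
    refine DFunLike.ext _ _ fun q => ?_
    exact cq_cq q
  rw [e, Finset.map_refl]

theorem AA_cS (S : Finset Pg7) : AA (cS S) = AA S := by
  rw [AA, AA, cS, Finset.sum_map]
  exact Finset.sum_congr rfl fun q _ => aa_cq q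

theorem B1_cS (S : Finset Pg7) : B1 (cS S) = B2 S := by
  rw [B1, B2, cS, Finset.sum_map]
  exact Finset.sum_congr rfl fun q _ => b1_cq q

theorem B2_cS (S : Finset Pg7) : B2 (cS S) = B1 S := by
  rw [B1, B2, cS, Finset.sum_map]
  exact Finset.sum_congr rfl fun q _ => b2_cq q

theorem DD_cS (S : Finset Pg7) : DD (cS S) = ((sg2 (AA S) : ℤ) : 𝓞 K) * cj (DD S) := by
  classical
  induction S using Finset.induction_on with
  | empty =>
    rw [DD, DD, cS, Finset.map_empty, Finset.prod_empty, cj_one, AA, Finset.sum_empty, sg2_zero]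
    norm_num
  | insert q S hq ih =>
    have h1 : cS (insert q S) = insert (cq q) (cS S) := by
      rw [cS, Finset.map_insert]
      rfl
    have h2 : cq q ∉ cS S := by
      intro h
      rw [cS, Finset.mem_map] at h
      obtain ⟨p, hp, e⟩ := h
      exact hq ((cqE.injective e) ▸ hp)
    have h3 : AA (insert q S) = aa q + AA S := by rw [AA, Finset.sum_insert hq, AA]
    rw [h1, DD_insert h2, DD_insert hq, ih, cj_mul, h3, sg2_add, cq_val]
    push_cast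
    ring

theorem chS_cS (S : Finset Pg7) (x : 𝓞 K) : chS (cS S) (cj x) = chS S x := by
  rw [chS, chS, cS, Finset.prod_map]
  exact Finset.prod_congr rfl fun q _ => ch_cq q x

theorem ph_cS (d0 d1 d2 : ZMod 2) (S : Finset Pg7) (x : 𝓞 K) :
    ph (d0 + 1 + AA S) d2 d1 (cS S) (cj x) = ph d0 d1 d2 S x := by
  rw [ph, ph, AA_cS, chS_cS, lA, lB, lA, lB, ra_cj, rb_cj]
  have e1 : 1 + (d0 + 1 + AA S) + d1 = d0 + d1 + AA S := by
    have hh : ∀ a b u : ZMod 2, 1 + (a + 1 + u) + b = a + b + u := by decide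
    exact hh _ _ _
  have e2 : d0 + 1 + AA S + d2 + AA S = 1 + d0 + d2 := by
    have hh : ∀ a b u : ZMod 2, a + 1 + u + b + u = 1 + a + b := by decide
    exact hh _ _ _
  rw [e1, e2]
  ring

theorem cf_cS (d0 d1 d2 : ZMod 2) (S : Finset Pg7) :
    cf (d0 + 1 + AA S) d2 d1 (cS S) = ((sg2 (AA S) : ℤ) : 𝓞 K) * cj (cf d0 d1 d2 S) := by
  rw [cf, cf, AA_cS, DD_cS, cj_mul, cj_mul, cj_pow, cj_pow, cj_ta, cj_tb]
  have e1 : 1 + (d0 + 1 + AA S) + d1 = d0 + d1 + AA S := by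
    have hh : ∀ a b u : ZMod 2, 1 + (a + 1 + u) + b = a + b + u := by decide
    exact hh _ _ _
  have e2 : d0 + 1 + AA S + d2 + AA S = 1 + d0 + d2 := by
    have hh : ∀ a b u : ZMod 2, a + 1 + u + b + u = 1 + a + b := by decide
    exact hh _ _ _
  rw [e1, e2]
  ring

/-! ### the conjugation of the sums -/

theorem CRS.cj {M : 𝓞 K} {ι : Type} {a : ι → 𝓞 K} (h : CRS M a) :
    CRS (cj M) fun i => Pool.Agent.Lib.MP_1a91b9_ntV.cj (a i) := by
  refine ⟨fun x => ?_, fun i j hij => ?_⟩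
  · obtain ⟨i, hi⟩ := h.ex (Pool.Agent.Lib.MP_1a91b9_ntV.cj x)
    refine ⟨i, ?_⟩
    rw [← cj_dvd, cj_sub, cj_cj] at hi
    exact hi
  · rw [← cj_sub, cj_dvd] at hij
    exact h.inj i j hij

theorem SM_cj {R : Type*} [AddCommMonoid R] {M : 𝓞 K} (hM : M ≠ 0) {F : 𝓞 K → R}
    (hF : Pd (cj M) F) : SM (cj M) F = SM M fun x => F (cj x) := by
  obtain ⟨ι, _, a, ha⟩ := CRS.exists_crs hM
  rw [SM_eq (cj_ne hM) ha.cj hF]
  refine (SM_eq (F := fun x => F (cj x)) hM ha fun x y h => hF _ _ ?_).symm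
  rw [← cj_sub, cj_dvd]
  exact h

theorem SM_assoc {R : Type*} [AddCommMonoid R] {M u : 𝓞 K} (hM : M ≠ 0) (hu : IsUnit u) {F : 𝓞 K → R}
    (hF : Pd M F) : SM (u * M) F = SM M F := by
  obtain ⟨ι, _, a, ha⟩ := CRS.exists_crs hM
  have h1 : CRS (u * M) a := by
    refine ⟨fun x => ?_, fun i j h => ha.inj i j ?_⟩
    · obtain ⟨i, hi⟩ := ha.ex x
      exact ⟨i, hu.mul_left_dvd.2 hi⟩
    · exact hu.mul_left_dvd.1 h
  rw [SM_eq (mul_ne_zero hu.ne_zero hM) h1 (hF.of_dvd (dvd_mul_left _ _)), SM_eq hM ha hF]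

theorem SM_conj {M : 𝓞 K} (hM : M ≠ 0) (F : 𝓞 K → ℂ) :
    (starRingEnd ℂ) (SM M F) = SM M fun x => (starRingEnd ℂ) (F x) := by
  obtain ⟨ι, _, a, -, h⟩ := SM_def (R := ℂ) hM
  rw [h, h, map_sum]

/-- **the conjugation of the primitive sum** -/
theorem LS_conj (d0 d1 d2 : ZMod 2) (S : Finset Pg7) :
    O7 * LS (d0 + 1 + AA S) d2 d1 (cS S) = ((sg2 (AA S) : ℤ) : ℂ) *
      (starRingEnd ℂ) (O7 * LS d0 d1 d2 S) := by
  set M := cf d0 d1 d2 S with hMdef
  have hM : M ≠ 0 := cf_ne d0 d1 d2 S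
  have hO := O7_ne
  have e0 : ∀ (N : 𝓞 K) (hN : N ≠ 0) (Y : 𝓞 K → ℂ), O7 * SE ee N Y =
      SM N fun c => Y c * E1 (MP_1a91b9_ntQ.em c / MP_1a91b9_ntQ.em N) := by
    intro N hN Y
    rw [SE, ← SM_mul_left hN]
    refine SM_congr fun c => ?_
    rw [ee]
    field_simp
  have hs : ((sg2 (AA S) : ℤ) : ℂ) = 1 ∨ ((sg2 (AA S) : ℤ) : ℂ) = -1 := by
    rcases sg2_or (AA S) with h | h <;> rw [h]
    · left; simp
    · right; simp
  rw [LS, LS, cf_cS, e0 _ (mul_ne_zero (sg2_isUnit _).ne_zero (cj_ne hM)), e0 _ hM, SM_conj hM]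
  have hper : Pd (cj M) fun c => ((ph (d0 + 1 + AA S) d2 d1 (cS S) c : ℤ) : ℂ) *
      E1 (MP_1a91b9_ntQ.em c / MP_1a91b9_ntQ.em (((sg2 (AA S) : ℤ) : 𝓞 K) * cj M)) := by
    intro x y h
    have h1 : cf (d0 + 1 + AA S) d2 d1 (cS S) ∣ x - y := by
      rw [cf_cS]
      exact (sg2_isUnit _).mul_left_dvd.2 h
    dsimp only
    rw [ph_per _ _ _ _ h1]
    congr 1
    refine E1_cg (div_sub_mem (mul_ne_zero (sg2_isUnit _).ne_zero (cj_ne hM)) ?_)
    exact (sg2_isUnit _).mul_left_dvd.2 h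
  rw [SM_assoc (cj_ne hM) (sg2_isUnit _) hper, SM_cj hM hper, ← SM_mul_left hM]
  refine SM_congr fun c => ?_
  rw [ph_cS, map_mul, E1_conj, map_intCast, map_div₀, ← em_cj, ← em_cj, em_mul, em_intCast]
  rcases hs with h | h
  · rw [h, one_mul, one_mul]
  · rw [h, neg_one_mul, div_neg, S3.E1_neg]
    ring

theorem LS_cS_ne {d0 d1 d2 : ZMod 2} {S : Finset Pg7} :
    LS (d0 + 1 + AA S) d2 d1 (cS S) ≠ 0 ↔ LS d0 d1 d2 S ≠ 0 := by
  have hO := O7_ne
  have h := LS_conj d0 d1 d2 S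
  have hs : ((sg2 (AA S) : ℤ) : ℂ) ≠ 0 := by
    have := sg2_ne (AA S)
    exact_mod_cast this
  rw [not_iff_not]
  constructor
  · intro h1
    rw [h1, mul_zero] at h
    have h2 := (mul_eq_zero.1 h.symm).resolve_left hs
    rw [map_eq_zero] at h2
    exact (mul_eq_zero.1 h2).resolve_left hO
  · intro h1
    rw [h1, mul_zero, map_zero, mul_zero] at h
    exact (mul_eq_zero.1 h).resolve_left hO

end

end Pool.Agent.Lib.MP_1a91b9_ntV
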