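import Pool.Agent.Lib.MP_1a91b9_ntV.A.Sig7

/-!
# The field `ℚ(√-7)`: the primitive sums without `ab` in the conductor, exact residues

`LS_nine`: the class `D₀ = ± a`, `AA T = 1 + d0`. `LS_eight`: the class `D₀ = 1`, `AA T = 0`.
-/

set_option autoImplicit false
set_option linter.unusedSectionVars false

namespace Pool.Agent.Lib.MP_1a91b9_ntV

open NumberField Pool.Agent.Lib.MP_1a91b9_nuT Pool.Agent.Lib.MP_1a91b9_nuT.S3
  Pool.Agent.Lib.MP_1a91b9_nuT.Ell Pool.Agent.Lib.MP_1a91b9_ntQ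
open Pool.Agent.Lib.MP_1a91b9_ntK (NM NM_empty CZ)

noncomputable section

variable [CD] [hv : V7]

theorem OPA_ee10 {β : 𝓞 K} (hβ : ¬ ta ∣ β) (z : ℂ) : OPA 1 0 ee β z = -gg (z + MP_1a91b9_ntQ.em β / zt ^ 2) := by
  rw [OPA_10 LP_ee hβ, gg]
  ring

theorem OPA_ee1 (i : ZMod 2) {β : 𝓞 K} (hβ : ¬ ta ∣ β) (z : ℂ) :
    OPA i 1 ee β z = -(gg (z + MP_1a91b9_ntQ.em β / zt ^ 3) + ((sg2 (i + 1) : ℤ) : ℂ) * gg (z - MP_1a91b9_ntQ.em β / zt ^ 3)) := by
  rw [OPA_i1 i LP_ee hβ, gg, gg]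
  ring

theorem two_te2_notMem : 2 * te ^ 2 ∉ PP.lattice := by
  intro h
  have e : 2 * te ^ 2 = te - 1 := by
    have h1 := zt_mul_te
    have h2 : (ab : ℂ) = 1 - zt := rfl
    linear_combination (-te ^ 2) * zt_mul_ab + (zt * te ^ 2) * h2 + (te - zt * te - 1) * h1
  rw [e] at h
  have h3 := add_mem h one_mem
  rw [sub_add_cancel] at h3
  exact te_notMem h3

theorem XX_te2 : XX (te ^ 2) = -zt := by
  have h := xi_zt two_te2_notMem
  have e : zt * te ^ 2 = te := by rw [pow_two, ← mul_assoc, zt_mul_te, one_mul]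
  have hz := zt_ne0
  have h1 : xi te = -1 / zt ^ 2 := by
    have h2 : xx te = 0 := xx_te
    rw [xi, XX, h2, zero_add]
  rw [e, h1] at h
  have h3 : (zt * xi (te ^ 2) - 1) ^ 2 = 0 := by
    have h4 : -1 / zt ^ 2 * (1 + zt ^ 2 * xi (te ^ 2)) * zt ^ 2 =
        xi (te ^ 2) * (xi (te ^ 2) + zt ^ 2) * zt ^ 2 := by rw [h]
    have h5 : -1 / zt ^ 2 * (1 + zt ^ 2 * xi (te ^ 2)) * zt ^ 2 = -(1 + zt ^ 2 * xi (te ^ 2)) := by
      field_simp
    rw [h5] at h4
    linear_combination -h4 - (xi (te ^ 2) * (zt ^ 2 + zt)) * zt_sq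
  have h4 : zt * xi (te ^ 2) = 1 := by
    have := pow_eq_zero_iff (two_ne_zero) |>.1 h3
    linear_combination this
  rw [XX_eq]
  linear_combination (-zt) * h4

theorem add_tor (β : 𝓞 K) (k : ℕ) : zt ^ k * (MP_1a91b9_ntQ.em β / zt ^ k) ∈ PP.lattice := by
  rw [mul_div_cancel₀ _ (pow_ne_zero k zt_ne0)]
  exact em_mem β

variable {B : ValuationSubring ℂ}

/-- the right side of the relation, class `D₀ = 1` -/
theorem R_ten (hB : te ∉ B) {S : Finset Pg7} (hS : S.Nonempty) {r : ZMod 2} (hr : Rt B (Sig S) r)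
    {β : 𝓞 K} (hβ : ¬ ta ∣ β) :
    Rt B (VS S (ta ^ 2) (fun x => OPA 1 0 ee β (MP_1a91b9_ntQ.em x / MP_1a91b9_ntQ.em (DD S))) / Cc 0) r := by
  have h2 := two_notMem hB
  have hC : Cc 0 = zt ^ 2 / Complex.I := if_pos rfl
  have hI := Complex.I_ne_zero
  have hz0 := zt_ne0
  have h3 : VS S (ta ^ 2) (fun x => OPA 1 0 ee β (MP_1a91b9_ntQ.em x / MP_1a91b9_ntQ.em (DD S))) / Cc 0 =
      -VS S (ta ^ 2) fun x => GG (MP_1a91b9_ntQ.em x / MP_1a91b9_ntQ.em (DD S) + MP_1a91b9_ntQ.em β / zt ^ 2) := by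
    rw [hC, ← VS_neg', div_eq_iff (div_ne_zero (pow_ne_zero 2 hz0) hI), mul_comm, ← VS_mul_left]
    refine VS_congr fun x => ?_
    rw [OPA_ee10 hβ, GG_eq]
    ring
  rw [h3]
  refine Rt.neg h2 (hr.congr ?_)
  have h4 := VS_cl_sq (S := S) (w := 1) (c := ta) (fun q _ => q_not_taA q)
    (fun x => xi (MP_1a91b9_ntQ.em x / MP_1a91b9_ntQ.em (DD S)))
  rw [mul_one] at h4
  rw [Sig, ← h4]
  refine VS_v_sub fun x hx => ?_
  have hO := Oo_x hS hx
  have hg : Og (MP_1a91b9_ntQ.em x / MP_1a91b9_ntQ.em (DD S) + MP_1a91b9_ntQ.em β / zt ^ 2) := hO.og.add (n := 2) (add_tor β 2)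
  have k1 := GG_xi hB hg
  have k2 := xi_tor hB 2 hO.og (add_tor β 2)
  have e : ∀ X Y Z : ℂ, X - Z = (X - Y) + (Y - Z) := fun X Y Z => by ring
  rw [e _ (xi (MP_1a91b9_ntQ.em x / MP_1a91b9_ntQ.em (DD S) + MP_1a91b9_ntQ.em β / zt ^ 2))]
  exact Valuation.map_add_lt _ k1 k2

/-- the right side of the relation, class `D₀ = ± a` -/
theorem R_one1 (hB : te ∉ B) (i : ZMod 2) {S : Finset Pg7} (hS : S.Nonempty) {r : ZMod 2}
    (hr : Rt B (Sig S) r) {β : 𝓞 K} (hβ : ¬ ta ∣ β) :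
    Rt B (VS S (ta ^ 3) (fun x => OPA i 1 ee β (MP_1a91b9_ntQ.em x / MP_1a91b9_ntQ.em (DD S))) / Cc 1) r := by
  have h2 := two_notMem hB
  have hC : Cc 1 = r5 := if_neg (by decide)
  have hz0 := zt_ne0
  set ε : ℂ := ((sg2 (i + 1) : ℤ) : ℂ) with hε
  have hε2 : ε ^ 2 = 1 := sg2_csq _
  have h3 : VS S (ta ^ 3) (fun x => OPA i 1 ee β (MP_1a91b9_ntQ.em x / MP_1a91b9_ntQ.em (DD S))) / Cc 1 =
      -VS S (ta ^ 3) fun x => (gg (MP_1a91b9_ntQ.em x / MP_1a91b9_ntQ.em (DD S) + MP_1a91b9_ntQ.em β / zt ^ 3) +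
        ε * gg (MP_1a91b9_ntQ.em x / MP_1a91b9_ntQ.em (DD S) - MP_1a91b9_ntQ.em β / zt ^ 3)) / r5 := by
    rw [hC, ← VS_neg', div_eq_iff r5_ne, mul_comm, ← VS_mul_left]
    refine VS_congr fun x => ?_
    rw [OPA_ee1 _ hβ, mul_neg, mul_div_cancel₀ _ r5_ne]
  rw [h3]
  refine Rt.neg h2 (Rt_of_sq h2 (hr.congr ?_))
  -- the points
  have hO : ∀ x : 𝓞 K, (∀ q ∈ S, ch q (ta ^ 3 * x) = 1) → Oo (MP_1a91b9_ntQ.em x / MP_1a91b9_ntQ.em (DD S)) := fun x hx =>
    Oo_x hS hx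
  have hg : ∀ x : 𝓞 K, (∀ q ∈ S, ch q (ta ^ 3 * x) = 1) → Og (MP_1a91b9_ntQ.em x / MP_1a91b9_ntQ.em (DD S) + MP_1a91b9_ntQ.em β / zt ^ 3) :=
    fun x hx => (hO x hx).og.add (n := 3) (add_tor β 3)
  have hg' : ∀ x : 𝓞 K, (∀ q ∈ S, ch q (ta ^ 3 * x) = 1) → Og (MP_1a91b9_ntQ.em x / MP_1a91b9_ntQ.em (DD S) - MP_1a91b9_ntQ.em β / zt ^ 3) :=
    fun x hx => by
      have h5 := (hO x hx).og.add (n := 3) (add_tor (-β) 3)
      rw [em_neg, neg_div, ← sub_eq_add_neg] at h5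
      exact h5
  set G : 𝓞 K → ℂ := fun x => (gg (MP_1a91b9_ntQ.em x / MP_1a91b9_ntQ.em (DD S) + MP_1a91b9_ntQ.em β / zt ^ 3) +
        ε * gg (MP_1a91b9_ntQ.em x / MP_1a91b9_ntQ.em (DD S) - MP_1a91b9_ntQ.em β / zt ^ 3)) / r5 with hG
  have b1 : ∀ x : 𝓞 K, (∀ q ∈ S, ch q (ta ^ 3 * x) = 1) →
      B.valuation (G x - xi (MP_1a91b9_ntQ.em x / MP_1a91b9_ntQ.em (DD S) + MP_1a91b9_ntQ.em β / zt ^ 3)) < 1 := fun x hx =>
    g_pair hB (hg x hx) (hg' x hx) (by
      have h5 := pair_mem hβ (MP_1a91b9_ntQ.em x / MP_1a91b9_ntQ.em (DD S)) 0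
      rwa [add_zero, add_zero] at h5) hε2
  have b2 : ∀ x : 𝓞 K, (∀ q ∈ S, ch q (ta ^ 3 * x) = 1) → B.valuation (G x) ≤ 1 := fun x hx => by
    have e : G x = (G x - xi (MP_1a91b9_ntQ.em x / MP_1a91b9_ntQ.em (DD S) + MP_1a91b9_ntQ.em β / zt ^ 3)) +
      xi (MP_1a91b9_ntQ.em x / MP_1a91b9_ntQ.em (DD S) + MP_1a91b9_ntQ.em β / zt ^ 3) := by ring
    rw [e]
    exact (Valuation.map_add _ _ _).trans (max_le (b1 x hx).le (v_xi hB (hg x hx)).le)
  have b3 := VS_sq (S := S) (w := ta ^ 3) h2 (F := G) b2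
  have hSig : Sig S = VS S (ta ^ 3) fun x => xi (zt * (MP_1a91b9_ntQ.em x / MP_1a91b9_ntQ.em (DD S))) := by
    have h5 := VS_sub (S := S) (w := 1) (F := fun x => xi (MP_1a91b9_ntQ.em x / MP_1a91b9_ntQ.em (DD S)))
      (fun x y h => by
        have := xi_DD_pd S 0 x y h
        simpa using this) (c := ta) (cop_DD_iff.2 fun q _ => q_not_taA q)
    rw [Sig, ← h5, one_mul]
    have h6 := VS_cl_sq (S := S) (w := ta) (c := ta) (fun q _ => q_not_taA q)
      (fun x => xi (MP_1a91b9_ntQ.em (ta * x) / MP_1a91b9_ntQ.em (DD S)))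
    have e : (ta : 𝓞 K) ^ 2 * ta = ta ^ 3 := by ring
    rw [e] at h6
    rw [← h6]
    refine VS_congr fun x => ?_
    rw [em_mul, em_ta, mul_div_assoc]
  have b4 : B.valuation (VS S (ta ^ 3) (fun x => G x ^ 2) - Sig S) < 1 := by
    rw [hSig]
    refine VS_v_sub fun x hx => ?_
    have c1 := xi_frob hB (hg x hx)
    have c2 := b1 x hx
    have c3 := xi_tor hB 2 (hO x hx).mza.og (add_tor β 2)
    have e5 : zt * (MP_1a91b9_ntQ.em x / MP_1a91b9_ntQ.em (DD S) + MP_1a91b9_ntQ.em β / zt ^ 3) = zt * (MP_1a91b9_ntQ.em x / MP_1a91b9_ntQ.em (DD S)) + MP_1a91b9_ntQ.em β / zt ^ 2 := by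
      field_simp
    rw [← e5] at c3
    set w : ℂ := MP_1a91b9_ntQ.em x / MP_1a91b9_ntQ.em (DD S) + MP_1a91b9_ntQ.em β / zt ^ 3 with hw
    have e6 : G x ^ 2 - xi (zt * (MP_1a91b9_ntQ.em x / MP_1a91b9_ntQ.em (DD S))) = (G x - xi w) * (G x + xi w) -
        (xi (zt * w) - xi w ^ 2) + (xi (zt * w) - xi (zt * (MP_1a91b9_ntQ.em x / MP_1a91b9_ntQ.em (DD S)))) := by
      ring
    rw [e6]
    refine Valuation.map_add_lt _ (Valuation.map_sub_lt _ ?_ c1) c3
    rw [map_mul]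
    exact mul_lt_one_of_lt_of_le c2 ((Valuation.map_add _ _ _).trans
      (max_le (b2 x hx) (v_xi hB (hg x hx)).le))
  have e : ∀ X Y Z : ℂ, X - Z = (X - Y) + (Y - Z) := fun X Y Z => by ring
  rw [e _ (VS S (ta ^ 3) (fun x => G x ^ 2))]
  exact Valuation.map_add_lt _ b3 b4

/-! ### the relations -/

/-- the exact relation -/
theorem REd (hr : RecL) {d0 d1 : ZMod 2} {C : ℂ} (hC : C ≠ 0) (S : Finset Pg7) {β : 𝓞 K}
    (hβ : ta ^ ce (1 + d0) d1 ∣ β * DD S - 1) :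
    ∑ T ∈ S.powerset, (∏ q ∈ S \ T, (MP_1a91b9_ntQ.em q.1 - ((sg2 (wt d0 d1 0 q + sT T q) : ℤ) : ℂ)) / 2) *
      (if AA T = d0 + d1 then LS d0 d1 0 T / (2 ^ T.card * C) else 0) =
      VS S (ta ^ ce (1 + d0) d1) (fun x => OPA (1 + d0) d1 ee β (MP_1a91b9_ntQ.em x / MP_1a91b9_ntQ.em (DD S))) / C := by
  classical
  have h := AVGd (d0 := d0) (d1 := d1) LP_ee ee_neg S hβ
  have h2 : (2 : ℂ) ^ S.card * C ≠ 0 := mul_ne_zero (pow_ne_zero _ two_ne_zero) hC
  apply mul_left_cancel₀ h2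
  have e : 2 ^ S.card * C * (VS S (ta ^ ce (1 + d0) d1)
      (fun x => OPA (1 + d0) d1 ee β (MP_1a91b9_ntQ.em x / MP_1a91b9_ntQ.em (DD S))) / C) =
      2 ^ S.card * VS S (ta ^ ce (1 + d0) d1)
        (fun x => OPA (1 + d0) d1 ee β (MP_1a91b9_ntQ.em x / MP_1a91b9_ntQ.em (DD S))) := by
    field_simp
  rw [e, ← h, Finset.mul_sum, Finset.sum_filter]
  refine Finset.sum_congr rfl fun T hT => ?_
  by_cases hT1 : AA T = d0 + d1
  · rw [if_pos hT1, if_pos hT1]
    have hTS := Finset.mem_powerset.1 hT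
    have h3 : S.card = (S \ T).card + T.card := (Finset.card_sdiff_add_card_eq_card hTS).symm
    have h4 : ∏ q ∈ S \ T, (MP_1a91b9_ntQ.em q.1 - ((sg2 (wt d0 d1 0 q + sT T q) : ℤ) : ℂ)) / 2 =
        (∏ q ∈ S \ T, (MP_1a91b9_ntQ.em q.1 - ((ph d0 d1 0 T q.1 : ℤ) : ℂ))) / 2 ^ (S \ T).card := by
      rw [Finset.prod_div_distrib, Finset.prod_const]
      congr 1
      refine Finset.prod_congr rfl fun q hq => ?_
      rw [ph_prime d0 d1 0 hr (Finset.mem_sdiff.1 hq).2]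
    have h5 : SE ee (ta ^ ce (1 + d0) d1 * DD S)
        (fun c => ((ph d0 d1 0 T c : ℤ) : ℂ) * ((chS (S \ T) c : ℤ) : ℂ) ^ 2) =
        (∏ q ∈ S \ T, (MP_1a91b9_ntQ.em q.1 - ((ph d0 d1 0 T q.1 : ℤ) : ℂ))) * LS d0 d1 0 T := by
      rw [LS, ← SE_set LP_ee DR_ee (cf_ne d0 d1 0 T) (ph_pd d0 d1 0 T) (ph_mu d0 d1 0 T)]
      congr 1
      rw [cf_d T hT1, DD, DD, DD, ← Finset.prod_sdiff hTS]
      ring
    rw [h4, h5, h3, pow_add]
    have h6 : (2 : ℂ) ^ (S \ T).card ≠ 0 := pow_ne_zero _ two_ne_zero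
    have h7 : (2 : ℂ) ^ T.card ≠ 0 := pow_ne_zero _ two_ne_zero
    field_simp
  · rw [if_neg hT1, if_neg hT1, mul_zero, mul_zero]

theorem exists_be (S : Finset Pg7) (k : ℕ) (hk : k ≠ 0) :
    ∃ β : 𝓞 K, ta ^ k ∣ β * DD S - 1 ∧ ¬ ta ∣ β := by
  obtain ⟨β, hβ⟩ := exists_inv (M := ta ^ k) (c := DD S) ((DD_cop_ta S).pow_right)
  refine ⟨β, by rwa [mul_comm], not_ta_of hk hβ⟩

/-- **the class `D₀ = ± a`, `AA T = 1 + d0`** -/
theorem LS_nine (hB : te ∉ B) (hr : RecL) (d0 : ZMod 2) {s y : Finset Pg7 → ZMod 2}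
    (hs : ∀ S : Finset Pg7, S.Nonempty → Rt B (Sig S) (s S))
    (hy : ∀ S : Finset Pg7, S.Nonempty → Rw (wt d0 1 0) y S = s S) (hy0 : y ∅ = d0)
    (S : Finset Pg7) (hS : AA S = 1 + d0) : Rt B (LS d0 1 0 S / (2 ^ S.card * Cc 1)) (y S) := by
  have h2 := two_notMem hB
  have hC : Cc 1 = r5 := if_neg (by decide)
  have hi : ∀ i : ZMod 2, i = 0 ∨ i = 1 := by decide
  have key := RES hB (w := wt d0 1 0) (y := y)
    (Z := fun T => if AA T = d0 + 1 then LS d0 1 0 T / (2 ^ T.card * Cc 1) else 0)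
    (R := fun S => ∑ T ∈ S.powerset, (∏ q ∈ S \ T, (MP_1a91b9_ntQ.em q.1 - ((sg2 (wt d0 1 0 q + sT T q) : ℤ) : ℂ)) / 2) *
      (if AA T = d0 + 1 then LS d0 1 0 T / (2 ^ T.card * Cc 1) else 0))
    (c := fun T q => (MP_1a91b9_ntQ.em q.1 - ((sg2 (wt d0 1 0 q + sT T q) : ℤ) : ℂ)) / 2) (fun T q hq =>
      Rt_half hB q _) (fun S => rfl) (fun S => by
      rcases S.eq_empty_or_nonempty with rfl | hS
      · have e1 : Rw (wt d0 1 0) y ∅ = d0 := by
          rw [Rw, Finset.powerset_empty, Finset.sum_singleton, hy0]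
          simp
        have e2 : (∑ T ∈ (∅ : Finset Pg7).powerset,
            (∏ q ∈ (∅ : Finset Pg7) \ T, (MP_1a91b9_ntQ.em q.1 - ((sg2 (wt d0 1 0 q + sT T q) : ℤ) : ℂ)) / 2) *
            (if AA T = d0 + 1 then LS d0 1 0 T / (2 ^ T.card * Cc 1) else 0)) =
            if AA (∅ : Finset Pg7) = d0 + 1 then LS d0 1 0 ∅ / (2 ^ (∅ : Finset Pg7).card * Cc 1) else 0 := by
          rw [Finset.powerset_empty, Finset.sum_singleton, Finset.sdiff_self, Finset.prod_empty,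
            one_mul]
        rw [e1, e2]
        have hA0 : AA (∅ : Finset Pg7) = 0 := rfl
        rw [hA0]
        rcases hi d0 with rfl | rfl
        · rw [if_neg (by decide)]
          exact Rt.zero
        · rw [if_pos (by decide), Finset.card_empty, pow_zero, one_mul, hC]
          -- the value for the empty set
          obtain ⟨β, hβ, hβa⟩ := exists_be ∅ 3 three_ne_zero
          have h5 := REd hr (d0 := 1) (d1 := 1) r5_ne ∅ (β := β) hβ
          rw [Finset.powerset_empty, Finset.sum_singleton, Finset.sdiff_self, Finset.prod_empty,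
            one_mul, hA0, if_pos (by decide), Finset.card_empty, pow_zero, one_mul] at h5
          rw [h5]
          have h6 : (VS (∅ : Finset Pg7) (ta ^ ce (1 + 1) 1) fun x =>
              OPA (1 + 1) 1 ee β (MP_1a91b9_ntQ.em x / MP_1a91b9_ntQ.em (DD (∅ : Finset Pg7)))) = OPA 0 1 ee β 0 := by
            have h7 : Pd (1 : 𝓞 K) fun x => OPA (1 + 1) 1 ee β (MP_1a91b9_ntQ.em x / MP_1a91b9_ntQ.em (1 : 𝓞 K)) := by
              intro x y _
              dsimp only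
              rw [OPA, OPA]
              refine SM_congr fun s => ?_
              congr 1
              refine ee_cg ?_
              have e : MP_1a91b9_ntQ.em x / MP_1a91b9_ntQ.em (1 : 𝓞 K) + MP_1a91b9_ntQ.em (β * s) / MP_1a91b9_ntQ.em (ta ^ ce (1 + 1) 1) -
                  (MP_1a91b9_ntQ.em y / MP_1a91b9_ntQ.em (1 : 𝓞 K) + MP_1a91b9_ntQ.em (β * s) / MP_1a91b9_ntQ.em (ta ^ ce (1 + 1) 1)) = MP_1a91b9_ntQ.em x - MP_1a91b9_ntQ.em y := by
                rw [em_one]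
                ring
              rw [e]
              exact sub_mem (em_mem x) (em_mem y)
            rw [VS, DD, Finset.prod_empty]
            have h8 := SM_one h7
            rw [em_zero, zero_div] at h8
            refine Eq.trans (SM_congr fun x => ?_) h8
            rw [if_pos (fun q hq => absurd hq (Finset.notMem_empty q))]
          rw [h6, OPA_ee1 _ hβa, zero_add, zero_sub, gg_neg]
          have e3 : sg2 (0 + 1) = -1 := rfl
          rw [e3]
          refine Rt_of_sq h2 ?_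
          have hz0 := zt_ne0
          -- the square of the value
          have hβ2 : ta ^ 2 ∣ β - 1 := by
            have e : β * DD (∅ : Finset Pg7) - 1 = β - 1 := by rw [DD, Finset.prod_empty, mul_one]
            rw [e] at hβ
            exact (pow_dvd_pow _ (by norm_num)).trans hβ
          have h9 : zt * (MP_1a91b9_ntQ.em β / zt ^ 3) - te ^ 2 ∈ PP.lattice := by
            have e : zt * (MP_1a91b9_ntQ.em β / zt ^ 3) - te ^ 2 = MP_1a91b9_ntQ.em β / MP_1a91b9_ntQ.em (ta ^ 2) - MP_1a91b9_ntQ.em 1 / MP_1a91b9_ntQ.em (ta ^ 2) := by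
              rw [em_ta_pow, em_one, te]
              field_simp
            rw [e]
            exact div_sub_mem (ta_pow_ne 2) hβ2
          have h10 : zt * (MP_1a91b9_ntQ.em β / zt ^ 3) ∉ PP.lattice := by
            intro h
            have h11 : te ^ 2 ∈ PP.lattice := by
              have := sub_mem h h9
              rwa [sub_sub_cancel] at this
            have h12 : te ∈ PP.lattice := by
              have := mul_mem zt_mem h11
              rwa [pow_two, ← mul_assoc, zt_mul_te, one_mul] at this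
            exact te_notMem h12
          have h11 := gg_sq h10
          have h12 : XX (te ^ 2) = -zt := XX_te2
          rw [XX_cg h9, h12] at h11
          have h13 := ab_sq
          have e4 : (-(gg (MP_1a91b9_ntQ.em β / zt ^ 3) + (((-1 : ℤ) : ℤ) : ℂ) * -gg (MP_1a91b9_ntQ.em β / zt ^ 3)) / r5) ^ 2 =
              -ab ^ 2 := by
            rw [div_pow, r5_sq]
            push_cast
            have e5 : (-(gg (MP_1a91b9_ntQ.em β / zt ^ 3) + -1 * -gg (MP_1a91b9_ntQ.em β / zt ^ 3))) ^ 2 =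
                4 * gg (MP_1a91b9_ntQ.em β / zt ^ 3) ^ 2 := by ring
            rw [e5, h11, div_eq_iff (pow_ne_zero 5 hz0)]
            have h14 := zt_mul_ab
            linear_combination (zt ^ 3 * (zt * ab + 2)) * h14
          rw [e4]
          exact ((Rt_ab hB).pow h2 2).neg h2
      · rw [hy S hS]
        obtain ⟨β, hβ, hβa⟩ := exists_be S 3 three_ne_zero
        have hce : ce (1 + d0) 1 = 3 := rfl
        have h5 := REd hr (d0 := d0) (d1 := 1) (Cc_ne 1) S (β := β) (by rw [hce]; exact hβ)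
        rw [h5, hce]
        exact R_one1 hB (1 + d0) hS (hs S hS) hβa) S
  rw [if_pos (by rw [hS, add_comm])] at key
  exact key

/-! ### the class `D₀ = 1` -/

/-- the second order term at `a` -/
theorem Rt_b1 (hB : te ∉ B) (q : Pg7) : Rt B ((MP_1a91b9_ntQ.em q.1 - 1) / (2 * zt)) (b1 q) := by
  have h2 := two_notMem hB
  obtain ⟨m, hm⟩ := q.2.2.1
  have h3 : ZMod.castHom (by norm_num : 2 ∣ 8) (ZMod 2) (ra m) = b1 q := by
    have h4 := congrArg ra hm
    rw [map_sub, map_one, map_mul, map_pow, ra_ta] at h4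
    have h5 : ra q.1 = 1 + 6 ^ 2 * ra m := by
      linear_combination h4
    rw [b1, h5]
    generalize ra m = u
    revert u
    decide
  have e : (MP_1a91b9_ntQ.em q.1 - 1) / (2 * zt) = MP_1a91b9_ntQ.em m / ab := by
    have h := congrArg MP_1a91b9_ntQ.em hm
    rw [em_sub, em_one, em_mul, em_pow, em_ta] at h
    rw [h, div_eq_div_iff (mul_ne_zero two_ne_zero zt_ne0) ab_ne, ← zt_mul_ab]
    ring
  have h4 := Rt_em hB m
  rw [h3] at h4
  rw [e]
  have h5 : Rt B (ab⁻¹) 1 := by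
    refine Rt.one.congr ?_
    have e2 : ab⁻¹ - 1 = zt / ab := by
      have h9 : ab = 1 - zt := rfl
      rw [eq_div_iff ab_ne, sub_mul, inv_mul_cancel₀ ab_ne]
      linear_combination -h9
    rw [e2, map_div₀, v_ab hB, div_one]
    exact v_zt_lt hB
  have h6 := h4.mul h2 h5
  rwa [mul_one, ← div_eq_mul_inv] at h6

theorem gg_te2_sq : gg (te ^ 2) ^ 2 = zt ^ 2 := by
  have e : zt * te ^ 2 = te := by rw [pow_two, ← mul_assoc, zt_mul_te, one_mul]
  have h := gg_sq (z := te ^ 2) (by rw [e]; exact te_notMem)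
  rw [e, XX_te, mul_one] at h
  exact h

/-- the value for the empty set -/
theorem LS_empty (hr : RecL) : LS 0 0 0 ∅ = zt ∨ LS 0 0 0 ∅ = -zt := by
  obtain ⟨β, hβ, hβa⟩ := exists_be ∅ 2 two_ne_zero
  have hce : ce (1 + 0) 0 = 2 := rfl
  have h5 := REd hr (d0 := 0) (d1 := 0) one_ne_zero ∅ (β := β) (by rw [hce]; exact hβ)
  have hA0 : AA (∅ : Finset Pg7) = 0 := rfl
  rw [Finset.powerset_empty, Finset.sum_singleton, Finset.sdiff_self, Finset.prod_empty,
    one_mul, hA0, if_pos (by decide), Finset.card_empty, pow_zero, one_mul, div_one, div_one] at h5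
  have h6 : (VS (∅ : Finset Pg7) (ta ^ ce (1 + 0) 0) fun x =>
      OPA (1 + 0) 0 ee β (MP_1a91b9_ntQ.em x / MP_1a91b9_ntQ.em (DD (∅ : Finset Pg7)))) = OPA 1 0 ee β 0 := by
    have h7 : Pd (1 : 𝓞 K) fun x => OPA (1 + 0) 0 ee β (MP_1a91b9_ntQ.em x / MP_1a91b9_ntQ.em (1 : 𝓞 K)) := by
      intro x y _
      dsimp only
      rw [OPA, OPA]
      refine SM_congr fun s => ?_
      congr 1
      refine ee_cg ?_
      have e : MP_1a91b9_ntQ.em x / MP_1a91b9_ntQ.em (1 : 𝓞 K) + MP_1a91b9_ntQ.em (β * s) / MP_1a91b9_ntQ.em (ta ^ ce (1 + 0) 0) -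
          (MP_1a91b9_ntQ.em y / MP_1a91b9_ntQ.em (1 : 𝓞 K) + MP_1a91b9_ntQ.em (β * s) / MP_1a91b9_ntQ.em (ta ^ ce (1 + 0) 0)) = MP_1a91b9_ntQ.em x - MP_1a91b9_ntQ.em y := by
        rw [em_one]
        ring
      rw [e]
      exact sub_mem (em_mem x) (em_mem y)
    rw [VS, DD, Finset.prod_empty]
    have h8 := SM_one h7
    rw [em_zero, zero_div] at h8
    refine Eq.trans (SM_congr fun x => ?_) h8
    rw [if_pos (fun q hq => absurd hq (Finset.notMem_empty q))]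
  rw [h6, OPA_ee10 hβa, zero_add] at h5
  have hz0 := zt_ne0
  have h9 : MP_1a91b9_ntQ.em β / zt ^ 2 - te ^ 2 ∈ PP.lattice := by
    have e : MP_1a91b9_ntQ.em β / zt ^ 2 - te ^ 2 = MP_1a91b9_ntQ.em β / MP_1a91b9_ntQ.em (ta ^ 2) - MP_1a91b9_ntQ.em 1 / MP_1a91b9_ntQ.em (ta ^ 2) := by
      rw [em_ta_pow, em_one, te]
      field_simp
    rw [e]
    have e2 : β * DD (∅ : Finset Pg7) - 1 = β - 1 := by rw [DD, Finset.prod_empty, mul_one]
    rw [e2] at hβ
    exact div_sub_mem (ta_pow_ne 2) hβ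
  have h10 : gg (MP_1a91b9_ntQ.em β / zt ^ 2) = gg (te ^ 2) := gg_cg h9
  rw [h5, h10]
  rcases sq_eq_sq_iff_eq_or_eq_neg.1 gg_te2_sq with h | h
  · right
    rw [h]
  · left
    rw [h, neg_neg]

/-- the terms of the relation -/
def Z8 (T : Finset Pg7) : ℂ :=
  if T.Nonempty ∧ AA T = 0 then LS 0 0 0 T / (2 ^ T.card * Cc 0) else 0

/-- **the class `D₀ = 1`, `AA T = 0`** -/
theorem LS_eight (hB : te ∉ B) (hr : RecL) {s y : Finset Pg7 → ZMod 2}
    (hs : ∀ S : Finset Pg7, S.Nonempty → Rt B (Sig S) (s S))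
    (hy : ∀ S : Finset Pg7, S.Nonempty →
      Rw (wt 0 0 0) y S = s S + if S.card = 1 then ∑ q ∈ S, b1 q else 0) (hy0 : y ∅ = 0)
    {S : Finset Pg7} (hne : S.Nonempty) (hS : AA S = 0) :
    Rt B (LS 0 0 0 S / (2 ^ S.card * Cc 0)) (y S) := by
  classical
  have h2 := two_notMem hB
  have hz0 := zt_ne0
  have hC : Cc 0 = zt ^ 2 / Complex.I := if_pos rfl
  have hI := Complex.I_ne_zero
  have hwt : ∀ q : Pg7, wt 0 0 0 q = 0 := fun q => by
    rw [wt]
    ring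
  -- the unit
  obtain ⟨u, hu, hu1⟩ : ∃ u : ℂ, LS 0 0 0 ∅ / Cc 0 = u / zt ∧ Rt B u 1 := by
    rcases LS_empty hr with h | h
    · refine ⟨Complex.I, ?_, Rt_I h2⟩
      rw [h, hC]
      field_simp
    · refine ⟨-Complex.I, ?_, (Rt_I h2).neg h2⟩
      rw [h, hC]
      field_simp
  have key := RES hB (w := wt 0 0 0) (y := y) (Z := Z8)
    (R := fun S => ∑ T ∈ S.powerset,
      (∏ q ∈ S \ T, (MP_1a91b9_ntQ.em q.1 - ((sg2 (wt 0 0 0 q + sT T q) : ℤ) : ℂ)) / 2) * Z8 T)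
    (c := fun T q => (MP_1a91b9_ntQ.em q.1 - ((sg2 (wt 0 0 0 q + sT T q) : ℤ) : ℂ)) / 2) (fun T q hq =>
      Rt_half hB q _) (fun S => rfl) (fun S => by
      rcases S.eq_empty_or_nonempty with rfl | hS
      · have e1 : Rw (wt 0 0 0) y ∅ = 0 := by
          rw [Rw, Finset.powerset_empty, Finset.sum_singleton, hy0, zero_mul]
        have e2 : (∑ T ∈ (∅ : Finset Pg7).powerset,
            (∏ q ∈ (∅ : Finset Pg7) \ T, (MP_1a91b9_ntQ.em q.1 - ((sg2 (wt 0 0 0 q + sT T q) : ℤ) : ℂ)) / 2) *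
              Z8 T) = 0 := by
          rw [Finset.powerset_empty, Finset.sum_singleton, Z8,
            if_neg (fun h => Finset.not_nonempty_empty h.1), mul_zero]
        rw [e1, e2]
        exact Rt.zero
      · rw [hy S hS]
        obtain ⟨β, hβ, hβa⟩ := exists_be S 2 two_ne_zero
        have hce : ce (1 + 0) 0 = 2 := rfl
        have h5 := REd hr (d0 := 0) (d1 := 0) (Cc_ne 0) S (β := β) (by rw [hce]; exact hβ)
        have hA0 : AA (∅ : Finset Pg7) = 0 := rfl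
        rw [← Finset.add_sum_erase _ _ (Finset.empty_mem_powerset S), hA0, if_pos (by decide),
          Finset.card_empty, pow_zero, one_mul, hu, Finset.sdiff_empty, hce] at h5
        have e1 : (∑ T ∈ S.powerset,
            (∏ q ∈ S \ T, (MP_1a91b9_ntQ.em q.1 - ((sg2 (wt 0 0 0 q + sT T q) : ℤ) : ℂ)) / 2) * Z8 T) =
            VS S (ta ^ 2) (fun x => OPA (1 + 0) 0 ee β (MP_1a91b9_ntQ.em x / MP_1a91b9_ntQ.em (DD S))) / Cc 0 -
            (∏ q ∈ S, (MP_1a91b9_ntQ.em q.1 - ((sg2 (wt 0 0 0 q + sT ∅ q) : ℤ) : ℂ)) / 2) * (u / zt) := by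
          rw [← h5, add_sub_cancel_left, ← Finset.add_sum_erase _ _ (Finset.empty_mem_powerset S)]
          have e3 : Z8 ∅ = 0 := if_neg fun h => Finset.not_nonempty_empty h.1
          rw [e3, mul_zero, zero_add]
          refine Finset.sum_congr rfl fun T hT => ?_
          congr 1
          have hT0 := Finset.nonempty_iff_ne_empty.2 (Finset.mem_erase.1 hT).1
          rw [Z8]
          by_cases hT1 : AA T = 0
          · rw [if_pos ⟨hT0, hT1⟩, if_pos (by rw [hT1]; decide)]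
          · rw [if_neg fun h => hT1 h.2, if_neg fun h => hT1 (h.trans (by decide))]
        rw [e1]
        have r1 := R_ten hB hS (hs S hS) hβa
        have r2 : Rt B ((∏ q ∈ S, (MP_1a91b9_ntQ.em q.1 - ((sg2 (wt 0 0 0 q + sT ∅ q) : ℤ) : ℂ)) / 2) * (u / zt))
            (if S.card = 1 then ∑ q ∈ S, b1 q else 0) := by
          have e4 : ∏ q ∈ S, (MP_1a91b9_ntQ.em q.1 - ((sg2 (wt 0 0 0 q + sT ∅ q) : ℤ) : ℂ)) / 2 =
              ∏ q ∈ S, (MP_1a91b9_ntQ.em q.1 - 1) / 2 := by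
            refine Finset.prod_congr rfl fun q _ => ?_
            rw [hwt, sT, Finset.sum_empty, add_zero, sg2_zero]
            push_cast
            rfl
          rw [e4]
          have hq0 : ∀ q : Pg7, Rt B ((MP_1a91b9_ntQ.em q.1 - 1) / 2) 0 := fun q => Rt.of_lt (v_q_sub hB q)
          obtain ⟨q, hq⟩ := hS
          have e5 : (∏ q ∈ S, (MP_1a91b9_ntQ.em q.1 - 1) / 2) * (u / zt) =
              ((MP_1a91b9_ntQ.em q.1 - 1) / (2 * zt)) * (∏ p ∈ S.erase q, (MP_1a91b9_ntQ.em p.1 - 1) / 2) * u := by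
            rw [← Finset.mul_prod_erase _ _ hq]
            field_simp
          rw [e5]
          by_cases hc : S.card = 1
          · obtain ⟨q', hq'⟩ := Finset.card_eq_one.1 hc
            rw [if_pos hc]
            have hqq : q = q' := by
              rw [hq'] at hq
              exact Finset.mem_singleton.1 hq
            rw [hq', ← hqq, Finset.sum_singleton, Finset.erase_singleton, Finset.prod_empty, mul_one]
            have r3 := (Rt_b1 hB q).mul h2 hu1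
            rwa [mul_one] at r3
          · rw [if_neg hc]
            have h6 : (S.erase q).Nonempty := by
              rw [← Finset.card_pos, Finset.card_erase_of_mem hq]
              have : 0 < S.card := Finset.card_pos.2 ⟨q, hq⟩
              omega
            have r3 : Rt B (∏ p ∈ S.erase q, (MP_1a91b9_ntQ.em p.1 - 1) / 2) 0 := by
              have r4 : Rt B (∏ p ∈ S.erase q, (MP_1a91b9_ntQ.em p.1 - 1) / 2) (∏ p ∈ S.erase q, (0 : ZMod 2)) :=
                Rt.prod h2 (S.erase q) fun p _ => hq0 p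
              obtain ⟨p, hp⟩ := h6
              have h7 : ∏ p ∈ S.erase q, (0 : ZMod 2) = 0 := Finset.prod_eq_zero hp rfl
              rwa [h7] at r4
            have r4 := ((Rt_b1 hB q).mul h2 r3).mul h2 hu1
            rwa [mul_zero, zero_mul] at r4
        have r3 := r1.sub h2 r2
        have e6 : ∀ a b : ZMod 2, a - b = a + b := by decide
        rw [e6] at r3
        exact r3) S
  rw [Z8, if_pos ⟨hne, hS⟩] at key
  exact key

end

end Pool.Agent.Lib.MP_1a91b9_ntV
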