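import Pool.Agent.Lib.MP_1a91b9_ntV.A.V7

/-!
# The field `ℚ(√-7)`: the elliptic functions of `E¹ : y² = x (x + 1) (x + ab⁴)`

`xx`, `yy` the coordinates, `XX = xx + 1`, `ee` the normalised function `E1`, `gg = ee (· + te) - ee`
and `hh = ee (· + tf) - ee` (`gg = yy / xx`, `hh = yy / XX`).
-/

set_option autoImplicit false
set_option linter.unusedSectionVars false

namespace Pool.Agent.Lib.MP_1a91b9_ntV

open NumberField Filter Topology Pool.Agent.Lib.MP_1a91b9_nuT Pool.Agent.Lib.MP_1a91b9_nuT.S3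
  Pool.Agent.Lib.MP_1a91b9_nuT.Ell Pool.Agent.Lib.MP_1a91b9_ntQ

noncomputable section

variable [CD] [hv : V7]

/-! ### constants -/

theorem zt_four : zt ^ 4 = 2 - 3 * zt := by
  linear_combination (zt ^ 2 + zt - 2 + 1) * zt_sq

theorem ab_four : ab ^ 4 = 3 * zt - 1 := by
  rw [ab]
  linear_combination ((1 - zt) ^ 2 + (1 - zt) - 1) * zt_sq

theorem ab_sq' : ab ^ 2 = -1 - zt := by
  rw [ab]
  linear_combination zt_sq

theorem ab_cube : ab ^ 3 = zt ^ 2 - 1 := by
  rw [ab]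
  linear_combination (-zt + 1) * zt_sq

/-- the number `√-7` -/
def s7 : ℂ := 2 * zt - 1

theorem s7_sq : s7 ^ 2 = -7 := by
  rw [s7]
  linear_combination 4 * zt_sq

theorem s7_ne : s7 ≠ 0 := by
  intro h
  have := s7_sq
  rw [h] at this
  norm_num at this

/-- the scaling factor of the curve -/
def cu : ℂ := (hv.u : ℂ)

theorem cu_ne : cu ≠ 0 := by
  rw [cu]
  exact_mod_cast hv.u_ne

theorem E1_tor {t : ℂ} (ht : 2 * t ∈ PP.lattice) : E1 t = 0 := by
  have h1 := S3.E1_neg t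
  have h2 := S3.E1_add ht (-t)
  have e : -t + 2 * t = t := by ring
  rw [e] at h2
  linear_combination (1 / 2) * (h1 + h2)

theorem E1_cg {x y : ℂ} (h : x - y ∈ PP.lattice) : E1 x = E1 y := by
  have e : x = y + (x - y) := by ring
  rw [e, S3.E1_add h]

theorem P_cg {x y : ℂ} (h : x - y ∈ PP.lattice) : PP.weierstrassP x = PP.weierstrassP y := by
  have e : x = y + (x - y) := by ring
  rw [e, P_add h]

theorem E1_two_a (z : ℂ) : E1 z + E1 (z + te) = zt * E1 (zt * z) :=
  E1_two zt_mem zt_ne0 (by rw [zt_mul_te]; exact one_mem) (fun _ => zt_ker) te_notMem z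

theorem E1_two_b (z : ℂ) : E1 z + E1 (z + tf) = ab * E1 (ab * z) :=
  E1_two ab_mem ab_ne (by rw [ab_mul_tf]; exact one_mem) (fun _ => ab_ker) tf_notMem z

theorem P_two_a {z : ℂ} (hz : zt * z ∉ PP.lattice) :
    PP.weierstrassP z + PP.weierstrassP (z + te) =
      zt ^ 2 * PP.weierstrassP (zt * z) + PP.weierstrassP te :=
  P_two zt_mem zt_ne0 (by rw [zt_mul_te]; exact one_mem) (fun _ => zt_ker) te_notMem hz

theorem P_two_b {z : ℂ} (hz : ab * z ∉ PP.lattice) :
    PP.weierstrassP z + PP.weierstrassP (z + tf) =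
      ab ^ 2 * PP.weierstrassP (ab * z) + PP.weierstrassP tf :=
  P_two ab_mem ab_ne (by rw [ab_mul_tf]; exact one_mem) (fun _ => ab_ker) tf_notMem hz

/-- outside the kernel of `a` -/
theorem nm_a {z : ℂ} (hz : zt * z ∉ PP.lattice) : z ∉ PP.lattice ∧ z + te ∉ PP.lattice := by
  constructor
  · intro h
    exact hz (mul_mem zt_mem h)
  · intro h
    apply hz
    have := sub_mem (mul_mem zt_mem h) one_mem
    have e : zt * (z + te) - 1 = zt * z := by rw [← zt_mul_te]; ring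
    rwa [e] at this

/-- outside the kernel of `ab` -/
theorem nm_b {z : ℂ} (hz : ab * z ∉ PP.lattice) : z ∉ PP.lattice ∧ z + tf ∉ PP.lattice := by
  constructor
  · intro h
    exact hz (mul_mem ab_mem h)
  · intro h
    apply hz
    have := sub_mem (mul_mem ab_mem h) one_mem
    have e : ab * (z + tf) - 1 = ab * z := by rw [← ab_mul_tf]; ring
    rwa [e] at this

/-- outside the points of order two -/
theorem nm_2 {z : ℂ} (hz : 2 * z ∉ PP.lattice) : zt * z ∉ PP.lattice ∧ ab * z ∉ PP.lattice := by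
  constructor
  · intro h
    apply hz
    have := mul_mem ab_mem h
    have e : ab * (zt * z) = 2 * z := by rw [← zt_mul_ab]; ring
    rwa [e] at this
  · intro h
    apply hz
    have := mul_mem zt_mem h
    have e : zt * (ab * z) = 2 * z := by rw [← zt_mul_ab]; ring
    rwa [e] at this

theorem sq_a {z : ℂ} (hz : zt * z ∉ PP.lattice) :
    (E1 (z + te) - E1 z) ^ 2 = zt ^ 2 * PP.weierstrassP (zt * z) + 2 * PP.weierstrassP te := by
  have h := add_sq (nm_a hz).1 te_notMem (nm_a hz).2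
  have h2 := P_two_a hz
  rw [E1_tor two_te_mem] at h
  linear_combination h + h2

theorem sq_b {z : ℂ} (hz : ab * z ∉ PP.lattice) :
    (E1 (z + tf) - E1 z) ^ 2 = ab ^ 2 * PP.weierstrassP (ab * z) + 2 * PP.weierstrassP tf := by
  have h := add_sq (nm_b hz).1 tf_notMem (nm_b hz).2
  have h2 := P_two_b hz
  rw [E1_tor two_tf_mem] at h
  linear_combination h + h2

theorem P_tf_te : zt * PP.weierstrassP tf = -(ab * PP.weierstrassP te) := by
  have hz : zt * tf ∉ PP.lattice := by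
    intro h
    apply tf_notMem
    have := sub_mem h zt_tf
    have e : zt * tf - (zt * tf - tf) = tf := by ring
    rwa [e] at this
  have h := sq_a hz
  have h1 : 2 * (tf + te) ∈ PP.lattice := by
    rw [mul_add]
    exact add_mem two_tf_mem two_te_mem
  rw [E1_tor h1, E1_tor two_tf_mem, P_cg zt_tf] at h
  apply mul_left_cancel₀ zt_ne0
  linear_combination -h + PP.weierstrassP te * zt_mul_ab

/-- the period of the curve `E¹`, up to the sign -/
theorem exists_sg : ∃ w : ℂ, w ^ 2 = s7 :=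
  IsAlgClosed.exists_pow_nat_eq s7 (n := 2) (by norm_num)

theorem cA_eq : cA ℂ = -35 * cu ^ 4 := by
  change ((CD.A : ℤ) : ℂ) = _
  rw [hv.A, cu]
  push_cast
  ring

theorem cB_eq : cB ℂ = -98 * cu ^ 6 := by
  change ((CD.B : ℤ) : ℂ) = _
  rw [hv.B, cu]
  push_cast
  ring

section
variable {w : ℂ} (hw : w ^ 2 = s7)
include hw

theorem sg_ne' : w ≠ 0 := by
  rintro rfl
  apply s7_ne
  rw [← hw]
  ring

theorem O_ne' : Om * cu * w ≠ 0 :=
  mul_ne_zero (mul_ne_zero Om_ne_zero cu_ne) (sg_ne' hw)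

/-- the equation in the normalised coordinate -/
theorem crv' {z : ℂ} (hz : z ∉ PP.lattice) :
    (PP.derivWeierstrassP z / (2 * (Om * cu * w) ^ 3)) ^ 2 =
      (PP.weierstrassP z / (Om * cu * w) ^ 2) ^ 3 + 5 * (PP.weierstrassP z / (Om * cu * w) ^ 2) -
        2 * s7 := by
  have h := diff_eq hz
  rw [cA_eq, cB_eq] at h
  have hO := Om_ne_zero
  have hc := cu_ne
  have hg := sg_ne' hw
  have h2 : (PP.derivWeierstrassP z / (2 * (Om * cu * w) ^ 3)) ^ 2 =
      (PP.derivWeierstrassP z) ^ 2 / (4 * (Om * cu * w) ^ 6) := by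
    rw [div_pow]
    congr 1
    ring
  rw [h2, h]
  have h4 : w ^ 4 = -7 := by
    have : w ^ 4 = (w ^ 2) ^ 2 := by ring
    rw [this, hw, s7_sq]
  field_simp
  generalize PP.weierstrassP z = P
  have h6 : w ^ 6 = -7 * s7 := by
    have : w ^ 6 = w ^ 4 * w ^ 2 := by ring
    rw [this, hw, h4]
  linear_combination (-5 * P * Om ^ 4 * cu ^ 4) * h4 + (2 * s7 * Om ^ 6 * cu ^ 6) * h6 -
    (14 * Om ^ 6 * cu ^ 6) * s7_sq

theorem P_te' : PP.weierstrassP te / (Om * cu * w) ^ 2 = zt := by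
  have h1 := crv' hw te_notMem
  have h2 := crv' hw tf_notMem
  rw [Q_half two_te_mem, zero_div, zero_pow two_ne_zero] at h1
  rw [Q_half two_tf_mem, zero_div, zero_pow two_ne_zero] at h2
  have h3 : zt * (PP.weierstrassP tf / (Om * cu * w) ^ 2) =
      -(ab * (PP.weierstrassP te / (Om * cu * w) ^ 2)) := by
    rw [← mul_div_assoc, P_tf_te, neg_div, mul_div_assoc]
  generalize PP.weierstrassP te / (Om * cu * w) ^ 2 = x at *
  generalize PP.weierstrassP tf / (Om * cu * w) ^ 2 = y at *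
  have hx : x ≠ 0 := by
    rintro rfl
    apply s7_ne
    linear_combination (1 / 2) * h1
  have h4 : x ^ 3 * (-5) + 5 * x * zt ^ 2 = 0 := by
    have hy : zt ^ 3 * (y ^ 3 + 5 * y - 2 * s7) = 0 := by rw [← h2]; ring
    have hy2 : zt ^ 3 * y ^ 3 = -(ab * x) ^ 3 := by
      have : zt ^ 3 * y ^ 3 = (zt * y) ^ 3 := by ring
      rw [this, h3]
      ring
    have h5 : zt ^ 3 * (x ^ 3 + 5 * x - 2 * s7) = 0 := by rw [← h1]; ring
    have h6 : x ^ 3 * (zt ^ 3 + ab ^ 3) + 5 * x * zt ^ 2 * (zt + ab) = 0 := by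
      linear_combination h5 - hy + hy2 + 5 * zt ^ 2 * h3
    have h7 : zt ^ 3 + ab ^ 3 = -5 := by
      rw [ab]
      linear_combination 3 * zt_sq
    have h8 : zt + ab = 1 := by rw [ab]; ring
    rw [h7, h8] at h6
    linear_combination h6
  have h5 : x ^ 2 = zt ^ 2 := by
    have : x * (x ^ 2 - zt ^ 2) = 0 := by linear_combination (-1 / 5) * h4
    rcases mul_eq_zero.1 this with h | h
    · exact absurd h hx
    · linear_combination h
  have h6 : (x - zt) * (zt + 3) = 0 := by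
    have : x ^ 3 = x * zt ^ 2 := by rw [← h5]; ring
    rw [this] at h1
    rw [s7] at h1
    linear_combination -h1 - (x + 1) * zt_sq
  rcases mul_eq_zero.1 h6 with h | h
  · linear_combination h
  · exfalso
    have h7 := zt_sq
    have h8 : zt = -3 := by linear_combination h
    rw [h8] at h7
    norm_num at h7

theorem P_tf' : PP.weierstrassP tf / (Om * cu * w) ^ 2 = -ab := by
  have h1 := P_te' hw
  apply mul_left_cancel₀ zt_ne0
  rw [← mul_div_assoc, P_tf_te, neg_div, mul_div_assoc, h1]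
  ring

/-- the square of the value at the point `te²` -/
theorem e_te2' : (E1 (te ^ 2) / (Om * cu * w)) ^ 2 = (1 / ab) ^ 2 := by
  have hz : zt * te ^ 2 ∉ PP.lattice := by
    have e : zt * te ^ 2 = te := by
      rw [pow_two, ← mul_assoc, zt_mul_te, one_mul]
    rw [e]
    exact te_notMem
  have e : zt * te ^ 2 = te := by
    rw [pow_two, ← mul_assoc, zt_mul_te, one_mul]
  have h1 := sq_a hz
  have h2 := E1_two_a (te ^ 2)
  rw [e, E1_tor two_te_mem, mul_zero] at h2
  rw [e] at h1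
  have h3 : 4 * E1 (te ^ 2) ^ 2 = (zt ^ 2 + 2) * PP.weierstrassP te := by
    have h4 : E1 (te ^ 2 + te) = -E1 (te ^ 2) := by linear_combination h2
    rw [h4] at h1
    linear_combination h1
  have h4 := P_te' hw
  have hO := O_ne' hw
  rw [div_pow, div_eq_iff (pow_ne_zero 2 hO)]
  rw [div_eq_iff (pow_ne_zero 2 hO)] at h4
  have h5 : (1 / ab) ^ 2 = zt ^ 2 / 4 := by
    have : (1 / ab) = zt / 2 := by
      rw [div_eq_div_iff ab_ne two_ne_zero, one_mul, zt_mul_ab]
    rw [this]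
    ring
  rw [h5]
  linear_combination (1 / 4) * h3 + (1 / 4) * (zt ^ 2 + 2) * h4 +
    (1 / 4) * zt * (Om * cu * w) ^ 2 * zt_sq
end

theorem exists_sg' : ∃ w : ℂ, w ^ 2 = s7 ∧ E1 (te ^ 2) / (Om * cu * w) = 1 / ab := by
  obtain ⟨w, hw⟩ := exists_sg
  rcases sq_eq_sq_iff_eq_or_eq_neg.1 (e_te2' hw) with h | h
  · exact ⟨w, hw, h⟩
  · refine ⟨-w, by rw [neg_pow]; simp [hw], ?_⟩
    rw [mul_neg, div_neg, h, neg_neg]

/-- the square root of `√-7` -/
def sg : ℂ := exists_sg'.choose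

theorem sg_sq : sg ^ 2 = s7 := exists_sg'.choose_spec.1

/-- the period -/
def O7 : ℂ := Om * cu * sg

theorem O7_ne : O7 ≠ 0 := O_ne' sg_sq

/-- the normalised function `E1` -/
def ee (z : ℂ) : ℂ := E1 z / O7

/-- the abscissa -/
def xx (z : ℂ) : ℂ := PP.weierstrassP z / O7 ^ 2 - zt

/-- the shifted abscissa -/
def XX (z : ℂ) : ℂ := xx z + 1

/-- the ordinate -/
def yy (z : ℂ) : ℂ := PP.derivWeierstrassP z / (2 * O7 ^ 3)

/-- `yy / xx` -/
def gg (z : ℂ) : ℂ := ee (z + te) - ee z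

/-- `yy / XX` -/
def hh (z : ℂ) : ℂ := ee (z + tf) - ee z

theorem ee_te2 : ee (te ^ 2) = 1 / ab := exists_sg'.choose_spec.2

theorem ee_neg (z : ℂ) : ee (-z) = -ee z := by rw [ee, ee, S3.E1_neg, neg_div]

theorem ee_add {l : ℂ} (hl : l ∈ PP.lattice) (z : ℂ) : ee (z + l) = ee z := by
  rw [ee, ee, S3.E1_add hl]

theorem ee_cg {x y : ℂ} (h : x - y ∈ PP.lattice) : ee x = ee y := by rw [ee, ee, E1_cg h]

theorem ee_tor {t : ℂ} (ht : 2 * t ∈ PP.lattice) : ee t = 0 := by rw [ee, E1_tor ht, zero_div]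

theorem xx_neg (z : ℂ) : xx (-z) = xx z := by rw [xx, xx, PP.weierstrassP_neg]

theorem xx_cg {x y : ℂ} (h : x - y ∈ PP.lattice) : xx x = xx y := by rw [xx, xx, P_cg h]

theorem xx_add {l : ℂ} (hl : l ∈ PP.lattice) (z : ℂ) : xx (z + l) = xx z := by
  rw [xx, xx, P_add hl]

theorem XX_neg (z : ℂ) : XX (-z) = XX z := by rw [XX, XX, xx_neg]

theorem XX_cg {x y : ℂ} (h : x - y ∈ PP.lattice) : XX x = XX y := by rw [XX, XX, xx_cg h]

theorem XX_add {l : ℂ} (hl : l ∈ PP.lattice) (z : ℂ) : XX (z + l) = XX z := by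
  rw [XX, XX, xx_add hl]

theorem yy_neg (z : ℂ) : yy (-z) = -yy z := by
  rw [yy, yy, PP.derivWeierstrassP_neg, neg_div]

theorem yy_add {l : ℂ} (hl : l ∈ PP.lattice) (z : ℂ) : yy (z + l) = yy z := by
  rw [yy, yy, Q_add hl]

theorem yy_cg {x y : ℂ} (h : x - y ∈ PP.lattice) : yy x = yy y := by
  have e : x = y + (x - y) := by ring
  rw [e, yy_add h]

theorem gg_cg {x y : ℂ} (h : x - y ∈ PP.lattice) : gg x = gg y := by
  rw [gg, gg, ee_cg h, ee_cg (x := x + te) (y := y + te) (by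
    have e : x + te - (y + te) = x - y := by ring
    rwa [e])]

theorem hh_cg {x y : ℂ} (h : x - y ∈ PP.lattice) : hh x = hh y := by
  rw [hh, hh, ee_cg h, ee_cg (x := x + tf) (y := y + tf) (by
    have e : x + tf - (y + tf) = x - y := by ring
    rwa [e])]

theorem gg_te (z : ℂ) : gg (z + te) = -gg z := by
  rw [gg, gg, ee_cg (x := z + te + te) (y := z) (by
    have e : z + te + te - z = 2 * te := by ring
    rw [e]
    exact two_te_mem)]
  ring

theorem hh_tf (z : ℂ) : hh (z + tf) = -hh z := by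
  rw [hh, hh, ee_cg (x := z + tf + tf) (y := z) (by
    have e : z + tf + tf - z = 2 * tf := by ring
    rw [e]
    exact two_tf_mem)]
  ring

theorem gg_neg (z : ℂ) : gg (-z) = -gg z := by
  have h : ee (-z + te) = -ee (z + te) := by
    rw [← ee_neg]
    apply ee_cg
    have e : -z + te - -(z + te) = 2 * te := by ring
    rw [e]
    exact two_te_mem
  rw [gg, gg, h, ee_neg]
  ring

theorem hh_neg (z : ℂ) : hh (-z) = -hh z := by
  have h : ee (-z + tf) = -ee (z + tf) := by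
    rw [← ee_neg]
    apply ee_cg
    have e : -z + tf - -(z + tf) = 2 * tf := by ring
    rw [e]
    exact two_tf_mem
  rw [hh, hh, h, ee_neg]
  ring

theorem xx_te : xx te = 0 := by
  rw [xx, O7, P_te' sg_sq, sub_self]

theorem XX_tf : XX tf = 0 := by
  rw [XX, xx, O7, P_tf' sg_sq, ab]
  ring

theorem XX_te : XX te = 1 := by rw [XX, xx_te, zero_add]

theorem xx_tf : xx tf = -1 := by
  have := XX_tf
  rw [XX] at this
  linear_combination this

theorem yy_tor {t : ℂ} (ht : 2 * t ∈ PP.lattice) : yy t = 0 := by rw [yy, Q_half ht, zero_div]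

/-- the curve -/
theorem crv {z : ℂ} (hz : z ∉ PP.lattice) : yy z ^ 2 = xx z * (xx z + 1) * (xx z + ab ^ 4) := by
  have h := crv' sg_sq hz
  rw [← O7] at h
  rw [yy, h, xx, ab_four]
  generalize PP.weierstrassP z / O7 ^ 2 = P
  rw [s7]
  linear_combination (3 * P - 2 * zt + 1) * zt_sq

theorem crvX {z : ℂ} (hz : z ∉ PP.lattice) : yy z ^ 2 = XX z * (XX z - 1) * (XX z - zt ^ 4) := by
  rw [crv hz, XX, ab_four, zt_four]
  ring

theorem ee_two_a (z : ℂ) : 2 * ee z + gg z = zt * ee (zt * z) := by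
  have h := E1_two_a z
  rw [gg, ee, ee, ee]
  have hO := O7_ne
  generalize E1 (zt * z) = c at h ⊢
  field_simp
  linear_combination h

theorem ee_two_b (z : ℂ) : 2 * ee z + hh z = ab * ee (ab * z) := by
  have h := E1_two_b z
  rw [hh, ee, ee, ee]
  have hO := O7_ne
  generalize E1 (ab * z) = c at h ⊢
  field_simp
  linear_combination h

theorem gg_sq {z : ℂ} (hz : zt * z ∉ PP.lattice) : gg z ^ 2 = zt ^ 2 * XX (zt * z) := by
  have h := sq_a hz
  have h2 := P_te' sg_sq
  rw [← O7] at h2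
  have hO := O7_ne
  have h3 : gg z ^ 2 = (E1 (z + te) - E1 z) ^ 2 / O7 ^ 2 := by
    rw [gg, ee, ee]
    ring
  rw [h3, h, add_div, mul_div_assoc, mul_div_assoc, h2, XX, xx]
  generalize PP.weierstrassP (zt * z) / O7 ^ 2 = P
  linear_combination zt * zt_sq

theorem hh_sq {z : ℂ} (hz : ab * z ∉ PP.lattice) : hh z ^ 2 = ab ^ 2 * xx (ab * z) := by
  have h := sq_b hz
  have h2 := P_tf' sg_sq
  rw [← O7] at h2
  have hO := O7_ne
  have h3 : hh z ^ 2 = (E1 (z + tf) - E1 z) ^ 2 / O7 ^ 2 := by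
    rw [hh, ee, ee]
    ring
  rw [h3, h, add_div, mul_div_assoc, mul_div_assoc, h2, xx]
  generalize PP.weierstrassP (ab * z) / O7 ^ 2 = P
  linear_combination ab * zt_mul_ab

/-- addition of the arguments of `ee` -/
theorem ee_chord {z w : ℂ} (hz : 2 * z ∉ PP.lattice) (hw : 2 * w ∉ PP.lattice)
    (h1 : z - w ∉ PP.lattice) (h2 : z + w ∉ PP.lattice) :
    (ee (z + w) - ee z - ee w) * (xx z - xx w) = yy z - yy w := by
  have h := chord0 hz hw h1 h2
  have hO := O7_ne
  rw [ee, ee, ee, xx, xx, yy, yy]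
  field_simp
  linear_combination h

/-- the addition of a point of order two -/
theorem ee_tor_add {t z : ℂ} (ht : 2 * t ∈ PP.lattice) (ht0 : t ∉ PP.lattice)
    (hz : 2 * z ∉ PP.lattice) : (ee (z + t) - ee z) * (xx z - xx t) = yy z := by
  have h1 : t - z ∉ PP.lattice := by
    intro h
    apply hz
    have := sub_mem ht (add_mem h h)
    have e : 2 * t - (t - z + (t - z)) = 2 * z := by ring
    rwa [e] at this
  have h2 : t + z ∉ PP.lattice := by
    intro h
    apply hz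
    have := sub_mem (add_mem h h) ht
    have e : t + z + (t + z) - 2 * t = 2 * z := by ring
    rwa [e] at this
  have h := sig hz ht0 h1 h2
  have h5 : E1 (t - z) = -E1 (z + t) := by
    rw [← S3.E1_neg]
    have h6 := S3.E1_add ht (-(z + t))
    have e : -(z + t) + 2 * t = t - z := by ring
    rw [e] at h6
    exact h6
  rw [h5, add_comm t z] at h
  have hO := O7_ne
  rw [ee, ee, xx, xx, yy]
  field_simp
  linear_combination h

theorem gg_mul {z : ℂ} (hz : 2 * z ∉ PP.lattice) : gg z * xx z = yy z := by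
  have h := ee_tor_add two_te_mem te_notMem hz
  rw [xx_te, sub_zero] at h
  exact h

theorem hh_mul {z : ℂ} (hz : 2 * z ∉ PP.lattice) : hh z * XX z = yy z := by
  have h := ee_tor_add two_tf_mem tf_notMem hz
  rw [xx_tf, sub_neg_eq_add] at h
  exact h

theorem yy_ne {z : ℂ} (hz : 2 * z ∉ PP.lattice) : yy z ≠ 0 := by
  intro h
  apply Per.Q_ne hz
  rw [yy, div_eq_zero_iff] at h
  exact h.resolve_right (mul_ne_zero two_ne_zero (pow_ne_zero 3 O7_ne))

theorem xx_ne {z : ℂ} (hz : 2 * z ∉ PP.lattice) : xx z ≠ 0 := by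
  intro h
  apply yy_ne hz
  rw [← gg_mul hz, h, mul_zero]

theorem XX_ne {z : ℂ} (hz : 2 * z ∉ PP.lattice) : XX z ≠ 0 := by
  intro h
  apply yy_ne hz
  rw [← hh_mul hz, h, mul_zero]

theorem gg_ne {z : ℂ} (hz : 2 * z ∉ PP.lattice) : gg z ≠ 0 := by
  intro h
  apply yy_ne hz
  rw [← gg_mul hz, h, zero_mul]

theorem hh_ne {z : ℂ} (hz : 2 * z ∉ PP.lattice) : hh z ≠ 0 := by
  intro h
  apply yy_ne hz
  rw [← hh_mul hz, h, zero_mul]

theorem nlE {z : ℂ} (hz : 2 * z ∉ PP.lattice) : z ∉ PP.lattice := notMem_of_two_mul hz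

theorem nl_te {z : ℂ} (hz : 2 * z ∉ PP.lattice) : 2 * (z + te) ∉ PP.lattice := by
  intro h
  apply hz
  have := sub_mem h two_te_mem
  have e : 2 * (z + te) - 2 * te = 2 * z := by ring
  rwa [e] at this

theorem nl_tf {z : ℂ} (hz : 2 * z ∉ PP.lattice) : 2 * (z + tf) ∉ PP.lattice := by
  intro h
  apply hz
  have := sub_mem h two_tf_mem
  have e : 2 * (z + tf) - 2 * tf = 2 * z := by ring
  rwa [e] at this

/-- the multiplication by `ab` -/
theorem xx_ab {z : ℂ} (hz : 2 * z ∉ PP.lattice) :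
    ab ^ 2 * xx (ab * z) * XX z = (XX z - 1) * (XX z - zt ^ 4) := by
  have h1 := hh_sq (nm_2 hz).2
  have h2 := crvX (nlE hz)
  rw [← hh_mul hz, mul_pow, h1] at h2
  apply mul_left_cancel₀ (XX_ne hz)
  linear_combination h2

theorem XX_ab {z : ℂ} (hz : 2 * z ∉ PP.lattice) :
    ab ^ 2 * XX (ab * z) * XX z = (XX z + zt ^ 2) ^ 2 := by
  have h := xx_ab hz
  have e : XX (ab * z) = xx (ab * z) + 1 := rfl
  rw [zt_four] at h
  rw [e]
  have h3 := ab_sq'
  linear_combination h + XX z * h3 - (2 * XX z + zt ^ 2 + zt - 1) * zt_sq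

/-- the multiplication by `a` -/
theorem XX_zt {z : ℂ} (hz : 2 * z ∉ PP.lattice) :
    zt ^ 2 * XX (zt * z) * xx z = XX z * (XX z - zt ^ 4) := by
  have h1 := gg_sq (nm_2 hz).1
  have h2 := crvX (nlE hz)
  rw [← gg_mul hz, mul_pow, h1] at h2
  have h3 : XX z - 1 = xx z := by rw [XX]; ring
  rw [h3] at h2
  apply mul_left_cancel₀ (xx_ne hz)
  linear_combination h2

/-- the translation by `tf` -/
theorem XX_tr {z : ℂ} (hz : 2 * z ∉ PP.lattice) : XX z * XX (z + tf) = zt ^ 4 := by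
  have h := P_two_b (nm_2 hz).2
  have h2 := P_tf' sg_sq
  rw [← O7] at h2
  have hO := O7_ne
  have h3 : xx z + xx (z + tf) + 2 * zt = ab ^ 2 * (xx (ab * z) + zt) - ab := by
    have h4 := congrArg (fun x => x / O7 ^ 2) h
    simp only [add_div, mul_div_assoc] at h4
    rw [h2] at h4
    rw [xx, xx, xx]
    linear_combination h4
  have h5 := xx_ab hz
  have h6 : XX (z + tf) = xx (z + tf) + 1 := rfl
  have h7 : XX z = xx z + 1 := rfl
  have h8 := ab_sq'
  have h9 := zt_mul_ab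
  rw [zt_four] at h5 ⊢
  have h10 : xx (z + tf) = ab ^ 2 * xx (ab * z) + ab ^ 2 * zt - ab - 2 * zt - xx z := by
    linear_combination h3
  have h11 : ab ^ 2 * zt = 2 * ab := by linear_combination ab * h9
  rw [h6, h10, h11, h7]
  rw [h7] at h5
  have h12 : ab = 1 - zt := rfl
  rw [h12] at h5 ⊢
  linear_combination h5

theorem yy_tr {z : ℂ} (hz : 2 * z ∉ PP.lattice) : yy (z + tf) * XX z ^ 2 = -(zt ^ 4 * yy z) := by
  have h1 := hh_mul (nl_tf hz)
  rw [hh_tf] at h1
  have h2 := hh_mul hz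
  have h3 := XX_tr hz
  rw [← h1, ← h2]
  linear_combination -(hh z * XX z) * h3

/-- the product of `gg` at `z` and `z + tf` -/
theorem gg_tr {z : ℂ} (hz : 2 * z ∉ PP.lattice) : gg z * gg (z + tf) = zt ^ 4 := by
  have h1 := gg_mul hz
  have h2 := gg_mul (nl_tf hz)
  have h3 := yy_tr hz
  have h4 := XX_tr hz
  have h5 := crvX (nlE hz)
  have h6 : xx (z + tf) = XX (z + tf) - 1 := by rw [XX]; ring
  have h7 : xx z = XX z - 1 := by rw [XX]; ring
  have hX := XX_ne hz
  have hx := xx_ne hz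
  have hx' := xx_ne (nl_tf hz)
  apply mul_left_cancel₀ (mul_ne_zero (pow_ne_zero 2 hX) (mul_ne_zero hx hx'))
  have e1 : XX z ^ 2 * (xx z * xx (z + tf)) * (gg z * gg (z + tf)) =
      yy z * (yy (z + tf) * XX z ^ 2) := by
    linear_combination (XX z ^ 2 * xx (z + tf) * gg (z + tf)) * h1 + (XX z ^ 2 * yy z) * h2
  rw [e1, h3]
  have e2 : XX z * xx (z + tf) = zt ^ 4 - XX z := by
    rw [h6]
    linear_combination h4
  have e3 : XX z ^ 2 * (xx z * xx (z + tf)) * zt ^ 4 =
      XX z * xx z * (XX z * xx (z + tf)) * zt ^ 4 := by ring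
  rw [e3, e2, h7]
  linear_combination -(zt ^ 4) * h5

end

end Pool.Agent.Lib.MP_1a91b9_ntV
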