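import Pool.Agent.Lib.MP_1a91b9_ntV.A.Con7
import Pool.Agent.Lib.MP_1a91b9_ntV.C.CritD

/-!
# The field `ℚ(√-7)`: the nonvanishing of the primitive sum from the criterion of the descent

`dat7`: the symbols and the bits of the primes. `LS_ne_good`: if the criterion `Cr.Good` holds then the primitive sum
is not zero, for all classes.
-/

set_option autoImplicit false
set_option linter.unusedSectionVars false

namespace Pool.Agent.Lib.MP_1a91b9_ntV

open NumberField Pool.Agent.Lib.MP_1a91b9_nuT Pool.Agent.Lib.MP_1a91b9_nuT.S3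
  Pool.Agent.Lib.MP_1a91b9_nuT.Ell Pool.Agent.Lib.MP_1a91b9_ntQ
open Pool.Agent.Lib.MP_1a91b9_ntK (NM CZ CZ_eq)

noncomputable section

section map

variable {ι κ : Type} [DecidableEq ι] [DecidableEq κ] {R : Type} [CommRing R]

theorem NM_map (f : κ ≃ ι) (m : ι → ι → R) (w : ι → R) (S : Finset κ) :
    (NM m w (S.map f.toEmbedding)).det = (NM (fun i j => m (f i) (f j)) (fun i => w (f i)) S).det := by
  let e : S ≃ (S.map f.toEmbedding : Finset ι) :=
    { toFun := fun x => ⟨f x, Finset.mem_map_of_mem f.toEmbedding x.2⟩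
      invFun := fun y => ⟨f.symm y, by
        obtain ⟨x, hx, e⟩ := Finset.mem_map.1 y.2
        rw [← e]
        change f.symm (f x) ∈ S
        rwa [f.symm_apply_apply]⟩
      left_inv := fun x => Subtype.ext (f.symm_apply_apply _)
      right_inv := fun y => Subtype.ext (f.apply_symm_apply _) }
  rw [← Matrix.det_submatrix_equiv_self e]
  congr 1
  ext i j
  rw [Matrix.submatrix_apply]
  have e1 : ∀ x : S, ((e x : (S.map f.toEmbedding : Finset ι)) : ι) = f x := fun _ => rfl
  simp only [NM]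
  by_cases h : i = j
  · subst h
    rw [if_pos rfl, if_pos rfl, e1]
    congr 1
    have e2 : (S.map f.toEmbedding).erase (f i) = (S.erase i).map f.toEmbedding := by
      rw [Finset.map_erase]
      rfl
    rw [e2, Finset.sum_map]
    rfl
  · rw [if_neg h, if_neg (fun h1 => h (e.injective h1)), e1, e1]

theorem CZ_map (f : κ ≃ ι) (m : ι → ι → R) (a : ι → R) (S : Finset κ) :
    CZ m a (S.map f.toEmbedding) = CZ (fun i j => m (f i) (f j)) (fun i => a (f i)) S := by
  rw [CZ_eq, CZ_eq, Finset.sum_map]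
  refine Finset.sum_congr rfl fun r _ => ?_
  have e2 : (S.map f.toEmbedding).erase (f.toEmbedding r) = (S.erase r).map f.toEmbedding := by
    rw [Finset.map_erase]
  rw [e2, NM_map]
  rfl

end map

variable [CD] [hv : V7]

/-- the symbols of the conjugates -/
theorem sp_cq (hr : RecL) (p q : Pg7) : sp (cq p) (cq q) = sp q p := by
  by_cases h : p = q
  · subst h
    rw [sp, sp, sb, sb, ch_zero dvd_rfl, ch_zero dvd_rfl]
  have h1 : ¬ q.1 ∣ p.1 := Pg7.not_dvd (Ne.symm h)
  have h2 : ¬ (cq q).1 ∣ (cq p).1 := Pg7.not_dvd fun h3 => h (cqE.injective h3.symm)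
  have h3 : ch (cq q) (cq p).1 = sg2 (aa p * aa q) * ch q p.1 := by
    rw [cq_val p, ch_mul, ch_cq]
    congr 1
    have hi : ∀ i : ZMod 2, i = 0 ∨ i = 1 := by decide
    rcases hi (aa p) with h4 | h4
    · rw [h4, zero_mul, sg2_zero]
      push_cast
      exact ch_one _
    · rw [h4, one_mul, sg2_one]
      push_cast
      rw [ch_neg_one, aa_cq]
  have h4 : sg2 (sp (cq p) (cq q)) = sg2 (sp q p) := by
    rw [sp, ← ch_sb h2, h3, ch_sb h1, ← sg2_add]
    congr 1
    have h5 := hr p q h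
    change aa p * aa q + sp p q = sp q p
    rw [← h5]
    have : ∀ x y : ZMod 2, x + y + x = y := by decide
    exact this _ _
  revert h4
  generalize sp (cq p) (cq q) = x
  generalize sp q p = y
  revert x y
  decide

theorem mm_cq (hr : RecL) (q p : Pg7) : mm (cq q) (cq p) = mm p q := sp_cq hr p q

/-- the data of the descent -/
def dat7 : Dat2 Pg7 (Fin 3) := ⟨sp, fun q => ![aa q, b1 q, b2 q]⟩

theorem dat7_rc (hr : RecL) : Cr.Rc dat7 := fun p q h => hr p q h

/-- **nonvanishing, the class `(3, 0)`** -/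
theorem LS_ne_R1 (hr : RecL) {S : Finset Pg7} (h : (NM (fun q p => mm p q) b1 S).det ≠ 0) :
    LS (1 + AA S) 1 0 S ≠ 0 := by
  have h1 : LS 0 0 1 (cS S) ≠ 0 := by
    refine LS_ne_two hr ?_
    rw [cS, NM_map cqE]
    have e1 : (fun i j => mm (cqE i) (cqE j)) = fun q p => mm p q := by
      funext i j
      exact mm_cq hr i j
    have e2 : (fun i => b2 (cqE i)) = b1 := by
      funext i
      exact b2_cq i
    rw [e1, e2]
    exact h
  have h2 := (LS_cS_ne (d0 := 0) (d1 := 0) (d2 := 1) (S := cS S)).2 h1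
  rw [cS_cS, AA_cS, zero_add] at h2
  exact h2

/-- **nonvanishing, the class `(2, 0)`** -/
theorem LS_ne_R3 (hr : RecL) {S : Finset Pg7} (hS : S.Nonempty) (hA : AA S = 0)
    (h : CZ (fun q p => mm p q) b1 S ≠ 0) : LS 0 0 0 S ≠ 0 := by
  have h1 : LS 1 0 0 (cS S) ≠ 0 := by
    refine LS_ne_three hr (Finset.Nonempty.map hS) ?_
    rw [cS, CZ_map cqE]
    have e1 : (fun i j => mm (cqE i) (cqE j)) = fun q p => mm p q := by
      funext i j
      exact mm_cq hr i j
    have e2 : (fun i => b2 (cqE i)) = b1 := by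
      funext i
      exact b2_cq i
    rw [e1, e2]
    exact h
  have h2 := (LS_cS_ne (d0 := 1) (d1 := 0) (d2 := 0) (S := cS S)).2 h1
  rw [cS_cS, AA_cS, hA] at h2
  exact h2

/-- **the nonvanishing of the primitive sum, all classes** -/
theorem LS_ne_good (hr : RecL) (hA : SupA) {d0 d1 d2 : ZMod 2} {S : Finset Pg7}
    (h0 : ¬ (S = ∅ ∧ d1 = 0 ∧ d2 = 0)) (h : Cr.Good dat7 S d0 d1 d2) : LS d0 d1 d2 S ≠ 0 := by
  have hi : ∀ i : ZMod 2, i = 0 ∨ i = 1 := by decide
  have hrc := dat7_rc hr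
  have hAA : ∑ i ∈ S, dat7.a i 0 = AA S := rfl
  have hS : d1 = 0 → d2 = 0 → S.Nonempty := fun h1 h2 =>
    Finset.nonempty_iff_ne_empty.2 fun h3 => h0 ⟨h3, h1, h2⟩
  by_cases hd : d1 = 1 ∨ d0 = d2
  · have hSA : ¬ Cr.SqA dat7 S d0 d1 d2 := by
      rintro ⟨h1, h2, -⟩
      rcases hd with h3 | h3
      · rw [h3] at h1
        exact absurd h1 (by decide)
      · rw [h3] at h2
        exact (by decide : ∀ t : ZMod 2, t + 1 + t ≠ 0) _ h2
    by_cases hSB : Cr.SqB dat7 S d0 d1 d2
    · obtain ⟨h1, h2, h3⟩ := hSB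
      rw [hAA] at h2
      rcases hi d1 with h4 | h4
      · have h5 : d0 = 0 := by
          rcases hd with h6 | h6
          · rw [h4] at h6
            exact absurd h6 (by decide)
          · rw [h6, h1]
        have h6 : AA S = 0 := by
          rw [h5, h4] at h2
          linear_combination h2
        rw [h5, h4, h1] at h ⊢
        refine LS_ne_R3 hr (hS h4 h1) h6 ?_
        exact (Cr.good_R3 dat7 hrc (hS h4 h1) (hAA.trans h6)).1 h
      · have h5 : d0 = 1 + AA S := by
          rw [h4] at h2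
          exact (by decide : ∀ t u : ZMod 2, t + 1 + u = 0 → t = 1 + u) _ _ h2
        rw [h4, h1, h5] at h ⊢
        exact LS_ne_R1 hr ((Cr.good_R1 dat7 hrc S).1 h)
    · have h1 := (Cr.good_FB dat7 hSA hSB).1 h
      refine LS_ne_rho hr hA hd ?_
      have e : (fun q : Pg7 => wt d0 d1 d2 q + aa q) =
          fun i => Cr.w dat7 d0 d1 d2 i + dat7.a i 0 := by
        funext q
        change wt d0 d1 d2 q + aa q = d0 * aa q + d1 * (b1 q + aa q) + d2 * (b2 q + aa q) + aa q
        rw [wt]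
        ring
      rw [e]
      exact h1
  · have h1 : d1 = 0 := (hi d1).resolve_right fun h2 => hd (Or.inl h2)
    have h2 : d0 = 1 + d2 := by
      have h3 : d0 ≠ d2 := fun h2 => hd (Or.inr h2)
      exact (by decide : ∀ t u : ZMod 2, t ≠ u → t = 1 + u) _ _ h3
    rcases hi d2 with h3 | h3
    · have h4 : d0 = 1 := by rw [h2, h3, add_zero]
      rw [h1, h3, h4] at h ⊢
      rcases hi (AA S) with h5 | h5
      · exact LS_ne_three hr (hS h1 h3) ((Cr.good_L3 dat7 hrc (hS h1 h3) (hAA.trans h5)).1 h)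
      · exact LS_ne_one hr h5 ((Cr.good_L2 dat7 hrc (hAA.trans h5)).1 h)
    · have h4 : d0 = 0 := by
        rw [h2, h3]
        decide
      rw [h1, h3, h4] at h ⊢
      exact LS_ne_two hr ((Cr.good_L1 dat7 hrc S).1 h)

end

end Pool.Agent.Lib.MP_1a91b9_ntV
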