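import Pool.Agent.Lib.MP_1a91b9_ntV.A.Rel7

/-!
# The field `ℚ(√-7)`: the sums over the classes modulo the powers of `a` and `ab`

`OPA i j F β z`, `OPB d2 F γ z`: the sums of `F` over the classes modulo the powers of `a`, `ab`. `RH_eq`: the right
side of the relation is the sum over the square classes of `OPA (OPB ee)`.
-/

set_option autoImplicit false
set_option linter.unusedSectionVars false

namespace Pool.Agent.Lib.MP_1a91b9_ntV

open NumberField Pool.Agent.Lib.MP_1a91b9_nuT Pool.Agent.Lib.MP_1a91b9_ntQ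

noncomputable section

/-- the character at `ab` on the classes `1` modulo `ab²` -/
def kq (d2 : ZMod 2) (u : ZMod 8) : ℤ := if bE u = 0 ∧ 4 * u ≠ 0 then sg2 (d2 * bF u) else 0

theorem kq_eq (i d2 : ZMod 2) (u : ZMod 8) :
    (if bE u = 0 ∧ 4 * u ≠ 0 then lc i d2 u else 0) = kq d2 u := by
  revert i d2 u
  decide

theorem kq_per {u w : ZMod 8} (h : 2 * (u - w) = 0) : kq 0 u = kq 0 w := by
  revert u w
  decide

variable [CD] [hv : V7]

theorem kp_eq (d0 d1 d2 : ZMod 2) (t : 𝓞 K) :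
    kp d0 d1 d2 t = ((lA (1 + d0 + d2) d1 t : ℤ) : ℂ) * ((kq d2 (rb t) : ℤ) : ℂ) := by
  classical
  rw [← kq_eq (d0 + d1) d2, kp, ph, chS_empty, tb_dvd]
  have : AA (∅ : Finset Pg7) = 0 := rfl
  rw [this, add_zero, mul_one, lB]
  split_ifs <;> push_cast <;> ring

/-- the sum over the classes modulo a power of `a` -/
def OPA (i j : ZMod 2) (F : ℂ → ℂ) (β : 𝓞 K) (z : ℂ) : ℂ :=
  SM (ta ^ ce i j) fun s => ((lA i j s : ℤ) : ℂ) * F (z + MP_1a91b9_ntQ.em (β * s) / MP_1a91b9_ntQ.em (ta ^ ce i j))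

/-- the sum over the classes modulo a power of `ab` -/
def OPB (d2 : ZMod 2) (F : ℂ → ℂ) (γ : 𝓞 K) (z : ℂ) : ℂ :=
  SM (tb ^ ce 1 d2) fun r => ((kq d2 (rb r) : ℤ) : ℂ) * F (z + MP_1a91b9_ntQ.em (γ * r) / MP_1a91b9_ntQ.em (tb ^ ce 1 d2))

theorem ta_pow_ne (n : ℕ) : (ta ^ n : 𝓞 K) ≠ 0 := pow_ne_zero _ ta_ne
theorem tb_pow_ne (n : ℕ) : (tb ^ n : 𝓞 K) ≠ 0 := pow_ne_zero _ tb_ne

theorem ta_tb_pow (m n : ℕ) : IsCoprime (ta ^ m : 𝓞 K) (tb ^ n) := ta_tb_cop.pow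

theorem LP.shift {F : ℂ → ℂ} (hF : LP F) (w : ℂ) : LP fun z => F (z + w) := by
  intro l hl z
  dsimp only
  rw [add_right_comm]
  exact hF l hl _

theorem LP.pd' {F : ℂ → ℂ} (hF : LP F) {M : 𝓞 K} (hM : M ≠ 0) (c : 𝓞 K) (z : ℂ) :
    Pd M fun s => F (z + MP_1a91b9_ntQ.em (c * s) / MP_1a91b9_ntQ.em M) := by
  intro x y h
  refine hF.cg ?_
  have e : z + MP_1a91b9_ntQ.em (c * x) / MP_1a91b9_ntQ.em M - (z + MP_1a91b9_ntQ.em (c * y) / MP_1a91b9_ntQ.em M) = MP_1a91b9_ntQ.em (c * x) / MP_1a91b9_ntQ.em M - MP_1a91b9_ntQ.em (c * y) / MP_1a91b9_ntQ.em M := by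
    ring
  rw [e]
  exact div_sub_mem hM (by
    rw [← mul_sub]
    exact h.mul_left _)

theorem kq_pd (d2 : ZMod 2) : Pd (tb ^ ce 1 d2 : 𝓞 K) fun r => ((kq d2 (rb r) : ℤ) : ℂ) := by
  intro x y h
  have hi : ∀ i : ZMod 2, i = 0 ∨ i = 1 := by decide
  have : kq d2 (rb x) = kq d2 (rb y) := by
    rcases hi d2 with rfl | rfl
    · have h1 : tb ^ 2 ∣ x - y := h
      rw [tb2_dvd, map_sub] at h1
      exact kq_per h1
    · have h1 : tb ^ 3 ∣ x - y := h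
      rw [tb3_dvd, map_sub, sub_eq_zero] at h1
      rw [h1]
  dsimp only
  rw [this]

theorem lA_pd (i j : ZMod 2) : Pd (ta ^ ce i j : 𝓞 K) fun s => ((lA i j s : ℤ) : ℂ) := by
  intro x y h
  dsimp only
  rw [lA_per i j h]

theorem LP.opb {F : ℂ → ℂ} (hF : LP F) (d2 : ZMod 2) (γ : 𝓞 K) : LP (OPB d2 F γ) := by
  intro l hl z
  rw [OPB, OPB]
  refine SM_congr fun r => ?_
  have e : z + l + MP_1a91b9_ntQ.em (γ * r) / MP_1a91b9_ntQ.em (tb ^ ce 1 d2) = z + MP_1a91b9_ntQ.em (γ * r) / MP_1a91b9_ntQ.em (tb ^ ce 1 d2) + l := by ring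
  rw [e, hF l hl]

/-- the exchange of the sums -/
theorem VS_SM {S : Finset Pg7} {w f : 𝓞 K} (hf : f ≠ 0) (k : 𝓞 K → ℂ) (G : 𝓞 K → 𝓞 K → ℂ) :
    SM f (fun t => k t * VS S w fun x => G x t) = VS S w fun x => SM f fun t => k t * G x t := by
  classical
  have h1 : ∀ t : 𝓞 K, (k t * VS S w fun x => G x t) =
      SM (DD S) fun x => if ∀ q ∈ S, ch q (w * x) = 1 then k t * G x t else 0 := by
    intro t
    rw [VS, ← SM_mul_left (DD_ne S)]
    refine SM_congr fun x => ?_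
    split_ifs <;> ring
  rw [SM_congr h1, SM_comm hf (DD_ne S), VS]
  refine SM_congr fun x => ?_
  by_cases h : ∀ q ∈ S, ch q (w * x) = 1
  · rw [if_pos h]
    exact SM_congr fun t => if_pos h
  · rw [if_neg h, SM_congr (fun t => if_neg h)]
    exact SM_zero hf

/-- **the right side of the relation** -/
theorem RH_eq (d0 d1 d2 : ZMod 2) {F : ℂ → ℂ} (hF : LP F) (S : Finset Pg7) (β γ : 𝓞 K) :
    RH d0 d1 d2 F (tb ^ ce 1 d2 * β + ta ^ ce (1 + d0 + d2) d1 * γ) S =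
      VS S (f0 d0 d1 d2) fun x => OPA (1 + d0 + d2) d1 (OPB d2 F γ) β (MP_1a91b9_ntQ.em x / MP_1a91b9_ntQ.em (DD S)) := by
  set A : 𝓞 K := ta ^ ce (1 + d0 + d2) d1 with hA
  set B : 𝓞 K := tb ^ ce 1 d2 with hB
  have hA0 : A ≠ 0 := ta_pow_ne _
  have hB0 : B ≠ 0 := tb_pow_ne _
  have hcop : IsCoprime A B := ta_tb_pow _ _
  have hf : (f0 d0 d1 d2 : 𝓞 K) = A * B := rfl
  have hfne : (f0 d0 d1 d2 : 𝓞 K) ≠ 0 := f0_ne d0 d1 d2
  have emA := em_ne hA0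
  have emB := em_ne hB0
  rw [RH, VS_SM hfne]
  refine VS_congr fun x => ?_
  set z : ℂ := MP_1a91b9_ntQ.em x / MP_1a91b9_ntQ.em (DD S) with hz
  have hG : Pd (A * B) fun t => kp d0 d1 d2 t * F (z + MP_1a91b9_ntQ.em ((B * β + A * γ) * t) / MP_1a91b9_ntQ.em (A * B)) := by
    refine Pd.mul (kp_pd d0 d1 d2) (hF.pd' (mul_ne_zero hA0 hB0) _ z)
  rw [hf, SM_crt hA0 hB0 hcop hG, OPA]
  -- the values
  have h1 : ∀ s r : 𝓞 K, kp d0 d1 d2 (B * s + A * r) *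
      F (z + MP_1a91b9_ntQ.em ((B * β + A * γ) * (B * s + A * r)) / MP_1a91b9_ntQ.em (A * B)) =
      ((lA (1 + d0 + d2) d1 (B * s) : ℤ) : ℂ) * (((kq d2 (rb (A * r)) : ℤ) : ℂ) *
        F (z + MP_1a91b9_ntQ.em (β * (B * s)) / MP_1a91b9_ntQ.em A + MP_1a91b9_ntQ.em (γ * (A * r)) / MP_1a91b9_ntQ.em B)) := by
    intro s r
    rw [kp_eq]
    have a1 : lA (1 + d0 + d2) d1 (B * s + A * r) = lA (1 + d0 + d2) d1 (B * s) :=
      lA_per _ _ ⟨r, by ring⟩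
    have a2 : ((kq d2 (rb (B * s + A * r)) : ℤ) : ℂ) = ((kq d2 (rb (A * r)) : ℤ) : ℂ) :=
      kq_pd d2 _ _ ⟨s, by ring⟩
    have a3 : F (z + MP_1a91b9_ntQ.em ((B * β + A * γ) * (B * s + A * r)) / MP_1a91b9_ntQ.em (A * B)) =
        F (z + MP_1a91b9_ntQ.em (β * (B * s)) / MP_1a91b9_ntQ.em A + MP_1a91b9_ntQ.em (γ * (A * r)) / MP_1a91b9_ntQ.em B) := by
      refine hF.cg ?_
      have e : z + MP_1a91b9_ntQ.em ((B * β + A * γ) * (B * s + A * r)) / MP_1a91b9_ntQ.em (A * B) -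
          (z + MP_1a91b9_ntQ.em (β * (B * s)) / MP_1a91b9_ntQ.em A + MP_1a91b9_ntQ.em (γ * (A * r)) / MP_1a91b9_ntQ.em B) = MP_1a91b9_ntQ.em (β * r + γ * s) +
            MP_1a91b9_ntQ.em (B * β * s) * (MP_1a91b9_ntQ.em B / MP_1a91b9_ntQ.em (A * B) - 1 / MP_1a91b9_ntQ.em A) + MP_1a91b9_ntQ.em (A * γ * r) * (MP_1a91b9_ntQ.em A / MP_1a91b9_ntQ.em (A * B) - 1 / MP_1a91b9_ntQ.em B) +
            MP_1a91b9_ntQ.em (β * r + γ * s) * (MP_1a91b9_ntQ.em A * MP_1a91b9_ntQ.em B / MP_1a91b9_ntQ.em (A * B) - 1) := by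
        simp only [em_add, em_mul]
        ring
      rw [e]
      have e1 : MP_1a91b9_ntQ.em B / MP_1a91b9_ntQ.em (A * B) - 1 / MP_1a91b9_ntQ.em A = 0 := by
        rw [em_mul]
        field_simp
        ring
      have e2 : MP_1a91b9_ntQ.em A / MP_1a91b9_ntQ.em (A * B) - 1 / MP_1a91b9_ntQ.em B = 0 := by
        rw [em_mul]
        field_simp
        ring
      have e3 : MP_1a91b9_ntQ.em A * MP_1a91b9_ntQ.em B / MP_1a91b9_ntQ.em (A * B) - 1 = 0 := by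
        rw [em_mul]
        field_simp
        ring
      rw [e1, e2, e3]
      simp only [mul_zero, add_zero]
      exact S3.embK_mem _
    rw [a1, a2, a3]
    ring
  rw [SM_congr fun s => SM_congr fun r => h1 s r]
  -- the substitutions
  have h2 : ∀ s : 𝓞 K, (SM B fun r => ((lA (1 + d0 + d2) d1 (B * s) : ℤ) : ℂ) *
      (((kq d2 (rb (A * r)) : ℤ) : ℂ) * F (z + MP_1a91b9_ntQ.em (β * (B * s)) / MP_1a91b9_ntQ.em A + MP_1a91b9_ntQ.em (γ * (A * r)) / MP_1a91b9_ntQ.em B))) =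
      ((lA (1 + d0 + d2) d1 (B * s) : ℤ) : ℂ) * OPB d2 F γ (z + MP_1a91b9_ntQ.em (β * (B * s)) / MP_1a91b9_ntQ.em A) := by
    intro s
    rw [SM_mul_left hB0, OPB]
    congr 1
    exact SM_mul (F := fun r => ((kq d2 (rb r) : ℤ) : ℂ) *
      F (z + MP_1a91b9_ntQ.em (β * (B * s)) / MP_1a91b9_ntQ.em A + MP_1a91b9_ntQ.em (γ * r) / MP_1a91b9_ntQ.em B)) hB0
      (Pd.mul (kq_pd d2) (hF.pd' hB0 γ _)) hcop
  rw [SM_congr h2]
  exact SM_mul (F := fun s => ((lA (1 + d0 + d2) d1 s : ℤ) : ℂ) *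
    OPB d2 F γ (z + MP_1a91b9_ntQ.em (β * s) / MP_1a91b9_ntQ.em A)) hA0
    (Pd.mul (lA_pd _ _) ((hF.opb d2 γ).pd' hA0 β _)) hcop.symm

/-! ### the explicit forms -/

theorem te_half {x : 𝓞 K} (h : ¬ ta ∣ x) : MP_1a91b9_ntQ.em x / zt - te ∈ PP.lattice := by
  have h1 : ta ∣ x - 1 := by
    rw [ta_dvd, map_sub, map_one, mul_sub, odd_ra h]
    decide
  have e : MP_1a91b9_ntQ.em x / zt - te = MP_1a91b9_ntQ.em x / MP_1a91b9_ntQ.em ta - MP_1a91b9_ntQ.em 1 / MP_1a91b9_ntQ.em ta := by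
    rw [em_one, em_ta, te, one_div]
  rw [e]
  exact div_sub_mem ta_ne h1

theorem tf_half {x : 𝓞 K} (h : ¬ tb ∣ x) : MP_1a91b9_ntQ.em x / ab - tf ∈ PP.lattice := by
  have h1 : tb ∣ x - 1 := by
    rw [tb_dvd, map_sub, map_one, mul_sub, odd_rb h]
    decide
  have e : MP_1a91b9_ntQ.em x / ab - tf = MP_1a91b9_ntQ.em x / MP_1a91b9_ntQ.em tb - MP_1a91b9_ntQ.em 1 / MP_1a91b9_ntQ.em tb := by
    rw [em_one, em_tb, tf, one_div]
  rw [e]
  exact div_sub_mem tb_ne h1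

theorem OPA_00 {F : ℂ → ℂ} (hF : LP F) (β : 𝓞 K) (z : ℂ) : OPA 0 0 F β z = F z := by
  have e : (ta ^ ce 0 0 : 𝓞 K) = 1 := pow_zero _
  rw [OPA, e, SM_one (Pd.mul (by
    have := lA_pd (hv := hv) 0 0
    rwa [e] at this) (hF.pd' one_ne_zero β z))]
  have h1 : lA 0 0 (0 : 𝓞 K) = 1 := rfl
  rw [h1, mul_zero, em_zero, zero_div, add_zero]
  push_cast
  ring

theorem em_ta_pow (n : ℕ) : MP_1a91b9_ntQ.em (ta ^ n : 𝓞 K) = zt ^ n := by rw [em_pow, em_ta]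

theorem em_tb_pow (n : ℕ) : MP_1a91b9_ntQ.em (tb ^ n : 𝓞 K) = ab ^ n := by rw [em_pow, em_tb]

theorem not_ta_mul {x y : 𝓞 K} (hx : ¬ ta ∣ x) (hy : ¬ ta ∣ y) : ¬ ta ∣ x * y := fun h =>
  (ta_prime.dvd_or_dvd h).elim hx hy

theorem not_tb_mul {x y : 𝓞 K} (hx : ¬ tb ∣ x) (hy : ¬ tb ∣ y) : ¬ tb ∣ x * y := fun h =>
  (tb_prime.dvd_or_dvd h).elim hx hy

theorem ta_not_tbA : ¬ ta ∣ (tb : 𝓞 K) := by
  rw [ta_dvd, ra_tb]
  decide

theorem tb_not_taA : ¬ tb ∣ (ta : 𝓞 K) := by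
  rw [tb_dvd, rb_ta]
  decide

theorem OPA_10 {F : ℂ → ℂ} (hF : LP F) {β : 𝓞 K} (hβ : ¬ ta ∣ β) (z : ℂ) :
    OPA 1 0 F β z = F (z + MP_1a91b9_ntQ.em β / zt ^ 2) - F (z + MP_1a91b9_ntQ.em β / zt ^ 2 + te) := by
  have e : (ta ^ ce 1 0 : 𝓞 K) = ta ^ 2 := rfl
  have hP : Pd (ta ^ 2 : 𝓞 K) fun s => ((lA 1 0 s : ℤ) : ℂ) * F (z + MP_1a91b9_ntQ.em (β * s) / MP_1a91b9_ntQ.em (ta ^ 2 : 𝓞 K)) :=
    Pd.mul (lA_pd 1 0) (hF.pd' (ta_pow_ne 2) β z)
  rw [OPA, e, SM_sup (ι := Bool) (a := fun b => if b then -1 else 1) (ta_pow_ne 2) hP]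
  · simp only [Fintype.univ_bool, Finset.mem_singleton, Bool.true_eq_false, not_false_eq_true,
      Finset.sum_insert, if_true, Finset.sum_singleton, Bool.false_eq_true, if_false]
    have h1 : lA 1 0 (-1 : 𝓞 K) = -1 := by
      rw [lA_neg]
      decide
    have h2 : F (z + MP_1a91b9_ntQ.em (β * -1) / MP_1a91b9_ntQ.em (ta ^ 2)) = F (z + MP_1a91b9_ntQ.em β / zt ^ 2 + te) := by
      refine hF.cg ?_
      have h3 := te_half (not_ta_mul hβ ta_not_tbA)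
      have e2 : z + MP_1a91b9_ntQ.em (β * -1) / MP_1a91b9_ntQ.em (ta ^ 2) - (z + MP_1a91b9_ntQ.em β / zt ^ 2 + te) =
          -(MP_1a91b9_ntQ.em (β * tb) / zt - te) - 2 * te := by
        rw [em_mul, em_mul, em_neg, em_one, em_tb, em_ta_pow]
        have hz := zt_ne0
        have h4 : ab = 2 / zt := by
          rw [eq_div_iff hz, mul_comm, zt_mul_ab]
        rw [h4]
        field_simp
        ring
      rw [e2]
      exact sub_mem (neg_mem h3) two_te_mem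
    rw [h1, lA_one, h2, mul_one, em_ta_pow]
    push_cast
    ring
  · intro x hx
    have h1 : lA 1 0 x ≠ 0 := by
      intro h
      apply hx
      rw [h]
      simp
    have h2 : ta ^ 2 ∣ x - 1 ∨ ta ^ 2 ∣ x - -1 := by
      rw [ta2_dvd, ta2_dvd, map_sub, map_sub, map_neg, map_one]
      rw [lA] at h1
      revert h1
      generalize ra x = u
      revert u
      decide
    rcases h2 with h2 | h2
    · exact ⟨false, by simpa using h2⟩
    · exact ⟨true, by simpa using h2⟩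
  · intro i j h
    have h2 : ∀ u w : ZMod 8, (u = 1 ∨ u = -1) → (w = 1 ∨ w = -1) → 2 * (u - w) = 0 → u = w := by
      decide
    rw [ta2_dvd, map_sub] at h
    rcases i with _ | _ <;> rcases j with _ | _
    · rfl
    · exfalso
      simp only [Bool.false_eq_true, if_false, if_true, map_one, map_neg] at h
      exact absurd h (by decide)
    · exfalso
      simp only [Bool.false_eq_true, if_false, if_true, map_one, map_neg] at h
      exact absurd h (by decide)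
    · rfl

/-- the four classes modulo `a³` -/
def four7 : Fin 4 → ℤ := ![1, 5, -1, -5]

theorem OPA_i1 (i : ZMod 2) {F : ℂ → ℂ} (hF : LP F) {β : 𝓞 K} (hβ : ¬ ta ∣ β) (z : ℂ) :
    OPA i 1 F β z = F (z + MP_1a91b9_ntQ.em β / zt ^ 3) - F (z + MP_1a91b9_ntQ.em β / zt ^ 3 + te) +
      ((sg2 (i + 1) : ℤ) : ℂ) * (F (z - MP_1a91b9_ntQ.em β / zt ^ 3) - F (z - MP_1a91b9_ntQ.em β / zt ^ 3 + te)) := by
  have e : (ta ^ ce i 1 : 𝓞 K) = ta ^ 3 := rfl
  have hP : Pd (ta ^ 3 : 𝓞 K) fun s => ((lA i 1 s : ℤ) : ℂ) * F (z + MP_1a91b9_ntQ.em (β * s) / MP_1a91b9_ntQ.em (ta ^ 3 : 𝓞 K)) :=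
    Pd.mul (lA_pd i 1) (hF.pd' (ta_pow_ne 3) β z)
  have hi : ∀ k : Fin 4, ∀ l : Fin 4, ((four7 k - four7 l : ℤ) : ZMod 8) = 0 → k = l := by decide
  rw [OPA, e, SM_sup (ι := Fin 4) (a := fun k => ((four7 k : ℤ) : 𝓞 K)) (ta_pow_ne 3) hP]
  · have hra : ∀ n : ℤ, ra ((n : ℤ) : 𝓞 K) = (n : ZMod 8) := fun n => map_intCast ra n
    have h1 : lA i 1 (((1 : ℤ)) : 𝓞 K) = 1 := by
      have : ∀ i : ZMod 2, lc i 1 ((1 : ℤ) : ZMod 8) = 1 := by decide
      rw [lA, hra]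
      exact this i
    have h5 : lA i 1 (((5 : ℤ)) : 𝓞 K) = -1 := by
      have : ∀ i : ZMod 2, lc i 1 ((5 : ℤ) : ZMod 8) = -1 := by decide
      rw [lA, hra]
      exact this i
    have h7 : lA i 1 (((-1 : ℤ)) : 𝓞 K) = sg2 (i + 1) := by
      have : ∀ i : ZMod 2, lc i 1 ((-1 : ℤ) : ZMod 8) = sg2 (i + 1) := by decide
      rw [lA, hra]
      exact this i
    have h3 : lA i 1 (((-5 : ℤ)) : 𝓞 K) = -sg2 (i + 1) := by
      have : ∀ i : ZMod 2, lc i 1 ((-5 : ℤ) : ZMod 8) = -sg2 (i + 1) := by decide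
      rw [lA, hra]
      exact this i
    have h4 := te_half (not_ta_mul (not_ta_mul hβ ta_not_tbA) ta_not_tbA)
    have hz := zt_ne0
    have hab : ab = 2 / zt := by
      rw [eq_div_iff hz, mul_comm, zt_mul_ab]
    have e5 : F (z + MP_1a91b9_ntQ.em (β * ((5 : ℤ) : 𝓞 K)) / MP_1a91b9_ntQ.em (ta ^ 3)) = F (z + MP_1a91b9_ntQ.em β / zt ^ 3 + te) := by
      refine hF.cg ?_
      have e2 : z + MP_1a91b9_ntQ.em (β * ((5 : ℤ) : 𝓞 K)) / MP_1a91b9_ntQ.em (ta ^ 3) - (z + MP_1a91b9_ntQ.em β / zt ^ 3 + te) =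
          MP_1a91b9_ntQ.em (β * tb * tb) / zt - te := by
        rw [em_mul, em_mul, em_mul, em_intCast, em_tb, em_ta_pow, hab]
        field_simp
        push_cast
        ring
      rw [e2]
      exact h4
    have e3 : F (z + MP_1a91b9_ntQ.em (β * ((-5 : ℤ) : 𝓞 K)) / MP_1a91b9_ntQ.em (ta ^ 3)) = F (z - MP_1a91b9_ntQ.em β / zt ^ 3 + te) := by
      refine hF.cg ?_
      have e2 : z + MP_1a91b9_ntQ.em (β * ((-5 : ℤ) : 𝓞 K)) / MP_1a91b9_ntQ.em (ta ^ 3) - (z - MP_1a91b9_ntQ.em β / zt ^ 3 + te) =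
          -(MP_1a91b9_ntQ.em (β * tb * tb) / zt - te) - 2 * te := by
        rw [em_mul, em_mul, em_mul, em_intCast, em_tb, em_ta_pow, hab]
        field_simp
        push_cast
        ring
      rw [e2]
      exact sub_mem (neg_mem h4) two_te_mem
    have e1 : z + MP_1a91b9_ntQ.em (β * ((1 : ℤ) : 𝓞 K)) / MP_1a91b9_ntQ.em (ta ^ 3) = z + MP_1a91b9_ntQ.em β / zt ^ 3 := by
      rw [Int.cast_one, mul_one, em_ta_pow]
    have e7 : z + MP_1a91b9_ntQ.em (β * ((-1 : ℤ) : 𝓞 K)) / MP_1a91b9_ntQ.em (ta ^ 3) = z - MP_1a91b9_ntQ.em β / zt ^ 3 := by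
      rw [em_mul, em_intCast, em_ta_pow]
      push_cast
      ring
    rw [Fin.sum_univ_four]
    have g0 : four7 0 = 1 := rfl
    have g1 : four7 1 = 5 := rfl
    have g2 : four7 2 = -1 := rfl
    have g3 : four7 3 = -5 := rfl
    rw [g0, g1, g2, g3, h1, h5, h7, h3, e5, e3, e1, e7]
    push_cast
    ring
  · intro x hx
    have h1 : lA i 1 x ≠ 0 := by
      intro h
      apply hx
      rw [h]
      simp
    have h2 : ∀ i : ZMod 2, ∀ u : ZMod 8, lc i 1 u ≠ 0 → ∃ k, u - ((four7 k : ℤ) : ZMod 8) = 0 := by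
      decide
    obtain ⟨k, hk⟩ := h2 i (ra x) h1
    refine ⟨k, ?_⟩
    rw [ta3_dvd, map_sub, map_intCast]
    exact hk
  · intro k l h
    rw [ta3_dvd, map_sub, map_intCast, map_intCast] at h
    exact hi k l (by push_cast; exact h)

theorem OPB_0 {F : ℂ → ℂ} (hF : LP F) (γ : 𝓞 K) (z : ℂ) :
    OPB 0 F γ z = F (z + MP_1a91b9_ntQ.em γ / ab ^ 2) := by
  have e : (tb ^ ce 1 0 : 𝓞 K) = tb ^ 2 := rfl
  have hP : Pd (tb ^ 2 : 𝓞 K) fun s => ((kq 0 (rb s) : ℤ) : ℂ) * F (z + MP_1a91b9_ntQ.em (γ * s) / MP_1a91b9_ntQ.em (tb ^ 2 : 𝓞 K)) :=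
    Pd.mul (kq_pd 0) (hF.pd' (tb_pow_ne 2) γ z)
  rw [OPB, e, SM_sup (ι := Unit) (a := fun _ => 1) (tb_pow_ne 2) hP]
  · simp only [Finset.univ_unique, Finset.sum_singleton]
    have h1 : kq 0 (rb (1 : 𝓞 K)) = 1 := by
      rw [map_one]
      decide
    rw [h1, mul_one, em_tb_pow]
    push_cast
    ring
  · intro x hx
    refine ⟨(), ?_⟩
    have h1 : kq 0 (rb x) ≠ 0 := by
      intro h
      apply hx
      rw [h]
      simp
    rw [tb2_dvd, map_sub, map_one]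
    revert h1
    generalize rb x = u
    revert u
    decide
  · intro i j _
    rfl

theorem OPB_1 {F : ℂ → ℂ} (hF : LP F) {γ : 𝓞 K} (hγ : ¬ tb ∣ γ) (z : ℂ) :
    OPB 1 F γ z = F (z + MP_1a91b9_ntQ.em γ / ab ^ 3) - F (z + MP_1a91b9_ntQ.em γ / ab ^ 3 + tf) := by
  have e : (tb ^ ce 1 1 : 𝓞 K) = tb ^ 3 := rfl
  have hP : Pd (tb ^ 3 : 𝓞 K) fun s => ((kq 1 (rb s) : ℤ) : ℂ) * F (z + MP_1a91b9_ntQ.em (γ * s) / MP_1a91b9_ntQ.em (tb ^ 3 : 𝓞 K)) :=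
    Pd.mul (kq_pd 1) (hF.pd' (tb_pow_ne 3) γ z)
  rw [OPB, e, SM_sup (ι := Bool) (a := fun b => if b then 5 else 1) (tb_pow_ne 3) hP]
  · simp only [Fintype.univ_bool, Finset.mem_singleton, Bool.true_eq_false, not_false_eq_true,
      Finset.sum_insert, if_true, Finset.sum_singleton, Bool.false_eq_true, if_false]
    have h1 : kq 1 (rb (1 : 𝓞 K)) = 1 := by
      rw [map_one]
      decide
    have h5 : kq 1 (rb (5 : 𝓞 K)) = -1 := by
      have : rb (5 : 𝓞 K) = 5 := map_ofNat rb 5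
      rw [this]
      decide
    have h2 : F (z + MP_1a91b9_ntQ.em (γ * 5) / MP_1a91b9_ntQ.em (tb ^ 3)) = F (z + MP_1a91b9_ntQ.em γ / ab ^ 3 + tf) := by
      refine hF.cg ?_
      have h3 := tf_half (not_tb_mul (not_tb_mul hγ tb_not_taA) tb_not_taA)
      have e2 : z + MP_1a91b9_ntQ.em (γ * 5) / MP_1a91b9_ntQ.em (tb ^ 3) - (z + MP_1a91b9_ntQ.em γ / ab ^ 3 + tf) =
          MP_1a91b9_ntQ.em (γ * ta * ta) / ab - tf := by
        rw [em_mul, em_mul, em_mul, em_ta, em_tb_pow, em_ofNat]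
        have hz := ab_ne
        have h4 : zt = 2 / ab := by
          rw [eq_div_iff hz, zt_mul_ab]
        rw [h4]
        field_simp
        ring
      rw [e2]
      exact h3
    rw [h1, h5, h2, mul_one, em_tb_pow]
    push_cast
    ring
  · intro x hx
    have h1 : kq 1 (rb x) ≠ 0 := by
      intro h
      apply hx
      rw [h]
      simp
    have h2 : tb ^ 3 ∣ x - 1 ∨ tb ^ 3 ∣ x - 5 := by
      have h5 : rb (5 : 𝓞 K) = 5 := map_ofNat rb 5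
      rw [tb3_dvd, tb3_dvd, map_sub, map_sub, map_one, h5]
      revert h1
      generalize rb x = u
      revert u
      decide
    rcases h2 with h2 | h2
    · exact ⟨false, by simpa using h2⟩
    · exact ⟨true, by simpa using h2⟩
  · intro i j h
    have h5 : rb (5 : 𝓞 K) = 5 := map_ofNat rb 5
    rw [tb3_dvd, map_sub] at h
    rcases i with _ | _ <;> rcases j with _ | _
    · rfl
    · exfalso
      simp only [Bool.false_eq_true, if_false, if_true, map_one, h5] at h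
      exact absurd h (by decide)
    · exfalso
      simp only [Bool.false_eq_true, if_false, if_true, map_one, h5] at h
      exact absurd h (by decide)
    · rfl

end

end Pool.Agent.Lib.MP_1a91b9_ntV
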