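import Pool.Agent.Lib.MP_1a91b9_ntV.A.Alg7

/-!
# The field `ℚ(√-7)`: the primitive sums

`LS d0 d1 d2 S`: the sum of `ph d0 d1 d2 S c * ee (c / cf)` over the classes `c` modulo the conductor `cf`.
-/

set_option autoImplicit false
set_option linter.unusedSectionVars false

namespace Pool.Agent.Lib.MP_1a91b9_ntV

open NumberField Pool.Agent.Lib.MP_1a91b9_nuT Pool.Agent.Lib.MP_1a91b9_ntQ
open Pool.Agent.Lib.MP_1a91b9_ntK (NM CZ)

noncomputable section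

variable [CD] [hv : V7]

/-- the primitive sum -/
def LS (d0 d1 d2 : ZMod 2) (S : Finset Pg7) : ℂ :=
  SE ee (cf d0 d1 d2 S) fun c => ((ph d0 d1 d2 S c : ℤ) : ℂ)

section
variable (d0 d1 d2 : ZMod 2) (S : Finset Pg7)

theorem ph_pd : Pd (cf d0 d1 d2 S) fun c => ((ph d0 d1 d2 S c : ℤ) : ℂ) := by
  intro x y h
  dsimp only
  rw [ph_per d0 d1 d2 S h]

theorem ph_mu : Mu fun c => ((ph d0 d1 d2 S c : ℤ) : ℂ) := by
  intro x y
  dsimp only
  rw [ph_mul]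
  push_cast
  rfl

theorem ph_tb_zero {c : 𝓞 K} (h : tb ∣ c) (hc : ce (d0 + d1 + AA S) d2 ≠ 0) :
    ph d0 d1 d2 S c = 0 := by
  by_contra h1
  rw [← Ne, ph_ne_iff, cf, IsCoprime.mul_right_iff, IsCoprime.mul_right_iff, cop_pow_tb] at h1
  rcases h1.1.2 with h2 | h2
  · exact hc h2
  · exact h2 h

/-- the sum of the relations is a multiple of the primitive sum -/
theorem LT_eq_LS : ∃ u : ℂ, LT d0 d1 d2 S = u * LS d0 d1 d2 S := by
  by_cases h : ce (d0 + d1 + AA S) d2 = ce 1 d2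
  · refine ⟨1, ?_⟩
    have h0 : ce (d0 + d1 + AA S) d2 ≠ 0 := by
      rw [h]
      have := two_le_ce d2
      omega
    have h1 : f0 d0 d1 d2 * DD S = cf d0 d1 d2 S := by rw [f0, cf, h]
    rw [LT, LS, h1, one_mul, SE, SE]
    refine SM_congr fun c => ?_
    by_cases hc : tb ∣ c
    · rw [Yc_tb d0 d1 d2 hc, ph_tb_zero d0 d1 d2 S hc h0]
      simp
    · rw [Yc_not_tb d0 d1 d2 hc]
  · have h1 : d2 = 0 ∧ d0 + d1 + AA S = 0 := by
      revert h
      generalize d0 + d1 + AA S = u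
      revert d2 u
      decide
    have h2 : ce (d0 + d1 + AA S) d2 = 0 := by rw [h1.1, h1.2]; rfl
    have h3 : ce 1 d2 = 2 := by rw [h1.1]; rfl
    have h4 : f0 d0 d1 d2 * DD S = tb * (tb * cf d0 d1 d2 S) := by
      rw [f0, cf, h2, h3]
      ring
    have hcf := cf_ne d0 d1 d2 S
    have hY : Pd (tb * cf d0 d1 d2 S) (Yc d0 d1 d2 S) := by
      intro x y hxy
      have h5 : tb ∣ x - y := (dvd_mul_right _ _).trans hxy
      have h6 : cf d0 d1 d2 S ∣ x - y := (dvd_mul_left _ _).trans hxy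
      have h7 : tb ∣ x ↔ tb ∣ y :=
        ⟨fun h => by simpa using dvd_sub h h5, fun h => by simpa using dvd_add h5 h⟩
      by_cases hx : tb ∣ x
      · rw [Yc_tb d0 d1 d2 hx, Yc_tb d0 d1 d2 (h7.1 hx)]
      · rw [Yc_not_tb d0 d1 d2 hx, Yc_not_tb d0 d1 d2 (fun h => hx (h7.2 h)), ph_per d0 d1 d2 S h6]
    have e1 : LT d0 d1 d2 S = Pool.Agent.Lib.MP_1a91b9_ntQ.em tb *
        SE ee (tb * cf d0 d1 d2 S) (Yc d0 d1 d2 S) := by
      rw [LT, h4, SE_scale LP_ee DR_ee tb_ne (mul_ne_zero tb_ne hcf) hY]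
    have e2 : SE ee (tb * cf d0 d1 d2 S) (Yc d0 d1 d2 S) =
        (Pool.Agent.Lib.MP_1a91b9_ntQ.em tb - ((ph d0 d1 d2 S tb : ℤ) : ℂ)) * LS d0 d1 d2 S := by
      rw [LS, ← SE_euler LP_ee DR_ee tb_ne hcf (ph_pd d0 d1 d2 S) (ph_mu d0 d1 d2 S)
        (J := fun c => ((lB 1 0 c : ℤ) : ℂ) ^ 2) ?_ (fun x hx => lB10_sq hx) (fun x hx => by
          rw [lB10_tb hx]
          simp)]
      · rfl
      · intro x y hxy
        have h7 : tb ∣ x ↔ tb ∣ y :=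
          ⟨fun h => by simpa using dvd_sub h hxy, fun h => by simpa using dvd_add hxy h⟩
        dsimp only
        by_cases hx : tb ∣ x
        · rw [lB10_tb hx, lB10_tb (h7.1 hx)]
        · rw [lB10_sq hx, lB10_sq (fun h => hx (h7.2 h))]
    exact ⟨_, by rw [e1, e2, ← mul_assoc]⟩

variable {d0 d1 d2 S}

theorem LS_of_LT (h : LT d0 d1 d2 S ≠ 0) : LS d0 d1 d2 S ≠ 0 := by
  obtain ⟨u, hu⟩ := LT_eq_LS d0 d1 d2 S
  intro h1
  exact h (by rw [hu, h1, mul_zero])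

theorem LP7_eq_LS (h : AA S = 1) : LP7 S = LS 1 0 0 S := by
  have h1 : cf 1 0 0 S = DD S := by
    rw [cf, h]
    have e1 : ce (1 + 1 + 0) 0 = 0 := by decide
    have e2 : ce (1 + 0 + 1) 0 = 0 := by decide
    rw [e1, e2, pow_zero, pow_zero, one_mul, one_mul]
  rw [LP7, LS, h1, SE, SE]
  refine SM_congr fun c => ?_
  have e1 : (1 + 1 + 0 : ZMod 2) = 0 := by decide
  have e2 : (1 + 0 + 1 : ZMod 2) = 0 := by decide
  rw [ph, h, e1, e2, lA, lB, lc_zero, lc_zero, one_mul, one_mul]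

/-- **nonvanishing, the classes with even conductor at `a`** -/
theorem LS_ne_rho (hr : RecL) (hA : SupA) (hd : d1 = 1 ∨ d0 = d2)
    (h : FB mm b2 b1 1 (fun q => wt d0 d1 d2 q + aa q) S ≠ 0) : LS d0 d1 d2 S ≠ 0 :=
  LS_of_LT (LT_ne_rho hr hA hd h)

/-- **nonvanishing, the class `D₀ = ab`** -/
theorem LS_ne_two (hr : RecL) (h : (NM mm b2 S).det ≠ 0) : LS 0 0 1 S ≠ 0 :=
  LS_of_LT (LT_ne_two hr h)

/-- **nonvanishing, the class `D₀ = -1`, even** -/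
theorem LS_ne_three (hr : RecL) (hS : S.Nonempty) (h : CZ mm b2 S ≠ 0) : LS 1 0 0 S ≠ 0 :=
  LS_of_LT (LT_ne_three hr hS h)

/-- **nonvanishing, the class `D₀ = -1`, odd** -/
theorem LS_ne_one (hr : RecL) (hS : AA S = 1) (h : (NM mm aa S).det ≠ 0) : LS 1 0 0 S ≠ 0 := by
  rw [← LP7_eq_LS hS]
  exact LP_ne_one hr hS h

end

end

end Pool.Agent.Lib.MP_1a91b9_ntV
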