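import Pool.Agent.Lib.MP_1a91b9_ntV.A.Avg7

/-!
# The field `ℚ(√-7)`: the relations between the sums `LT T`, and their residues

`LT d0 d1 d2 T`: the sum of `ph d0 d1 d2 T c * ee (c / N)` over the classes modulo `N = f0 * DD T` prime to `ab`.
`REL`: the exact relation. `wt`, `sT`: the bits of the symbols. `RES`: the solution of the relation modulo the place.
-/

set_option autoImplicit false
set_option linter.unusedSectionVars false

namespace Pool.Agent.Lib.MP_1a91b9_ntV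

open NumberField Pool.Agent.Lib.MP_1a91b9_nuT Pool.Agent.Lib.MP_1a91b9_ntQ

noncomputable section

variable [CD] [hv : V7]

theorem Mu.chS {Y : 𝓞 K → ℂ} (h : Mu Y) (U : Finset Pg7) :
    Mu fun c => Y c * ((chS U c : ℤ) : ℂ) ^ 2 := by
  intro x y
  dsimp only
  rw [h, chS_mul]
  push_cast
  ring

/-- the Euler factors of a set of primes -/
theorem SE_set {F : ℂ → ℂ} (hF : LP F) (hD : DR F) {M : 𝓞 K} (hM : M ≠ 0) {Y : 𝓞 K → ℂ}
    (hY : Pd M Y) (hm : Mu Y) (U : Finset Pg7) :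
    SE F (DD U * M) (fun c => Y c * ((chS U c : ℤ) : ℂ) ^ 2) =
      (∏ q ∈ U, (em q.1 - Y q.1)) * SE F M Y := by
  classical
  induction U using Finset.induction_on with
  | empty =>
    rw [DD, Finset.prod_empty, one_mul, Finset.prod_empty, one_mul]
    congr 1
    funext c
    rw [chS_empty]
    simp
  | insert q U hq ih =>
    have h1 : Pd (DD U * M) fun c => Y c * ((chS U c : ℤ) : ℂ) ^ 2 := by
      refine Pd.mul (hY.of_dvd (dvd_mul_left _ _)) fun x y h => ?_
      rw [chS_per U ((dvd_mul_right _ _).trans h)]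
    have h2 := SE_euler hF hD q.prime.ne_zero (mul_ne_zero (DD_ne U) hM) h1 (hm.chS U)
      (J := fun c => ((ch q c : ℤ) : ℂ) ^ 2) (fun x y h => by
        change ((ch q x : ℤ) : ℂ) ^ 2 = ((ch q y : ℤ) : ℂ) ^ 2
        rw [ch_per q h])
      (fun x hx => by
        have := ch_sq hx
        exact_mod_cast this)
      (fun x hx => by
        rw [ch_zero hx]
        simp)
    rw [DD_insert hq, mul_assoc, Finset.prod_insert hq, mul_assoc, ← ih]
    have h3 : Y q.1 * ((chS U q.1 : ℤ) : ℂ) ^ 2 = Y q.1 := by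
      have h4 : chS U q.1 * chS U q.1 = 1 := chS_sq fun p hp => Pg7.not_dvd (by
        rintro rfl
        exact hq hp)
      have h5 : ((chS U q.1 : ℤ) : ℂ) ^ 2 = 1 := by
        rw [pow_two]
        exact_mod_cast h4
      rw [h5, mul_one]
    rw [h3] at h2
    rw [← h2]
    congr 1
    funext c
    rw [chS_insert hq]
    push_cast
    ring

section
variable (d0 d1 d2 : ZMod 2)

/-- the sum of the character `ph d0 d1 d2 T` -/
def LT (T : Finset Pg7) : ℂ := SE ee (f0 d0 d1 d2 * DD T) (Yc d0 d1 d2 T)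

/-- the sum over the square classes modulo `DD S` and the classes modulo `f0` which are `1` modulo `ab²` -/
def RH (F : ℂ → ℂ) (α : 𝓞 K) (S : Finset Pg7) : ℂ :=
  SM (f0 d0 d1 d2) fun t => kp d0 d1 d2 t *
    VS S (f0 d0 d1 d2) fun x => F (em x / em (DD S) + em (α * t) / em (f0 d0 d1 d2))

theorem LT_set {S T : Finset Pg7} (h : T ⊆ S) :
    SE ee (f0 d0 d1 d2 * DD S) (fun c => Yc d0 d1 d2 T c * ((chS (S \ T) c : ℤ) : ℂ) ^ 2) =
      (∏ q ∈ S \ T, (em q.1 - Yc d0 d1 d2 T q.1)) * LT d0 d1 d2 T := by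
  rw [LT, ← SE_set LP_ee DR_ee (mul_ne_zero (f0_ne d0 d1 d2) (DD_ne T)) (Yc_pd d0 d1 d2 T)
    (Yc_mu d0 d1 d2 T)]
  congr 1
  have e : DD S = DD (S \ T) * DD T := (Finset.prod_sdiff h).symm
  rw [e]
  ring

/-- **the relation** -/
theorem REL (S : Finset Pg7) {α : 𝓞 K} (hα : f0 d0 d1 d2 ∣ α * DD S - 1) :
    ∑ T ∈ S.powerset, (∏ q ∈ S \ T, (em q.1 - Yc d0 d1 d2 T q.1)) * LT d0 d1 d2 T =
      2 ^ (S.card + 1) * RH d0 d1 d2 ee α S := by
  rw [RH, ← AVG d0 d1 d2 LP_ee ee_neg S hα]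
  exact Finset.sum_congr rfl fun T hT => (LT_set d0 d1 d2 (Finset.mem_powerset.1 hT)).symm

/-- the bit of the symbol `(p / q)` -/
def sp (p q : Pg7) : ZMod 2 := sb q p.1

/-- the sum of the bits `sp p q` -/
def sT (T : Finset Pg7) (q : Pg7) : ZMod 2 := ∑ p ∈ T, sp p q

/-- the bit of the symbol `(D₀ / q)` -/
def wt (q : Pg7) : ZMod 2 := (d0 + d1 + d2) * aa q + d1 * b1 q + d2 * b2 q

/-- the reciprocity law -/
def RecL : Prop := ∀ p q : Pg7, p ≠ q → sp p q + sp q p = aa p * aa q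

theorem ch_sb {q : Pg7} {x : 𝓞 K} (h : ¬ q.1 ∣ x) : ch q x = sg2 (sb q x) := by
  rw [sb]
  rcases ch_or h with h1 | h1 <;> rw [h1] <;> decide

theorem chS_prime (hr : RecL) {T : Finset Pg7} {q : Pg7} (h : q ∉ T) :
    chS T q.1 = sg2 (sT T q + AA T * aa q) := by
  have h1 : ∀ p ∈ T, ch p q.1 = sg2 (sp p q + aa p * aa q) := by
    intro p hp
    have hne : p ≠ q := by
      rintro rfl
      exact h hp
    have h2 := hr p q hne
    rw [ch_sb (Pg7.not_dvd hne)]
    congr 1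
    have h3 : sb p q.1 = sp q p := rfl
    rw [h3, ← h2]
    have h4 : ∀ a b : ZMod 2, b = a + (a + b) := by decide
    exact h4 _ _
  rw [chS, Finset.prod_congr rfl h1, ← sg2_sum, Finset.sum_add_distrib, sT, AA, Finset.sum_mul]

theorem bE_ra (q : Pg7) : bE (ra q.1) = 0 := by
  have h := q.ra2
  revert h
  generalize ra q.1 = u
  revert u
  decide

/-- the values at the primes -/
theorem ph_prime (hr : RecL) {T : Finset Pg7} {q : Pg7} (h : q ∉ T) :
    ph d0 d1 d2 T q.1 = sg2 (wt d0 d1 d2 q + sT T q) := by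
  rw [ph, lA, lB, lc_unit _ _ (odd_ra q.not_ta), lc_unit _ _ (odd_rb q.not_tb), chS_prime hr h,
    ← sg2_add, ← sg2_add, bE_ra]
  congr 1
  have h1 : bF (ra q.1) = b1 q := rfl
  have h2 : bF (rb q.1) = b2 q := rfl
  have h3 : bE (rb q.1) = aa q := rfl
  rw [h1, h2, h3, wt]
  generalize aa q = x
  generalize b1 q = y
  generalize b2 q = z
  generalize AA T = t
  generalize sT T q = s
  clear h1 h2 h3
  revert x y z t s d0 d1 d2
  decide

theorem Yc_prime (hr : RecL) {T : Finset Pg7} {q : Pg7} (h : q ∉ T) :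
    Yc d0 d1 d2 T q.1 = ((sg2 (wt d0 d1 d2 q + sT T q) : ℤ) : ℂ) := by
  rw [Yc_not_tb d0 d1 d2 q.not_tb, ph_prime d0 d1 d2 hr h]

end

variable {B : ValuationSubring ℂ}

theorem v_zt_le : B.valuation zt ≤ 1 := by
  by_contra h
  push Not at h
  have h1 : B.valuation (zt ^ 2) ≤ B.valuation zt := by
    rw [zt_sq]
    refine (Valuation.map_sub _ _ _).trans (max_le le_rfl ?_)
    have h2 : B.valuation (2 : ℂ) ≤ 1 := by
      have := v_nat (B := B) 2
      exact_mod_cast this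
    exact h2.trans h.le
  rw [map_pow] at h1
  exact absurd (lt_of_lt_of_le (by
    rw [pow_two]
    calc B.valuation zt = 1 * B.valuation zt := (one_mul _).symm
      _ < _ := mul_lt_mul_of_pos_right h (zero_lt_one.trans h)) h1) (lt_irrefl _)

theorem em_v_le (x : 𝓞 K) : B.valuation (em x) ≤ 1 := by
  rw [ValuationSubring.valuation_le_one_iff, coo_em]
  have hz : zt ∈ B := by
    rw [← ValuationSubring.valuation_le_one_iff]
    exact v_zt_le
  exact B.add_mem _ _ (intCast_mem B _) (B.mul_mem _ _ (intCast_mem B _) hz)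

/-- the primes are `1` modulo `a²` -/
theorem v_q_sub (hB : te ∉ B) (q : Pg7) : B.valuation ((em q.1 - 1) / 2) < 1 := by
  obtain ⟨y, hy⟩ := q.2.2.1
  have e : (em q.1 - 1) / 2 = zt * em y / ab := by
    have h := congrArg em hy
    rw [em_sub, em_one, em_mul, em_pow, em_ta] at h
    rw [h, div_eq_div_iff two_ne_zero ab_ne, ← zt_mul_ab]
    ring
  rw [e, map_div₀, map_mul, v_ab hB, div_one]
  exact mul_lt_one_of_lt_of_le (v_zt_lt hB) (em_v_le y)

theorem Rt_half (hB : te ∉ B) (q : Pg7) (u : ZMod 2) :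
    Rt B ((em q.1 - ((sg2 u : ℤ) : ℂ)) / 2) u := by
  have hi : ∀ i : ZMod 2, i = 0 ∨ i = 1 := by decide
  rcases hi u with rfl | rfl
  · rw [sg2_zero]
    push_cast
    exact Rt.of_lt (v_q_sub hB q)
  · rw [sg2_one]
    push_cast
    refine Rt.one.congr ?_
    have e : (em q.1 - -1) / 2 - 1 = (em q.1 - 1) / 2 := by ring
    rw [e]
    exact v_q_sub hB q

/-- the operator of the relations -/
def Rw (w : Pg7 → ZMod 2) (y : Finset Pg7 → ZMod 2) (S : Finset Pg7) : ZMod 2 :=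
  ∑ T ∈ S.powerset, y T * ∏ q ∈ S \ T, (w q + sT T q)

/-- the residues of the solutions -/
theorem RES (hB : te ∉ B) {w : Pg7 → ZMod 2} {y : Finset Pg7 → ZMod 2} {Z R : Finset Pg7 → ℂ}
    {c : Finset Pg7 → Pg7 → ℂ} (hc : ∀ T q, q ∉ T → Rt B (c T q) (w q + sT T q))
    (hR : ∀ S, ∑ T ∈ S.powerset, (∏ q ∈ S \ T, c T q) * Z T = R S)
    (h : ∀ S, Rt B (R S) (Rw w y S)) (S : Finset Pg7) : Rt B (Z S) (y S) := by
  classical
  induction S using Finset.strongInduction with
  | H S ih =>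
    have h2 := two_notMem hB
    have h1 : ∑ T ∈ S.powerset, (∏ q ∈ S \ T, c T q) * Z T =
        Z S + ∑ T ∈ S.ssubsets, (∏ q ∈ S \ T, c T q) * Z T := by
      rw [Finset.ssubsets, ← Finset.add_sum_erase _ _ (Finset.mem_powerset_self S), Finset.sdiff_self,
        Finset.prod_empty, one_mul]
    have h3 : Rw w y S = y S + ∑ T ∈ S.ssubsets, (∏ q ∈ S \ T, (w q + sT T q)) * y T := by
      rw [Rw, Finset.ssubsets, ← Finset.add_sum_erase _ _ (Finset.mem_powerset_self S),
        Finset.sdiff_self, Finset.prod_empty, mul_one]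
      congr 1
      exact Finset.sum_congr rfl fun T _ => mul_comm _ _
    have h4 : Rt B (∑ T ∈ S.ssubsets, (∏ q ∈ S \ T, c T q) * Z T)
        (∑ T ∈ S.ssubsets, (∏ q ∈ S \ T, (w q + sT T q)) * y T) := by
      refine Rt.sum h2 _ fun T hT => ?_
      refine (Rt.prod h2 _ fun q hq => hc T q (Finset.mem_sdiff.1 hq).2).mul h2 ?_
      exact ih T (Finset.mem_ssubsets.1 hT)
    have h5 := (h S).sub h2 h4
    rw [← hR S, h1, add_sub_cancel_right, h3, add_sub_cancel_right] at h5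
    exact h5

/-- the normalisation of the relation -/
theorem REL' (d0 d1 d2 : ZMod 2) {C : ℂ} (hC : C ≠ 0) (S : Finset Pg7) {α : 𝓞 K}
    (hα : f0 d0 d1 d2 ∣ α * DD S - 1) :
    ∑ T ∈ S.powerset, (∏ q ∈ S \ T, ((em q.1 - Yc d0 d1 d2 T q.1) / 2)) *
      (LT d0 d1 d2 T / (2 ^ (T.card + 1) * C)) = RH d0 d1 d2 ee α S / C := by
  have h := REL d0 d1 d2 S hα
  have h2 : (2 : ℂ) ^ (S.card + 1) * C ≠ 0 := mul_ne_zero (pow_ne_zero _ two_ne_zero) hC
  apply mul_left_cancel₀ h2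
  have e : 2 ^ (S.card + 1) * C * (RH d0 d1 d2 ee α S / C) =
      2 ^ (S.card + 1) * RH d0 d1 d2 ee α S := by
    field_simp
  rw [e, ← h, Finset.mul_sum]
  refine Finset.sum_congr rfl fun T hT => ?_
  have h3 : S.card = (S \ T).card + T.card :=
    (Finset.card_sdiff_add_card_eq_card (Finset.mem_powerset.1 hT)).symm
  rw [Finset.prod_div_distrib, Finset.prod_const, h3]
  have h4 : (2 : ℂ) ^ ((S \ T).card + T.card + 1) = 2 ^ (S \ T).card * 2 ^ (T.card + 1) := by
    rw [← pow_add]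
    congr 1
  rw [h4]
  field_simp

end

end Pool.Agent.Lib.MP_1a91b9_ntV
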