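import Pool.Agent.Lib.MP_1a91b9_ntV.A.Avr7

/-!
# The field `ℚ(√-7)`: the sum of `xi` over the square classes

`Sig S`: the sum of `xi (x / DD S)` over the square classes; `Sig_res`: its residue.
-/

set_option autoImplicit false
set_option linter.unusedSectionVars false

namespace Pool.Agent.Lib.MP_1a91b9_ntV

open NumberField Pool.Agent.Lib.MP_1a91b9_nuT Pool.Agent.Lib.MP_1a91b9_nuT.S3
  Pool.Agent.Lib.MP_1a91b9_nuT.Ell Pool.Agent.Lib.MP_1a91b9_ntQ

noncomputable section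

variable [CD] [hv : V7]

/-- the sum of `xi` over the square classes -/
def Sig (S : Finset Pg7) : ℂ := VS S 1 fun x => xi (MP_1a91b9_ntQ.em x / MP_1a91b9_ntQ.em (DD S))

/-- the terms of the relation for `D₀ = -1`, odd -/
def M1 (S T : Finset Pg7) : ℂ :=
  if AA T = 1 then (∏ q ∈ S \ T, ((MP_1a91b9_ntQ.em q.1 - ((chS T q.1 : ℤ) : ℂ)) / 2)) *
    (Complex.I * LP7 T / 2 ^ T.card) else 0

theorem LP_c (c : 𝓞 K) : LP fun z => ee (MP_1a91b9_ntQ.em c * z) := by
  intro l hl z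
  dsimp only
  refine ee_cg ?_
  have e : MP_1a91b9_ntQ.em c * (z + l) - MP_1a91b9_ntQ.em c * z = MP_1a91b9_ntQ.em c * l := by ring
  rw [e]
  exact mul_mem (em_mem c) hl

theorem SE_c {N c : 𝓞 K} (hN : N ≠ 0) (hc : IsCoprime c N) {Y : 𝓞 K → ℂ} (hY : Pd N Y) (hm : Mu Y) :
    SE ee N Y = Y c * SE (fun z => ee (MP_1a91b9_ntQ.em c * z)) N Y := by
  have h1 := SM_mul (c := c) hN (SE_pd LP_ee hN hY) hc
  rw [SE, ← h1, SE, ← SM_mul_left hN]
  refine SM_congr fun x => ?_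
  rw [hm, em_mul, mul_div_assoc]
  ring

/-- **the relation twisted by `c`** -/
theorem sum_M1 (S : Finset Pg7) {c : 𝓞 K} (hc : ∀ q : Pg7, ¬ q.1 ∣ c) :
    ∑ T ∈ S.powerset, ((chS T c : ℤ) : ℂ) * M1 S T =
      VS S 1 fun x => Complex.I * ee (MP_1a91b9_ntQ.em c * (MP_1a91b9_ntQ.em x / MP_1a91b9_ntQ.em (DD S))) := by
  classical
  have hN0 : DD S ≠ 0 := DD_ne S
  have hcop : IsCoprime c (DD S) := cop_DD_iff.2 fun q _ => hc q
  have h0 := avg_gen S 1 hN0 dvd_rfl (W := fun x => ee (MP_1a91b9_ntQ.em c * (MP_1a91b9_ntQ.em x / MP_1a91b9_ntQ.em (DD S))))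
    ((LP_c c).pd hN0) (fun x => by
      rw [em_neg, neg_div, mul_neg, ee_neg, sg2_one]
      push_cast
      ring)
  have h1 : ∀ T ∈ S.powerset.filter (fun T => AA T = 1),
      (SM (DD S) fun x => ((chS T x : ℤ) : ℂ) * ((chS (S \ T) x : ℤ) : ℂ) ^ 2 *
        ee (MP_1a91b9_ntQ.em c * (MP_1a91b9_ntQ.em x / MP_1a91b9_ntQ.em (DD S)))) =
      ((chS T c : ℤ) : ℂ) * ((∏ q ∈ S \ T, (MP_1a91b9_ntQ.em q.1 - ((chS T q.1 : ℤ) : ℂ))) * LP7 T) := by
    intro T hT
    have hTS := Finset.mem_powerset.1 (Finset.mem_filter.1 hT).1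
    have e : DD S = DD (S \ T) * DD T := (Finset.prod_sdiff hTS).symm
    have hY : Pd (DD S) fun x => ((chS T x : ℤ) : ℂ) * ((chS (S \ T) x : ℤ) : ℂ) ^ 2 := by
      refine Pd.mul ((chS_pd T).of_dvd (by rw [e]; exact dvd_mul_left _ _)) fun x y h => ?_
      rw [chS_per (S \ T) ((by rw [e]; exact dvd_mul_right _ _ : DD (S \ T) ∣ DD S).trans h)]
    have h2 := SE_c hN0 hcop hY ((chS_mu T).chS (S \ T))
    have h3 := SE_set LP_ee DR_ee (DD_ne T) (chS_pd T) (chS_mu T) (S \ T)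
    rw [← e] at h3
    have h4 : ((chS (S \ T) c : ℤ) : ℂ) ^ 2 = 1 := by
      have h5 : chS (S \ T) c * chS (S \ T) c = 1 := chS_sq fun q _ => hc q
      rw [pow_two]
      exact_mod_cast h5
    have h6 : ((chS T c : ℤ) : ℂ) * ((chS T c : ℤ) : ℂ) = 1 := by
      have h5 : chS T c * chS T c = 1 := chS_sq fun q _ => hc q
      exact_mod_cast h5
    rw [h4, mul_one, h3] at h2
    change SE (fun z => ee (MP_1a91b9_ntQ.em c * z)) (DD S) _ = _
    rw [LP7, h2]
    linear_combination (-(SE (fun z => ee (MP_1a91b9_ntQ.em c * z)) (DD S)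
      (fun x => ((chS T x : ℤ) : ℂ) * ((chS (S \ T) x : ℤ) : ℂ) ^ 2))) * h6
  rw [Finset.sum_congr rfl h1] at h0
  have h2 : (2 : ℂ) ^ S.card ≠ 0 := pow_ne_zero _ two_ne_zero
  apply mul_left_cancel₀ h2
  have e1 : (2 : ℂ) ^ S.card * (VS S 1 fun x => Complex.I * ee (MP_1a91b9_ntQ.em c * (MP_1a91b9_ntQ.em x / MP_1a91b9_ntQ.em (DD S)))) =
      Complex.I * (2 ^ S.card * VS S 1 fun x => ee (MP_1a91b9_ntQ.em c * (MP_1a91b9_ntQ.em x / MP_1a91b9_ntQ.em (DD S)))) := by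
    rw [VS_mul_left]
    ring
  rw [e1, VS, ← h0, Finset.mul_sum, Finset.mul_sum, Finset.sum_filter]
  refine Finset.sum_congr rfl fun T hT => ?_
  by_cases hT1 : AA T = 1
  · rw [if_pos hT1, M1, if_pos hT1]
    have h3 : S.card = (S \ T).card + T.card :=
      (Finset.card_sdiff_add_card_eq_card (Finset.mem_powerset.1 hT)).symm
    rw [Finset.prod_div_distrib, Finset.prod_const, h3, pow_add]
    have h4 : (2 : ℂ) ^ (S \ T).card ≠ 0 := pow_ne_zero _ two_ne_zero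
    have h5 : (2 : ℂ) ^ T.card ≠ 0 := pow_ne_zero _ two_ne_zero
    field_simp
  · rw [if_neg hT1, M1, if_neg hT1]
    ring

theorem not_dvd_one' (q : Pg7) : ¬ q.1 ∣ (1 : 𝓞 K) := q.prime.not_dvd_one

theorem chS_one' (T : Finset Pg7) : ((chS T 1 : ℤ) : ℂ) = 1 := by rw [chS_one, Int.cast_one]

/-- the substitution of `ab x` -/
theorem VS_tb (S : Finset Pg7) {F : 𝓞 K → ℂ} (hF : Pd (DD S) F) :
    VS S tb (fun x => F (tb * x)) = VS S 1 F := by
  have h := VS_sub (S := S) (w := 1) hF (c := tb) (cop_DD_iff.2 fun q _ => q_not_tbA q)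
  rwa [one_mul] at h

theorem VS_tb' (S : Finset Pg7) {F : 𝓞 K → ℂ} (hF : Pd (DD S) F) :
    VS S tb F = VS S 1 (fun x => F (tb * x)) := by
  have h := VS_sub (S := S) (w := tb) hF (c := tb) (cop_DD_iff.2 fun q _ => q_not_tbA q)
  rw [← h]
  have h1 := VS_cl_sq (S := S) (w := 1) (c := tb) (fun q _ => q_not_tbA q) (fun x => F (tb * x))
  rw [mul_one, pow_two] at h1
  exact h1

theorem chS_ta_val (hA : SupA) (T : Finset Pg7) : chS T ta = sg2 (AA T + B1 T) := by
  rw [chS, AA, B1, ← Finset.sum_add_distrib, sg2_sum]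
  exact Finset.prod_congr rfl fun q _ => by rw [ch_sb (q_not_taA q), hA q]

/-- the sum of `hh` over the classes of `ab` -/
theorem sum_hh (S : Finset Pg7) {c : 𝓞 K} (hc : ∀ q : Pg7, ¬ q.1 ∣ c) :
    (VS S tb fun x => Complex.I * hh (MP_1a91b9_ntQ.em c * (MP_1a91b9_ntQ.em x / MP_1a91b9_ntQ.em (DD S)))) =
      ∑ T ∈ S.powerset, ((ab - 2 * ((chS T tb : ℤ) : ℂ)) * ((chS T c : ℤ) : ℂ)) * M1 S T := by
  have hcb : ∀ q : Pg7, ¬ q.1 ∣ tb * c := fun q => q_not_mul q (q_not_tbA q) (hc q)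
  have h1 := sum_M1 S hc
  have h2 := sum_M1 S hcb
  have e1 : (VS S tb fun x => Complex.I * hh (MP_1a91b9_ntQ.em c * (MP_1a91b9_ntQ.em x / MP_1a91b9_ntQ.em (DD S)))) =
      ab * (VS S 1 fun x => Complex.I * ee (MP_1a91b9_ntQ.em c * (MP_1a91b9_ntQ.em x / MP_1a91b9_ntQ.em (DD S)))) -
      2 * (VS S 1 fun x => Complex.I * ee (MP_1a91b9_ntQ.em (tb * c) * (MP_1a91b9_ntQ.em x / MP_1a91b9_ntQ.em (DD S)))) := by
    have a1 : ∀ x : 𝓞 K, Complex.I * hh (MP_1a91b9_ntQ.em c * (MP_1a91b9_ntQ.em x / MP_1a91b9_ntQ.em (DD S))) =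
        ab * (Complex.I * ee (MP_1a91b9_ntQ.em c * (MP_1a91b9_ntQ.em (tb * x) / MP_1a91b9_ntQ.em (DD S)))) -
        2 * (Complex.I * ee (MP_1a91b9_ntQ.em c * (MP_1a91b9_ntQ.em x / MP_1a91b9_ntQ.em (DD S)))) := by
      intro x
      have a2 := ee_two_b (MP_1a91b9_ntQ.em c * (MP_1a91b9_ntQ.em x / MP_1a91b9_ntQ.em (DD S)))
      have a3 : MP_1a91b9_ntQ.em c * (MP_1a91b9_ntQ.em (tb * x) / MP_1a91b9_ntQ.em (DD S)) = ab * (MP_1a91b9_ntQ.em c * (MP_1a91b9_ntQ.em x / MP_1a91b9_ntQ.em (DD S))) := by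
        rw [em_mul, em_tb]
        ring
      rw [a3]
      linear_combination Complex.I * a2
    rw [VS_congr a1, VS_sub', VS_mul_left (c := ab), VS_mul_left (c := 2)]
    congr 1
    · congr 1
      exact VS_tb S (F := fun x => Complex.I * ee (MP_1a91b9_ntQ.em c * (MP_1a91b9_ntQ.em x / MP_1a91b9_ntQ.em (DD S))))
        (fun x y h => by
          have := (LP_c c).pd (DD_ne S) x y h
          dsimp only at this ⊢
          rw [this])
    · congr 1
      rw [VS_tb' S (F := fun x => Complex.I * ee (MP_1a91b9_ntQ.em c * (MP_1a91b9_ntQ.em x / MP_1a91b9_ntQ.em (DD S))))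
        (fun x y h => by
          have := (LP_c c).pd (DD_ne S) x y h
          dsimp only at this ⊢
          rw [this])]
      refine VS_congr fun x => ?_
      congr 2
      rw [em_mul, em_mul]
      ring
  rw [e1, ← h1, ← h2, Finset.mul_sum, Finset.mul_sum, ← Finset.sum_sub_distrib]
  refine Finset.sum_congr rfl fun T _ => ?_
  rw [chS_mul]
  push_cast
  ring

variable {B : ValuationSubring ℂ}

theorem Rt_M1 (hB : te ∉ B) (hr : RecL) {y : Finset Pg7 → ZMod 2} (hy0 : ∀ S, AA S = 0 → y S = 0)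
    (hy : ∀ S : Finset Pg7, S.Nonempty → Rw (wt 1 0 0) y S = ∏ q ∈ S, aa q) (S T : Finset Pg7) :
    Rt B (M1 S T) ((∏ q ∈ S \ T, (wt 1 0 0 q + sT T q)) * y T) := by
  have h2 := two_notMem hB
  have hi : ∀ i : ZMod 2, i = 0 ∨ i = 1 := by decide
  rcases hi (AA T) with h | h
  · rw [M1, h, if_neg (by decide), hy0 T h, mul_zero]
    exact Rt.zero
  · rw [M1, if_pos h]
    refine (Rt.prod h2 _ fun q hq => ?_).mul h2 (LP_one hB hr hy0 hy h)
    have hwt : wt 1 0 0 q = aa q := by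
      rw [wt]
      ring
    have e : ((chS T q.1 : ℤ) : ℂ) = ((sg2 (wt 1 0 0 q + sT T q) : ℤ) : ℂ) := by
      rw [chS_prime hr (Finset.mem_sdiff.1 hq).2, h, one_mul, hwt, add_comm]
    rw [e]
    exact Rt_half hB q _

/-- **the residue of `Sig S`** -/
theorem Sig_res (hB : te ∉ B) (hr : RecL) (hA : SupA) {y : Finset Pg7 → ZMod 2}
    (hy0 : ∀ S, AA S = 0 → y S = 0)
    (hy : ∀ S : Finset Pg7, S.Nonempty → Rw (wt 1 0 0) y S = ∏ q ∈ S, aa q) {S : Finset Pg7}
    (hS : S.Nonempty) :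
    Rt B (Sig S) (Rw (wt 1 0 0) (fun T => B1 T * y T) S) := by
  have h2 := two_notMem hB
  have hzt := v_zt_lt hB
  have hz0 := zt_ne0
  have hzab := zt_mul_ab
  obtain ⟨n, -, hn⟩ := VS_one S tb fun q _ => q_not_tbA q
  have hU := sum_hh S (c := 1) not_dvd_one'
  have hU' := sum_hh S (c := ta) q_not_taA
  rw [em_one] at hU
  rw [em_ta] at hU'
  have hone : ∀ x : 𝓞 K, (1 : ℂ) * (MP_1a91b9_ntQ.em x / MP_1a91b9_ntQ.em (DD S)) = MP_1a91b9_ntQ.em x / MP_1a91b9_ntQ.em (DD S) := fun x => one_mul _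
  rw [VS_congr (fun x => by rw [hone x])] at hU
  -- the points
  have hO : ∀ x : 𝓞 K, (∀ q ∈ S, ch q (tb * x) = 1) → Oo (MP_1a91b9_ntQ.em x / MP_1a91b9_ntQ.em (DD S)) := fun x hx => Oo_x hS hx
  -- the sums of `eta`
  set H : ℂ := VS S tb fun x => eta (MP_1a91b9_ntQ.em x / MP_1a91b9_ntQ.em (DD S)) with hH
  set H' : ℂ := VS S tb fun x => eta (zt * (MP_1a91b9_ntQ.em x / MP_1a91b9_ntQ.em (DD S))) with hH'
  set Q : ℂ := VS S tb fun x => eta (MP_1a91b9_ntQ.em x / MP_1a91b9_ntQ.em (DD S)) ^ 2 with hQ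
  have e1 : (VS S tb fun x => Complex.I * hh (MP_1a91b9_ntQ.em x / MP_1a91b9_ntQ.em (DD S))) = n + zt * H := by
    rw [← hn, hH, ← VS_mul_left, ← VS_add]
    exact VS_congr fun x => Ihh
  have e2 : (VS S tb fun x => Complex.I * hh (zt * (MP_1a91b9_ntQ.em x / MP_1a91b9_ntQ.em (DD S)))) = n + zt * H' := by
    rw [← hn, hH', ← VS_mul_left, ← VS_add]
    exact VS_congr fun x => Ihh
  -- the half sum
  set P : ℂ := ∑ T ∈ S.powerset, ((ab - 2 * ((chS T tb : ℤ) : ℂ)) *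
    ((1 + ((chS T ta : ℤ) : ℂ)) / 2)) * M1 S T with hP
  have e3 : zt * (H + H') = zt * (ab * (P - n)) := by
    have e4 : 2 * P = ∑ T ∈ S.powerset, ((ab - 2 * ((chS T tb : ℤ) : ℂ)) * ((chS T 1 : ℤ) : ℂ)) * M1 S T +
        ∑ T ∈ S.powerset, ((ab - 2 * ((chS T tb : ℤ) : ℂ)) * ((chS T ta : ℤ) : ℂ)) * M1 S T := by
      rw [hP, Finset.mul_sum, ← Finset.sum_add_distrib]
      refine Finset.sum_congr rfl fun T _ => ?_
      rw [chS_one']
      ring
    rw [← hU, ← hU', e1, e2] at e4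
    linear_combination -e4 - (P - n) * hzab
  have e5 : H + H' = ab * (P - n) := mul_left_cancel₀ hz0 e3
  -- congruences
  have hη : ∀ x : 𝓞 K, (∀ q ∈ S, ch q (tb * x) = 1) → B.valuation (eta (MP_1a91b9_ntQ.em x / MP_1a91b9_ntQ.em (DD S))) ≤ 1 :=
    fun x hx => v_eta hB (hO x hx).og (hO x hx).mab.og
  have c1 : B.valuation (H' - (Q + n)) < 1 := by
    have e6 : Q + n = VS S tb fun x => eta (MP_1a91b9_ntQ.em x / MP_1a91b9_ntQ.em (DD S)) ^ 2 + 1 := by
      rw [← hn, hQ, ← VS_add]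
    rw [e6, hH']
    exact VS_v_sub fun x hx => eta_frob hB (hO x hx).og (hO x hx).mab.og
  have c2 : B.valuation (Sig S - (Q + H)) < 1 := by
    have e6 : Q + H = VS S tb fun x => eta (MP_1a91b9_ntQ.em x / MP_1a91b9_ntQ.em (DD S)) ^ 2 + eta (MP_1a91b9_ntQ.em x / MP_1a91b9_ntQ.em (DD S)) := by
      rw [hQ, hH, ← VS_add]
    have e7 : Sig S = VS S tb fun x => xi (ab * (MP_1a91b9_ntQ.em x / MP_1a91b9_ntQ.em (DD S))) := by
      rw [Sig, ← VS_tb S (F := fun x => xi (MP_1a91b9_ntQ.em x / MP_1a91b9_ntQ.em (DD S))) (fun x y h => by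
        have := xi_DD_pd S 0 x y h
        simpa using this)]
      refine VS_congr fun x => ?_
      rw [em_mul, em_tb, mul_div_assoc]
    rw [e6, e7]
    refine VS_v_sub fun x hx => ?_
    have k1 := hO x hx
    have k3 := eta_eq (nm_2 k1.two).2
    have k4 := v_xi hB k1.mab.og
    have e7 : xi (ab * (MP_1a91b9_ntQ.em x / MP_1a91b9_ntQ.em (DD S))) - (eta (MP_1a91b9_ntQ.em x / MP_1a91b9_ntQ.em (DD S)) ^ 2 + eta (MP_1a91b9_ntQ.em x / MP_1a91b9_ntQ.em (DD S))) =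
        (2 + zt) * xi (ab * (MP_1a91b9_ntQ.em x / MP_1a91b9_ntQ.em (DD S))) - zt * 1 - zt * eta (MP_1a91b9_ntQ.em x / MP_1a91b9_ntQ.em (DD S)) := by
      have h9 : ab = 1 - zt := rfl
      linear_combination -k3 + (xi (ab * (MP_1a91b9_ntQ.em x / MP_1a91b9_ntQ.em (DD S)))) * ab_sq' +
        eta (MP_1a91b9_ntQ.em x / MP_1a91b9_ntQ.em (DD S)) * h9 - 2 * xi (ab * (MP_1a91b9_ntQ.em x / MP_1a91b9_ntQ.em (DD S))) * ab_sq'
    rw [e7]
    refine Valuation.map_sub_lt _ (Valuation.map_sub_lt _ ?_ ?_) ?_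
    · rw [map_mul, k4, mul_one]
      exact Valuation.map_add_lt _ (two_lt h2) hzt
    · rw [mul_one]
      exact hzt
    · rw [map_mul]
      exact mul_lt_one_of_lt_of_le hzt (hη x hx)
  -- the half sum modulo the place
  have c3 : Rt B P (Rw (wt 1 0 0) (fun T => B1 T * y T) S) := by
    have h3 := Rt.sum h2 S.powerset (f := fun T => ((ab - 2 * ((chS T tb : ℤ) : ℂ)) *
        ((1 + ((chS T ta : ℤ) : ℂ)) / 2)) * M1 S T)
      (g := fun T => B1 T * ((∏ q ∈ S \ T, (wt 1 0 0 q + sT T q)) * y T)) fun T _ => by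
        have hi : ∀ i : ZMod 2, i = 0 ∨ i = 1 := by decide
        have r1 := Rt_M1 hB hr hy0 hy S T
        rcases hi (AA T) with h | h
        · rw [hy0 T h, mul_zero, mul_zero] at *
          have e : M1 S T = 0 := by
            rw [M1, h, if_neg (by decide)]
          rw [e, mul_zero]
          exact Rt.zero
        · refine Rt.mul h2 ?_ r1
          have r2 : Rt B (ab - 2 * ((chS T tb : ℤ) : ℂ)) 1 := by
            have r3 : Rt B ((chS T tb : ℤ) : ℂ) 1 := by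
              have h5 : chS T tb * chS T tb = 1 := chS_sq fun q _ => q_not_tbA q
              rcases mul_self_eq_one_iff.1 h5 with h6 | h6
              · rw [h6, Int.cast_one]
                exact Rt.one
              · rw [h6]
                push_cast
                exact Rt.one.neg h2
            have r4 : Rt B (2 * ((chS T tb : ℤ) : ℂ)) (0 * 1) :=
              Rt.mul h2 (Rt.of_lt (two_lt h2)) r3
            have r5 := Rt.sub h2 (Rt_ab hB) r4
            rwa [zero_mul, sub_zero] at r5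
          have r3 : Rt B ((1 + ((chS T ta : ℤ) : ℂ)) / 2) (B1 T) := by
            rw [chS_ta_val hA, h]
            rcases hi (B1 T) with h7 | h7
            · have e : sg2 (1 + 0) = -1 := rfl
              rw [h7, e]
              have e : (1 + ((-1 : ℤ) : ℂ)) / 2 = 0 := by
                push_cast
                norm_num
              rw [e]
              exact Rt.zero
            · have e : sg2 (1 + 1) = 1 := rfl
              rw [h7, e]
              have e : (1 + ((1 : ℤ) : ℂ)) / 2 = 1 := by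
                push_cast
                norm_num
              rw [e]
              exact Rt.one
          have r4 := Rt.mul h2 r2 r3
          rwa [one_mul] at r4
    have e9 : Rw (wt 1 0 0) (fun T => B1 T * y T) S =
        ∑ T ∈ S.powerset, B1 T * ((∏ q ∈ S \ T, (wt 1 0 0 q + sT T q)) * y T) := by
      rw [Rw]
      exact Finset.sum_congr rfl fun T _ => by ring
    rw [e9]
    exact h3
  refine c3.congr ?_
  have hPle := c3.le
  have e10 : Sig S - P = (Sig S - (Q + H)) - (H' - (Q + n)) - 2 * n - zt * (P - n) := by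
    have h9 : ab = 1 - zt := rfl
    linear_combination e5 + (P - n) * h9
  rw [e10]
  refine Valuation.map_sub_lt _ (Valuation.map_sub_lt _ (Valuation.map_sub_lt _ c2 c1) ?_) ?_
  · rw [map_mul]
    exact mul_lt_one_of_lt_of_le (two_lt h2) (v_nat n)
  · rw [map_mul]
    exact mul_lt_one_of_lt_of_le hzt ((Valuation.map_sub _ _ _).trans (max_le hPle (v_nat n)))

end

end Pool.Agent.Lib.MP_1a91b9_ntV
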