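import Pool.Agent.Lib.MP_1a91b9_ntV.A.Ell7
import Pool.Agent.Lib.MP_1a91b9_ntQ.A.Res4

/-!
# The field `ℚ(√-7)`: the values of the elliptic functions at torsion points, at a place over `a`

`Og z`: `z` is a torsion point, `z` and `z + 1 / ab` are not of order a power of `a`; `Os z`: the order of `z`
is not a power of `2`; `Oo z`: `z` is a torsion point of odd order, not `0`. `xi = -XX / a²`, `eta = (I hh - 1) / a`, `GG = I gg / a²`. `B` is a valuation ring of `ℂ` with
`1 / a ∉ B`.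
-/

set_option autoImplicit false
set_option linter.unusedSectionVars false

namespace Pool.Agent.Lib.MP_1a91b9_ntV

open NumberField Filter Topology Pool.Agent.Lib.MP_1a91b9_nuT Pool.Agent.Lib.MP_1a91b9_nuT.S3
  Pool.Agent.Lib.MP_1a91b9_nuT.Ell Pool.Agent.Lib.MP_1a91b9_ntQ

noncomputable section

variable [CD]

/-- the torsion points `z` with `ab z` of order not a power of `a` -/
def Og (z : ℂ) : Prop :=
  (∃ N : 𝓞 K, N ≠ 0 ∧ em N * z ∈ PP.lattice) ∧ ∀ n : ℕ, zt ^ n * (ab * z) ∉ PP.lattice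

/-- the torsion points of order not a power of two -/
def Os (z : ℂ) : Prop :=
  (∃ N : 𝓞 K, N ≠ 0 ∧ em N * z ∈ PP.lattice) ∧ ∀ n : ℕ, 2 ^ n * z ∉ PP.lattice

/-- the torsion points of odd order, without `0` -/
def Oo (z : ℂ) : Prop :=
  z ∉ PP.lattice ∧ ∃ N : 𝓞 K, IsCoprime N 2 ∧ em N * z ∈ PP.lattice

/-- the good abscissa at `a` -/
def xi [V7] (z : ℂ) : ℂ := -XX z / zt ^ 2

/-- the Artin-Schreier function -/
def eta [V7] (z : ℂ) : ℂ := (Complex.I * hh z - 1) / zt

/-- `I gg / a²` -/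
def GG [V7] (z : ℂ) : ℂ := Complex.I * gg z / zt ^ 2

section
variable [hv : V7]

theorem two_pow_mem {x : ℂ} (h : x ∈ PP.lattice) (n : ℕ) : 2 ^ n * x ∈ PP.lattice := by
  induction n with
  | zero => rwa [pow_zero, one_mul]
  | succ n ih =>
    have e : 2 ^ (n + 1) * x = 2 ^ n * x + 2 ^ n * x := by ring
    rw [e]
    exact add_mem ih ih

theorem Os.og {z : ℂ} (h : Os z) : Og z := by
  obtain ⟨h1, h2⟩ := h
  refine ⟨h1, fun n h3 => h2 (n + 1) ?_⟩
  have h4 : (em ((1 - ta : 𝓞 K) ^ n) : ℂ) * zt * (zt ^ n * (ab * z)) = 2 ^ (n + 1) * z := by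
    rw [em_pow, em_sub, em_one, em_ta, ← zt_mul_ab, mul_pow, ab]
    ring
  rw [← h4]
  exact mul_mem (mul_mem (em_mem _) zt_mem) h3

theorem Os.mza {z : ℂ} (h : Os z) : Os (zt * z) := by
  obtain ⟨⟨N, hN, h1⟩, h2⟩ := h
  refine ⟨⟨N, hN, ?_⟩, fun n h3 => h2 (n + 1) ?_⟩
  · have e : em N * (zt * z) = zt * (em N * z) := by ring
    rw [e]
    exact mul_mem zt_mem h1
  · have := mul_mem ab_mem h3
    have e : ab * (2 ^ n * (zt * z)) = 2 ^ (n + 1) * z := by
      rw [pow_succ, ← zt_mul_ab]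
      ring
    rwa [e] at this

theorem Os.mab {z : ℂ} (h : Os z) : Os (ab * z) := by
  obtain ⟨⟨N, hN, h1⟩, h2⟩ := h
  refine ⟨⟨N, hN, ?_⟩, fun n h3 => h2 (n + 1) ?_⟩
  · have e : em N * (ab * z) = ab * (em N * z) := by ring
    rw [e]
    exact mul_mem ab_mem h1
  · have := mul_mem zt_mem h3
    have e : zt * (2 ^ n * (ab * z)) = 2 ^ (n + 1) * z := by
      rw [pow_succ, ← zt_mul_ab]
      ring
    rwa [e] at this

/-- adding a torsion point of order a power of two -/
theorem Os.add {z t : ℂ} (h : Os z) {n : ℕ} (ht : 2 ^ n * t ∈ PP.lattice) : Os (z + t) := by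
  obtain ⟨⟨N, hN, h1⟩, h2⟩ := h
  refine ⟨⟨2 ^ n * N, ?_, ?_⟩, fun m h3 => h2 (n + m) ?_⟩
  · exact mul_ne_zero (pow_ne_zero _ two_ne_zero) hN
  · rw [em_mul, em_pow, em_ofNat]
    have e : (2 : ℂ) ^ n * em N * (z + t) = 2 ^ n * (em N * z) + em N * (2 ^ n * t) := by ring
    change (2 : ℂ) ^ n * em N * (z + t) ∈ PP.lattice
    rw [e]
    exact add_mem (two_pow_mem h1 n) (mul_mem (em_mem N) ht)
  · have e : (2 : ℂ) ^ (n + m) * z = 2 ^ n * (2 ^ m * (z + t)) - 2 ^ m * (2 ^ n * t) := by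
      rw [pow_add]
      ring
    rw [e]
    exact sub_mem (two_pow_mem h3 n) (two_pow_mem ht m)

theorem Og.two {z : ℂ} (h : Og z) : 2 * z ∉ PP.lattice := by
  have := h.2 1
  rwa [pow_one, ← mul_assoc, zt_mul_ab] at this

theorem Og.nl {z : ℂ} (h : Og z) : z ∉ PP.lattice := fun h1 => by
  have := h.2 0
  rw [pow_zero, one_mul] at this
  exact this (mul_mem ab_mem h1)

theorem Og.mza {z : ℂ} (h : Og z) : Og (zt * z) := by
  obtain ⟨⟨N, hN, h1⟩, h2⟩ := h
  refine ⟨⟨N, hN, ?_⟩, fun n h3 => h2 (n + 1) ?_⟩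
  · have e : em N * (zt * z) = zt * (em N * z) := by ring
    rw [e]
    exact mul_mem zt_mem h1
  · have e : zt ^ (n + 1) * (ab * z) = zt ^ n * (ab * (zt * z)) := by ring
    rwa [e]

theorem Og.neg {z : ℂ} (h : Og z) : Og (-z) := by
  obtain ⟨⟨N, hN, h1⟩, h2⟩ := h
  refine ⟨⟨N, hN, ?_⟩, fun n h3 => h2 n ?_⟩
  · rw [mul_neg]
    exact neg_mem h1
  · rw [mul_neg, mul_neg] at h3
    simpa using neg_mem h3

theorem Og.ztpow {z : ℂ} (h : Og z) (n : ℕ) : Og (zt ^ n * z) := by
  induction n with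
  | zero => rwa [pow_zero, one_mul]
  | succ n ih =>
    have e : zt ^ (n + 1) * z = zt * (zt ^ n * z) := by ring
    rw [e]
    exact ih.mza

theorem zt_pow_mem {x : ℂ} (h : x ∈ PP.lattice) (n : ℕ) : zt ^ n * x ∈ PP.lattice := by
  rw [← em_ta, ← em_pow]
  exact mul_mem (em_mem _) h

/-- adding a torsion point `t` such that `ab t` is of order a power of `a` -/
theorem Og.add' {z t : ℂ} (h : Og z) {n : ℕ} (ht : zt ^ n * (ab * t) ∈ PP.lattice) : Og (z + t) := by
  obtain ⟨⟨N, hN, h1⟩, h2⟩ := h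
  refine ⟨⟨(1 - ta) * ta ^ n * N, ?_, ?_⟩, fun m h3 => h2 (n + m) ?_⟩
  · refine mul_ne_zero (mul_ne_zero ?_ (pow_ne_zero _ ?_)) hN
    · intro h0
      apply ab_ne
      have := congrArg em h0
      rwa [em_sub, em_one, em_ta, em_zero] at this
    · intro h0
      apply zt_ne0
      have := congrArg em h0
      rwa [em_ta, em_zero] at this
  · have e1 : em ((1 - ta : 𝓞 K) * ta ^ n * N) = ab * zt ^ n * em N := by
      rw [em_mul, em_mul, em_pow, em_sub, em_one, em_ta, ab]
    rw [e1]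
    have e : ab * zt ^ n * em N * (z + t) = ab * (zt ^ n * (em N * z)) +
        em N * (zt ^ n * (ab * t)) := by ring
    rw [e]
    exact add_mem (mul_mem ab_mem (zt_pow_mem h1 n)) (mul_mem (em_mem N) ht)
  · have e : zt ^ (n + m) * (ab * z) = zt ^ n * (zt ^ m * (ab * (z + t))) -
        zt ^ m * (zt ^ n * (ab * t)) := by
      rw [pow_add]
      ring
    rw [e]
    exact sub_mem (zt_pow_mem h3 n) (zt_pow_mem ht m)

/-- adding a torsion point of order a power of `a` -/
theorem Og.add {z t : ℂ} (h : Og z) {n : ℕ} (ht : zt ^ n * t ∈ PP.lattice) : Og (z + t) := by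
  refine h.add' (n := n) ?_
  have e : zt ^ n * (ab * t) = ab * (zt ^ n * t) := by ring
  rw [e]
  exact mul_mem ab_mem ht

theorem Og.ate {z : ℂ} (h : Og z) : Og (z + te) := h.add (n := 1) (by
  rw [pow_one, zt_mul_te]
  exact one_mem)

theorem Og.atf {z : ℂ} (h : Og z) : Og (z + tf) := h.add' (n := 0) (by
  rw [pow_zero, one_mul, ab_mul_tf]
  exact one_mem)

theorem Og.congr {z w : ℂ} (h : Og z) (hw : w - z ∈ PP.lattice) : Og w := by
  have := h.add (n := 0) (t := w - z) (by rwa [pow_zero, one_mul])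
  rwa [add_sub_cancel] at this

theorem Os.congr {z w : ℂ} (h : Os z) (hw : w - z ∈ PP.lattice) : Os w := by
  have := h.add (n := 0) (t := w - z) (by rwa [pow_zero, one_mul])
  rwa [add_sub_cancel] at this

/-- the orbit of a torsion point under the multiplication by `em c` is eventually periodic -/
theorem Og.periodic (c : 𝓞 K) {z : ℂ} (h : Og z) : ∃ j p : ℕ, 0 < p ∧
    ∀ n, j ≤ n → em c ^ (n + p) * z - em c ^ n * z ∈ PP.lattice := by
  obtain ⟨⟨N, hN, h1⟩, -⟩ := h
  obtain ⟨a, ha⟩ := S3.mem_PP_iff.1 h1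
  have hne : Ideal.span {N} ≠ ⊥ := by rwa [Ne, Ideal.span_singleton_eq_bot]
  have hfin : Finite (𝓞 K ⧸ Ideal.span {N}) := Ideal.finiteQuotientOfFreeOfNeBot _ hne
  obtain ⟨j, k, hjk, he⟩ := Finite.exists_ne_map_eq_of_infinite
    (fun n : ℕ => Ideal.Quotient.mk (Ideal.span {N}) (c ^ n * a))
  have key : ∀ j k : ℕ, j < k → Ideal.Quotient.mk (Ideal.span {N}) (c ^ j * a) =
      Ideal.Quotient.mk (Ideal.span {N}) (c ^ k * a) →
      ∃ j p : ℕ, 0 < p ∧ ∀ n, j ≤ n → em c ^ (n + p) * z - em c ^ n * z ∈ PP.lattice := by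
    intro j k hjk he
    rw [Ideal.Quotient.eq, Ideal.mem_span_singleton] at he
    obtain ⟨b, hb⟩ := he
    refine ⟨j, k - j, by omega, fun n hn => ?_⟩
    have hN0 := em_ne hN
    have e1 : em N * (em c ^ j * z - em c ^ k * z) = em N * em b := by
      have h2 := congrArg em hb
      rw [em_sub, em_mul, em_mul, em_mul, em_pow, em_pow] at h2
      have h3 : em a = em N * z := ha
      rw [h3] at h2
      linear_combination h2
    have e2 : em c ^ j * z - em c ^ k * z = em b := mul_left_cancel₀ hN0 e1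
    have e3 : em c ^ (n + (k - j)) * z - em c ^ n * z =
        -(em (c ^ (n - j)) * (em c ^ j * z - em c ^ k * z)) := by
      have e4 : em c ^ (n + (k - j)) = em (c ^ (n - j)) * em c ^ k := by
        rw [em_pow, ← pow_add]
        congr 1
        omega
      have e5 : em c ^ n = em (c ^ (n - j)) * em c ^ j := by
        rw [em_pow, ← pow_add]
        congr 1
        omega
      rw [e4, e5]
      ring
    rw [e3, e2]
    exact neg_mem (mul_mem (em_mem _) (em_mem b))
  rcases lt_or_gt_of_ne hjk with h2 | h2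
  · exact key j k h2 he
  · exact key k j h2 he.symm

theorem em_bta : em (1 - ta : 𝓞 K) = ab := by
  rw [em_sub, em_one, em_ta, ab]

theorem odd_of {N : 𝓞 K} (h : IsCoprime N 2) (n : ℕ) {z : ℂ} (h1 : em N * z ∈ PP.lattice)
    (h2 : 2 ^ n * z ∈ PP.lattice) : z ∈ PP.lattice := by
  have h3 : IsCoprime N (2 ^ n) := h.pow_right
  obtain ⟨x, y, e⟩ := h3
  have e2 := congrArg em e
  rw [em_add, em_mul, em_mul, em_pow, em_ofNat, em_one] at e2
  have e3 : z = em x * (em N * z) + em y * (2 ^ n * z) := by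
    have e4 : (em x * em N + em y * (2 : ℂ) ^ n) * z = 1 * z := by
      rw [← e2]
    linear_combination -e4
  rw [e3]
  exact add_mem (mul_mem (em_mem x) h1) (mul_mem (em_mem y) h2)

theorem Oo.os {z : ℂ} (h : Oo z) : Os z := by
  obtain ⟨h1, N, h2, h3⟩ := h
  refine ⟨⟨N, ?_, h3⟩, fun n h4 => h1 (odd_of h2 n h3 h4)⟩
  rintro rfl
  have h4 : IsUnit (2 : 𝓞 K) := isCoprime_zero_left.1 h2
  obtain ⟨c, hc⟩ := h4.exists_right_inv
  have hc' := congrArg em hc
  rw [em_mul, em_ofNat, em_one] at hc'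
  have h5 : em c ∈ PP.lattice := em_mem c
  obtain ⟨m, n, e⟩ := mem_PP.1 h5
  have h6 : ((2 * m : ℤ) : ℂ) + ((2 * n : ℤ) : ℂ) * zt = ((1 : ℤ) : ℂ) + ((0 : ℤ) : ℂ) * zt := by
    have h7 : (2 : ℂ) * em c = 1 := hc'
    rw [← e] at h7
    push_cast
    linear_combination h7
  have := (coords_inj h6).1
  omega

theorem Oo.og {z : ℂ} (h : Oo z) : Og z := h.os.og

theorem Oo.two {z : ℂ} (h : Oo z) : 2 * z ∉ PP.lattice := h.og.two

theorem Oo.mul {z : ℂ} (h : Oo z) {c : 𝓞 K} {n : ℕ} {d : 𝓞 K} (hc : d * c = 2 ^ n) : Oo (em c * z) := by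
  obtain ⟨h1, N, h2, h3⟩ := h
  refine ⟨fun h4 => h1 ?_, N, h2, ?_⟩
  · refine odd_of h2 n h3 ?_
    have h5 := mul_mem (em_mem d) h4
    have e : em d * (em c * z) = 2 ^ n * z := by
      rw [← mul_assoc, ← em_mul, hc, em_pow, em_ofNat]
    rwa [e] at h5
  · have e : em N * (em c * z) = em c * (em N * z) := by ring
    rw [e]
    exact mul_mem (em_mem c) h3

theorem Oo.neg {z : ℂ} (h : Oo z) : Oo (-z) := by
  obtain ⟨h1, N, h2, h3⟩ := h
  refine ⟨fun h4 => h1 ?_, N, h2, ?_⟩
  · simpa using neg_mem h4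
  · rw [mul_neg]
    exact neg_mem h3

theorem ta_bta : (1 - ta : 𝓞 K) * ta = 2 := by
  apply em_inj
  rw [em_mul, em_bta, em_ta, mul_comm, zt_mul_ab, em_ofNat]

theorem Oo.mab {z : ℂ} (h : Oo z) : Oo (ab * z) := by
  rw [← em_bta]
  exact h.mul (n := 1) (d := ta) (by rw [pow_one, mul_comm, ta_bta])

theorem Oo.mza {z : ℂ} (h : Oo z) : Oo (zt * z) := by
  rw [← em_ta]
  exact h.mul (n := 1) (d := 1 - ta) (by rw [pow_one, ta_bta])

theorem Oo.congr {z w : ℂ} (h : Oo z) (hw : w - z ∈ PP.lattice) : Oo w := by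
  obtain ⟨h1, N, h2, h3⟩ := h
  refine ⟨fun h4 => h1 ?_, N, h2, ?_⟩
  · have := sub_mem h4 hw
    rwa [sub_sub_cancel] at this
  · have e : em N * w = em N * z + em N * (w - z) := by ring
    rw [e]
    exact add_mem h3 (mul_mem (em_mem N) hw)

/-- the orbit of a point of odd order under `ab` is periodic -/
theorem Oo.periodic {z : ℂ} (h : Oo z) : ∃ p : ℕ, 0 < p ∧ ab ^ p * z - z ∈ PP.lattice := by
  obtain ⟨j, p, hp, h1⟩ := h.og.periodic (1 - ta)
  have h2 := h1 j le_rfl
  rw [em_bta] at h2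
  refine ⟨p, hp, ?_⟩
  obtain ⟨-, N, h3, h4⟩ := h
  refine odd_of h3 j ?_ ?_
  · have e : em N * (ab ^ p * z - z) = ab ^ p * (em N * z) - em N * z := by ring
    rw [e]
    refine sub_mem ?_ h4
    rw [← em_bta, ← em_pow]
    exact mul_mem (em_mem _) h4
  · have h5 : em (ta ^ j) * (ab ^ (j + p) * z - ab ^ j * z) ∈ PP.lattice :=
      mul_mem (em_mem _) h2
    have e : em (ta ^ j) * (ab ^ (j + p) * z - ab ^ j * z) =
        2 ^ j * (ab ^ p * z - z) := by
      rw [em_pow, em_ta, ← zt_mul_ab, mul_pow, pow_add]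
      ring
    rwa [e] at h5

/-! ### the identities of `xi`, `eta`, `GG` -/

theorem XX_eq (z : ℂ) : XX z = -(zt ^ 2 * xi z) := by
  rw [xi, neg_div, mul_neg, neg_neg, mul_div_cancel₀ _ (pow_ne_zero 2 zt_ne0)]

theorem xi_cg {x y : ℂ} (h : x - y ∈ PP.lattice) : xi x = xi y := by rw [xi, xi, XX_cg h]

theorem xi_neg (z : ℂ) : xi (-z) = xi z := by rw [xi, xi, XX_neg]

theorem xi_zt {z : ℂ} (hz : 2 * z ∉ PP.lattice) :
    xi (zt * z) * (1 + zt ^ 2 * xi z) = xi z * (xi z + zt ^ 2) := by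
  have h := XX_zt hz
  have e : xx z = XX z - 1 := by rw [XX]; ring
  rw [e, XX_eq, XX_eq] at h
  apply mul_left_cancel₀ (pow_ne_zero 4 zt_ne0)
  linear_combination h

theorem xi_tr {z : ℂ} (hz : 2 * z ∉ PP.lattice) : xi z * xi (z + tf) = 1 := by
  have h := XX_tr hz
  rw [XX_eq, XX_eq] at h
  apply mul_left_cancel₀ (pow_ne_zero 4 zt_ne0)
  linear_combination h

theorem xi_ab {z : ℂ} (hz : 2 * z ∉ PP.lattice) :
    ab ^ 2 * xi (ab * z) * xi z = (1 - xi z) ^ 2 := by
  have h := XX_ab hz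
  rw [XX_eq, XX_eq] at h
  apply mul_left_cancel₀ (pow_ne_zero 4 zt_ne0)
  linear_combination h

theorem GG_sq {z : ℂ} (hz : zt * z ∉ PP.lattice) : GG z ^ 2 = xi (zt * z) := by
  have h := gg_sq hz
  rw [XX_eq] at h
  rw [GG, div_pow, mul_pow, h, Complex.I_sq, div_eq_iff (pow_ne_zero 2 (pow_ne_zero 2 zt_ne0))]
  ring

theorem Ihh {z : ℂ} : Complex.I * hh z = 1 + zt * eta z := by
  rw [eta, mul_div_cancel₀ _ zt_ne0]
  ring

theorem Ihh_sq {z : ℂ} (hz : ab * z ∉ PP.lattice) :
    (Complex.I * hh z) ^ 2 = ab ^ 2 * (1 + zt ^ 2 * xi (ab * z)) := by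
  have h := hh_sq hz
  have e : xx (ab * z) = XX (ab * z) - 1 := by rw [XX]; ring
  rw [e, XX_eq] at h
  rw [mul_pow, h, Complex.I_sq]
  ring

/-- the Artin-Schreier equation -/
theorem eta_eq {z : ℂ} (hz : ab * z ∉ PP.lattice) :
    eta z ^ 2 + ab * eta z = ab ^ 2 * xi (ab * z) + zt := by
  have h := Ihh_sq hz
  rw [Ihh] at h
  apply mul_left_cancel₀ (pow_ne_zero 2 zt_ne0)
  have h2 := zt_mul_ab
  have h3 := ab_sq'
  linear_combination h + (zt * eta z) * h2 + h3 - (zt + 1) * zt_sq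

/-- the value of `XX` at the third point of order two -/
theorem XX_third : XX (te + tf) = zt ^ 4 := by
  have h1 : 2 * (te + tf) ∈ PP.lattice := by
    rw [mul_add]
    exact add_mem two_te_mem two_tf_mem
  have h2 : te + tf ∉ PP.lattice := by
    intro h
    apply te_sub_tf_notMem
    have := sub_mem h two_tf_mem
    have e : te + tf - 2 * tf = te - tf := by ring
    rwa [e] at this
  have h := add_sq te_notMem tf_notMem h2
  rw [E1_tor h1, E1_tor two_te_mem, E1_tor two_tf_mem] at h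
  have a1 := P_te' sg_sq
  have a2 := P_tf' sg_sq
  rw [← O7] at a1 a2
  have hO := O7_ne
  have h3 := congrArg (fun x => x / O7 ^ 2) h
  simp only [add_div, a1, a2] at h3
  have h4 : ((0 : ℂ) - 0 - 0) ^ 2 / O7 ^ 2 = 0 := by simp
  rw [h4] at h3
  rw [XX, xx, zt_four]
  have h5 : ab = 1 - zt := rfl
  rw [h5] at h3
  linear_combination -h3

/-! ### the place -/

variable {B : ValuationSubring ℂ}

theorem v_zt_lt (hB : te ∉ B) : B.valuation zt < 1 := by
  by_contra h
  push Not at h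
  apply hB
  rw [← ValuationSubring.valuation_le_one_iff, te, map_inv₀]
  exact inv_le_one_of_one_le₀ h

theorem two_notMem (hB : te ∉ B) : (2 : ℂ)⁻¹ ∉ B := by
  intro h
  have h1 := v_zt_lt hB
  have h2 : B.valuation (2 : ℂ)⁻¹ ≤ 1 := (B.valuation_le_one_iff _).2 h
  have h3 : B.valuation ab ≤ 1 := by
    rw [ab]
    refine (Valuation.map_sub _ _ _).trans (max_le ?_ h1.le)
    rw [map_one]
  have h4 : B.valuation zt * B.valuation ab * B.valuation (2 : ℂ)⁻¹ = 1 := by
    rw [← map_mul, ← map_mul, zt_mul_ab, mul_inv_cancel₀ (two_ne_zero' ℂ), map_one]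
  have h5 : B.valuation zt * B.valuation ab * B.valuation (2 : ℂ)⁻¹ < 1 := by
    have := mul_lt_one_of_lt_of_le h1 h3
    exact mul_lt_one_of_lt_of_le this h2
  exact h5.ne h4

theorem v_ab (hB : te ∉ B) : B.valuation ab = 1 := by
  rw [ab, Valuation.map_sub_eq_of_lt_left]
  · exact map_one _
  · rw [map_one]
    exact v_zt_lt hB

theorem v_zt_pos : 0 < B.valuation zt := by
  rw [zero_lt_iff, Valuation.ne_zero_iff]
  exact zt_ne0

theorem v_two (hB : te ∉ B) : B.valuation (2 : ℂ) = B.valuation zt := by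
  rw [← zt_mul_ab, map_mul, v_ab hB, mul_one]

theorem v_I : B.valuation Complex.I = 1 := by
  have h : B.valuation Complex.I ^ 4 = 1 := by
    rw [← map_pow, Complex.I_pow_four, map_one]
  exact (pow_eq_one_iff_of_nonneg zero_le (by norm_num)).1 h

/-- congruence to one from the square -/
theorem v_sq_one (hB : (2 : ℂ)⁻¹ ∉ B) {x : ℂ} (h : B.valuation (x ^ 2 - 1) < 1) :
    B.valuation (x - 1) < 1 := by
  by_contra hc
  push Not at hc
  have h1 : B.valuation (2 * (x - 1)) < B.valuation ((x - 1) ^ 2) := by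
    rw [map_mul, map_pow, pow_two]
    exact mul_lt_mul_of_pos_right ((two_lt hB).trans_le hc) (zero_lt_one.trans_le hc)
  have e : x ^ 2 - 1 = (x - 1) ^ 2 + 2 * (x - 1) := by ring
  rw [e, Valuation.map_add_eq_of_lt_left _ h1, map_pow] at h
  exact absurd h (not_lt.2 (one_le_pow₀ hc))

/-- congruence from the squares -/
theorem v_sq_sub (hB : (2 : ℂ)⁻¹ ∉ B) {x y : ℂ} (hx : B.valuation y ≤ 1)
    (h : B.valuation (x ^ 2 - y ^ 2) < 1) : B.valuation (x - y) < 1 := by
  by_contra hc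
  push Not at hc
  have h1 : B.valuation (2 * y * (x - y)) < B.valuation ((x - y) ^ 2) := by
    rw [map_mul, map_pow, pow_two]
    refine mul_lt_mul_of_pos_right (lt_of_lt_of_le ?_ hc) (zero_lt_one.trans_le hc)
    rw [map_mul]
    exact mul_lt_one_of_lt_of_le (two_lt hB) hx
  have e : x ^ 2 - y ^ 2 = (x - y) ^ 2 + 2 * y * (x - y) := by ring
  rw [e, Valuation.map_add_eq_of_lt_left _ h1, map_pow] at h
  exact absurd h (not_lt.2 (one_le_pow₀ hc))

theorem Rt_I (hB : (2 : ℂ)⁻¹ ∉ B) : Rt B Complex.I 1 := by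
  unfold Rt
  rw [ZMod.val_one, Nat.cast_one]
  apply v_sq_one hB
  rw [Complex.I_sq]
  have e : (-1 : ℂ) - 1 = -2 := by norm_num
  rw [e, Valuation.map_neg]
  exact two_lt hB

theorem Rt_zt (hB : te ∉ B) : Rt B zt 0 := Rt.of_lt (v_zt_lt hB)

theorem Rt_ab (hB : te ∉ B) : Rt B ab 1 := by
  have h := (Rt.one (B := B)).sub (two_notMem hB) (Rt_zt hB)
  rw [sub_zero] at h
  exact h

/-- the good abscissa is integral -/
theorem v_xi_le (hB : te ∉ B) {z : ℂ} (hz : Og z) : B.valuation (xi z) ≤ 1 := by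
  by_contra hc
  push Not at hc
  obtain ⟨l, hl⟩ : ∃ l, l = B.valuation zt := ⟨_, rfl⟩
  have hl0 : 0 < l := hl ▸ v_zt_pos
  have hl1 : l < 1 := hl ▸ v_zt_lt hB
  have step : ∀ w : ℂ, Og w → 1 < B.valuation (xi w) →
      B.valuation (xi w) < B.valuation (xi (zt * w)) := by
    intro w hw h1
    have h2 := congrArg B.valuation (xi_zt hw.two)
    rw [map_mul, map_mul] at h2
    have h3 : B.valuation (xi w + zt ^ 2) = B.valuation (xi w) := by
      refine Valuation.map_add_eq_of_lt_left _ ?_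
      rw [map_pow, ← hl]
      exact (pow_lt_one₀ zero_le hl1 two_ne_zero).trans h1
    rw [h3] at h2
    have h4 : B.valuation (1 + zt ^ 2 * xi w) < B.valuation (xi w) := by
      refine Valuation.map_add_lt _ (by rwa [map_one]) ?_
      rw [map_mul, map_pow, ← hl]
      calc l ^ 2 * B.valuation (xi w) < 1 * B.valuation (xi w) :=
            mul_lt_mul_of_pos_right (pow_lt_one₀ zero_le hl1 two_ne_zero) (zero_lt_one.trans h1)
        _ = _ := one_mul _
    have h5 : 0 < B.valuation (xi w) := zero_lt_one.trans h1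
    by_contra h6
    push Not at h6
    have h7 : B.valuation (xi (zt * w)) * B.valuation (1 + zt ^ 2 * xi w) <
        B.valuation (xi w) * B.valuation (xi w) := by
      calc B.valuation (xi (zt * w)) * B.valuation (1 + zt ^ 2 * xi w) ≤
            B.valuation (xi w) * B.valuation (1 + zt ^ 2 * xi w) := mul_le_mul_left h6 _
        _ < _ := mul_lt_mul_of_pos_left h4 h5
    exact h7.ne h2
  have h1 : ∀ n : ℕ, 1 < B.valuation (xi (zt ^ n * z)) := by
    intro n
    induction n with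
    | zero => rwa [pow_zero, one_mul]
    | succ n ih =>
      have e : zt ^ (n + 1) * z = zt * (zt ^ n * z) := by ring
      rw [e]
      exact ih.trans (step _ (hz.ztpow n) ih)
  have h2 : StrictMono fun n : ℕ => B.valuation (xi (zt ^ n * z)) := by
    refine strictMono_nat_of_lt_succ fun n => ?_
    have e : zt ^ (n + 1) * z = zt * (zt ^ n * z) := by ring
    rw [e]
    exact step _ (hz.ztpow n) (h1 n)
  obtain ⟨j, p, hp, h3⟩ := hz.periodic ta
  have h4 := h2 (show j < j + p by omega)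
  simp only at h4
  have h5 := h3 j le_rfl
  rw [em_ta] at h5
  rw [xi_cg h5] at h4
  exact lt_irrefl _ h4

/-- **the good abscissa is a unit** -/
theorem v_xi (hB : te ∉ B) {z : ℂ} (hz : Og z) : B.valuation (xi z) = 1 := by
  have h1 := v_xi_le hB hz
  have h2 := v_xi_le hB hz.atf
  have h3 := congrArg B.valuation (xi_tr hz.two)
  rw [map_mul, map_one] at h3
  refine le_antisymm h1 ?_
  rw [← h3]
  exact mul_le_of_le_one_right' h2

/-- Frobenius -/
theorem xi_frob (hB : te ∉ B) {z : ℂ} (hz : Og z) : B.valuation (xi (zt * z) - xi z ^ 2) < 1 := by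
  have h := xi_zt hz.two
  have e : xi (zt * z) - xi z ^ 2 = zt ^ 2 * (xi z - xi (zt * z) * xi z) := by
    linear_combination h
  rw [e, map_mul, map_pow]
  refine mul_lt_one_of_lt_of_le (pow_lt_one₀ zero_le (v_zt_lt hB) two_ne_zero) ?_
  refine (Valuation.map_sub _ _ _).trans (max_le (v_xi hB hz).le ?_)
  rw [map_mul, v_xi hB hz, v_xi hB hz.mza, mul_one]

/-- `GG` is congruent to `xi` -/
theorem GG_xi (hB : te ∉ B) {z : ℂ} (hz : Og z) : B.valuation (GG z - xi z) < 1 := by
  refine v_sq_sub (two_notMem hB) (v_xi hB hz).le ?_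
  rw [GG_sq (nm_2 hz.two).1]
  exact xi_frob hB hz

/-- the translation by a point of order a power of `a` -/
theorem xi_tor (hB : te ∉ B) (k : ℕ) : ∀ {z t : ℂ}, Og z → zt ^ k * t ∈ PP.lattice →
    B.valuation (xi (z + t) - xi z) < 1 := by
  induction k with
  | zero =>
    intro z t _ ht
    rw [pow_zero, one_mul] at ht
    have e : z + t - z ∈ PP.lattice := by rwa [add_sub_cancel_left]
    rw [xi_cg e, sub_self, map_zero]
    exact zero_lt_one
  | succ k ih =>
    intro z t hz ht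
    have hz' : Og (z + t) := hz.add ht
    refine v_sq_sub (two_notMem hB) (v_xi hB hz).le ?_
    have h1 := ih (z := zt * z) (t := zt * t) hz.mza (by
      have e : zt ^ k * (zt * t) = zt ^ (k + 1) * t := by ring
      rwa [e])
    have h2 := xi_frob hB hz
    have h3 := xi_frob hB hz'
    rw [mul_add] at h3
    have e : xi (z + t) ^ 2 - xi z ^ 2 = -(xi (zt * z + zt * t) - xi (z + t) ^ 2) +
        (xi (zt * z + zt * t) - xi (zt * z)) + (xi (zt * z) - xi z ^ 2) := by ring
    rw [e]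
    refine Valuation.map_add_lt _ (Valuation.map_add_lt _ ?_ h1) h2
    rwa [Valuation.map_neg]

/-- `xi - 1` is a unit -/
theorem v_xi_sub (hB : te ∉ B) {z : ℂ} (hz : Og z) (hz' : Og (ab * z)) : B.valuation (xi z - 1) = 1 := by
  have h := congrArg B.valuation (xi_ab hz.two)
  rw [map_mul, map_mul, map_pow, map_pow, v_ab hB, v_xi hB hz, v_xi hB hz', one_pow, one_mul,
    one_mul, Valuation.map_sub_swap] at h
  exact (pow_eq_one_iff_of_nonneg zero_le two_ne_zero).1 h.symm

/-- `xi z + 1 / xi z` is congruent to `xi (ab z)` -/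
theorem xi_ab' (hB : te ∉ B) {z : ℂ} (hz : Og z) (hz' : Og (ab * z)) :
    B.valuation (xi z + xi (z + tf) - xi (ab * z)) < 1 := by
  have h1 := xi_ab hz.two
  have h2 := xi_tr hz.two
  have e : xi z + xi (z + tf) - xi (ab * z) = 2 + (ab ^ 2 - 1) * xi (ab * z) := by
    linear_combination (-xi (z + tf)) * h1 + (ab ^ 2 * xi (ab * z) + 2 - xi z) * h2
  rw [e]
  refine Valuation.map_add_lt _ (two_lt (two_notMem hB)) ?_
  rw [map_mul, v_xi hB hz', mul_one]
  have e2 : ab ^ 2 - 1 = -(2 + zt) := by linear_combination ab_sq'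
  rw [e2, Valuation.map_neg]
  exact Valuation.map_add_lt _ (two_lt (two_notMem hB)) (v_zt_lt hB)

theorem v_eta (hB : te ∉ B) {z : ℂ} (hz : Og z) (hz' : Og (ab * z)) : B.valuation (eta z) ≤ 1 := by
  by_contra hc
  push Not at hc
  have h := eta_eq (nm_2 hz.two).2
  have h1 : B.valuation (ab ^ 2 * xi (ab * z) + zt) ≤ 1 := by
    refine (Valuation.map_add _ _ _).trans (max_le ?_ (v_zt_lt hB).le)
    rw [map_mul, map_pow, v_ab hB, v_xi hB hz', one_pow, one_mul]
  have h2 : B.valuation (ab * eta z) < B.valuation (eta z ^ 2) := by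
    rw [map_mul, v_ab hB, one_mul, map_pow, pow_two]
    calc B.valuation (eta z) = 1 * B.valuation (eta z) := (one_mul _).symm
      _ < _ := mul_lt_mul_of_pos_right hc (zero_lt_one.trans hc)
  rw [← h, Valuation.map_add_eq_of_lt_left _ h2, map_pow] at h1
  exact absurd (one_lt_pow₀ hc two_ne_zero) (not_lt.2 h1)

/-- `I hh` is congruent to one -/
theorem Rt_hh (hB : te ∉ B) {z : ℂ} (hz : Og z) (hz' : Og (ab * z)) :
    Rt B (Complex.I * hh z) 1 := by
  unfold Rt
  rw [ZMod.val_one, Nat.cast_one, Ihh, add_sub_cancel_left, map_mul]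
  exact mul_lt_one_of_lt_of_le (v_zt_lt hB) (v_eta hB hz hz')

/-- `ee` at the points of odd order is integral -/
theorem v_ee_le (hB : te ∉ B) {z : ℂ} (hz : Oo z) : B.valuation (ee z) ≤ 1 := by
  have hh1 : ∀ w : ℂ, Oo w → B.valuation (hh w) = 1 := by
    intro w hw
    have h := (Rt_hh hB hw.og hw.mab.og).unit one_ne_zero
    rwa [map_mul, v_I, one_mul] at h
  have step : ∀ w : ℂ, Oo w →
      B.valuation (ee (ab * w)) ≤ max (B.valuation zt * B.valuation (ee w)) 1 := by
    intro w hw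
    have h := ee_two_b w
    have h1 : B.valuation (ee (ab * w)) = B.valuation (2 * ee w + hh w) := by
      rw [h, map_mul, v_ab hB, one_mul]
    rw [h1]
    refine (Valuation.map_add _ _ _).trans (max_le_max ?_ (hh1 w hw).le)
    rw [map_mul, v_two hB]
  obtain ⟨p, hp, h1⟩ := hz.periodic
  have key : ∀ n : ℕ, Oo (ab ^ n * z) ∧
      B.valuation (ee (ab ^ n * z)) ≤ max (B.valuation zt ^ n * B.valuation (ee z)) 1 := by
    intro n
    induction n with
    | zero => exact ⟨by rwa [pow_zero, one_mul], by rw [pow_zero, one_mul, pow_zero, one_mul]; exact le_max_left _ _⟩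
    | succ n ih =>
      have e : ab ^ (n + 1) * z = ab * (ab ^ n * z) := by ring
      rw [e]
      refine ⟨ih.1.mab, (step _ ih.1).trans (max_le ?_ (le_max_right _ _))⟩
      rcases le_total (B.valuation zt ^ n * B.valuation (ee z)) 1 with h2 | h2
      · have h3 := ih.2
        rw [max_eq_right h2] at h3
        exact (mul_le_one' (v_zt_lt hB).le h3).trans (le_max_right _ _)
      · have h3 := ih.2
        rw [max_eq_left h2] at h3
        refine le_trans ?_ (le_max_left _ _)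
        rw [pow_succ', mul_assoc]
        exact mul_le_mul_right h3 _
  by_contra hc
  push Not at hc
  have h2 := (key p).2
  rw [ee_cg h1] at h2
  rcases le_max_iff.1 h2 with h3 | h3
  · have h4 : B.valuation zt ^ p * B.valuation (ee z) < 1 * B.valuation (ee z) :=
      mul_lt_mul_of_pos_right (pow_lt_one₀ zero_le (v_zt_lt hB) hp.ne') (zero_lt_one.trans hc)
    rw [one_mul] at h4
    exact absurd h3 (not_le.2 h4)
  · exact absurd hc (not_lt.2 h3)

/-- **(F7)** `I ee` is congruent to one at the points of odd order -/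
theorem Rt_ee (hB : te ∉ B) {z : ℂ} (hz : Oo z) : Rt B (Complex.I * ee z) 1 := by
  have h2 := two_notMem hB
  have key : ∀ w : ℂ, Oo w → Rt B (Complex.I * ee (ab * w)) 1 := by
    intro w hw
    have h := ee_two_b w
    have h3 : Rt B (ab * (Complex.I * ee (ab * w))) 1 := by
      have e : ab * (Complex.I * ee (ab * w)) = Complex.I * hh w + 2 * (Complex.I * ee w) := by
        linear_combination -Complex.I * h
      rw [e]
      refine (Rt_hh hB hw.og hw.mab.og).congr ?_
      rw [add_sub_cancel_left, map_mul, map_mul, v_I, one_mul]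
      exact mul_lt_one_of_lt_of_le (two_lt h2) (v_ee_le hB hw)
    have h4 : B.valuation (Complex.I * ee (ab * w)) ≤ 1 := by
      rw [map_mul, v_I, one_mul]
      exact v_ee_le hB hw.mab
    refine h3.congr ?_
    have e : Complex.I * ee (ab * w) - ab * (Complex.I * ee (ab * w)) =
        zt * (Complex.I * ee (ab * w)) := by
      rw [ab]
      ring
    rw [e, map_mul]
    exact mul_lt_one_of_lt_of_le (v_zt_lt hB) h4
  obtain ⟨p, hp, h1⟩ := hz.periodic
  obtain ⟨n, rfl⟩ : ∃ n, p = n + 1 := ⟨p - 1, by omega⟩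
  have e : ab ^ (n + 1) * z = ab * (ab ^ n * z) := by ring
  rw [← ee_cg h1, e]
  refine key _ ?_
  have h3 : (em ((1 - ta : 𝓞 K) ^ n) : ℂ) = ab ^ n := by rw [em_pow, em_bta]
  rw [← h3]
  exact hz.mul (n := n) (d := ta ^ n) (by rw [← mul_pow, mul_comm ta, ta_bta])

end

end

end Pool.Agent.Lib.MP_1a91b9_ntV
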