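import Pool.Agent.Lib.MP_1a91b9_ntV.A.Sm7
import Pool.Agent.Lib.MP_1a91b9_ntV.A.Val7

/-!
# Sums over the classes modulo an element: the Chinese remainder theorem, the sums of a lattice function

`SE F M Y`: the sum over the classes `c` modulo `M` of `Y c * F (c / M)`.
-/

set_option autoImplicit false
set_option linter.unusedSectionVars false

namespace Pool.Agent.Lib.MP_1a91b9_ntV

open NumberField Pool.Agent.Lib.MP_1a91b9_nuT Pool.Agent.Lib.MP_1a91b9_ntQ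

noncomputable section

variable [CD]

section
variable {M N : 𝓞 K} {R : Type*} [AddCommMonoid R]

/-- the Chinese remainder theorem -/
theorem SM_crt (hM : M ≠ 0) (hN : N ≠ 0) (h : IsCoprime M N) {F : 𝓞 K → R} (hF : Pd (M * N) F) :
    SM (M * N) F = SM M fun x => SM N fun y => F (N * x + M * y) := by
  obtain ⟨ι, _, a, ha⟩ := CRS.exists_crs hM
  obtain ⟨κ, _, b, hb⟩ := CRS.exists_crs hN
  obtain ⟨p, q, hpq⟩ := h
  have h1 : CRS (M * N) fun x : ι × κ => N * a x.1 + M * b x.2 := by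
    refine ⟨fun x => ?_, fun i j h2 => ?_⟩
    · obtain ⟨i, y, hy⟩ := ha.ex (q * x)
      obtain ⟨k, z, hz⟩ := hb.ex (p * x)
      exact ⟨(i, k), y + z, by linear_combination N * hy + M * hz - x * hpq⟩
    · obtain ⟨i, k⟩ := i
      obtain ⟨i', k'⟩ := j
      obtain ⟨z, hz⟩ := h2
      have h3 : i = i' := by
        refine ha.inj _ _ ⟨q * (N * z - (b k - b k')) + p * (a i - a i'), ?_⟩
        linear_combination q * hz - (a i - a i') * hpq
      have h4 : k = k' := by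
        refine hb.inj _ _ ⟨p * (M * z - (a i - a i')) + q * (b k - b k'), ?_⟩
        linear_combination p * hz - (b k - b k') * hpq
      rw [h3, h4]
  rw [SM_eq (mul_ne_zero hM hN) h1 hF, Fintype.sum_prod_type]
  have e1 : ∀ x, SM N (fun y => F (N * x + M * y)) = ∑ k, F (N * x + M * b k) := fun x =>
    SM_eq hN hb fun y z hyz => hF _ _ (by
      obtain ⟨t, ht⟩ := hyz
      exact ⟨t, by linear_combination M * ht⟩)
  rw [SM_congr (fun x => e1 x)]
  refine (SM_eq (F := fun x => ∑ k, F (N * x + M * b k)) hM ha fun x y hxy => ?_).symm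
  refine Finset.sum_congr rfl fun k _ => hF _ _ ?_
  obtain ⟨t, ht⟩ := hxy
  exact ⟨t, by linear_combination N * ht⟩

theorem SM_unit {u : 𝓞 K} (hu : IsUnit u) {F : 𝓞 K → R} (hF : Pd u F) : SM u F = F 0 := by
  have h1 : CRS u (fun _ : Unit => (0 : 𝓞 K)) :=
    ⟨fun x => ⟨(), hu.dvd⟩, fun i j _ => Subsingleton.elim _ _⟩
  rw [SM_eq hu.ne_zero h1 hF]
  simp

theorem SM_one {F : 𝓞 K → R} (hF : Pd 1 F) : SM 1 F = F 0 := SM_unit isUnit_one hF

theorem SM_zero (hM : M ≠ 0) : SM M (fun _ => (0 : R)) = 0 := by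
  obtain ⟨ι, _, a, -, h⟩ := SM_def (R := R) hM
  rw [h, Finset.sum_const_zero]

theorem SM_sum (hM : M ≠ 0) {ι : Type*} (S : Finset ι) (F : ι → 𝓞 K → R) :
    SM M (fun x => ∑ i ∈ S, F i x) = ∑ i ∈ S, SM M (F i) := by
  obtain ⟨κ, _, a, -, h⟩ := SM_def (R := R) hM
  rw [h, Finset.sum_congr rfl fun i _ => h (F i), Finset.sum_comm]

theorem SM_comm (hM : M ≠ 0) (hN : N ≠ 0) (F : 𝓞 K → 𝓞 K → R) :
    SM M (fun x => SM N fun y => F x y) = SM N (fun y => SM M fun x => F x y) := by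
  obtain ⟨κ, _, a, -, h⟩ := SM_def (R := R) hM
  obtain ⟨κ', _, b, -, h'⟩ := SM_def (R := R) hN
  rw [h, h', Finset.sum_congr rfl fun i _ => h' _, Finset.sum_congr rfl fun i _ => h _,
    Finset.sum_comm]

theorem SM_neg (hM : M ≠ 0) {F : 𝓞 K → R} (hF : Pd M F) : SM M (fun x => F (-x)) = SM M F := by
  have h := SM_mul hM hF (c := -1) ⟨-1, 0, by ring⟩
  rw [← h]
  exact SM_congr fun x => by rw [neg_one_mul]

end

section
variable {M : 𝓞 K}

theorem SM_mul_left (hM : M ≠ 0) (c : ℂ) (F : 𝓞 K → ℂ) : SM M (fun x => c * F x) = c * SM M F := by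
  obtain ⟨κ, _, a, -, h⟩ := SM_def (R := ℂ) hM
  rw [h, h, Finset.mul_sum]

theorem SM_mul_right (hM : M ≠ 0) (c : ℂ) (F : 𝓞 K → ℂ) : SM M (fun x => F x * c) = SM M F * c := by
  obtain ⟨κ, _, a, -, h⟩ := SM_def (R := ℂ) hM
  rw [h, h, Finset.sum_mul]

theorem SM_negv (hM : M ≠ 0) (F : 𝓞 K → ℂ) : SM M (fun x => -F x) = -SM M F := by
  obtain ⟨κ, _, a, -, h⟩ := SM_def (R := ℂ) hM
  rw [h, h, Finset.sum_neg_distrib]

variable {B : ValuationSubring ℂ}

theorem SM_v_le (hM : M ≠ 0) {F : 𝓞 K → ℂ} {g : B.ValueGroup} (h : ∀ x, B.valuation (F x) ≤ g) :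
    B.valuation (SM M F) ≤ g := by
  obtain ⟨κ, _, a, -, h1⟩ := SM_def (R := ℂ) hM
  rw [h1]
  exact Valuation.map_sum_le _ fun i _ => h _

theorem SM_v_lt (hM : M ≠ 0) {F : 𝓞 K → ℂ} {g : B.ValueGroup} (hg : g ≠ 0)
    (h : ∀ x, B.valuation (F x) < g) : B.valuation (SM M F) < g := by
  obtain ⟨κ, _, a, -, h1⟩ := SM_def (R := ℂ) hM
  rw [h1]
  exact Valuation.map_sum_lt _ hg fun i _ => h _

/-- sums of congruent functions -/
theorem SM_v_sub (hM : M ≠ 0) {F G : 𝓞 K → ℂ} (h : ∀ x, B.valuation (F x - G x) < 1) :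
    B.valuation (SM M F - SM M G) < 1 := by
  rw [← SM_sub hM]
  exact SM_v_lt hM one_ne_zero h

/-- the square of a finite sum -/
theorem sum_sq (hB : (2 : ℂ)⁻¹ ∉ B) {ι : Type*} (S : Finset ι) (f : ι → ℂ)
    (h : ∀ i ∈ S, B.valuation (f i) ≤ 1) :
    B.valuation ((∑ i ∈ S, f i) ^ 2 - ∑ i ∈ S, f i ^ 2) < 1 := by
  classical
  induction S using Finset.induction_on with
  | empty => simp
  | insert a S ha ih =>
    rw [Finset.sum_insert ha, Finset.sum_insert ha]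
    have h1 := ih fun i hi => h i (Finset.mem_insert_of_mem hi)
    have h2 := h a (Finset.mem_insert_self a S)
    have h3 : B.valuation (∑ i ∈ S, f i) ≤ 1 :=
      Valuation.map_sum_le _ fun i hi => h i (Finset.mem_insert_of_mem hi)
    have e : (f a + ∑ i ∈ S, f i) ^ 2 - (f a ^ 2 + ∑ i ∈ S, f i ^ 2) =
        ((∑ i ∈ S, f i) ^ 2 - ∑ i ∈ S, f i ^ 2) + 2 * (f a * ∑ i ∈ S, f i) := by ring
    rw [e]
    refine Valuation.map_add_lt _ h1 ?_
    rw [map_mul, map_mul]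
    exact mul_lt_one_of_lt_of_le (two_lt hB) (mul_le_one' h2 h3)

theorem SM_sq (hB : (2 : ℂ)⁻¹ ∉ B) (hM : M ≠ 0) {F : 𝓞 K → ℂ} (h : ∀ x, B.valuation (F x) ≤ 1) :
    B.valuation (SM M F ^ 2 - SM M fun x => F x ^ 2) < 1 := by
  obtain ⟨κ, _, a, -, h1⟩ := SM_def (R := ℂ) hM
  rw [h1, h1]
  exact sum_sq hB _ _ fun i _ => h _

end

/-! ### the sums of a lattice function -/

/-- the sum of `Y c * F (c / M)` -/
def SE (F : ℂ → ℂ) (M : 𝓞 K) (Y : 𝓞 K → ℂ) : ℂ := SM M fun c => Y c * F (em c / em M)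

/-- a function on `ℂ / Λ` -/
def LP (F : ℂ → ℂ) : Prop := ∀ l ∈ PP.lattice, ∀ z, F (z + l) = F z

theorem LP.cg {F : ℂ → ℂ} (h : LP F) {x y : ℂ} (hxy : x - y ∈ PP.lattice) : F x = F y := by
  have e : x = y + (x - y) := by ring
  rw [e, h _ hxy]

theorem div_sub_mem {M : 𝓞 K} (hM : M ≠ 0) {x y : 𝓞 K} (h : M ∣ x - y) :
    em x / em M - em y / em M ∈ PP.lattice := by
  obtain ⟨z, hz⟩ := h
  have e : em x / em M - em y / em M = em z := by
    rw [← sub_div, ← em_sub, hz, em_mul, mul_div_cancel_left₀ _ (em_ne hM)]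
  rw [e]
  exact S3.embK_mem z

theorem mem_div {M : 𝓞 K} (hM : M ≠ 0) {x : 𝓞 K} (h : em x / em M ∈ PP.lattice) : M ∣ x := by
  obtain ⟨a, ha⟩ := S3.mem_PP_iff.1 h
  refine ⟨a, em_inj ?_⟩
  have h1 : em a = em x / em M := ha
  rw [em_mul, h1, mul_div_cancel₀ _ (em_ne hM)]

theorem LP.pd {F : ℂ → ℂ} (hF : LP F) {M : 𝓞 K} (hM : M ≠ 0) : Pd M fun c => F (em c / em M) :=
  fun _ _ h => hF.cg (div_sub_mem hM h)

theorem Pd.mul {M : 𝓞 K} {f g : 𝓞 K → ℂ} (hf : Pd M f) (hg : Pd M g) : Pd M fun x => f x * g x :=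
  fun x y h => by
    change f x * g x = f y * g y
    rw [hf x y h, hg x y h]

theorem SE_pd {F : ℂ → ℂ} (hF : LP F) {M : 𝓞 K} (hM : M ≠ 0) {Y : 𝓞 K → ℂ} (hY : Pd M Y) :
    Pd M fun c => Y c * F (em c / em M) := hY.mul (hF.pd hM)

/-- a distribution of weight one -/
def DR (F : ℂ → ℂ) : Prop := ∀ (a : 𝓞 K), a ≠ 0 → ∀ z,
  SM a (fun u => F (z + em u / em a)) = em a * F (em a * z)

/-- the sums modulo a multiple -/
theorem SE_scale {F : ℂ → ℂ} (hF : LP F) (hD : DR F) {q M : 𝓞 K} (hq : q ≠ 0) (hM : M ≠ 0)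
    {Y : 𝓞 K → ℂ} (hY : Pd M Y) : SE F (q * M) Y = em q * SE F M Y := by
  rw [SE, SM_fib hM hq (SE_pd hF (mul_ne_zero hq hM) (hY.of_dvd (dvd_mul_left _ _))), SE,
    ← SM_mul_left hM]
  refine SM_congr fun b => ?_
  have h1 : ∀ u : 𝓞 K, Y (b + M * u) * F (em (b + M * u) / em (q * M)) =
      Y b * F (em b / em (q * M) + em u / em q) := by
    intro u
    rw [hY (b + M * u) b ⟨u, by ring⟩, em_add, em_mul, em_mul, add_div]
    congr 3
    have := em_ne hM
    have := em_ne hq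
    field_simp
  rw [SM_congr h1, SM_mul_left hq, hD q hq]
  have e : em q * (em b / em (q * M)) = em b / em M := by
    rw [em_mul]
    have := em_ne hM
    have := em_ne hq
    field_simp
  rw [e]
  ring

/-- a completely multiplicative function -/
def Mu (Y : 𝓞 K → ℂ) : Prop := ∀ x y, Y (x * y) = Y x * Y y

/-- the sums over the classes prime to `q` -/
theorem SE_euler {F : ℂ → ℂ} (hF : LP F) (hD : DR F) {q M : 𝓞 K} (hq : q ≠ 0) (hM : M ≠ 0)
    {Y J : 𝓞 K → ℂ} (hY : Pd M Y) (hm : Mu Y) (hJ : Pd q J) (h1 : ∀ x, ¬ q ∣ x → J x = 1)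
    (h0 : ∀ x, q ∣ x → J x = 0) :
    SE F (q * M) (fun c => Y c * J c) = (em q - Y q) * SE F M Y := by
  have hqM := mul_ne_zero hq hM
  have h2 : SE F (q * M) (fun c => Y c * J c) = SE F (q * M) Y -
      SM (q * M) fun c => Y c * (1 - J c) * F (em c / em (q * M)) := by
    rw [SE, SE, ← SM_sub hqM]
    exact SM_congr fun c => by ring
  have h3 : Pd (q * M) fun c => Y c * (1 - J c) * F (em c / em (q * M)) := by
    refine Pd.mul (Pd.mul (hY.of_dvd (dvd_mul_left _ _)) fun x y h => ?_) (hF.pd hqM)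
    rw [hJ x y ((dvd_mul_right _ _).trans h)]
  rw [h2, SE_scale hF hD hq hM hY, SM_dvd hM hq h3 (fun x hx => by rw [h1 x hx]; ring), sub_mul]
  congr 1
  rw [SE, ← SM_mul_left hM]
  refine SM_congr fun b => ?_
  rw [h0 (q * b) (dvd_mul_right _ _), hm, em_mul, em_mul, mul_div_mul_left _ _ (em_ne hq)]
  ring

theorem LP_ee [V7] : LP ee := fun _ hl z => ee_add hl z

theorem DR_ee [V7] : DR ee := by
  intro a ha z
  obtain ⟨ι, _, ρ, hρ⟩ := CRS.exists_crs ha
  have h1 : Pd a fun u => ee (z + em u / em a) := by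
    intro x y h
    refine ee_cg ?_
    have e : z + em x / em a - (z + em y / em a) = em x / em a - em y / em a := by ring
    rw [e]
    exact div_sub_mem ha h
  rw [SM_eq ha hρ h1]
  have h2 := E1_dist_O (ρ := ρ) ha (fun x => by
    obtain ⟨i, hi⟩ := hρ.ex x
    refine ⟨i, hi, fun j hj => hρ.inj j i ?_⟩
    have e : ρ j - ρ i = (x - ρ i) - (x - ρ j) := by ring
    rw [e]
    exact dvd_sub hi hj) z
  simp only [ee]
  rw [← Finset.sum_div]
  have h3 : ∑ i, E1 (z + em (ρ i) / em a) = em a * E1 (em a * z) := h2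
  rw [h3]
  ring

end

end Pool.Agent.Lib.MP_1a91b9_ntV
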