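import Pool.Agent.Lib.MP_1a91b9_ntV.A.Two7

/-!
# The field `ℚ(√-7)`: the class `D₀ = -1`

`ee_third`: the values of `ee` near the point `1 / ab²`. `LT_three`: the residues of the sums for `D₀ = -1` (second order).
`LP_one`: the residues of the primitive sums for `D₀ = -1` and an odd number of primes with `aa = 1`.
-/

set_option autoImplicit false
set_option linter.unusedSectionVars false

namespace Pool.Agent.Lib.MP_1a91b9_ntV

open NumberField Pool.Agent.Lib.MP_1a91b9_nuT Pool.Agent.Lib.MP_1a91b9_nuT.S3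
  Pool.Agent.Lib.MP_1a91b9_nuT.Ell Pool.Agent.Lib.MP_1a91b9_ntQ

noncomputable section

variable [CD] [hv : V7]

/-! ### the point `1 / ab²` -/

/-- the point `1 / ab²` -/
def up : ℂ := 1 / ab ^ 2

theorem ab_up : ab * up = tf := by
  have := ab_ne
  rw [up, tf]
  field_simp

theorem up_two : 2 * up - tf ∈ PP.lattice := by
  have e : 2 * up = zt * tf := by
    rw [← ab_up, ← zt_mul_ab]
    ring
  rw [e]
  exact zt_tf

theorem up_nl : 2 * up ∉ PP.lattice := fun h => tf_notMem (by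
  have := sub_mem h up_two
  rwa [sub_sub_cancel] at this)

theorem XX_up : XX up = -zt ^ 2 := by
  have h := XX_ab up_nl
  rw [ab_up, XX_tf, mul_zero, zero_mul] at h
  have h2 : XX up + zt ^ 2 = 0 := (pow_eq_zero_iff two_ne_zero).1 h.symm
  linear_combination h2

theorem ee_up : 2 * ee up = -hh up := by
  have h := ee_two_b up
  rw [ab_up, ee_tor two_tf_mem, mul_zero] at h
  linear_combination h

theorem hh_up : (Complex.I * hh up) ^ 2 = ab ^ 2 := by
  have h := hh_sq (nm_2 up_nl).2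
  rw [ab_up, xx_tf] at h
  rw [mul_pow, Complex.I_sq, h]
  ring

theorem hh_up_or : Complex.I * hh up = ab ∨ Complex.I * hh up = -ab :=
  sq_eq_sq_iff_eq_or_eq_neg.1 hh_up

theorem ee_up_ne : ee up ≠ 0 := by
  intro h
  have h1 := ee_up
  rw [h, mul_zero] at h1
  exact hh_ne up_nl (by linear_combination h1)

variable {B : ValuationSubring ℂ}

/-- `2 ee (1 / ab²)` is a unit -/
theorem v_ee_up (hB : te ∉ B) : B.valuation (zt * ee up) = 1 := by
  have h1 : B.valuation (2 * ee up) = 1 := by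
    rw [ee_up, Valuation.map_neg]
    have h2 : B.valuation (Complex.I * hh up) = 1 := by
      rcases hh_up_or with h | h
      · rw [h, v_ab hB]
      · rw [h, Valuation.map_neg, v_ab hB]
    rwa [map_mul, v_I, one_mul] at h2
  rw [map_mul, v_two hB, ← map_mul] at h1
  exact h1

/-- the values near the point `1 / ab²` -/
theorem ee_third (hB : te ∉ B) {v : ℂ} (hv1 : Oo v) : B.valuation (ee (up + v) - ee up) < 1 := by
  have h2 := two_notMem hB
  have hz0 := zt_ne0
  have hvg := hv1.og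
  have hvb := hv1.mab.og
  -- `up + v`, `up - v` are not in the lattice
  have hn : ∀ s : ℂ, Oo s → up + s ∉ PP.lattice := by
    intro s hs h
    have h3 : 2 * s + tf ∈ PP.lattice := by
      have h4 := sub_mem (add_mem h h) up_two
      have e : up + s + (up + s) - (2 * up - tf) = 2 * s + tf := by ring
      rwa [e] at h4
    have h5 : 2 ^ 2 * s ∈ PP.lattice := by
      have h6 := sub_mem (add_mem h3 h3) two_tf_mem
      have e : 2 * s + tf + (2 * s + tf) - 2 * tf = 2 ^ 2 * s := by ring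
      rwa [e] at h6
    exact hs.os.2 2 h5
  have hm1 : up - v ∉ PP.lattice := by
    rw [sub_eq_add_neg]
    exact hn _ hv1.neg
  have hc := ee_chord up_nl hv1.two hm1 (hn v hv1)
  have hxi1 := v_xi_sub hB hvg hvb
  have hne : xi v - 1 ≠ 0 := by
    intro h
    rw [h, map_zero] at hxi1
    exact zero_ne_one hxi1
  have e1 : xx up - xx v = zt ^ 2 * (xi v - 1) := by
    have a1 : xx up = XX up - 1 := by rw [XX]; ring
    have a2 : xx v = XX v - 1 := by rw [XX]; ring
    rw [a1, a2, XX_up, XX_eq]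
    ring
  have e2 : yy up - yy v = zt ^ 2 * (xi v * hh v - hh up) := by
    rw [← hh_mul up_nl, ← hh_mul hv1.two, XX_up, XX_eq]
    ring
  rw [e1, e2] at hc
  have hc2 : (ee (up + v) - ee up - ee v) * (xi v - 1) = xi v * hh v - hh up := by
    apply mul_left_cancel₀ (pow_ne_zero 2 hz0)
    linear_combination hc
  -- multiply by `I (xi v - 1)`
  have key : Complex.I * (xi v - 1) * (ee (up + v) - ee up) =
      (xi v - 1) * (Complex.I * ee v - 1) + xi v * (Complex.I * hh v - 1) -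
        (Complex.I * hh up - 1) + 2 * (xi v - 1) := by
    linear_combination Complex.I * hc2
  have h3 := congrArg B.valuation key
  rw [map_mul, map_mul, v_I, hxi1, one_mul, one_mul] at h3
  rw [h3]
  have k1 : B.valuation (Complex.I * ee v - 1) < 1 := by
    have := Rt_ee hB hv1
    unfold Rt at this
    rwa [ZMod.val_one, Nat.cast_one] at this
  have k2 : B.valuation (Complex.I * hh v - 1) < 1 := by
    have := Rt_hh hB hvg hvb
    unfold Rt at this
    rwa [ZMod.val_one, Nat.cast_one] at this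
  have k3 : B.valuation (Complex.I * hh up - 1) < 1 := by
    have hzt := v_zt_lt hB
    rcases hh_up_or with h | h
    · rw [h]
      have e : ab - 1 = -zt := by rw [ab]; ring
      rw [e, Valuation.map_neg]
      exact hzt
    · rw [h]
      have e : -ab - 1 = zt - 2 := by rw [ab]; ring
      rw [e]
      exact Valuation.map_sub_lt _ hzt (two_lt h2)
  refine Valuation.map_add_lt _ (Valuation.map_sub_lt _ (Valuation.map_add_lt _ ?_ ?_) k3) ?_
  · rw [map_mul, hxi1, one_mul]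
    exact k1
  · rw [map_mul, v_xi hB hvg, one_mul]
    exact k2
  · rw [map_mul, hxi1, mul_one]
    exact two_lt h2

/-- the points `x / DD S` are of odd order -/
theorem Oo_x {S : Finset Pg7} (hS : S.Nonempty) {x w : 𝓞 K} (h : ∀ q ∈ S, ch q (w * x) = 1) :
    Oo (MP_1a91b9_ntQ.em x / MP_1a91b9_ntQ.em (DD S)) := by
  refine ⟨fun h1 => ?_, DD S, ?_, ?_⟩
  · obtain ⟨q, hq⟩ := hS
    have h2 := mem_div (DD_ne S) h1
    have h3 : q.1 ∣ w * x := ((Finset.dvd_prod_of_mem _ hq).trans h2).mul_left _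
    have h4 := h q hq
    rw [ch_zero h3] at h4
    exact absurd h4 (by decide)
  · rw [← ta_mul_tb]
    exact (DD_cop_ta S).mul_right (DD_cop_tb S)
  · rw [mul_div_cancel₀ _ (em_ne (DD_ne S))]
    exact em_mem _

/-! ### the right side for `D₀ = -1` -/

theorem f0_three : (f0 1 0 0 : 𝓞 K) = tb ^ 2 := by
  have h1 : ce (1 + 1 + 0) 0 = 0 := rfl
  have h2 : ce 1 0 = 2 := rfl
  rw [f0, h1, h2, pow_zero, one_mul]

theorem iv_f3 (S : Finset Pg7) : f0 1 0 0 ∣ iv S * DD S - 1 := by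
  rw [f0_three, mul_comm]
  exact (pow_dvd_pow _ (by norm_num)).trans (iv_spec S)

theorem RH_three (S : Finset Pg7) : RH 1 0 0 ee (iv S) S =
    VS S (tb ^ 2) fun x => ee (MP_1a91b9_ntQ.em x / MP_1a91b9_ntQ.em (DD S) + MP_1a91b9_ntQ.em (iv S) / ab ^ 2) := by
  have h := RH_eq 1 0 0 LP_ee S 0 (iv S)
  have h1 : ce (1 + 1 + 0) 0 = 0 := rfl
  have h2 : ce 1 0 = 2 := rfl
  have h3 : (1 + 1 + 0 : ZMod 2) = 0 := rfl
  rw [h1, h2, mul_zero, zero_add, pow_zero, one_mul, f0_three, h3] at h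
  rw [h]
  refine VS_congr fun x => ?_
  rw [OPA_00 (LP_ee.opb 0 _), OPB_0 LP_ee]

/-- the inverse modulo `ab²` -/
theorem iv_sgn (S : Finset Pg7) : tb ^ 2 ∣ iv S - ((sg2 (AA S) : ℤ) : 𝓞 K) := by
  have h1 := bE_rb_DD S
  have h2 : tb ^ 2 ∣ DD S * iv S - 1 := (pow_dvd_pow _ (by norm_num)).trans (iv_spec S)
  have h3 := odd_rb (DD_tb S)
  rw [tb2_dvd, map_sub, map_mul, map_one] at h2
  rw [tb2_dvd, map_sub, map_intCast]
  have h4 : (∑ q ∈ S, aa q) = AA S := rfl
  rw [h4] at h1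
  revert h1 h2 h3
  generalize rb (DD S) = u
  generalize rb (iv S) = v
  generalize AA S = t
  revert u v t
  decide

theorem ee_w3 (S : Finset Pg7) (x : 𝓞 K) : ee (MP_1a91b9_ntQ.em x / MP_1a91b9_ntQ.em (DD S) + MP_1a91b9_ntQ.em (iv S) / ab ^ 2) =
    ((sg2 (AA S) : ℤ) : ℂ) * ee (up + ((sg2 (AA S) : ℤ) : ℂ) * (MP_1a91b9_ntQ.em x / MP_1a91b9_ntQ.em (DD S))) := by
  have h1 : ee (MP_1a91b9_ntQ.em x / MP_1a91b9_ntQ.em (DD S) + MP_1a91b9_ntQ.em (iv S) / ab ^ 2) =
      ee (MP_1a91b9_ntQ.em x / MP_1a91b9_ntQ.em (DD S) + ((sg2 (AA S) : ℤ) : ℂ) * up) := by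
    refine ee_cg ?_
    have e : MP_1a91b9_ntQ.em x / MP_1a91b9_ntQ.em (DD S) + MP_1a91b9_ntQ.em (iv S) / ab ^ 2 - (MP_1a91b9_ntQ.em x / MP_1a91b9_ntQ.em (DD S) + ((sg2 (AA S) : ℤ) : ℂ) * up) =
        MP_1a91b9_ntQ.em (iv S) / MP_1a91b9_ntQ.em (tb ^ 2) - MP_1a91b9_ntQ.em ((sg2 (AA S) : ℤ) : 𝓞 K) / MP_1a91b9_ntQ.em (tb ^ 2) := by
      rw [em_tb_pow, em_intCast, up]
      ring
    rw [e]
    exact div_sub_mem (tb_pow_ne 2) (iv_sgn S)
  rw [h1]
  rcases sg2_or (AA S) with h | h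
  · rw [h, Int.cast_one, one_mul, one_mul, one_mul, add_comm]
  · rw [h, Int.cast_neg, Int.cast_one, neg_one_mul, neg_one_mul, neg_one_mul, ← ee_neg]
    congr 1
    ring

theorem LT_empty3 : LT 1 0 0 ∅ = 2 * ee up := by
  have h := REL' 1 0 0 one_ne_zero ∅ (iv_f3 ∅)
  rw [Finset.powerset_empty, Finset.sum_singleton, Finset.sdiff_self, Finset.prod_empty, one_mul,
    Finset.card_empty, RH_three, div_one, mul_one, zero_add, pow_one] at h
  have h2 : (VS ∅ (tb ^ 2) fun x => ee (MP_1a91b9_ntQ.em x / MP_1a91b9_ntQ.em (DD ∅) + MP_1a91b9_ntQ.em (iv ∅) / ab ^ 2)) = ee up := by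
    have hc := VS_congr (S := ∅) (w := tb ^ 2) fun x => ee_w3 ∅ x
    rw [hc]
    have h0 : AA (∅ : Finset Pg7) = 0 := rfl
    rw [h0, sg2_zero]
    have e1 : (VS ∅ (tb ^ 2) fun x => ((1 : ℤ) : ℂ) * ee (up + ((1 : ℤ) : ℂ) * (MP_1a91b9_ntQ.em x / MP_1a91b9_ntQ.em (DD ∅)))) =
        SM 1 fun x => ee (up + MP_1a91b9_ntQ.em x / MP_1a91b9_ntQ.em 1) := by
      classical
      rw [VS, DD, Finset.prod_empty]
      refine SM_congr fun x => ?_
      rw [if_pos fun q hq => absurd hq (Finset.notMem_empty q), Int.cast_one, one_mul, one_mul]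
    rw [e1, SM_one]
    · rw [em_zero, zero_div, add_zero]
    · intro x y h
      refine ee_cg ?_
      have e : up + MP_1a91b9_ntQ.em x / MP_1a91b9_ntQ.em 1 - (up + MP_1a91b9_ntQ.em y / MP_1a91b9_ntQ.em 1) = MP_1a91b9_ntQ.em x / MP_1a91b9_ntQ.em 1 - MP_1a91b9_ntQ.em y / MP_1a91b9_ntQ.em 1 := by ring
      rw [e]
      exact div_sub_mem one_ne_zero h
  rw [h2] at h
  rw [← h]
  ring

/-- the conjugate -/
def cj (x : 𝓞 K) : 𝓞 K := (c0 x : 𝓞 K) + (c1 x : 𝓞 K) * tb

theorem ra_cj (x : 𝓞 K) : ra (cj x) = rb x := by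
  rw [cj, map_add, map_mul, map_intCast, map_intCast, ra_tb, rb_apply]
  ring

theorem mul_cj (x : 𝓞 K) : ((Algebra.norm ℤ x : ℤ) : 𝓞 K) = x * cj x := by
  have h := coo x
  rw [norm_eq, cj]
  push_cast
  linear_combination (-((c0 x : 𝓞 K) + (c1 x : 𝓞 K) * tb)) * h - (c1 x : 𝓞 K) ^ 2 * ta_mul_tb

/-- the residues of the integers -/
theorem Rt_em (hB : te ∉ B) (x : 𝓞 K) :
    Rt B (MP_1a91b9_ntQ.em x) (ZMod.castHom (by norm_num : 2 ∣ 8) (ZMod 2) (ra x)) := by
  by_cases h : ta ∣ x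
  · have h1 : ZMod.castHom (by norm_num : 2 ∣ 8) (ZMod 2) (ra x) = 0 := by
      rw [ta_dvd] at h
      revert h
      generalize ra x = u
      revert u
      decide
    rw [h1]
    obtain ⟨y, rfl⟩ := h
    refine Rt.of_lt ?_
    rw [em_mul, em_ta, map_mul]
    exact mul_lt_one_of_lt_of_le (v_zt_lt hB) (em_v_le y)
  · have h1 : ZMod.castHom (by norm_num : 2 ∣ 8) (ZMod 2) (ra x) = 1 := by
      have h2 := odd_ra h
      revert h2
      generalize ra x = u
      revert u
      decide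
    have h3 : ta ∣ x - 1 := by
      rw [ta_dvd, map_sub, map_one, mul_sub, odd_ra h]
      decide
    rw [h1]
    obtain ⟨y, hy⟩ := h3
    refine Rt.one.congr ?_
    have e : MP_1a91b9_ntQ.em x - 1 = zt * MP_1a91b9_ntQ.em y := by
      rw [← em_one, ← em_sub, hy, em_mul, em_ta]
    rw [e, map_mul]
    exact mul_lt_one_of_lt_of_le (v_zt_lt hB) (em_v_le y)

/-- the second order term of the local factors -/
theorem delta_q (hB : te ∉ B) (q : Pg7) : ∃ d : ℂ, Rt B d (b2 q) ∧
    ((sg2 (aa q) : ℤ) : ℂ) * (nq q : ℂ) = (MP_1a91b9_ntQ.em q.1 - ((sg2 (aa q) : ℤ) : ℂ)) / 2 + zt * d := by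
  have h1 : ta ^ 2 ∣ ((sg2 (aa q) : ℤ) : 𝓞 K) * cj q.1 - 1 := by
    rw [ta2_dvd, map_sub, map_mul, map_intCast, ra_cj, map_one]
    have h2 := odd_rb q.not_tb
    rw [aa]
    revert h2
    generalize rb q.1 = u
    revert u
    decide
  obtain ⟨m, hm⟩ := h1
  have h3 : ZMod.castHom (by norm_num : 2 ∣ 8) (ZMod 2) (ra m) = b2 q := by
    have h4 := congrArg ra hm
    rw [map_sub, map_mul, map_intCast, ra_cj, map_one, map_mul, map_pow, ra_ta] at h4
    have h2 := odd_rb q.not_tb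
    rw [b2]
    rw [aa] at h4
    revert h4 h2
    generalize rb q.1 = u
    generalize ra m = v
    revert u v
    decide
  refine ⟨MP_1a91b9_ntQ.em q.1 * MP_1a91b9_ntQ.em m / ab, ?_, ?_⟩
  · have h5 := Rt_em hB m
    rw [h3] at h5
    have h6 : Rt B (MP_1a91b9_ntQ.em q.1) 1 := by
      have h7 := Rt_em hB q.1
      have h8 : ZMod.castHom (by norm_num : 2 ∣ 8) (ZMod 2) (ra q.1) = 1 := by
        have h9 := q.ra2
        revert h9
        generalize ra q.1 = u
        revert u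
        decide
      rwa [h8] at h7
    have h10 := h6.mul (two_notMem hB) h5
    rw [one_mul] at h10
    refine h10.congr ?_
    have hab := ab_ne
    have e : MP_1a91b9_ntQ.em q.1 * MP_1a91b9_ntQ.em m / ab - MP_1a91b9_ntQ.em q.1 * MP_1a91b9_ntQ.em m = zt * (MP_1a91b9_ntQ.em q.1 * MP_1a91b9_ntQ.em m) / ab := by
      field_simp
      rw [ab]
      ring
    rw [e, map_div₀, v_ab hB, div_one, map_mul]
    exact mul_lt_one_of_lt_of_le (v_zt_lt hB) h10.le
  · have h11 : 2 * (nq q : ℂ) + 1 = MP_1a91b9_ntQ.em q.1 * MP_1a91b9_ntQ.em (cj q.1) := by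
      rw [← em_mul, ← mul_cj, em_intCast, ← nq_norm]
      push_cast
      ring
    have h12 := congrArg MP_1a91b9_ntQ.em hm
    rw [em_sub, em_mul, em_mul, em_intCast, em_one, em_pow, em_ta] at h12
    have hab := ab_ne
    have h13 := zt_mul_ab
    have h14 := sg2_csq (aa q)
    set ε : ℂ := ((sg2 (aa q) : ℤ) : ℂ) with hε
    have e : zt * (MP_1a91b9_ntQ.em q.1 * MP_1a91b9_ntQ.em m / ab) = MP_1a91b9_ntQ.em q.1 * (ε * MP_1a91b9_ntQ.em (cj q.1) - 1) / 2 := by
      rw [h12]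
      have : (2 : ℂ) = zt * ab := h13.symm
      rw [this]
      have hz := zt_ne0
      field_simp
    rw [e]
    linear_combination (ε / 2) * h11

/-- the second order expansion of a product -/
theorem prod_delta (hB : te ∉ B) {ι : Type*} [DecidableEq ι] (S : Finset ι) {u c d : ι → ℂ}
    {a b : ι → ZMod 2} (h : ∀ q ∈ S, u q = c q + zt * d q) (hc : ∀ q ∈ S, Rt B (c q) (a q))
    (hd : ∀ q ∈ S, Rt B (d q) (b q)) :
    ∃ e : ℂ, Rt B e (∑ q ∈ S, b q * ∏ p ∈ S.erase q, a p) ∧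
      ∏ q ∈ S, u q = ∏ q ∈ S, c q + zt * e := by
  have h2 := two_notMem hB
  induction S using Finset.induction_on with
  | empty => exact ⟨0, by simpa using Rt.zero, by simp⟩
  | insert x S hx ih =>
    obtain ⟨e, he1, he2⟩ := ih (fun q hq => h q (Finset.mem_insert_of_mem hq))
      (fun q hq => hc q (Finset.mem_insert_of_mem hq)) (fun q hq => hd q (Finset.mem_insert_of_mem hq))
    have hx1 := h x (Finset.mem_insert_self x S)
    have hx2 := hc x (Finset.mem_insert_self x S)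
    have hx3 := hd x (Finset.mem_insert_self x S)
    have hp := Rt.prod h2 S fun q hq => hc q (Finset.mem_insert_of_mem hq)
    refine ⟨d x * ∏ q ∈ S, c q + c x * e + zt * (d x * e), ?_, ?_⟩
    · have e1 : ∑ q ∈ insert x S, b q * ∏ p ∈ (insert x S).erase q, a p =
          b x * ∏ q ∈ S, a q + a x * ∑ q ∈ S, b q * ∏ p ∈ S.erase q, a p := by
        rw [Finset.sum_insert hx, Finset.erase_insert hx, Finset.mul_sum]
        congr 1
        refine Finset.sum_congr rfl fun q hq => ?_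
        have hne : x ≠ q := by
          rintro rfl
          exact hx hq
        rw [Finset.erase_insert_of_ne hne, Finset.prod_insert (fun h' => hx (Finset.mem_of_mem_erase h'))]
        ring
      rw [e1]
      refine ((hx3.mul h2 hp).add h2 (hx2.mul h2 he1)).congr ?_
      rw [add_sub_cancel_left, map_mul]
      refine mul_lt_one_of_lt_of_le (v_zt_lt hB) ?_
      rw [map_mul]
      exact mul_le_one' hx3.le he1.le
    · rw [Finset.prod_insert hx, Finset.prod_insert hx, he2, hx1]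
      ring

/-- the normalised sums for `D₀ = -1` -/
def Z3 (T : Finset Pg7) : ℂ := if T = ∅ then 0 else LT 1 0 0 T / (2 ^ (T.card + 1) * (zt * ee up))

/-- the right side for `D₀ = -1` -/
def tau3 (S : Finset Pg7) : ZMod 2 := ∑ q ∈ S, b2 q * ∏ p ∈ S.erase q, aa p

theorem sum_Z3 (S : Finset Pg7) :
    zt * ∑ T ∈ S.powerset, (∏ q ∈ S \ T, ((MP_1a91b9_ntQ.em q.1 - Yc 1 0 0 T q.1) / 2)) * Z3 T =
      RH 1 0 0 ee (iv S) S / ee up - ∏ q ∈ S, ((MP_1a91b9_ntQ.em q.1 - Yc 1 0 0 ∅ q.1) / 2) := by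
  have hz := zt_ne0
  have he := ee_up_ne
  rw [← REL' 1 0 0 he S (iv_f3 S), ← Finset.add_sum_erase _ _ (Finset.empty_mem_powerset S),
    ← Finset.add_sum_erase S.powerset _ (Finset.empty_mem_powerset S)]
  have h0 : Z3 (∅ : Finset Pg7) = 0 := if_pos rfl
  rw [h0, mul_zero, zero_add, Finset.sdiff_empty, Finset.card_empty, LT_empty3]
  have e1 : 2 * ee up / (2 ^ (0 + 1) * ee up) = 1 := by
    rw [zero_add, pow_one, div_self (mul_ne_zero two_ne_zero he)]
  rw [e1, mul_one, add_sub_cancel_left, Finset.mul_sum]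
  refine Finset.sum_congr rfl fun T hT => ?_
  have h1 : Z3 T = LT 1 0 0 T / (2 ^ (T.card + 1) * (zt * ee up)) := if_neg (Finset.mem_erase.1 hT).1
  rw [h1]
  field_simp

/-- **the residues of the sums for `D₀ = -1`** -/
theorem LT_three (hB : te ∉ B) (hr : RecL) {z : Finset Pg7 → ZMod 2} (hz0 : z ∅ = 0)
    (hz : ∀ S : Finset Pg7, S.Nonempty → Rw (wt 1 0 0) z S = tau3 S) {S : Finset Pg7}
    (hS : S.Nonempty) : Rt B (LT 1 0 0 S / (2 ^ (S.card + 1) * (zt * ee up))) (z S) := by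
  have h2 := two_notMem hB
  have hz' := zt_ne0
  have hzt := v_zt_lt hB
  have hvz : B.valuation zt ≠ 0 := (Valuation.ne_zero_iff _).2 hz'
  have key := RES hB (w := wt 1 0 0) (y := z) (Z := Z3)
    (R := fun S => ∑ T ∈ S.powerset, (∏ q ∈ S \ T, ((MP_1a91b9_ntQ.em q.1 - Yc 1 0 0 T q.1) / 2)) * Z3 T)
    (c := fun T q => (MP_1a91b9_ntQ.em q.1 - Yc 1 0 0 T q.1) / 2) (fun T q hq => by
      rw [Yc_prime 1 0 0 hr hq]
      exact Rt_half hB q _)
    (fun S => rfl) (fun S => by
      rcases S.eq_empty_or_nonempty with rfl | hS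
      · have e : Rw (wt 1 0 0) z ∅ = 0 := by
          rw [Rw, Finset.powerset_empty, Finset.sum_singleton, hz0, zero_mul]
        rw [e, Finset.powerset_empty, Finset.sum_singleton]
        have h0 : Z3 (∅ : Finset Pg7) = 0 := if_pos rfl
        rw [h0, mul_zero]
        exact Rt.zero
      · rw [hz S hS]
        -- the right side to second order
        have hw : ∀ q ∈ S, ¬ q.1 ∣ (tb : 𝓞 K) ^ 2 := fun q _ h =>
          q_not_tbA q (q.prime.dvd_of_dvd_pow h)
        choose d hd1 hd2 using fun q : Pg7 => delta_q hB q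
        have hYc : ∀ q : Pg7, Yc 1 0 0 ∅ q.1 = ((sg2 (aa q) : ℤ) : ℂ) := by
          intro q
          rw [Yc_prime 1 0 0 hr (Finset.notMem_empty q)]
          have e : wt 1 0 0 q + sT ∅ q = aa q := by
            rw [sT, Finset.sum_empty, wt]
            ring
          rw [e]
        obtain ⟨e, he1, he2⟩ := prod_delta hB S (u := fun q => ((sg2 (aa q) : ℤ) : ℂ) * (nq q : ℂ))
          (c := fun q => (MP_1a91b9_ntQ.em q.1 - Yc 1 0 0 ∅ q.1) / 2) (d := d) (a := aa) (b := b2)
          (fun q _ => by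
            rw [hYc]
            exact hd2 q) (fun q _ => by
            rw [hYc]
            exact Rt_half hB q _) (fun q _ => hd1 q)
        have hN := VS_prod S (tb ^ 2) hw
        have h3 : B.valuation (RH 1 0 0 ee (iv S) S / ee up -
            ∏ q ∈ S, (((sg2 (aa q) : ℤ) : ℂ) * (nq q : ℂ))) < B.valuation zt := by
          have h4 : ∏ q ∈ S, (((sg2 (aa q) : ℤ) : ℂ) * (nq q : ℂ)) =
              VS S (tb ^ 2) (fun _ => ((sg2 (AA S) : ℤ) : ℂ)) := by
            rw [Finset.prod_mul_distrib, ← hN, AA, sg2_sum, ← VS_mul_left]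
            push_cast
            exact VS_congr fun x => by rw [mul_one]
          have h5 : RH 1 0 0 ee (iv S) S / ee up = VS S (tb ^ 2) fun x =>
              ((sg2 (AA S) : ℤ) : ℂ) * ee (up + ((sg2 (AA S) : ℤ) : ℂ) * (MP_1a91b9_ntQ.em x / MP_1a91b9_ntQ.em (DD S))) / ee up := by
            rw [RH_three, div_eq_iff ee_up_ne, mul_comm, ← VS_mul_left]
            refine VS_congr fun x => ?_
            rw [ee_w3, mul_div_cancel₀ _ ee_up_ne]
          rw [h4, h5, ← VS_sub']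
          have h6 : B.valuation ((VS S (tb ^ 2) fun x => zt⁻¹ * (((sg2 (AA S) : ℤ) : ℂ) *
              ee (up + ((sg2 (AA S) : ℤ) : ℂ) * (MP_1a91b9_ntQ.em x / MP_1a91b9_ntQ.em (DD S))) / ee up -
              ((sg2 (AA S) : ℤ) : ℂ))) - VS S (tb ^ 2) fun _ => 0) < 1 := by
            refine VS_v_sub fun x hx => ?_
            have ho := Oo_x hS hx
            have ho' : Oo (((sg2 (AA S) : ℤ) : ℂ) * (MP_1a91b9_ntQ.em x / MP_1a91b9_ntQ.em (DD S))) := by
              rcases sg2_or (AA S) with h | h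
              · rw [h, Int.cast_one, one_mul]
                exact ho
              · rw [h, Int.cast_neg, Int.cast_one, neg_one_mul]
                exact ho.neg
            have h7 := ee_third hB ho'
            have h8 := v_ee_up hB
            have h9 : B.valuation ((sg2 (AA S) : ℤ) : ℂ) = 1 := by
              rcases sg2_or (AA S) with h | h
              · rw [h, Int.cast_one, map_one]
              · rw [h, Int.cast_neg, Int.cast_one, Valuation.map_neg, map_one]
            have e10 : zt⁻¹ * (((sg2 (AA S) : ℤ) : ℂ) *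
              ee (up + ((sg2 (AA S) : ℤ) : ℂ) * (MP_1a91b9_ntQ.em x / MP_1a91b9_ntQ.em (DD S))) / ee up -
              ((sg2 (AA S) : ℤ) : ℂ)) - 0 = ((sg2 (AA S) : ℤ) : ℂ) *
              (ee (up + ((sg2 (AA S) : ℤ) : ℂ) * (MP_1a91b9_ntQ.em x / MP_1a91b9_ntQ.em (DD S))) - ee up) / (zt * ee up) := by
              have := ee_up_ne
              field_simp
              ring
            rw [e10, map_div₀, h8, div_one, map_mul, h9, one_mul]
            exact h7
          have h10 : (VS S (tb ^ 2) fun _ => (0 : ℂ)) = 0 := by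
            have := VS_mul_left (S := S) (w := tb ^ 2) 0 fun _ => (0 : ℂ)
            rw [zero_mul] at this
            simpa using this
          rw [h10, sub_zero, VS_mul_left, map_mul, map_inv₀] at h6
          rwa [inv_mul_lt_iff₀ v_zt_pos, mul_one] at h6
        have h11 := sum_Z3 S
        have h12 : zt * (∑ T ∈ S.powerset, (∏ q ∈ S \ T, ((MP_1a91b9_ntQ.em q.1 - Yc 1 0 0 T q.1) / 2)) * Z3 T - e) =
            RH 1 0 0 ee (iv S) S / ee up - ∏ q ∈ S, (((sg2 (aa q) : ℤ) : ℂ) * (nq q : ℂ)) := by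
          rw [mul_sub, h11, he2]
          ring
        have h13 := congrArg B.valuation h12
        rw [map_mul] at h13
        rw [← h13] at h3
        have h14 : B.valuation (∑ T ∈ S.powerset, (∏ q ∈ S \ T, ((MP_1a91b9_ntQ.em q.1 - Yc 1 0 0 T q.1) / 2)) * Z3 T - e) < 1 := by
          have h15 : B.valuation zt * B.valuation (∑ T ∈ S.powerset,
              (∏ q ∈ S \ T, ((MP_1a91b9_ntQ.em q.1 - Yc 1 0 0 T q.1) / 2)) * Z3 T - e) < B.valuation zt * 1 := by
            rwa [mul_one]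
          exact lt_of_mul_lt_mul_left' h15
        exact he1.congr h14) S
  rwa [Z3, if_neg hS.ne_empty] at key

/-! ### the primitive sums for an odd number of primes with `aa = 1` -/

/-- the primitive sum -/
def LP7 (T : Finset Pg7) : ℂ := SE ee (DD T) fun c => ((chS T c : ℤ) : ℂ)

theorem chS_pd (T : Finset Pg7) : Pd (DD T) fun c => ((chS T c : ℤ) : ℂ) := by
  intro x y h
  dsimp only
  rw [chS_per T h]

theorem chS_mu (T : Finset Pg7) : Mu fun c => ((chS T c : ℤ) : ℂ) := by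
  intro x y
  dsimp only
  rw [chS_mul]
  push_cast
  ring

/-- the average over the subsets with `AA T = 1` -/
theorem AVG1 (S : Finset Pg7) :
    ∑ T ∈ S.powerset.filter (fun T => AA T = 1),
      (∏ q ∈ S \ T, (MP_1a91b9_ntQ.em q.1 - ((chS T q.1 : ℤ) : ℂ))) * LP7 T =
      2 ^ S.card * VS S 1 fun x => ee (MP_1a91b9_ntQ.em x / MP_1a91b9_ntQ.em (DD S)) := by
  classical
  have hD0 := DD_ne S
  have h1 : ∀ T ∈ S.powerset.filter (fun T => AA T = 1),
      (∏ q ∈ S \ T, (MP_1a91b9_ntQ.em q.1 - ((chS T q.1 : ℤ) : ℂ))) * LP7 T =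
      SE ee (DD S) fun c => ((chS T c : ℤ) : ℂ) * ((chS (S \ T) c : ℤ) : ℂ) ^ 2 := by
    intro T hT
    have hTS := Finset.mem_powerset.1 (Finset.mem_filter.1 hT).1
    rw [LP7, ← SE_set LP_ee DR_ee (DD_ne T) (chS_pd T) (chS_mu T)]
    congr 1
    exact Finset.prod_sdiff hTS
  rw [Finset.sum_congr rfl h1]
  have h2 : ∀ c : 𝓞 K, 2 * ∑ T ∈ S.powerset.filter (fun T => AA T = 1),
      ((chS T c : ℤ) : ℂ) * ((chS (S \ T) c : ℤ) : ℂ) ^ 2 =
      2 ^ S.card * ((if ∀ q ∈ S, ch q (1 * c) = 1 then (1 : ℂ) else 0) -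
        if ∀ q ∈ S, ch q (1 * -c) = 1 then 1 else 0) := by
    intro c
    have h3 : ∀ e : 𝓞 K, ∏ q ∈ S, (ch q e + ch q e ^ 2) =
        if ∀ q ∈ S, ch q (1 * e) = 1 then 2 ^ S.card else 0 := by
      intro e
      have key : ∀ q ∈ S, ch q e + ch q e ^ 2 = if ch q (1 * e) = 1 then 2 else 0 := by
        intro q _
        rw [one_mul]
        by_cases h : q.1 ∣ e
        · rw [ch_zero h]
          simp
        · rcases ch_or h with h1 | h1 <;> rw [h1] <;> decide
      rw [Finset.prod_congr rfl key]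
      by_cases h : ∀ q ∈ S, ch q (1 * e) = 1
      · rw [if_pos h, Finset.prod_congr rfl fun q hq => if_pos (h q hq), Finset.prod_const]
      · rw [if_neg h]
        push Not at h
        obtain ⟨q, hq, h1⟩ := h
        exact Finset.prod_eq_zero hq (if_neg h1)
    have h4 : ∀ e : 𝓞 K, ∏ q ∈ S, (ch q e + ch q e ^ 2) =
        ∑ T ∈ S.powerset, chS T e * chS (S \ T) e ^ 2 := by
      intro e
      rw [Finset.prod_add]
      refine Finset.sum_congr rfl fun T _ => ?_
      rw [chS, chS, Finset.prod_pow]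
    have h5 : ∀ T : Finset Pg7, chS T (-c) = sg2 (AA T) * chS T c := by
      intro T
      rw [neg_eq_neg_one_mul, chS_mul, chS_neg_one]
    have h6 : ∑ T ∈ S.powerset, chS T c * chS (S \ T) c ^ 2 -
        ∑ T ∈ S.powerset, chS T (-c) * chS (S \ T) (-c) ^ 2 =
        2 * ∑ T ∈ S.powerset.filter (fun T => AA T = 1), chS T c * chS (S \ T) c ^ 2 := by
      rw [← Finset.sum_sub_distrib, Finset.mul_sum, Finset.sum_filter]
      refine Finset.sum_congr rfl fun T _ => ?_
      rw [h5, h5, mul_pow]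
      have h7 : sg2 (AA (S \ T)) ^ 2 = 1 := by
        have := sg2_sq (AA (S \ T))
        rwa [← pow_two] at this
      have hi : ∀ i : ZMod 2, i = 0 ∨ i = 1 := by decide
      rw [h7]
      rcases hi (AA T) with h | h
      · rw [h, if_neg (by decide), sg2_zero]
        ring
      · rw [h, if_pos rfl, sg2_one]
        ring
    rw [← h4, ← h4, h3, h3] at h6
    have h8 := congrArg (Int.cast (R := ℂ)) h6
    push_cast at h8
    rw [← h8]
    split_ifs <;> ring
  have h3 : 2 * ∑ T ∈ S.powerset.filter (fun T => AA T = 1),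
      (SE ee (DD S) fun c => ((chS T c : ℤ) : ℂ) * ((chS (S \ T) c : ℤ) : ℂ) ^ 2) =
      2 * (2 ^ S.card * VS S 1 fun x => ee (MP_1a91b9_ntQ.em x / MP_1a91b9_ntQ.em (DD S))) := by
    simp only [SE]
    rw [← SM_sum hD0, ← SM_mul_left hD0]
    have h4 : ∀ c : 𝓞 K, 2 * ∑ T ∈ S.powerset.filter (fun T => AA T = 1),
        ((chS T c : ℤ) : ℂ) * ((chS (S \ T) c : ℤ) : ℂ) ^ 2 * ee (MP_1a91b9_ntQ.em c / MP_1a91b9_ntQ.em (DD S)) =
        2 ^ S.card * (if ∀ q ∈ S, ch q (1 * c) = 1 then ee (MP_1a91b9_ntQ.em c / MP_1a91b9_ntQ.em (DD S)) else 0) +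
        2 ^ S.card * (if ∀ q ∈ S, ch q (1 * -c) = 1 then ee (MP_1a91b9_ntQ.em (-c) / MP_1a91b9_ntQ.em (DD S)) else 0) := by
      intro c
      rw [← Finset.sum_mul, ← mul_assoc, h2, em_neg, neg_div, ee_neg]
      split_ifs <;> ring
    rw [SM_congr h4, SM_add hD0, SM_mul_left hD0, SM_mul_left hD0]
    have hP : Pd (DD S) fun x => if ∀ q ∈ S, ch q (1 * x) = 1 then ee (MP_1a91b9_ntQ.em x / MP_1a91b9_ntQ.em (DD S)) else 0 :=
      VS_pd (S := S) (w := 1) (LP_ee.pd hD0)
    have h5 := SM_neg hD0 hP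
    rw [h5, VS]
    ring
  exact mul_left_cancel₀ two_ne_zero h3

/-- the normalised primitive sums -/
def Z1 (T : Finset Pg7) : ℂ := if AA T = 1 then Complex.I * LP7 T / 2 ^ T.card else 0

/-- **the residues of the primitive sums for `D₀ = -1` and `AA S = 1`** -/
theorem LP_one (hB : te ∉ B) (hr : RecL) {y : Finset Pg7 → ZMod 2} (hy0 : ∀ S, AA S = 0 → y S = 0)
    (hy : ∀ S : Finset Pg7, S.Nonempty → Rw (wt 1 0 0) y S = ∏ q ∈ S, aa q) {S : Finset Pg7}
    (hS : AA S = 1) : Rt B (Complex.I * LP7 S / 2 ^ S.card) (y S) := by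
  classical
  have h2 := two_notMem hB
  have hwt : ∀ q : Pg7, wt 1 0 0 q = aa q := fun q => by
    rw [wt]
    ring
  have key := RES hB (w := wt 1 0 0) (y := y) (Z := Z1)
    (R := fun S => ∑ T ∈ S.powerset, (∏ q ∈ S \ T, (MP_1a91b9_ntQ.em q.1 - ((sg2 (wt 1 0 0 q + sT T q) : ℤ) : ℂ)) / 2) * Z1 T)
    (c := fun T q => (MP_1a91b9_ntQ.em q.1 - ((sg2 (wt 1 0 0 q + sT T q) : ℤ) : ℂ)) / 2) (fun T q hq =>
      Rt_half hB q _) (fun S => rfl) (fun S => by
      have e1 : ∑ T ∈ S.powerset, (∏ q ∈ S \ T, (MP_1a91b9_ntQ.em q.1 - ((sg2 (wt 1 0 0 q + sT T q) : ℤ) : ℂ)) / 2) * Z1 T =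
          VS S 1 fun x => Complex.I * ee (MP_1a91b9_ntQ.em x / MP_1a91b9_ntQ.em (DD S)) := by
        have h3 := AVG1 S
        rw [VS_mul_left]
        have h4 : (2 : ℂ) ^ S.card ≠ 0 := pow_ne_zero _ two_ne_zero
        apply mul_left_cancel₀ h4
        have e2 : 2 ^ S.card * (Complex.I * VS S 1 fun x => ee (MP_1a91b9_ntQ.em x / MP_1a91b9_ntQ.em (DD S))) =
            Complex.I * (2 ^ S.card * VS S 1 fun x => ee (MP_1a91b9_ntQ.em x / MP_1a91b9_ntQ.em (DD S))) := by ring
        rw [e2, ← h3, Finset.mul_sum, Finset.mul_sum, Finset.sum_filter]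
        refine Finset.sum_congr rfl fun T hT => ?_
        have hTS := Finset.mem_powerset.1 hT
        by_cases hT1 : AA T = 1
        · rw [if_pos hT1, Z1, if_pos hT1]
          have h5 : S.card = (S \ T).card + T.card := (Finset.card_sdiff_add_card_eq_card hTS).symm
          have h6 : ∏ q ∈ S \ T, (MP_1a91b9_ntQ.em q.1 - ((sg2 (wt 1 0 0 q + sT T q) : ℤ) : ℂ)) / 2 =
              (∏ q ∈ S \ T, (MP_1a91b9_ntQ.em q.1 - ((chS T q.1 : ℤ) : ℂ))) / 2 ^ (S \ T).card := by
            rw [Finset.prod_div_distrib, Finset.prod_const]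
            congr 1
            refine Finset.prod_congr rfl fun q hq => ?_
            rw [chS_prime hr (Finset.mem_sdiff.1 hq).2, hT1, one_mul, hwt, add_comm]
          rw [h6, h5, pow_add]
          field_simp
        · rw [if_neg hT1, Z1, if_neg hT1]
          ring
      change Rt B (∑ T ∈ S.powerset, (∏ q ∈ S \ T, (MP_1a91b9_ntQ.em q.1 - ((sg2 (wt 1 0 0 q + sT T q) : ℤ) : ℂ)) / 2) * Z1 T)
        (Rw (wt 1 0 0) y S)
      rw [e1]
      rcases S.eq_empty_or_nonempty with rfl | hS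
      · have e2 : Rw (wt 1 0 0) y ∅ = 0 := by
          rw [Rw, Finset.powerset_empty, Finset.sum_singleton, hy0 ∅ rfl, zero_mul]
        have e3 : (VS ∅ 1 fun x => Complex.I * ee (MP_1a91b9_ntQ.em x / MP_1a91b9_ntQ.em (DD (∅ : Finset Pg7)))) = 0 := by
          have e4 : (VS ∅ 1 fun x => Complex.I * ee (MP_1a91b9_ntQ.em x / MP_1a91b9_ntQ.em (DD (∅ : Finset Pg7)))) =
              SM 1 fun x => Complex.I * ee (MP_1a91b9_ntQ.em x / MP_1a91b9_ntQ.em 1) := by
            rw [VS, DD, Finset.prod_empty]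
            exact SM_congr fun x => if_pos fun q hq => absurd hq (Finset.notMem_empty q)
          have e5 : ∀ x : 𝓞 K, Complex.I * ee (MP_1a91b9_ntQ.em x / MP_1a91b9_ntQ.em 1) = 0 := by
            intro x
            have h6 : 2 * (MP_1a91b9_ntQ.em x / MP_1a91b9_ntQ.em 1) ∈ PP.lattice := by
              rw [em_one, div_one, two_mul]
              exact add_mem (em_mem x) (em_mem x)
            rw [ee_tor h6, mul_zero]
          rw [e4, SM_congr e5]
          exact SM_zero one_ne_zero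
        rw [e2, e3]
        exact Rt.zero
      · rw [hy S hS]
        obtain ⟨n, hn, hn2⟩ := VS_one S 1 fun q _ h => q.prime.not_dvd_one h
        have h3 := Rt.natCast h2 n
        rw [hn, ← hn2] at h3
        refine h3.congr (VS_v_sub fun x hx => ?_)
        have h4 := Rt_ee hB (Oo_x hS hx)
        unfold Rt at h4
        rwa [ZMod.val_one, Nat.cast_one] at h4) S
  rwa [Z1, if_pos hS] at key

end

end Pool.Agent.Lib.MP_1a91b9_ntV
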