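import Pool.Agent.Lib.MP_1a91b9_ntV.A.Cls7

/-!
# The field `ℚ(√-7)`: the class `D₀ = ab` and the value of `Rho S`

`R_two`: the right side of the relation for `D₀ = ab`. `Rho_res`: the residue of `Rho S`.
-/

set_option autoImplicit false
set_option linter.unusedSectionVars false

namespace Pool.Agent.Lib.MP_1a91b9_ntV

open NumberField Pool.Agent.Lib.MP_1a91b9_nuT Pool.Agent.Lib.MP_1a91b9_nuT.S3
  Pool.Agent.Lib.MP_1a91b9_nuT.Ell Pool.Agent.Lib.MP_1a91b9_ntQ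

noncomputable section

variable [CD] [hv : V7]

/-- the supplementary law at `a` -/
def SupA : Prop := ∀ q : Pg7, sb q ta = aa q + b1 q

theorem LP_zt : LP fun z => ee (zt * z) := by
  intro l hl z
  dsimp only
  refine ee_cg ?_
  have e : zt * (z + l) - zt * z = zt * l := by ring
  rw [e]
  exact mul_mem zt_mem hl

theorem SE_zt {N : 𝓞 K} (hN : N ≠ 0) (hc : IsCoprime ta N) {Y : 𝓞 K → ℂ} (hY : Pd N Y) (hm : Mu Y) :
    SE ee N Y = Y ta * SE (fun z => ee (zt * z)) N Y := by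
  have h1 := SM_mul (c := ta) hN (SE_pd LP_ee hN hY) hc
  rw [SE, ← h1, SE, ← SM_mul_left hN]
  refine SM_congr fun x => ?_
  rw [hm, em_mul, em_ta, mul_div_assoc]
  ring

theorem f0_two : (f0 0 0 1 : 𝓞 K) = tb ^ 3 := by
  have h1 : ce (1 + 0 + 1) 0 = 0 := rfl
  have h2 : ce 1 1 = 3 := rfl
  rw [f0, h1, h2, pow_zero, one_mul]

theorem RH_two {F : ℂ → ℂ} (hF : LP F) (S : Finset Pg7) :
    RH 0 0 1 F (iv S) S = VS S (tb ^ 3) fun x =>
      F (MP_1a91b9_ntQ.em x / MP_1a91b9_ntQ.em (DD S) + MP_1a91b9_ntQ.em (iv S) / ab ^ 3) - F (MP_1a91b9_ntQ.em x / MP_1a91b9_ntQ.em (DD S) + MP_1a91b9_ntQ.em (iv S) / ab ^ 3 + tf) := by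
  have h := RH_eq 0 0 1 hF S 0 (iv S)
  have h1 : ce (1 + 0 + 1) 0 = 0 := rfl
  have h2 : ce 1 1 = 3 := rfl
  have h3 : (1 + 0 + 1 : ZMod 2) = 0 := rfl
  rw [h1, h2, mul_zero, zero_add, pow_zero, one_mul, f0_two, h3] at h
  rw [h]
  refine VS_congr fun x => ?_
  rw [OPA_00 (hF.opb 1 _), OPB_1 hF (not_tb_of three_ne_zero (iv_spec S))]

theorem iv_f0 (S : Finset Pg7) : f0 0 0 1 ∣ iv S * DD S - 1 := by
  rw [f0_two, mul_comm]
  exact iv_spec S

/-- the terms of the relation for `D₀ = ab` -/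
def M2 (S T : Finset Pg7) : ℂ :=
  (∏ q ∈ S \ T, ((MP_1a91b9_ntQ.em q.1 - Yc 0 0 1 T q.1) / 2)) * (LT 0 0 1 T / (2 ^ (T.card + 1) * Complex.I))

/-- the points -/
def w2 (S : Finset Pg7) (x : 𝓞 K) : ℂ := MP_1a91b9_ntQ.em x / MP_1a91b9_ntQ.em (DD S) + MP_1a91b9_ntQ.em (iv S) / ab ^ 3

theorem w2_og (S : Finset Pg7) (x : 𝓞 K) : Og (w2 S x) :=
  Og_w0 S x (not_tb_of three_ne_zero (iv_spec S)) (by norm_num)

theorem ab_w2 (S : Finset Pg7) (x : 𝓞 K) :
    ab * w2 S x = MP_1a91b9_ntQ.em (tb * x) / MP_1a91b9_ntQ.em (DD S) + MP_1a91b9_ntQ.em 0 / zt ^ 0 + MP_1a91b9_ntQ.em (iv S) / ab ^ 2 := by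
  have := ab_ne
  rw [w2, em_mul, em_tb, em_zero, zero_div, add_zero]
  field_simp

theorem w2_ogb (S : Finset Pg7) (x : 𝓞 K) : Og (ab * w2 S x) := by
  rw [ab_w2]
  exact Og_w S _ _ _ (not_tb_of three_ne_zero (iv_spec S)) le_rfl

theorem sum_M2 (S : Finset Pg7) :
    ∑ T ∈ S.powerset, M2 S T = VS S (tb ^ 3) fun x => Complex.I * hh (w2 S x) := by
  have h := REL' 0 0 1 Complex.I_ne_zero S (iv_f0 S)
  simp only [M2]
  rw [h, RH_two LP_ee, div_eq_iff Complex.I_ne_zero, mul_comm, ← VS_mul_left]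
  refine VS_congr fun x => ?_
  rw [hh, w2]
  have hI := Complex.I_mul_I
  linear_combination (-(ee (MP_1a91b9_ntQ.em x / MP_1a91b9_ntQ.em (DD S) + MP_1a91b9_ntQ.em (iv S) / ab ^ 3 + tf) -
    ee (MP_1a91b9_ntQ.em x / MP_1a91b9_ntQ.em (DD S) + MP_1a91b9_ntQ.em (iv S) / ab ^ 3))) * hI

theorem Yc_ta (hA : SupA) (T : Finset Pg7) : Yc 0 0 1 T ta = ((sg2 (B1 T) : ℤ) : ℂ) := by
  rw [Yc_not_tb 0 0 1 tb_not_taA, ph, lA, lB, ra_ta, rb_ta]
  have h1 : lc (1 + 0 + 1) 0 6 = 1 := rfl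
  have h2 : lc (0 + 0 + AA T) 1 3 = sg2 (AA T) := by
    generalize AA T = u
    revert u
    decide
  have h3 : chS T ta = sg2 (AA T + B1 T) := by
    rw [chS, AA, B1, ← Finset.sum_add_distrib, sg2_sum]
    exact Finset.prod_congr rfl fun q _ => by rw [ch_sb (q_not_taA q), hA q]
  rw [h1, h2, h3, one_mul, ← sg2_add]
  congr 2
  generalize AA T = u
  generalize B1 T = v
  revert u v
  decide

/-- the relation twisted by `a` -/
theorem sum_M2' (hA : SupA) (S : Finset Pg7) :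
    ∑ T ∈ S.powerset, ((sg2 (B1 T) : ℤ) : ℂ) * M2 S T =
      VS S (tb ^ 3) fun x => Complex.I * hh (zt * w2 S x) := by
  set N : 𝓞 K := f0 0 0 1 * DD S with hN
  have hN0 : N ≠ 0 := mul_ne_zero (f0_ne 0 0 1) (DD_ne S)
  have hcop : IsCoprime ta N := by
    rw [hN, f0_two]
    exact (ta_tb_cop.pow_right).mul_right (DD_cop_ta S).symm
  have h0 := AVG 0 0 1 (F := fun z => ee (zt * z)) LP_zt (fun z => by rw [mul_neg, ee_neg]) S (iv_f0 S)
  have h1 : ∀ T ∈ S.powerset, SE (fun z => ee (zt * z)) N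
      (fun c => Yc 0 0 1 T c * ((chS (S \ T) c : ℤ) : ℂ) ^ 2) =
      ((sg2 (B1 T) : ℤ) : ℂ) * ((∏ q ∈ S \ T, (MP_1a91b9_ntQ.em q.1 - Yc 0 0 1 T q.1)) * LT 0 0 1 T) := by
    intro T hT
    have hTS := Finset.mem_powerset.1 hT
    have hY : Pd N fun c => Yc 0 0 1 T c * ((chS (S \ T) c : ℤ) : ℂ) ^ 2 := by
      have e : DD S = DD (S \ T) * DD T := (Finset.prod_sdiff hTS).symm
      refine Pd.mul ((Yc_pd 0 0 1 T).of_dvd ?_) fun x y h => ?_
      · rw [hN, e]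
        exact mul_dvd_mul_left _ (dvd_mul_left _ _)
      · rw [chS_per (S \ T) (((dvd_mul_right _ (DD T)).trans (by rw [← e]; exact dvd_mul_left _ _)).trans h)]
    have h2 := SE_zt hN0 hcop hY ((Yc_mu 0 0 1 T).chS (S \ T))
    have h3 := LT_set 0 0 1 hTS
    have h4 : ((chS (S \ T) ta : ℤ) : ℂ) ^ 2 = 1 := by
      have h5 : chS (S \ T) ta * chS (S \ T) ta = 1 := chS_sq fun q _ => q_not_taA q
      rw [pow_two]
      exact_mod_cast h5
    rw [Yc_ta hA, h4, mul_one, h3] at h2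
    rw [h2]
    have h6 := sg2_csq (B1 T)
    linear_combination (-(SE (fun z => ee (zt * z)) N
      (fun c => Yc 0 0 1 T c * ((chS (S \ T) c : ℤ) : ℂ) ^ 2))) * h6
  rw [Finset.sum_congr rfl h1] at h0
  have h7 : (SM (f0 0 0 1) fun t => kp 0 0 1 t * VS S (f0 0 0 1) fun x =>
      (fun z => ee (zt * z)) (MP_1a91b9_ntQ.em x / MP_1a91b9_ntQ.em (DD S) + MP_1a91b9_ntQ.em (iv S * t) / MP_1a91b9_ntQ.em (f0 0 0 1 : 𝓞 K))) =
      RH 0 0 1 (fun z => ee (zt * z)) (iv S) S := rfl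
  rw [h7, RH_two LP_zt] at h0
  have h8 : ∀ x : 𝓞 K, ee (zt * (MP_1a91b9_ntQ.em x / MP_1a91b9_ntQ.em (DD S) + MP_1a91b9_ntQ.em (iv S) / ab ^ 3)) -
      ee (zt * (MP_1a91b9_ntQ.em x / MP_1a91b9_ntQ.em (DD S) + MP_1a91b9_ntQ.em (iv S) / ab ^ 3 + tf)) = -hh (zt * w2 S x) := by
    intro x
    rw [hh, w2]
    have e : ee (zt * (MP_1a91b9_ntQ.em x / MP_1a91b9_ntQ.em (DD S) + MP_1a91b9_ntQ.em (iv S) / ab ^ 3 + tf)) =
        ee (zt * (MP_1a91b9_ntQ.em x / MP_1a91b9_ntQ.em (DD S) + MP_1a91b9_ntQ.em (iv S) / ab ^ 3) + tf) := by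
      refine ee_cg ?_
      have e2 : zt * (MP_1a91b9_ntQ.em x / MP_1a91b9_ntQ.em (DD S) + MP_1a91b9_ntQ.em (iv S) / ab ^ 3 + tf) -
          (zt * (MP_1a91b9_ntQ.em x / MP_1a91b9_ntQ.em (DD S) + MP_1a91b9_ntQ.em (iv S) / ab ^ 3) + tf) = zt * tf - tf := by ring
      rw [e2]
      exact zt_tf
    rw [e]
    ring
  rw [VS_congr h8] at h0
  have h2 : (2 : ℂ) ^ (S.card + 1) * Complex.I ≠ 0 :=
    mul_ne_zero (pow_ne_zero _ two_ne_zero) Complex.I_ne_zero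
  apply mul_left_cancel₀ h2
  have e1 : 2 ^ (S.card + 1) * Complex.I * (VS S (tb ^ 3) fun x => Complex.I * hh (zt * w2 S x)) =
      2 ^ (S.card + 1) * VS S (tb ^ 3) fun x => -hh (zt * w2 S x) := by
    rw [mul_assoc, ← VS_mul_left (c := Complex.I)]
    congr 1
    refine VS_congr fun x => ?_
    rw [← mul_assoc, Complex.I_mul_I]
    ring
  rw [e1, ← h0, Finset.mul_sum]
  refine Finset.sum_congr rfl fun T hT => ?_
  have h3 : S.card = (S \ T).card + T.card :=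
    (Finset.card_sdiff_add_card_eq_card (Finset.mem_powerset.1 hT)).symm
  rw [M2, Finset.prod_div_distrib, Finset.prod_const, h3]
  have h4 : (2 : ℂ) ^ ((S \ T).card + T.card + 1) = 2 ^ (S \ T).card * 2 ^ (T.card + 1) := by
    rw [← pow_add]
    congr 1
  rw [h4]
  have hI := Complex.I_ne_zero
  field_simp

variable {B : ValuationSubring ℂ}

/-- **the right side for `D₀ = ab`** -/
theorem R_two (hB : te ∉ B) (S : Finset Pg7) :
    Rt B (RH 0 0 1 ee (iv S) S / Complex.I) (∏ q ∈ S, aa q) := by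
  have h2 := two_notMem hB
  have h1 : RH 0 0 1 ee (iv S) S / Complex.I = VS S (tb ^ 3) fun x => Complex.I * hh (w2 S x) := by
    rw [← sum_M2]
    exact (REL' 0 0 1 Complex.I_ne_zero S (iv_f0 S)).symm
  obtain ⟨n, hn, hn2⟩ := VS_one S (tb ^ 3) fun q _ h => q_not_tbA q (q.prime.dvd_of_dvd_pow h)
  have h3 := Rt.natCast h2 n
  rw [hn, ← hn2] at h3
  rw [h1]
  refine h3.congr (VS_v_sub fun x _ => ?_)
  have h4 := Rt_hh hB (w2_og S x) (w2_ogb S x)
  unfold Rt at h4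
  rwa [ZMod.val_one, Nat.cast_one] at h4

/-- the residues of the sums of the class `D₀ = ab` -/
theorem LT_two (hB : te ∉ B) (hr : RecL) {y : Finset Pg7 → ZMod 2}
    (hy : ∀ S, Rw (wt 0 0 1) y S = ∏ q ∈ S, aa q) (S : Finset Pg7) :
    Rt B (LT 0 0 1 S / (2 ^ (S.card + 1) * Complex.I)) (y S) := by
  refine RES hB (w := wt 0 0 1) (y := y) (Z := fun T => LT 0 0 1 T / (2 ^ (T.card + 1) * Complex.I))
    (R := fun S => RH 0 0 1 ee (iv S) S / Complex.I)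
    (c := fun T q => (MP_1a91b9_ntQ.em q.1 - Yc 0 0 1 T q.1) / 2) (fun T q hq => ?_)
    (fun S => REL' 0 0 1 Complex.I_ne_zero S (iv_f0 S)) (fun S => ?_) S
  · rw [Yc_prime 0 0 1 hr hq]
    exact Rt_half hB q _
  · rw [hy]
    exact R_two hB S

theorem Rt_M2 (hB : te ∉ B) (hr : RecL) {y : Finset Pg7 → ZMod 2}
    (hy : ∀ S, Rw (wt 0 0 1) y S = ∏ q ∈ S, aa q) (S T : Finset Pg7) :
    Rt B (M2 S T) ((∏ q ∈ S \ T, (wt 0 0 1 q + sT T q)) * y T) := by
  have h2 := two_notMem hB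
  refine (Rt.prod h2 _ fun q hq => ?_).mul h2 (LT_two hB hr hy T)
  rw [Yc_prime 0 0 1 hr (Finset.mem_sdiff.1 hq).2]
  exact Rt_half hB q _

/-- **the residue of `Rho S`** -/
theorem Rho_res (hB : te ∉ B) (hr : RecL) (hA : SupA) {y : Finset Pg7 → ZMod 2}
    (hy : ∀ S, Rw (wt 0 0 1) y S = ∏ q ∈ S, aa q) (S : Finset Pg7) :
    Rt B (Rho S) (Rw (wt 0 0 1) (fun T => (1 + B1 T) * y T) S) := by
  have h2 := two_notMem hB
  have hzt := v_zt_lt hB
  have hz0 := zt_ne0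
  have hzab := zt_mul_ab
  obtain ⟨n, -, hn⟩ := VS_one S (tb ^ 3) fun q _ h => q_not_tbA q (q.prime.dvd_of_dvd_pow h)
  have hU := sum_M2 S
  have hU' := sum_M2' hA S
  -- the sums of `eta`
  set H : ℂ := VS S (tb ^ 3) fun x => eta (w2 S x) with hH
  set H' : ℂ := VS S (tb ^ 3) fun x => eta (zt * w2 S x) with hH'
  set Q : ℂ := VS S (tb ^ 3) fun x => eta (w2 S x) ^ 2 with hQ
  have e1 : (VS S (tb ^ 3) fun x => Complex.I * hh (w2 S x)) = n + zt * H := by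
    rw [← hn, hH, ← VS_mul_left, ← VS_add]
    exact VS_congr fun x => Ihh
  have e2 : (VS S (tb ^ 3) fun x => Complex.I * hh (zt * w2 S x)) = n + zt * H' := by
    rw [← hn, hH', ← VS_mul_left, ← VS_add]
    exact VS_congr fun x => Ihh
  -- the half sum
  set P : ℂ := ∑ T ∈ S.powerset, ((1 + ((sg2 (B1 T) : ℤ) : ℂ)) / 2) * M2 S T with hP
  have e3 : zt * (H + H') = zt * (ab * (P - n)) := by
    have e4 : 2 * P = ∑ T ∈ S.powerset, M2 S T + ∑ T ∈ S.powerset, ((sg2 (B1 T) : ℤ) : ℂ) * M2 S T := by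
      rw [hP, Finset.mul_sum, ← Finset.sum_add_distrib]
      exact Finset.sum_congr rfl fun T _ => by ring
    rw [hU, hU', e1, e2] at e4
    linear_combination -e4 - (P - n) * hzab
  have e5 : H + H' = ab * (P - n) := mul_left_cancel₀ hz0 e3
  -- congruences
  have hη : ∀ x : 𝓞 K, B.valuation (eta (w2 S x)) ≤ 1 := fun x => v_eta hB (w2_og S x) (w2_ogb S x)
  have c1 : B.valuation (H' - (Q + n)) < 1 := by
    have e6 : Q + n = VS S (tb ^ 3) fun x => eta (w2 S x) ^ 2 + 1 := by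
      rw [← hn, hQ, ← VS_add]
    rw [e6, hH']
    exact VS_v_sub fun x _ => eta_frob hB (w2_og S x) (w2_ogb S x)
  have c2 : B.valuation (Rho S - (Q + H)) < 1 := by
    have k1 := Rho_cg hB (S := S) (w := tb ^ 3) (c := tb) (γ := iv S) 0 0 (fun q _ => by
      have h5 := ch_pm q (q_not_tbA q)
      have e : (tb : 𝓞 K) ^ 3 = ta ^ 0 * tb ^ 3 := by ring
      rw [e, ch_ta_pow, pow_zero, one_mul, pow_succ, h5, one_mul]) (fun q _ => q_not_tbA q)
      ((pow_dvd_pow _ (by norm_num)).trans (iv_spec S))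
    have e6 : Q + H = VS S (tb ^ 3) fun x => eta (w2 S x) ^ 2 + eta (w2 S x) := by
      rw [hQ, hH, ← VS_add]
    have k2 : B.valuation ((VS S (tb ^ 3) fun x => xi (MP_1a91b9_ntQ.em (tb * x) / MP_1a91b9_ntQ.em (DD S) + MP_1a91b9_ntQ.em 0 / zt ^ 0 +
        MP_1a91b9_ntQ.em (iv S) / ab ^ 2)) - (Q + H)) < 1 := by
      rw [e6]
      refine VS_v_sub fun x _ => ?_
      rw [← ab_w2]
      have k3 := eta_eq (nm_2 (w2_og S x).two).2
      have k4 := v_xi hB (w2_ogb S x)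
      have e7 : xi (ab * w2 S x) - (eta (w2 S x) ^ 2 + eta (w2 S x)) =
          (2 + zt) * xi (ab * w2 S x) - zt * 1 - zt * eta (w2 S x) := by
        have h9 : ab = 1 - zt := rfl
        linear_combination -k3 + (xi (ab * w2 S x)) * ab_sq' + eta (w2 S x) * h9 - 2 * xi (ab * w2 S x) * ab_sq'
      rw [e7]
      refine Valuation.map_sub_lt _ (Valuation.map_sub_lt _ ?_ ?_) ?_
      · rw [map_mul, k4, mul_one]
        exact Valuation.map_add_lt _ (two_lt h2) hzt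
      · rw [mul_one]
        exact hzt
      · rw [map_mul]
        exact mul_lt_one_of_lt_of_le hzt (hη x)
    have e8 : Rho S - (Q + H) = -((VS S (tb ^ 3) fun x => xi (MP_1a91b9_ntQ.em (tb * x) / MP_1a91b9_ntQ.em (DD S) + MP_1a91b9_ntQ.em 0 / zt ^ 0 +
        MP_1a91b9_ntQ.em (iv S) / ab ^ 2)) - Rho S) + ((VS S (tb ^ 3) fun x => xi (MP_1a91b9_ntQ.em (tb * x) / MP_1a91b9_ntQ.em (DD S) +
        MP_1a91b9_ntQ.em 0 / zt ^ 0 + MP_1a91b9_ntQ.em (iv S) / ab ^ 2)) - (Q + H)) := by ring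
    rw [e8]
    exact Valuation.map_add_lt _ (by rwa [Valuation.map_neg]) k2
  -- the half sum modulo the place
  have c3 : Rt B P (Rw (wt 0 0 1) (fun T => (1 + B1 T) * y T) S) := by
    have h3 := Rt.sum h2 S.powerset (f := fun T => ((1 + ((sg2 (B1 T) : ℤ) : ℂ)) / 2) * M2 S T)
      (g := fun T => (1 + B1 T) * ((∏ q ∈ S \ T, (wt 0 0 1 q + sT T q)) * y T)) fun T _ => by
        refine Rt.mul h2 ?_ (Rt_M2 hB hr hy S T)
        have hi : ∀ i : ZMod 2, i = 0 ∨ i = 1 := by decide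
        rcases hi (B1 T) with h | h
        · rw [h, sg2_zero, add_zero]
          have e : (1 + ((1 : ℤ) : ℂ)) / 2 = 1 := by
            push_cast
            norm_num
          rw [e]
          exact Rt.one
        · rw [h, sg2_one]
          have e : (1 + ((-1 : ℤ) : ℂ)) / 2 = 0 := by
            push_cast
            norm_num
          have e2 : (1 + 1 : ZMod 2) = 0 := rfl
          rw [e, e2]
          exact Rt.zero
    have e9 : Rw (wt 0 0 1) (fun T => (1 + B1 T) * y T) S =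
        ∑ T ∈ S.powerset, (1 + B1 T) * ((∏ q ∈ S \ T, (wt 0 0 1 q + sT T q)) * y T) := by
      rw [Rw]
      exact Finset.sum_congr rfl fun T _ => by ring
    rw [e9]
    exact h3
  refine c3.congr ?_
  have hPle := c3.le
  have e10 : Rho S - P = (Rho S - (Q + H)) - (H' - (Q + n)) - 2 * n - zt * (P - n) := by
    have h9 : ab = 1 - zt := rfl
    linear_combination e5 + (P - n) * h9
  rw [e10]
  refine Valuation.map_sub_lt _ (Valuation.map_sub_lt _ (Valuation.map_sub_lt _ c2 c1) ?_) ?_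
  · rw [map_mul]
    exact mul_lt_one_of_lt_of_le (two_lt h2) (v_nat n)
  · rw [map_mul]
    exact mul_lt_one_of_lt_of_le hzt ((Valuation.map_sub _ _ _).trans (max_le hPle (v_nat n)))

/-- **the residues of the sums of the classes with even conductor at `a`** -/
theorem LT_rho (hB : te ∉ B) (hr : RecL) {d0 d1 d2 : ZMod 2} (hd : d1 = 1 ∨ d0 = d2)
    {r z : Finset Pg7 → ZMod 2} (hR : ∀ S, Rt B (Rho S) (r S)) (hz : ∀ S, Rw (wt d0 d1 d2) z S = r S)
    (S : Finset Pg7) : Rt B (LT d0 d1 d2 S / (2 ^ (S.card + 1) * Cc d1)) (z S) := by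
  choose α hα hα2 using fun S => R_rho hB hd S (hR S)
  refine RES hB (w := wt d0 d1 d2) (y := z) (Z := fun T => LT d0 d1 d2 T / (2 ^ (T.card + 1) * Cc d1))
    (R := fun S => RH d0 d1 d2 ee (α S) S / Cc d1)
    (c := fun T q => (MP_1a91b9_ntQ.em q.1 - Yc d0 d1 d2 T q.1) / 2) (fun T q hq => ?_)
    (fun S => REL' d0 d1 d2 (Cc_ne d1) S (hα S)) (fun S => ?_) S
  · rw [Yc_prime d0 d1 d2 hr hq]
    exact Rt_half hB q _
  · rw [hz]
    exact hα2 S

end

end Pool.Agent.Lib.MP_1a91b9_ntV
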