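import Pool.Agent.Lib.MP_1a91b9_ntV.A.Op7

/-!
# The field `ℚ(√-7)`: the sums over the square classes modulo `DD S`, congruences of the elliptic functions

`VS_one`: the number of the square classes modulo `2`. `eta_frob`: `eta (a z) = eta z ^ 2 + 1`. `g_pair`: the sum of two
values of `gg`.
-/

set_option autoImplicit false
set_option linter.unusedSectionVars false

namespace Pool.Agent.Lib.MP_1a91b9_ntV

open NumberField Pool.Agent.Lib.MP_1a91b9_nuT Pool.Agent.Lib.MP_1a91b9_nuT.S3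
  Pool.Agent.Lib.MP_1a91b9_nuT.Ell Pool.Agent.Lib.MP_1a91b9_ntQ

noncomputable section

variable [CD] [hv : V7]

section
variable {S : Finset Pg7} {w : 𝓞 K}

theorem VS_mul_left (c : ℂ) (F : 𝓞 K → ℂ) : VS S w (fun x => c * F x) = c * VS S w F := by
  classical
  rw [VS, VS, ← SM_mul_left (DD_ne S)]
  refine SM_congr fun x => ?_
  split_ifs <;> ring

theorem VS_add (F G : 𝓞 K → ℂ) : VS S w (fun x => F x + G x) = VS S w F + VS S w G := by
  classical
  rw [VS, VS, VS, ← SM_add (DD_ne S)]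
  refine SM_congr fun x => ?_
  split_ifs <;> ring

theorem VS_sub' (F G : 𝓞 K → ℂ) : VS S w (fun x => F x - G x) = VS S w F - VS S w G := by
  classical
  rw [VS, VS, VS, ← SM_sub (DD_ne S)]
  refine SM_congr fun x => ?_
  split_ifs <;> ring

theorem VS_neg' (F : 𝓞 K → ℂ) : VS S w (fun x => -F x) = -VS S w F := by
  have h := VS_mul_left (S := S) (w := w) (-1) F
  rw [neg_one_mul] at h
  rw [← h]
  exact VS_congr fun x => by ring

theorem VS_pd {F : 𝓞 K → ℂ} (hF : Pd (DD S) F) :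
    Pd (DD S) fun x => open Classical in if ∀ q ∈ S, ch q (w * x) = 1 then F x else 0 := by
  classical
  intro x y h
  dsimp only
  rw [hF x y h]
  exact if_congr (forall₂_congr fun q hq => by
    rw [ch_per q (x := w * x) (y := w * y)]
    rw [← mul_sub]
    exact ((Finset.dvd_prod_of_mem _ hq).trans h).mul_left _) rfl rfl

/-- the substitution by an element prime to `DD S` -/
theorem VS_sub {F : 𝓞 K → ℂ} (hF : Pd (DD S) F) {c : 𝓞 K} (hc : IsCoprime c (DD S)) :
    VS S (w * c) (fun x => F (c * x)) = VS S w F := by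
  classical
  rw [VS, VS, ← SM_mul (DD_ne S) (VS_pd hF) hc]
  refine SM_congr fun x => ?_
  rw [mul_assoc]

theorem VS_cl {w' : 𝓞 K} (h : ∀ q ∈ S, ch q w = ch q w') (F : 𝓞 K → ℂ) : VS S w F = VS S w' F := by
  classical
  rw [VS, VS]
  refine SM_congr fun x => ?_
  exact if_congr (forall₂_congr fun q hq => by rw [ch_mul, ch_mul, h q hq]) rfl rfl

/-- the square of an element prime to the primes does not change the classes -/
theorem VS_cl_sq {c : 𝓞 K} (h : ∀ q ∈ S, ¬ q.1 ∣ c) (F : 𝓞 K → ℂ) :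
    VS S (c ^ 2 * w) F = VS S w F := by
  refine VS_cl (fun q hq => ?_) F
  have := ch_sq (h q hq)
  rw [pow_two, ch_mul, ch_mul, ← pow_two, this, one_mul]

variable {B : ValuationSubring ℂ}

theorem VS_v_sub {F G : 𝓞 K → ℂ} (h : ∀ x, (∀ q ∈ S, ch q (w * x) = 1) → B.valuation (F x - G x) < 1) :
    B.valuation (VS S w F - VS S w G) < 1 := by
  classical
  rw [← VS_sub', VS]
  refine SM_v_lt (DD_ne S) one_ne_zero fun x => ?_
  split_ifs with h1
  · exact h x h1
  · rw [map_zero]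
    exact zero_lt_one

theorem VS_v_le {F : 𝓞 K → ℂ} (h : ∀ x, (∀ q ∈ S, ch q (w * x) = 1) → B.valuation (F x) ≤ 1) :
    B.valuation (VS S w F) ≤ 1 := by
  classical
  rw [VS]
  refine SM_v_le (DD_ne S) fun x => ?_
  split_ifs with h1
  · exact h x h1
  · rw [map_zero]
    exact zero_le_one

theorem VS_sq (hB : (2 : ℂ)⁻¹ ∉ B) {F : 𝓞 K → ℂ}
    (h : ∀ x, (∀ q ∈ S, ch q (w * x) = 1) → B.valuation (F x) ≤ 1) :
    B.valuation (VS S w F ^ 2 - VS S w fun x => F x ^ 2) < 1 := by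
  classical
  have h1 := SM_sq hB (DD_ne S) (F := fun x => if ∀ q ∈ S, ch q (w * x) = 1 then F x else 0)
    (fun x => by
      split_ifs with h2
      · exact h x h2
      · rw [map_zero]
        exact zero_le_one)
  have e : (SM (DD S) fun x => (if ∀ q ∈ S, ch q (w * x) = 1 then F x else 0) ^ 2) =
      VS S w fun x => F x ^ 2 := by
    rw [VS]
    refine SM_congr fun x => ?_
    split_ifs
    · rfl
    · ring
  rw [e] at h1
  exact h1

end

/-! ### the number of the square classes -/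

theorem SM_quot (q : Pg7) (f : 𝓞 K ⧸ q.I → ℂ) :
    SM q.1 (fun x => f (Ideal.Quotient.mk q.I x)) = ∑ a, f a := by
  rw [SM]
  change ∑ᶠ x : 𝓞 K ⧸ q.I, f (Ideal.Quotient.mk q.I x.out) = _
  have h : ∀ x : 𝓞 K ⧸ q.I, f (Ideal.Quotient.mk q.I x.out) = f x := fun x => by
    congr 1
    exact Quotient.out_eq x
  rw [finsum_congr h, finsum_eq_sum_of_fintype]

theorem VS_one_prime (q : Pg7) : ∃ n : ℕ, 2 * (n : ℤ) + 1 = Algebra.norm ℤ q.1 ∧
    ((n : ℕ) : ZMod 2) = aa q ∧
    (SM q.1 fun x => open Classical in if ch q x = 1 then (1 : ℂ) else 0) = n := by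
  classical
  have h1 : (SM q.1 fun x => if ch q x = 1 then (1 : ℂ) else 0) =
      ∑ a : 𝓞 K ⧸ q.I, if quadraticChar (𝓞 K ⧸ q.I) a = 1 then (1 : ℂ) else 0 :=
    SM_quot q fun a => if quadraticChar (𝓞 K ⧸ q.I) a = 1 then (1 : ℂ) else 0
  set n : ℕ := (Finset.univ.filter fun a : 𝓞 K ⧸ q.I => quadraticChar (𝓞 K ⧸ q.I) a = 1).card with hn
  have hcard : 2 * (n : ℤ) + 1 = Algebra.norm ℤ q.1 := by
    have h2 : ∑ a : 𝓞 K ⧸ q.I, (quadraticChar (𝓞 K ⧸ q.I) a ^ 2 + quadraticChar (𝓞 K ⧸ q.I) a) =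
        2 * (n : ℤ) := by
      have h3 : ∀ a : 𝓞 K ⧸ q.I, quadraticChar (𝓞 K ⧸ q.I) a ^ 2 + quadraticChar (𝓞 K ⧸ q.I) a =
          2 * if quadraticChar (𝓞 K ⧸ q.I) a = 1 then 1 else 0 := by
        intro a
        by_cases ha : a = 0
        · rw [ha, quadraticChar_zero]
          decide
        · rcases quadraticChar_dichotomy ha with h | h <;> rw [h] <;> decide
      rw [Finset.sum_congr rfl fun a _ => h3 a, ← Finset.mul_sum, Finset.sum_boole]
    have h4 : ∑ a : 𝓞 K ⧸ q.I, quadraticChar (𝓞 K ⧸ q.I) a ^ 2 =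
        ((Fintype.card (𝓞 K ⧸ q.I) : ℕ) : ℤ) - 1 := by
      have h5 : ∀ a : 𝓞 K ⧸ q.I, quadraticChar (𝓞 K ⧸ q.I) a ^ 2 = 1 - if a = 0 then 1 else 0 := by
        intro a
        by_cases ha : a = 0
        · rw [ha, quadraticChar_zero]
          simp
        · rw [quadraticChar_sq_one ha, if_neg ha]
          ring
      rw [Finset.sum_congr rfl fun a _ => h5 a, Finset.sum_sub_distrib, Finset.sum_const,
        Finset.sum_ite_eq', Finset.card_univ, if_pos (Finset.mem_univ _), nsmul_eq_mul, mul_one]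
    rw [Finset.sum_add_distrib, h4, quadraticChar_sum_zero q.char_ne, add_zero, card_eq] at h2
    linarith
  refine ⟨n, hcard, ?_, ?_⟩
  · have h6 : ((2 * (n : ℤ) + 1 : ℤ) : ZMod 8) = ra q.1 * rb q.1 := by
      rw [← norm_mod, hcard]
    push_cast at h6
    have h7 : ((n : ℕ) : ZMod 2) = ZMod.castHom (by norm_num : 2 ∣ 8) (ZMod 2) (n : ZMod 8) := by
      rw [map_natCast]
    rw [h7, aa]
    have h8 := q.ra2
    have h9 := odd_rb q.not_tb
    revert h6 h8 h9
    generalize ra q.1 = u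
    generalize rb q.1 = v
    generalize (n : ZMod 8) = m
    revert u v m
    decide
  · rw [h1, Finset.sum_boole]

/-- the number of the squares modulo a prime -/
def nq (q : Pg7) : ℕ := (VS_one_prime q).choose

theorem nq_norm (q : Pg7) : 2 * (nq q : ℤ) + 1 = Algebra.norm ℤ q.1 := (VS_one_prime q).choose_spec.1

theorem nq_two (q : Pg7) : ((nq q : ℕ) : ZMod 2) = aa q := (VS_one_prime q).choose_spec.2.1

/-- the number of the square classes -/
theorem VS_prod (S : Finset Pg7) (w : 𝓞 K) (hw : ∀ q ∈ S, ¬ q.1 ∣ w) :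
    VS S w (fun _ => 1) = ∏ q ∈ S, (nq q : ℂ) := by
  classical
  induction S using Finset.induction_on with
  | empty =>
    have h1 : VS ∅ w (fun _ => 1) = SM 1 fun _ => (1 : ℂ) := by
      rw [VS, DD, Finset.prod_empty]
      exact SM_congr fun x => if_pos fun q hq => absurd hq (Finset.notMem_empty q)
    rw [h1, SM_one (fun _ _ _ => rfl)]
    simp
  | insert q S hq ih =>
    have hn2 := ih fun p hp => hw p (Finset.mem_insert_of_mem hp)
    have hm2 := (VS_one_prime q).choose_spec.2.2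
    rw [Finset.prod_insert hq]
    have hq0 := q.prime.ne_zero
    have hD0 := DD_ne S
    have hcop := DD_cop hq
    have e1 : VS (insert q S) w (fun _ => 1) = SM (q.1 * DD S) fun x =>
        (if ch q (w * x) = 1 then (1 : ℂ) else 0) * (if ∀ p ∈ S, ch p (w * x) = 1 then 1 else 0) := by
      rw [VS, DD_insert hq]
      refine SM_congr fun x => ?_
      have h2 : (∀ p ∈ insert q S, ch p (w * x) = 1) ↔
          ch q (w * x) = 1 ∧ ∀ p ∈ S, ch p (w * x) = 1 := by
        rw [Finset.forall_mem_insert]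
      rw [if_congr h2 rfl rfl]
      by_cases h3 : ch q (w * x) = 1 <;> by_cases h4 : ∀ p ∈ S, ch p (w * x) = 1 <;>
        simp [h3, h4]
    have hP1 : Pd q.1 fun x => if ch q (w * x) = 1 then (1 : ℂ) else 0 := by
      intro x y h
      dsimp only
      rw [ch_per q (x := w * x) (y := w * y)]
      rw [← mul_sub]
      exact h.mul_left _
    have hP2 : Pd (DD S) fun x => if ∀ p ∈ S, ch p (w * x) = 1 then (1 : ℂ) else 0 :=
      VS_pd (S := S) (w := w) (F := fun _ => 1) fun _ _ _ => rfl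
    have e2 : SM (q.1 * DD S) (fun x =>
        (if ch q (w * x) = 1 then (1 : ℂ) else 0) * (if ∀ p ∈ S, ch p (w * x) = 1 then 1 else 0)) =
        (SM q.1 fun x => if ch q (w * x) = 1 then (1 : ℂ) else 0) *
          (SM (DD S) fun x => if ∀ p ∈ S, ch p (w * x) = 1 then (1 : ℂ) else 0) := by
      have hP : Pd (q.1 * DD S) fun x =>
          (if ch q (w * x) = 1 then (1 : ℂ) else 0) * (if ∀ p ∈ S, ch p (w * x) = 1 then 1 else 0) :=
        Pd.mul (hP1.of_dvd (dvd_mul_right _ _)) (hP2.of_dvd (dvd_mul_left _ _))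
      rw [SM_crt hq0 hD0 hcop hP]
      have a1 : ∀ x y : 𝓞 K, (if ch q (w * (DD S * x + q.1 * y)) = 1 then (1 : ℂ) else 0) *
          (if ∀ p ∈ S, ch p (w * (DD S * x + q.1 * y)) = 1 then 1 else 0) =
          (if ch q (w * (DD S * x)) = 1 then (1 : ℂ) else 0) *
          (if ∀ p ∈ S, ch p (w * (q.1 * y)) = 1 then 1 else 0) := by
        intro x y
        have b1 := hP1 (DD S * x + q.1 * y) (DD S * x) ⟨y, by ring⟩
        have b2 := hP2 (DD S * x + q.1 * y) (q.1 * y) ⟨x, by ring⟩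
        dsimp only at b1 b2
        rw [b1, b2]
      rw [SM_congr fun x => SM_congr fun y => a1 x y]
      rw [SM_congr fun x => SM_mul_left hD0 _ _, SM_mul_right hq0]
      congr 1
      · exact SM_mul hq0 hP1 hcop.symm
      · exact SM_mul hD0 hP2 hcop
    rw [e1, e2]
    have e3 : (SM (DD S) fun x => if ∀ p ∈ S, ch p (w * x) = 1 then (1 : ℂ) else 0) =
      ∏ q ∈ S, (nq q : ℂ) := hn2
    have e4 : (SM q.1 fun x => if ch q (w * x) = 1 then (1 : ℂ) else 0) = (nq q : ℂ) := by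
      have h5 : Pd q.1 fun x => if ch q x = 1 then (1 : ℂ) else 0 := by
        intro x y h
        dsimp only
        rw [ch_per q h]
      rw [nq, ← hm2]
      exact SM_mul hq0 h5 (cop_iff.2 (hw q (Finset.mem_insert_self q S)))
    rw [e3, e4]

/-- the number of the square classes modulo `2` -/
theorem VS_one (S : Finset Pg7) (w : 𝓞 K) (hw : ∀ q ∈ S, ¬ q.1 ∣ w) :
    ∃ n : ℕ, ((n : ℕ) : ZMod 2) = ∏ q ∈ S, aa q ∧ VS S w (fun _ => 1) = n := by
  refine ⟨∏ q ∈ S, nq q, ?_, ?_⟩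
  · rw [Nat.cast_prod]
    exact Finset.prod_congr rfl fun q _ => nq_two q
  · rw [VS_prod S w hw, Nat.cast_prod]

/-! ### congruences -/

section
variable {B : ValuationSubring ℂ}

/-- the functions at the points with a denominator divisible by `ab²` -/
theorem Og_tb {M γ : 𝓞 K} (hM : M ≠ 0) (hMb : ¬ tb ∣ M) (hγ : ¬ tb ∣ γ) {y : ℂ} (hy : MP_1a91b9_ntQ.em M * y ∈ PP.lattice)
    {j : ℕ} (hj : 2 ≤ j) : Og (y + MP_1a91b9_ntQ.em γ / ab ^ j) := by
  have hab := ab_ne
  refine ⟨⟨M * tb ^ j, mul_ne_zero hM (tb_pow_ne j), ?_⟩, fun n h => ?_⟩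
  · have e : MP_1a91b9_ntQ.em (M * tb ^ j) * (y + MP_1a91b9_ntQ.em γ / ab ^ j) = MP_1a91b9_ntQ.em (tb ^ j) * (MP_1a91b9_ntQ.em M * y) + MP_1a91b9_ntQ.em (M * γ) := by
      rw [em_mul, em_mul, em_tb_pow]
      field_simp
    rw [e]
    exact add_mem (mul_mem (em_mem _) hy) (em_mem _)
  · obtain ⟨k, rfl⟩ : ∃ k, j = k + 2 := ⟨j - 2, by omega⟩
    have h1 : MP_1a91b9_ntQ.em (M * ta ^ n * γ) / MP_1a91b9_ntQ.em (tb ^ (k + 1)) ∈ PP.lattice := by
      have e : MP_1a91b9_ntQ.em (M * ta ^ n * γ) / MP_1a91b9_ntQ.em (tb ^ (k + 1)) =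
          MP_1a91b9_ntQ.em M * (zt ^ n * (ab * (y + MP_1a91b9_ntQ.em γ / ab ^ (k + 2)))) - MP_1a91b9_ntQ.em (ta ^ n) * (ab * (MP_1a91b9_ntQ.em M * y)) := by
        rw [em_mul, em_mul, em_ta_pow, em_tb_pow]
        field_simp
        ring
      rw [e]
      exact sub_mem (mul_mem (em_mem M) h) (mul_mem (em_mem _) (mul_mem ab_mem hy))
    have h2 := mem_div (tb_pow_ne (k + 1)) h1
    have h3 : tb ∣ M * ta ^ n * γ := (dvd_pow_self _ (by omega)).trans h2
    exact not_tb_mul (not_tb_mul hMb (fun h => tb_not_taA (tb_prime.dvd_of_dvd_pow h))) hγ h3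

/-- Frobenius on the Artin-Schreier function -/
theorem hh_zt {z : ℂ} (hz : 2 * z ∉ PP.lattice) :
    hh (zt * z) * ((xi z + zt ^ 2) * (1 + zt ^ 2 * xi z)) =
      hh z * (ab * ((xi z + zt ^ 2) * (1 + zt ^ 2 * xi z)) - zt * (1 + zt ^ 2 * xi z) -
        zt * xi z * (xi z + zt ^ 2)) := by
  have h1 := ee_two_a z
  have h2 := ee_two_a (z + tf)
  have e1 : ee (zt * (z + tf)) = ee (zt * z + tf) := by
    refine ee_cg ?_
    have e : zt * (z + tf) - (zt * z + tf) = zt * tf - tf := by ring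
    rw [e]
    exact zt_tf
  rw [e1] at h2
  have h3 : zt * hh (zt * z) = 2 * hh z + gg (z + tf) - gg z := by
    rw [hh, hh]
    linear_combination h1 - h2
  have h4 := gg_tr hz
  have h5 := gg_mul hz
  have h6 := hh_mul hz
  have h7 := crvX (nlE hz)
  have h8 : xx z = XX z - 1 := by rw [XX]; ring
  have hx := xx_ne hz
  have hX := XX_ne hz
  have hg := gg_ne hz
  rw [h8] at h5 hx
  have hz0 := zt_ne0
  have h9 := XX_eq z
  have hxi : xi z = -XX z / zt ^ 2 := rfl
  -- everything in terms of `hh z` and `XX z`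
  have h10 : gg z * (XX z - 1) = hh z * XX z := by rw [h5, h6]
  have h11 : hh z ^ 2 * XX z = (XX z - 1) * (XX z - zt ^ 4) := by
    apply mul_left_cancel₀ hX
    rw [← h6] at h7
    linear_combination h7
  have h12 : gg (z + tf) * (XX z - zt ^ 4) = hh z * zt ^ 4 := by
    apply mul_left_cancel₀ hg
    apply mul_left_cancel₀ hx
    linear_combination (XX z - 1) * (XX z - zt ^ 4) * h4 - zt ^ 4 * h11 - zt ^ 4 * hh z * h10
  have h13 : zt * hh (zt * z) * ((XX z - 1) * (XX z - zt ^ 4)) =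
      hh z * (2 * ((XX z - 1) * (XX z - zt ^ 4)) + zt ^ 4 * (XX z - 1) - XX z * (XX z - zt ^ 4)) := by
    rw [h3]
    linear_combination (XX z - 1) * h12 - (XX z - zt ^ 4) * h10
  rw [h9] at h13
  apply mul_left_cancel₀ (pow_ne_zero 3 hz0)
  have h14 := zt_mul_ab
  linear_combination h13 - (hh z * zt ^ 2 * (xi z + zt ^ 2) * (1 + zt ^ 2 * xi z)) * h14

theorem eta_frob (hB : te ∉ B) {z : ℂ} (hz : Og z) (hz' : Og (ab * z)) :
    B.valuation (eta (zt * z) - (eta z ^ 2 + 1)) < 1 := by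
  have h2 := two_notMem hB
  have h := hh_zt hz.two
  have hxi := v_xi hB hz
  have hxb := v_xi hB hz'
  have hzt := v_zt_lt hB
  have ha := Ihh (z := z)
  have hb := Ihh (z := zt * z)
  have hz0 := zt_ne0
  have hη := v_eta hB hz hz'
  have hxa := xi_ab hz.two
  have h6 := eta_eq (nm_2 hz.two).2
  have h4 : ab = 1 - zt := rfl
  have h14 := zt_mul_ab
  have hsq : B.valuation (zt ^ 2) < 1 := by
    rw [map_pow]
    exact pow_lt_one₀ zero_le hzt two_ne_zero
  -- the denominators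
  have hP : B.valuation ((xi z + zt ^ 2) * (1 + zt ^ 2 * xi z)) = 1 := by
    rw [map_mul, Valuation.map_add_eq_of_lt_left _ (by rw [hxi]; exact hsq), hxi, one_mul,
      Valuation.map_add_eq_of_lt_left _ (by
        rw [map_mul, hxi, mul_one, map_one]
        exact hsq), map_one]
  -- the exact relation
  have key : eta (zt * z) * ((xi z + zt ^ 2) * (1 + zt ^ 2 * xi z)) =
      eta z * ((xi z + zt ^ 2) * (1 + zt ^ 2 * xi z)) - (1 + zt * eta z) *
      (((xi z + zt ^ 2) * (1 + zt ^ 2 * xi z)) + (1 + zt ^ 2 * xi z) + xi z * (xi z + zt ^ 2)) := by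
    apply mul_left_cancel₀ hz0
    have h3 : Complex.I * hh (zt * z) * ((xi z + zt ^ 2) * (1 + zt ^ 2 * xi z)) = Complex.I * hh z *
        (ab * ((xi z + zt ^ 2) * (1 + zt ^ 2 * xi z)) - zt * (1 + zt ^ 2 * xi z) -
          zt * xi z * (xi z + zt ^ 2)) := by
      linear_combination Complex.I * h
    rw [ha, hb, h4] at h3
    linear_combination h3
  generalize eta (zt * z) = e' at *
  generalize xi (ab * z) = xb at *
  generalize xi z = x at *
  generalize eta z = e at *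
  have key2 : (e' - (e ^ 2 + 1)) * ((x + zt ^ 2) * (1 + zt ^ 2 * x)) =
      zt * (((x + zt ^ 2) * (1 + zt ^ 2 * x)) * ((ab - 1) * e - 1 - ab) -
        zt * (1 + x ^ 2 + zt ^ 2 * x) * (ab ^ 2 * xb) - ab * (1 - x + x ^ 2 + zt ^ 2 * x) -
        e * (((x + zt ^ 2) * (1 + zt ^ 2 * x)) + (1 + zt ^ 2 * x) + x * (x + zt ^ 2))) := by
    linear_combination key - ((x + zt ^ 2) * (1 + zt ^ 2 * x)) * h6 - hxa -
      (e * ((x + zt ^ 2) * (1 + zt ^ 2 * x)) - ((x + zt ^ 2) * (1 + zt ^ 2 * x)) - 1 + x - x ^ 2 -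
        zt ^ 2 * x) * h14 + ((x + zt ^ 2) * (1 + zt ^ 2 * x)) * e * h4
  have h7 := congrArg B.valuation key2
  rw [map_mul, hP, mul_one, map_mul] at h7
  rw [h7]
  refine mul_lt_one_of_lt_of_le hzt ?_
  rw [B.valuation_le_one_iff]
  have mx : x ∈ B := (B.valuation_le_one_iff _).1 hxi.le
  have mb : xb ∈ B := (B.valuation_le_one_iff _).1 hxb.le
  have me : e ∈ B := (B.valuation_le_one_iff _).1 hη
  have mz : zt ∈ B := (B.valuation_le_one_iff _).1 hzt.le
  have ma : ab ∈ B := (B.valuation_le_one_iff _).1 (v_ab hB).le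
  have h1 : (1 : ℂ) ∈ B := B.one_mem
  have mP : (x + zt ^ 2) * (1 + zt ^ 2 * x) ∈ B := B.mul_mem _ _ (B.add_mem _ _ mx (pow_mem mz 2))
    (B.add_mem _ _ h1 (B.mul_mem _ _ (pow_mem mz 2) mx))
  refine B.sub_mem (B.sub_mem (B.sub_mem ?_ ?_) ?_) ?_
  · exact B.mul_mem _ _ mP (B.sub_mem (B.sub_mem (B.mul_mem _ _ (B.sub_mem ma h1) me) h1) ma)
  · exact B.mul_mem _ _ (B.mul_mem _ _ mz (B.add_mem _ _ (B.add_mem _ _ h1 (pow_mem mx 2))
      (B.mul_mem _ _ (pow_mem mz 2) mx))) (B.mul_mem _ _ (pow_mem ma 2) mb)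
  · exact B.mul_mem _ _ ma (B.add_mem _ _ (B.add_mem _ _ (B.sub_mem h1 mx) (pow_mem mx 2))
      (B.mul_mem _ _ (pow_mem mz 2) mx))
  · exact B.mul_mem _ _ me (B.add_mem _ _ (B.add_mem _ _ mP
      (B.add_mem _ _ h1 (B.mul_mem _ _ (pow_mem mz 2) mx)))
      (B.mul_mem _ _ mx (B.add_mem _ _ mx (pow_mem mz 2))))

/-! ### the sum of two values of `gg` -/

theorem XX_te_add {z : ℂ} (hz : 2 * z ∉ PP.lattice) : XX z + XX (z + te) = gg z ^ 2 + zt ^ 4 := by
  have h := P_two_a (nm_2 hz).1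
  have h2 := P_te' sg_sq
  rw [← O7] at h2
  have hO := O7_ne
  have h3 : xx z + xx (z + te) + 2 * zt = zt ^ 2 * (xx (zt * z) + zt) + zt := by
    have h4 := congrArg (fun x => x / O7 ^ 2) h
    simp only [add_div, mul_div_assoc] at h4
    rw [h2] at h4
    rw [xx, xx, xx]
    linear_combination h4
  rw [gg_sq (nm_2 hz).1, zt_four]
  have h6 : XX (z + te) = xx (z + te) + 1 := rfl
  have h7 : XX z = xx z + 1 := rfl
  have h8 : XX (zt * z) = xx (zt * z) + 1 := rfl
  rw [h6, h7, h8]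
  linear_combination h3 + zt * zt_sq

theorem XX_te_mul {z : ℂ} (hz : 2 * z ∉ PP.lattice) : XX z * XX (z + te) = gg z ^ 2 := by
  have h := XX_te_add hz
  have h2 := XX_zt hz
  have h3 := gg_sq (nm_2 hz).1
  have h4 : xx z = XX z - 1 := by rw [XX]; ring
  rw [h4, ← h3] at h2
  linear_combination XX z * h + h2

/-- a square root of `a⁵` -/
theorem exists_r5 : ∃ r : ℂ, r ^ 2 = zt ^ 5 := IsAlgClosed.exists_pow_nat_eq _ (n := 2) (by norm_num)

/-- a square root of `a⁵` -/
def r5 : ℂ := exists_r5.choose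

theorem r5_sq : r5 ^ 2 = zt ^ 5 := exists_r5.choose_spec

theorem r5_ne : r5 ≠ 0 := by
  intro h
  have := r5_sq
  rw [h] at this
  exact pow_ne_zero 5 zt_ne0 (by rw [← this]; ring)

/-- the sum or the difference of the values of `gg` at two points `w`, `w'` with `a w' = a w + 1 / a` -/
theorem g_pair (hB : te ∉ B) {w w' : ℂ} (hw : Og w) (hw' : Og w')
    (h : zt * w' - (zt * w + te) ∈ PP.lattice) {e : ℂ} (he : e ^ 2 = 1) :
    B.valuation ((gg w + e * gg w') / r5 - xi w) < 1 := by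
  have h2 := two_notMem hB
  have hz0 := zt_ne0
  have hQ := hw.mza
  have h3 := gg_sq (nm_2 hw.two).1
  have h4 := gg_sq (nm_2 hw'.two).1
  rw [XX_cg h] at h4
  have h5 := XX_te_mul hQ.two
  have h6 := XX_te_add hQ.two
  have h7 := GG_xi hB hQ
  have h8 := xi_frob hB hw
  have hG : gg (zt * w) = -(Complex.I * zt ^ 2 * GG (zt * w)) := by
    rw [GG]
    field_simp
    rw [Complex.I_sq]
    ring
  have hGle : B.valuation (GG (zt * w)) ≤ 1 := by
    have e1 : GG (zt * w) = (GG (zt * w) - xi (zt * w)) + xi (zt * w) := by ring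
    rw [e1]
    exact (Valuation.map_add _ _ _).trans (max_le h7.le (v_xi hB hQ).le)
  -- the product
  have h9 : ∃ s : ℂ, (s = 1 ∨ s = -1) ∧ e * (gg w * gg w') = s * (zt ^ 2 * gg (zt * w)) := by
    have h10 : (e * (gg w * gg w')) ^ 2 = (zt ^ 2 * gg (zt * w)) ^ 2 := by
      linear_combination (gg w * gg w') ^ 2 * he + gg w' ^ 2 * h3 + zt ^ 2 * XX (zt * w) * h4 +
        zt ^ 4 * h5
    rcases sq_eq_sq_iff_eq_or_eq_neg.1 h10 with h11 | h11
    · exact ⟨1, Or.inl rfl, by rw [h11, one_mul]⟩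
    · exact ⟨-1, Or.inr rfl, by rw [h11, neg_one_mul]⟩
  obtain ⟨s, hs, hse⟩ := h9
  have h10 : ((gg w + e * gg w') / r5) ^ 2 =
      zt * (1 - GG (zt * w) ^ 2) - s * Complex.I * ab * GG (zt * w) := by
    rw [div_pow, r5_sq, div_eq_iff (pow_ne_zero 5 hz0)]
    have h11 : gg (zt * w) ^ 2 = -(zt ^ 4 * GG (zt * w) ^ 2) := by
      rw [hG]
      linear_combination (zt ^ 4 * GG (zt * w) ^ 2) * Complex.I_sq
    have e1 : (gg w + e * gg w') ^ 2 = gg w ^ 2 + e ^ 2 * gg w' ^ 2 + 2 * (e * (gg w * gg w')) := by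
      ring
    rw [e1, he, one_mul, hse, h3, h4]
    have h12 := zt_mul_ab
    linear_combination zt ^ 2 * h6 + zt ^ 2 * h11 + 2 * s * zt ^ 2 * hG +
      (s * Complex.I * zt ^ 4 * GG (zt * w)) * h12
  refine v_sq_sub h2 (v_xi hB hw).le ?_
  have hI : B.valuation (Complex.I - 1) < 1 := by
    have := Rt_I h2
    unfold Rt at this
    rwa [ZMod.val_one, Nat.cast_one] at this
  have e2 : ((gg w + e * gg w') / r5) ^ 2 - xi w ^ 2 =
      zt * (1 - GG (zt * w) ^ 2) + zt * (s * Complex.I * GG (zt * w)) -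
        (s * (Complex.I - 1)) * GG (zt * w) - (s + 1) * GG (zt * w) +
        (GG (zt * w) - xi (zt * w)) + (xi (zt * w) - xi w ^ 2) := by
    rw [h10]
    have h12 : ab = 1 - zt := rfl
    rw [h12]
    ring
  have hs1 : B.valuation s = 1 := by
    rcases hs with rfl | rfl
    · exact map_one _
    · rw [Valuation.map_neg, map_one]
  have hs2 : B.valuation (s + 1) < 1 := by
    rcases hs with rfl | rfl
    · have : (1 : ℂ) + 1 = 2 := by norm_num
      rw [this]
      exact two_lt h2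
    · simp
  rw [e2]
  refine Valuation.map_add_lt _ (Valuation.map_add_lt _ (Valuation.map_sub_lt _
    (Valuation.map_sub_lt _ (Valuation.map_add_lt _ ?_ ?_) ?_) ?_) h7) h8
  · rw [map_mul]
    refine mul_lt_one_of_lt_of_le (v_zt_lt hB) ?_
    refine (Valuation.map_sub _ _ _).trans (max_le (map_one _).le ?_)
    rw [map_pow]
    exact pow_le_one₀ zero_le hGle
  · rw [map_mul, map_mul, map_mul, hs1, v_I, one_mul, one_mul]
    exact mul_lt_one_of_lt_of_le (v_zt_lt hB) hGle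
  · rw [map_mul, map_mul, hs1, one_mul]
    exact mul_lt_one_of_lt_of_le hI hGle
  · rw [map_mul]
    exact mul_lt_one_of_lt_of_le hs2 hGle

end

end

end Pool.Agent.Lib.MP_1a91b9_ntV
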